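import Mathlib

attribute [-instance] Subalgebra.normedCommRing Subalgebra.seminormedCommRing
  Subalgebra.seminormedRing Subalgebra.normedRing
  Localization.subalgebra.instIsFractionRingSubtypeMemSubalgebra
attribute [local instance 2000] RingHomClass.toAddMonoidHomClass AddMonoidHomClass.toAddHomClass
  RingHom.instRingHomClass AlgHomClass.toRingHomClass IsDomain.to_noZeroDivisors
  IsDomain.toNontrivial NeZero.one RingHomClass.toMonoidHomClass MonoidHomClass.toMulHomClass
  RingHomClass.toMonoidWithZeroHomClass AddMonoidHomClass.toZeroHomClass MonoidHomClass.toOneHomClass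
attribute [-instance] instCharZeroOfIsSemireal AlgHom.instContinuousLinearMapClassOfAlgHomClass
  RingHomClass.toLinearMapClassRat RingHomClass.toLinearMapClassNNRat NumberField.to_charZero

/-!
# Extension of derivations

Plans.  A derivation `d : R → F` over `j : R → F` is the same as an algebra map `R → TrivSqZeroExt F F`, `a ↦ inl (j a) + inr (d a)`.
`frac_ext`: `IsLocalization.lift` (an element of `TrivSqZeroExt F F` with nonzero `fst` is a unit, `TrivSqZeroExt.isUnit_iff_isUnit_fst`); `fst` of the lift is the identity (`IsLocalization.ringHom_ext`).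
`exists_der_ext`: make `F` an `F₀`-algebra through `π`, and `TrivSqZeroExt F F` (use a local `Algebra` instance, or a type synonym) an `F₀`-algebra through `a ↦ inl (π a) + inr (π (δ a))`.  Extend `x` to a transcendence basis
`x'` (`exists_isTranscendenceBasis_superset`, or `AlgebraicIndependent.exists_isTranscendenceBasis...`), map `P = MvPolynomial ι' F₀` by `aeval`; `F` is formally smooth over `P` (localisation, then separable algebraic:
`Algebra.FormallySmooth.of_isLocalization`, `Algebra.FormallyEtale.of_isSeparable`), so the identity of `F` lifts along `fst` (`Algebra.FormallySmooth.liftOfSurjective`, the kernel has square zero).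
`der_unique`: `D` vanishes on `Algebra.adjoin K (range t)`; if `Q a = 0` with `Q ≠ 0` over this ring of minimal degree then `Q' a * D a = 0` and `Q' a ≠ 0` (characteristic `0`).
`frame_card`, `frame_det`: take `∂ i` with `∂ i (t l) = if i = l then 1 else 0` (`exists_der_ext` with `F₀ = K`); `span` gives `C` with `∂ i = ∑ k, C i k δ k`, so `C * A = 1` with `A k i = δ k (t i)`; `der_unique` gives `δ k = ∑ i, A k i ∂ i`, so
`(A * C - 1) * B = 0` with `B k l = δ k (b l)` invertible; hence `A * C = 1`.  Traces (`Matrix.trace_mul_comm`) give `g = g'` in characteristic `0`.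
-/

namespace Pool.Agent.Work.MP_e120ef_ag

variable {K : Type} [Field K]

theorem Der_etale {S T : Type} [CommRing S] [CommRing T] [Algebra K S] [Algebra K T] [Algebra S T]
    [IsScalarTower K S T] [Algebra.FormallyEtale S T] (d : Derivation K S T) :
    ∃ D : Derivation K T T, ∀ a, D (algebraMap S T a) = d a := by
  have h := KaehlerDifferential.isBaseChange_of_formallyEtale K S T
  refine ⟨(h.lift d.liftKaehlerDifferential).compDer (KaehlerDifferential.D K T), fun a => ?_⟩
  have := h.lift_eq d.liftKaehlerDifferential (KaehlerDifferential.D K S a)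
  rw [KaehlerDifferential.map_D, Derivation.liftKaehlerDifferential_comp_D] at this
  exact this

theorem Der_unram {S T : Type} [CommRing S] [CommRing T] [Algebra K T] [Algebra S T]
    [Algebra.FormallyUnramified S T] (D : Derivation K T T) (h : ∀ a, D (algebraMap S T a) = 0) :
    D = 0 := by
  let D' : Derivation S T T := Derivation.mk'
    { toFun := D
      map_add' := D.map_add
      map_smul' := fun s x => by simp [Algebra.smul_def, h] } D.leibniz
  ext x
  have := D'.liftKaehlerDifferential_comp_D x
  rw [Subsingleton.elim (KaehlerDifferential.D S T x) 0, map_zero] at this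
  exact this.symm

theorem Der_of_hom {S F : Type} [CommRing S] [Field F] [Algebra K S] [Algebra K F] [Algebra S F]
    (φ : S →ₐ[K] TrivSqZeroExt F F) (h : ∀ a, (φ a).fst = algebraMap S F a) :
    ∃ d : Derivation K S F, ∀ a, d a = (φ a).snd :=
  ⟨Derivation.mk' (((TrivSqZeroExt.sndHom F F).restrictScalars K).comp φ.toLinearMap)
    fun a b => by simp [h, Algebra.smul_def, mul_comm], fun _ => rfl⟩

open scoped IntermediateField.algebraAdjoinAdjoin in
theorem Der_basis_etale [CharZero K] {F : Type} [Field F] [Algebra K F] {ι : Type} {t : ι → F}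
    (ht : IsTranscendenceBasis K t) :
    Algebra.FormallyEtale (Algebra.adjoin K (Set.range t)) F := by
  have := ht.isAlgebraic_field
  have : Algebra.FormallyEtale (Algebra.adjoin K (Set.range t))
      (IntermediateField.adjoin K (Set.range t)) := .of_isLocalization (nonZeroDivisors _)
  have : Algebra.FormallyEtale (IntermediateField.adjoin K (Set.range t)) F :=
    Algebra.FormallyEtale.of_isSeparable _ F
  exact .comp _ (IntermediateField.adjoin K (Set.range t)) _

theorem frac_ext {R F : Type} [CommRing R] [Field F] [Algebra K R] [Algebra K F] [Algebra R F]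
    [IsScalarTower K R F] [IsFractionRing R F] (d : Derivation K R R) :
    ∃ D : Derivation K F F, ∀ a, D (algebraMap R F a) = algebraMap R F (d a) := by
  have : Algebra.FormallyEtale R F := .of_isLocalization (nonZeroDivisors R)
  exact Der_etale ((Algebra.linearMap R F).compDer d)

variable [CharZero K] {F₀ F : Type} [Field F₀] [Field F] [Algebra K F₀] [Algebra K F]

theorem exists_der_ext (π : F₀ →ₐ[K] F) (δ : Derivation K F₀ F₀) {ι : Type} (x : ι → F)
    (hx : ∀ P : MvPolynomial ι F₀, MvPolynomial.eval₂ (π : F₀ →+* F) x P = 0 → P = 0) (v : ι → F) :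
    ∃ D : Derivation K F F, (∀ a, D (π a) = π (δ a)) ∧ ∀ i, D (x i) = v i := by
  classical
  let := π.toRingHom.toAlgebra
  have : IsScalarTower K F₀ F := .of_algebraMap_eq fun a => (π.commutes a).symm
  have : CharZero F₀ := charZero_of_injective_algebraMap (algebraMap K F₀).injective
  have hx' : AlgebraicIndependent F₀ x := algebraicIndependent_iff.2 hx
  obtain ⟨t, h1, ht⟩ := exists_isTranscendenceBasis_superset hx'.to_subtype_range
  have := Der_basis_etale ht
  let ψ : F₀ →ₐ[K] TrivSqZeroExt F F :=
    { toFun := fun a => TrivSqZeroExt.inl (π a) + TrivSqZeroExt.inr (π (δ a))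
      map_one' := by simp
      map_mul' := fun a b => by ext <;> simp [mul_comm]
      map_zero' := by simp
      map_add' := fun a b => by ext <;> simp
      commutes' := fun a => by simp [TrivSqZeroExt.algebraMap_eq_inl'] }
  let φ : MvPolynomial t F₀ →ₐ[K] TrivSqZeroExt F F := MvPolynomial.aevalTower ψ fun j =>
    TrivSqZeroExt.inl (j : F) + TrivSqZeroExt.inr (Function.extend x v 0 j)
  have hφ : ∀ P, (φ P).fst = MvPolynomial.aeval (fun j : t => (j : F)) P := fun P => by
    induction P using MvPolynomial.induction_on with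
    | C a => simp [φ, ψ, RingHom.algebraMap_toAlgebra]
    | add p q hp hq => simp [hp, hq]
    | mul_X p j hp => rw [map_mul, TrivSqZeroExt.fst_mul, hp]; simp [φ]
  obtain ⟨d, hd⟩ := Der_of_hom (φ.comp (ht.1.aevalEquiv.symm.toAlgHom.restrictScalars K))
    fun a => by
      obtain ⟨P, rfl⟩ := ht.1.aevalEquiv.surjective a
      simp [hφ]
  obtain ⟨D, hD⟩ := Der_etale d
  have key : ∀ P, D (MvPolynomial.aeval (fun j : t => (j : F)) P) = (φ P).snd := fun P => by
    have := hD (ht.1.aevalEquiv P)
    rw [hd, ht.1.algebraMap_aevalEquiv] at this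
    simpa using this
  refine ⟨D, fun a => ?_, fun i => ?_⟩
  · simpa [φ, ψ, RingHom.algebraMap_toAlgebra] using key (MvPolynomial.C a)
  · simpa [φ, hx'.injective.extend_apply] using key (MvPolynomial.X ⟨x i, h1 ⟨i, rfl⟩⟩)

theorem der_unique {ι : Type} {t : ι → F} (ht : IsTranscendenceBasis K t) (D : Derivation K F F)
    (h : ∀ i, D (t i) = 0) : D = 0 := by
  have := Der_basis_etale ht
  refine Der_unram (S := Algebra.adjoin K (Set.range t)) D fun a => ?_
  exact Derivation.eqOn_adjoin (D2 := 0) (by rintro _ ⟨i, rfl⟩; exact h i) a.2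

theorem Der_dual {g g' : ℕ} (δ : Fin g' → Derivation K F F)
    (span : ∀ D : Derivation K F F, ∃ c : Fin g' → F, ∀ a, D a = ∑ k, c k * δ k a)
    {t : Fin g → F} (ht : IsTranscendenceBasis K t) : ∃ C : Matrix (Fin g) (Fin g') F,
      C * (Matrix.of fun k i => δ k (t i)) = 1 ∧
      ∀ k a, δ k a = ∑ i, δ k (t i) * ∑ l, C i l * δ l a := by
  choose D _ hD using fun i : Fin g => exists_der_ext (Algebra.ofId K F) 0 t
    (algebraicIndependent_iff.1 ht.1) ((1 : Matrix (Fin g) (Fin g) F) i)
  choose c hc using fun i => span (D i)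
  refine ⟨Matrix.of c, Matrix.ext fun i l => ?_, fun k a => ?_⟩
  · rw [← hD, hc, Matrix.mul_apply]
    rfl
  · have hs : ∀ a, (∑ i, δ k (t i) • D i) a = ∑ i, δ k (t i) * D i a := fun a => by
      have := congrFun (map_sum Derivation.coeFnAddMonoidHom (fun i => δ k (t i) • D i)
        Finset.univ) a
      rw [Finset.sum_apply] at this
      exact this
    have := der_unique ht (δ k - ∑ i, δ k (t i) • D i) fun l => by
      simp [hs, hD, Matrix.one_apply]
    rw [sub_eq_zero] at this
    conv_lhs => rw [this]
    simp only [hs, hc, Matrix.of_apply]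

theorem frame_card {g g' : ℕ} (δ : Fin g' → Derivation K F F)
    (span : ∀ D : Derivation K F F, ∃ c : Fin g' → F, ∀ a, D a = ∑ k, c k * δ k a)
    (b : Fin g' → F) (hb : (Matrix.of fun k l => δ k (b l)).det ≠ 0) {t : Fin g → F}
    (ht : IsTranscendenceBasis K t) : g = g' := by
  obtain ⟨C, h1, h2⟩ := Der_dual δ span ht
  have : CharZero F := charZero_of_injective_algebraMap (algebraMap K F).injective
  have h3 : (Matrix.of fun k i => δ k (t i)) * C = 1 := by
    refine ((Matrix.isUnit_iff_isUnit_det _).2 (IsUnit.mk0 _ hb)).mul_right_cancel ?_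
    rw [one_mul, Matrix.mul_assoc]
    ext k l
    simp only [Matrix.mul_apply, Matrix.of_apply]
    exact (h2 k _).symm
  have h4 := Matrix.trace_mul_comm C (Matrix.of fun k i => δ k (t i))
  rw [h1, h3] at h4
  simpa using h4

theorem frame_det {g : ℕ} (δ : Fin g → Derivation K F F)
    (span : ∀ D : Derivation K F F, ∃ c : Fin g → F, ∀ a, D a = ∑ k, c k * δ k a)
    {t : Fin g → F} (ht : IsTranscendenceBasis K t) :
    (Matrix.of fun i k => δ k (t i)).det ≠ 0 := by
  obtain ⟨C, h1, -⟩ := Der_dual δ span ht
  rw [← Matrix.det_transpose]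
  exact Matrix.det_ne_zero_of_left_inverse h1

end Pool.Agent.Work.MP_e120ef_ag
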