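import Pool.Agent.Work.MP_e120ef_ag.Defs
import Mathlib
import Pool.Agent.Work.MP_e120ef_ag.Der

attribute [-instance] Subalgebra.normedCommRing Subalgebra.seminormedCommRing
  Subalgebra.seminormedRing Subalgebra.normedRing
  Localization.subalgebra.instIsFractionRingSubtypeMemSubalgebra
attribute [local instance 2000] RingHomClass.toAddMonoidHomClass AddMonoidHomClass.toAddHomClass
  RingHom.instRingHomClass AlgHomClass.toRingHomClass IsDomain.to_noZeroDivisors
  IsDomain.toNontrivial NeZero.one RingHomClass.toMonoidHomClass MonoidHomClass.toMulHomClass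
  RingHomClass.toMonoidWithZeroHomClass AddMonoidHomClass.toZeroHomClass MonoidHomClass.toOneHomClass
attribute [-instance] instCharZeroOfIsSemireal AlgHom.instContinuousLinearMapClassOfAlgHomClass
  RingHomClass.toLinearMapClassRat RingHomClass.toLinearMapClassNNRat NumberField.to_charZero

-- merged part: Pool.Agent.Work.MP_e120ef_ag.AuxA
section
-- merged part: Pool.Agent.Work.MP_e120ef_ag.Fn
section
/-!
# The function field model of an integral scheme over `k`

(`Fn`, `Aff`, `Pb`, `Grp` are copies of files written for `MP_e57da2_ag`.)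

`O X x` is the local ring at `x` inside the function field `Fn X`, `mp X x p` the `p`-th power of its maximal ideal,
`B X U` the ring of functions regular on `U`.
Useful: `Scheme.germToFunctionField_injective`, `germ_injective_of_isIntegral`, `TopCat.Presheaf.germ_exist`,
`TopCat.Presheaf.germ_stalkSpecializes`, `RingedSpace.isUnit_res_of_isUnit_germ`, `X.basicOpen`, `glueO`.
-/

open CategoryTheory Limits AlgebraicGeometry TopologicalSpace IsLocalRing

namespace Pool.Agent.Work.MP_e120ef_ag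


variable {k : Type} [Field k]

/-- restriction of functions -/
noncomputable def resO (X : Scheme.{0}) {V W : X.Opens} (h : V ≤ W) : Γ(X, W) →+* Γ(X, V) :=
  (X.presheaf.map (homOfLE h).op).hom

theorem glueO {X : Scheme.{0}} {U : X.Opens} {ι : Type} (V : ι → X.Opens) (hV : ∀ i, V i ≤ U)
    (hU : U ≤ iSup V) (s : ∀ i, Γ(X, V i))
    (hs : ∀ i j, resO X (inf_le_left : V i ⊓ V j ≤ V i) (s i) = resO X inf_le_right (s j)) :
    ∃ t : Γ(X, U), ∀ i, resO X (hV i) t = s i :=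
  (X.sheaf.existsUnique_gluing' V U (fun i => homOfLE (hV i)) hU s hs).exists

variable {X : Sch k} [IsIntegral X.left]

theorem toK_injective (x : X.left) : Function.Injective (toK X x) :=
  IsFractionRing.injective (X.left.presheaf.stalk x) X.left.functionField

theorem germ_injective {U : X.left.Opens} (h : gp X ∈ U) : Function.Injective (germ X U h) :=
  germ_injective_of_isIntegral X.left (gp X) h

theorem germ_res {U V : X.left.Opens} (hUV : U ≤ V) (h : gp X ∈ U) (s : Γ(X.left, V)) :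
    germ X U h (resO X.left hUV s) = germ X V (hUV h) s :=
  X.left.presheaf.germ_res_apply (homOfLE hUV) (gp X) h s

theorem algebraMap_eq (c : k) : algebraMap k (Fn X) c = germ X ⊤ trivial (cst X c) := rfl

variable (X)

/-- the stalk is the local ring -/
noncomputable def stalkEquiv (x : X.left) : X.left.presheaf.stalk x ≃+* O X x :=
  RingEquiv.ofBijective ((toK X x).codRestrict (O X x) fun a => ⟨a, rfl⟩)
    ⟨fun _ _ h => toK_injective x (congrArg Subtype.val h),
      fun ⟨_, a, ha⟩ => ⟨a, Subtype.ext ha⟩⟩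

instance (x : X.left) : IsLocalRing (O X x) := (stalkEquiv X x).isLocalRing

instance (x : X.left) [IsLocallyNoetherian X.left] : IsNoetherianRing (O X x) :=
  isNoetherianRing_of_ringEquiv _ (stalkEquiv X x)

/-- the `p`-th power of the maximal ideal at `x` -/
noncomputable def mp (x : X.left) (p : ℕ) : Submodule k (Fn X) :=
  ((maximalIdeal (O X x) ^ p).restrictScalars k).map (O X x).val.toLinearMap

/-- `h` is a unit at `x` -/
def IsU (x : X.left) (h : Fn X) : Prop := h ∈ O X x ∧ h ∉ mp X x 1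

/-- the functions regular on `U` -/
noncomputable def B (U : X.left.Opens) : Subalgebra k (Fn X) := ⨅ x ∈ U, O X x

variable {X} {x y : X.left} {U V : X.left.Opens} {a b h : Fn X} {p q : ℕ}

theorem mem_O : h ∈ O X x ↔ ∃ a, toK X x a = h := Iff.rfl

theorem coe_stalkEquiv (a : X.left.presheaf.stalk x) : (stalkEquiv X x a : Fn X) = toK X x a := rfl

theorem mem_B : h ∈ B X U ↔ ∀ x ∈ U, h ∈ O X x := by
  simp only [B, Algebra.mem_iInf]

theorem B_anti (hUV : U ≤ V) : B X V ≤ B X U := fun _ hh =>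
  mem_B.2 fun x hx => mem_B.1 hh x (hUV hx)

theorem B_le_O (hx : x ∈ U) : B X U ≤ O X x := fun _ hh => mem_B.1 hh x hx

theorem Fn_exists_germ (hx : x ∈ U) (hh : h ∈ O X x) :
    ∃ (W : X.left.Opens) (_ : W ≤ U) (hW : x ∈ W) (s : Γ(X.left, W)),
      germ X W (gp_mem hW) s = h := by
  obtain ⟨a, rfl⟩ := hh
  obtain ⟨W, hWU, hW, s, rfl⟩ := X.left.presheaf.exists_le_germ_eq a hx
  exact ⟨W, hWU, hW, s, (toK_germ hW s).symm⟩

theorem Fn_germ_mem_O (hx : x ∈ U) (s : Γ(X.left, U)) : germ X U (gp_mem hx) s ∈ O X x :=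
  ⟨_, toK_germ hx s⟩

theorem mem_B_iff_germ (hU : gp X ∈ U) : h ∈ B X U ↔ ∃ s, germ X U hU s = h := by
  constructor
  · intro hh
    choose W hWU hW s hs using fun x : U => Fn_exists_germ x.2 (mem_B.1 hh x x.2)
    obtain ⟨t, ht⟩ := glueO (X := X.left) W hWU
      (fun x hx => Opens.mem_iSup.2 ⟨⟨x, hx⟩, hW _⟩) s fun i j => by
        have hg : gp X ∈ W i ⊓ W j := ⟨gp_mem (hW i), gp_mem (hW j)⟩
        apply germ_injective hg
        rw [germ_res, germ_res, hs, hs]
    refine ⟨t, ?_⟩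
    rw [← hs ⟨_, hU⟩, ← ht, germ_res]
  · rintro ⟨s, rfl⟩
    exact mem_B.2 fun x hx => Fn_germ_mem_O hx s

theorem germ_mem_B (hU : gp X ∈ U) (s : Γ(X.left, U)) : germ X U hU s ∈ B X U :=
  (mem_B_iff_germ hU).2 ⟨s, rfl⟩

theorem Fn_toK_gp (a : X.left.presheaf.stalk (gp X)) : toK X (gp X) a = a := by
  have := X.left.presheaf.stalkSpecializes_refl (gp X)
  exact congrArg (fun f => f.hom a) this

theorem O_gp : O X (gp X) = ⊤ :=
  eq_top_iff.2 fun h _ => ⟨h, Fn_toK_gp h⟩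

theorem O_le_of_spec (hxy : x ⤳ y) : O X y ≤ O X x := fun _ hh => by
  obtain ⟨W, -, hW, s, rfl⟩ := Fn_exists_germ (U := ⊤) trivial hh
  exact Fn_germ_mem_O (hxy.mem_open W.isOpen hW) s

theorem mem_mp : h ∈ mp X x p ↔ ∃ a : O X x, a ∈ maximalIdeal (O X x) ^ p ∧ (a : Fn X) = h :=
  Iff.rfl

theorem coe_mem_mp (a : O X x) : (a : Fn X) ∈ mp X x p ↔ a ∈ maximalIdeal (O X x) ^ p := by
  rw [mem_mp]
  constructor
  · rintro ⟨b, hb, e⟩
    rwa [← Subtype.ext e]
  · exact fun ha => ⟨a, ha, rfl⟩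

theorem toK_mem_mp (a : X.left.presheaf.stalk x) :
    toK X x a ∈ mp X x p ↔ a ∈ maximalIdeal (X.left.presheaf.stalk x) ^ p := by
  rw [← coe_stalkEquiv, coe_mem_mp, ← IsLocalRing.map_ringEquiv_maximalIdeal (stalkEquiv X x),
    ← Ideal.map_pow, Ideal.apply_mem_of_equiv_iff]

theorem mem_O_of_mp (hh : h ∈ mp X x p) : h ∈ O X x := by
  obtain ⟨a, -, rfl⟩ := mem_mp.1 hh
  exact a.2

theorem mem_mp_zero : h ∈ mp X x 0 ↔ h ∈ O X x :=
  ⟨mem_O_of_mp, fun hh => mem_mp.2 ⟨⟨h, hh⟩, by simp, rfl⟩⟩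

theorem mp_anti (hpq : p ≤ q) : mp X x q ≤ mp X x p := fun _ hh => by
  obtain ⟨a, ha, rfl⟩ := mem_mp.1 hh
  exact mem_mp.2 ⟨a, Ideal.pow_le_pow_right hpq ha, rfl⟩

theorem mul_mem_mp (ha : a ∈ mp X x p) (hb : b ∈ mp X x q) : a * b ∈ mp X x (p + q) := by
  obtain ⟨a', ha', rfl⟩ := mem_mp.1 ha
  obtain ⟨b', hb', rfl⟩ := mem_mp.1 hb
  exact mem_mp.2 ⟨a' * b', by rw [pow_add]; exact Ideal.mul_mem_mul ha' hb', rfl⟩

theorem O_mul_mem_mp (ha : a ∈ O X x) (hb : b ∈ mp X x p) : a * b ∈ mp X x p := by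
  simpa using mul_mem_mp (mem_mp_zero.2 ha) hb

theorem Fn_coe_mem_mp_one (a : O X x) : (a : Fn X) ∈ mp X x 1 ↔ ¬ IsUnit a := by
  rw [coe_mem_mp, pow_one, mem_maximalIdeal, mem_nonunits_iff]

theorem Fn_isUnit_iff (a : O X x) : IsUnit a ↔ (a : Fn X) ≠ 0 ∧ (a : Fn X)⁻¹ ∈ O X x := by
  constructor
  · intro ha
    obtain ⟨b, hb⟩ := ha.exists_right_inv
    have e : (a : Fn X) * b = 1 := congrArg Subtype.val hb
    refine ⟨left_ne_zero_of_mul_eq_one e, ?_⟩
    rw [← eq_inv_of_mul_eq_one_right e]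
    exact b.2
  · rintro ⟨h0, hi⟩
    exact IsUnit.of_mul_eq_one ⟨_, hi⟩ (Subtype.ext (mul_inv_cancel₀ h0))

theorem one_notMem_mp : (1 : Fn X) ∉ mp X x 1 := fun h1 =>
  (Fn_coe_mem_mp_one (1 : O X x)).1 h1 isUnit_one

theorem mem_mp_or (ha : a ∈ O X x) (hb : b ∈ O X x) (hab : a * b ∈ mp X x 1) :
    a ∈ mp X x 1 ∨ b ∈ mp X x 1 := by
  have h1 := (Fn_coe_mem_mp_one ((⟨a, ha⟩ : O X x) * ⟨b, hb⟩)).1 hab
  by_contra hn
  rw [not_or] at hn
  exact h1 ((not_not.1 (mt (Fn_coe_mem_mp_one ⟨a, ha⟩).2 hn.1)).mul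
    (not_not.1 (mt (Fn_coe_mem_mp_one ⟨b, hb⟩).2 hn.2)))

theorem mem_mp_gp : h ∈ mp X (gp X) 1 ↔ h = 0 := by
  have hO : ∀ c : Fn X, c ∈ O X (gp X) := fun c => O_gp (X := X) ▸ Algebra.mem_top
  have h1 := Fn_coe_mem_mp_one (⟨h, hO h⟩ : O X (gp X))
  rw [Fn_isUnit_iff] at h1
  simpa [hO] using h1

theorem mem_mp_of_spec (hxy : x ⤳ y) (hh : h ∈ O X y) (h₁ : h ∈ mp X x 1) : h ∈ mp X y 1 := by
  refine (Fn_coe_mem_mp_one ⟨h, hh⟩).2 fun hu => ?_
  obtain ⟨h0, hi⟩ := (Fn_isUnit_iff _).1 hu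
  exact (Fn_coe_mem_mp_one ⟨h, O_le_of_spec hxy hh⟩).1 h₁
    ((Fn_isUnit_iff _).2 ⟨h0, O_le_of_spec hxy hi⟩)

theorem isU_iff : IsU X x h ↔ h ≠ 0 ∧ h ∈ O X x ∧ h⁻¹ ∈ O X x := by
  constructor
  · rintro ⟨h1, h2⟩
    obtain ⟨h0, hi⟩ := (Fn_isUnit_iff _).1 (not_not.1 (mt (Fn_coe_mem_mp_one ⟨h, h1⟩).2 h2))
    exact ⟨h0, h1, hi⟩
  · rintro ⟨h0, h1, hi⟩
    exact ⟨h1, fun h2 => (Fn_coe_mem_mp_one ⟨h, h1⟩).1 h2 ((Fn_isUnit_iff _).2 ⟨h0, hi⟩)⟩

theorem isU_coe (a : O X x) : IsU X x a ↔ IsUnit a := by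
  rw [isU_iff, Fn_isUnit_iff]
  exact ⟨fun h => ⟨h.1, h.2.2⟩, fun h => ⟨h.1, a.2, h.2⟩⟩

theorem IsU.ne_zero (ha : IsU X x a) : a ≠ 0 := (isU_iff.1 ha).1

theorem isU_one : IsU X x 1 := ⟨one_mem _, one_notMem_mp⟩

theorem IsU.mul (ha : IsU X x a) (hb : IsU X x b) : IsU X x (a * b) :=
  ⟨mul_mem ha.1 hb.1, fun h => (mem_mp_or ha.1 hb.1 h).elim ha.2 hb.2⟩

theorem IsU.inv (ha : IsU X x a) : IsU X x a⁻¹ := by
  obtain ⟨h0, h1, h2⟩ := isU_iff.1 ha
  exact isU_iff.2 ⟨inv_ne_zero h0, h2, by rwa [inv_inv]⟩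

theorem IsU.div (ha : IsU X x a) (hb : IsU X x b) : IsU X x (a / b) := by
  rw [div_eq_mul_inv]
  exact ha.mul hb.inv

theorem IsU.pow (ha : IsU X x a) (n : ℕ) : IsU X x (a ^ n) := by
  induction n with
  | zero => rw [pow_zero]; exact isU_one
  | succ n ih => rw [pow_succ]; exact ih.mul ha

theorem IsU.zpow (ha : IsU X x a) (n : ℤ) : IsU X x (a ^ n) := by
  obtain ⟨m, rfl | rfl⟩ := n.eq_nat_or_neg
  · rw [zpow_natCast]; exact ha.pow m
  · rw [zpow_neg, zpow_natCast]; exact (ha.pow m).inv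

theorem IsU.of_mul (ha : a ∈ O X x) (hb : b ∈ O X x) (hab : IsU X x (a * b)) :
    IsU X x a ∧ IsU X x b :=
  ⟨⟨ha, fun h => hab.2 (mul_comm b a ▸ O_mul_mem_mp hb h)⟩,
    ⟨hb, fun h => hab.2 (O_mul_mem_mp ha h)⟩⟩

theorem IsU.add_mp (ha : IsU X x a) (hb : b ∈ mp X x 1) : IsU X x (a + b) :=
  ⟨add_mem ha.1 (mem_O_of_mp hb), fun h => ha.2 (by simpa using sub_mem h hb)⟩

theorem IsU.of_spec (hxy : x ⤳ y) (ha : IsU X y a) : IsU X x a :=
  ⟨O_le_of_spec hxy ha.1, fun h => ha.2 (mem_mp_of_spec hxy ha.1 h)⟩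

theorem isU_gp : IsU X (gp X) h ↔ h ≠ 0 := by
  rw [IsU, mem_mp_gp, O_gp]
  simp

theorem isU_algebraMap {c : k} (hc : c ≠ 0) : IsU X x (algebraMap k (Fn X) c) := by
  refine isU_iff.2 ⟨(_root_.map_ne_zero _).2 hc, Subalgebra.algebraMap_mem _ _, ?_⟩
  rw [← map_inv₀]
  exact Subalgebra.algebraMap_mem _ _

theorem IsU.mul_mem_O_iff (ha : IsU X x a) : a * b ∈ O X x ↔ b ∈ O X x := by
  refine ⟨fun h => ?_, fun h => mul_mem ha.1 h⟩
  have := mul_mem ha.inv.1 h
  rwa [inv_mul_cancel_left₀ ha.ne_zero] at this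

theorem IsU.mul_mem_mp_iff (ha : IsU X x a) : a * b ∈ mp X x p ↔ b ∈ mp X x p := by
  refine ⟨fun h => ?_, fun h => O_mul_mem_mp ha.1 h⟩
  have := O_mul_mem_mp ha.inv.1 h
  rwa [inv_mul_cancel_left₀ ha.ne_zero] at this

theorem isOpen_O (h : Fn X) : IsOpen {x | h ∈ O X x} := by
  refine isOpen_iff_forall_mem_open.2 fun x hx => ?_
  obtain ⟨W, -, hW, s, rfl⟩ := Fn_exists_germ (U := ⊤) trivial hx
  exact ⟨W, fun y hy => Fn_germ_mem_O hy s, W.isOpen, hW⟩

theorem isOpen_isU (h : Fn X) : IsOpen {x | IsU X x h} := by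
  by_cases h0 : h = 0
  · have : {x | IsU X x h} = ∅ := Set.eq_empty_of_forall_notMem fun x hx => IsU.ne_zero hx h0
    rw [this]
    exact isOpen_empty
  · have : {x | IsU X x h} = {x | h ∈ O X x} ∩ {x | h⁻¹ ∈ O X x} := by
      ext x
      simp [isU_iff, h0]
    rw [this]
    exact (isOpen_O h).inter (isOpen_O h⁻¹)

/-- the open set where `h` is regular -/
def reg (h : Fn X) : X.left.Opens := ⟨{x | h ∈ O X x}, isOpen_O h⟩

/-- the open set where `h` is a unit -/
def ul (h : Fn X) : X.left.Opens := ⟨{x | IsU X x h}, isOpen_isU h⟩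

theorem mem_reg : x ∈ reg h ↔ h ∈ O X x := Iff.rfl

theorem mem_ul : x ∈ ul h ↔ IsU X x h := Iff.rfl

theorem basicOpen_eq (hU : gp X ∈ U) (s : Γ(X.left, U)) :
    X.left.basicOpen s = U ⊓ ul (germ X U hU s) := by
  have key : ∀ (x : X.left) (hx : x ∈ U),
      IsUnit (X.left.presheaf.germ U x hx s) ↔ IsU X x (germ X U hU s) := fun x hx => by
    rw [← toK_germ hx s, ← coe_stalkEquiv, isU_coe]
    exact (isUnit_map_iff (stalkEquiv X x) _).symm
  ext x
  constructor
  · intro hx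
    obtain ⟨hxU, hu⟩ := (X.left.mem_basicOpen'' s x).1 hx
    exact ⟨hxU, (key x hxU).1 hu⟩
  · rintro ⟨hxU, hu⟩
    exact (X.left.mem_basicOpen'' s x).2 ⟨hxU, (key x hxU).2 hu⟩

/-- the sections over `U` are the functions regular on `U` -/
noncomputable def secEquiv (hU : gp X ∈ U) : Γ(X.left, U) ≃+* B X U :=
  RingEquiv.ofBijective ((germ X U hU).codRestrict (B X U) (germ_mem_B hU))
    ⟨fun _ _ h => germ_injective hU (congrArg Subtype.val h),
      fun b => ((mem_B_iff_germ hU).1 b.2).imp fun _ ha => Subtype.ext ha⟩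

theorem coe_secEquiv (hU : gp X ∈ U) (s : Γ(X.left, U)) :
    (secEquiv hU s : Fn X) = germ X U hU s := rfl

end Pool.Agent.Work.MP_e120ef_ag
end

-- merged part: Pool.Agent.Work.MP_e120ef_ag.Aff
section
/-!
# The dictionary between an affine open set and its ring of functions

Transport along `secEquiv` and `stalkEquiv`.  Useful: `IsAffineOpen.isLocalization_stalk`, `IsAffineOpen.primeIdealOf`,
`IsAffineOpen.fromSpec`, `IsAffineOpen.isLocalization_basicOpen`, `IsAffineOpen.exists_basicOpen_le`,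
`IsAffineOpen.iSup_basicOpen_eq_self_iff`, `isAffineOpen_of_isAffineOpen_basicOpen`, `LocallyOfFiniteType.jacobsonSpace`,
`LocallyOfFiniteType.isLocallyNoetherian`, `IsAffineOpen.inf`, `basicOpen_eq`.
-/

open CategoryTheory Limits AlgebraicGeometry TopologicalSpace IsLocalRing

namespace Pool.Agent.Work.MP_e120ef_ag


variable {k : Type} [Field k] {X : Sch k}

section top

variable [IsProper X.hom]

instance sch_noeth : IsLocallyNoetherian X.left :=
  LocallyOfFiniteType.isLocallyNoetherian X.hom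

instance sch_compact : CompactSpace X.left :=
  QuasiCompact.compactSpace_of_compactSpace X.hom

instance sch_noethSpace : NoetherianSpace X.left :=
  haveI : IsNoetherian X.left := {}
  inferInstance

instance sch_jacobson : JacobsonSpace X.left :=
  haveI : JacobsonSpace (Spec (CommRingCat.of k)) := inferInstanceAs (JacobsonSpace (PrimeSpectrum k))
  LocallyOfFiniteType.jacobsonSpace X.hom

instance sch_sep : X.left.IsSeparated := by
  rw [Scheme.isSeparated_iff, ← terminal.comp_from X.hom]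
  infer_instance

theorem aff_inf {U V : X.left.Opens} (hU : IsAffineOpen U) (hV : IsAffineOpen V) :
    IsAffineOpen (U ⊓ V) :=
  hU.inf hV

theorem aff_finset_inf {ι : Type} {U : ι → X.left.Opens} (hU : ∀ i, IsAffineOpen (U i))
    {S : Finset ι} (hS : S.Nonempty) : IsAffineOpen (S.inf U) := by
  induction hS using Finset.Nonempty.cons_induction with
  | singleton a => simpa using hU a
  | cons a s _ _ ih =>
    rw [Finset.inf_cons]
    exact aff_inf (hU a) ih

theorem exists_closed_spec (x : X.left) : ∃ y, x ⤳ y ∧ IsClosed ({y} : Set X.left) := by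
  obtain ⟨y, hy, hc⟩ := (isClosed_closure (s := {x})).exists_closed_singleton
    ⟨x, subset_closure rfl⟩
  exact ⟨y, specializes_iff_mem_closure.2 hy, hc⟩

/-- every point of an open set specialises to a closed point in that open set -/
theorem exists_closed_spec_mem {U : X.left.Opens} {x : X.left} (hx : x ∈ U) :
    ∃ y ∈ U, x ⤳ y ∧ IsClosed ({y} : Set X.left) := by
  obtain ⟨y, ⟨h1, h2⟩, h3⟩ := nonempty_inter_closedPoints (Z := (U : Set X.left) ∩ closure {x})
    ⟨x, hx, subset_closure rfl⟩ (U.isOpen.isLocallyClosed.inter isClosed_closure.isLocallyClosed)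
  exact ⟨y, h1, specializes_iff_mem_closure.2 h2, h3⟩

theorem le_of_closed {U V : X.left.Opens}
    (h : ∀ x ∈ U, IsClosed ({x} : Set X.left) → x ∈ V) : U ≤ V := fun x hx => by
  obtain ⟨y, h1, h2, h3⟩ := exists_closed_spec_mem hx
  exact h2.mem_open V.isOpen (h y h1 h3)

end top

theorem exists_aff {W : X.left.Opens} {x : X.left} (hx : x ∈ W) :
    ∃ U : X.left.Opens, IsAffineOpen U ∧ x ∈ U ∧ U ≤ W :=
  exists_isAffineOpen_mem_and_subset hx

variable [IsIntegral X.left] {x y : X.left} {U V : X.left.Opens} {f h : Fn X} {p : ℕ}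

/-- the prime ideal of the point `x` -/
noncomputable def pr (hx : x ∈ U) : Ideal (B X U) :=
  (maximalIdeal (O X x)).comap (Subalgebra.inclusion (B_le_O hx))

theorem mem_pr (hx : x ∈ U) (b : B X U) : b ∈ pr hx ↔ (b : Fn X) ∈ mp X x 1 := by
  rw [pr, Ideal.mem_comap, ← pow_one (maximalIdeal (O X x)), ← coe_mem_mp]
  rfl

instance pr_prime (hx : x ∈ U) : (pr hx).IsPrime :=
  Ideal.IsPrime.comap _

theorem coe_mem_mp_of_pr (hx : x ∈ U) {b : B X U} (hb : b ∈ pr hx ^ p) : (b : Fn X) ∈ mp X x p :=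
  (coe_mem_mp (Subalgebra.inclusion (B_le_O hx) b)).2 (Ideal.le_comap_pow _ p hb)

theorem aff_bridge (hU : IsAffineOpen U) (hx : x ∈ U) (s : Γ(X.left, U)) :
    secEquiv (gp_mem hx) s ∈ pr hx ↔ s ∈ (hU.primeIdealOf ⟨x, hx⟩).asIdeal := by
  let := X.left.presheaf.algebra_section_stalk ⟨x, hx⟩
  have := hU.isLocalization_stalk ⟨x, hx⟩
  rw [mem_pr, coe_secEquiv, ← toK_germ hx, toK_mem_mp, pow_one]
  exact IsLocalization.AtPrime.to_map_mem_maximal_iff (X.left.presheaf.stalk x) _ s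

theorem aff_frac_aux (hU : IsAffineOpen U) (hx : x ∈ U) (hh : h ∈ O X x) :
    ∃ b ∈ B X U, IsU X x b ∧ b * h ∈ B X U := by
  let := X.left.presheaf.algebra_section_stalk ⟨x, hx⟩
  have := hU.isLocalization_stalk ⟨x, hx⟩
  obtain ⟨a, rfl⟩ := mem_O.1 hh
  obtain ⟨⟨r, s⟩, e⟩ := IsLocalization.surj (hU.primeIdealOf ⟨x, hx⟩).asIdeal.primeCompl a
  have e' := congrArg (toK X x) e
  have k1 : ∀ a : Γ(X.left, U), toK X x (algebraMap _ _ a) = germ X U (gp_mem hx) a := toK_germ hx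
  rw [map_mul, k1, k1] at e'
  refine ⟨_, germ_mem_B (gp_mem hx) s.1, ⟨B_le_O hx (germ_mem_B _ _), fun hs => s.2 ?_⟩, ?_⟩
  · exact (aff_bridge hU hx _).1 ((mem_pr hx _).2 hs)
  · rw [mul_comm, e']
    exact germ_mem_B _ _

theorem aff_isLocalization (hU : IsAffineOpen U) (hx : x ∈ U) :
    letI := (Subalgebra.inclusion (B_le_O hx)).toRingHom.toAlgebra
    IsLocalization.AtPrime (O X x) (pr hx) := by
  let := (Subalgebra.inclusion (B_le_O hx)).toRingHom.toAlgebra
  refine (isLocalization_iff _ _).2 ⟨fun y => ?_, fun z => ?_, fun {a b} hab => ⟨1, ?_⟩⟩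
  · exact (notMem_maximalIdeal (R := O X x)).1 y.2
  · obtain ⟨b, h1, h2, h3⟩ := aff_frac_aux hU hx z.2
    exact ⟨(⟨_, h3⟩, ⟨⟨b, h1⟩, fun hb => h2.2 ((mem_pr hx _).1 hb)⟩), Subtype.ext (mul_comm _ _)⟩
  · rw [Subalgebra.inclusion_injective (B_le_O hx) hab]

theorem aff_frac (hU : IsAffineOpen U) (hx : x ∈ U) (hh : h ∈ O X x) :
    ∃ b ∈ B X U, IsU X x b ∧ b * h ∈ B X U :=
  aff_frac_aux hU hx hh

theorem aff_frac_mp (hU : IsAffineOpen U) (hx : x ∈ U) (hh : h ∈ mp X x p) :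
    ∃ (a : B X U) (b : Fn X), a ∈ pr hx ^ p ∧ b ∈ B X U ∧ IsU X x b ∧ b * h = a := by
  let := (Subalgebra.inclusion (B_le_O hx)).toRingHom.toAlgebra
  have := aff_isLocalization hU hx
  obtain ⟨a, ha, rfl⟩ := mem_mp.1 hh
  rw [← IsLocalization.AtPrime.map_eq_maximalIdeal (pr hx) (O X x), ← Ideal.map_pow,
    IsLocalization.mem_map_algebraMap_iff (pr hx).primeCompl] at ha
  obtain ⟨⟨r, s⟩, e⟩ := ha
  exact ⟨r.1, s.1.1, r.2, s.1.2, ⟨B_le_O hx s.1.2, fun hs => s.2 ((mem_pr hx _).2 hs)⟩,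
    (mul_comm _ _).trans (congrArg Subtype.val e)⟩

theorem aff_frac_field (hU : IsAffineOpen U) (hg : gp X ∈ U) (h : Fn X) :
    ∃ b ∈ B X U, b ≠ 0 ∧ b * h ∈ B X U := by
  obtain ⟨b, h1, h2, h3⟩ := aff_frac (h := h) hU hg (by rw [O_gp]; trivial)
  exact ⟨b, h1, h2.ne_zero, h3⟩

theorem aff_point (hU : IsAffineOpen U) (hg : gp X ∈ U) (𝔮 : Ideal (B X U)) [𝔮.IsPrime] :
    ∃ (x : X.left) (hx : x ∈ U), pr hx = 𝔮 := by
  let P : PrimeSpectrum Γ(X.left, U) := ⟨𝔮.comap (secEquiv hg), Ideal.IsPrime.comap _⟩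
  have hx : hU.fromSpec P ∈ U := hU.range_fromSpec.subset ⟨P, rfl⟩
  have e : hU.primeIdealOf ⟨_, hx⟩ = P :=
    hU.fromSpec.isOpenEmbedding.injective (hU.fromSpec_primeIdealOf ⟨_, hx⟩)
  refine ⟨_, hx, Ideal.ext fun b => ?_⟩
  obtain ⟨s, rfl⟩ := (secEquiv hg).surjective b
  rw [aff_bridge hU hx, e]
  rfl

theorem aff_spec (hU : IsAffineOpen U) (hx : x ∈ U) (hy : y ∈ U) : x ⤳ y ↔ pr hx ≤ pr hy := by
  have h1 : x ⤳ y ↔ hU.primeIdealOf ⟨x, hx⟩ ⤳ hU.primeIdealOf ⟨y, hy⟩ := by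
    have := hU.fromSpec.isOpenEmbedding.isInducing.specializes_iff
      (x := hU.primeIdealOf ⟨x, hx⟩) (y := hU.primeIdealOf ⟨y, hy⟩)
    rwa [hU.fromSpec_primeIdealOf, hU.fromSpec_primeIdealOf] at this
  rw [h1, ← PrimeSpectrum.le_iff_specializes]
  refine ⟨fun h b hb => ?_, fun h s hs => (aff_bridge hU hy s).1 (h ((aff_bridge hU hx s).2 hs))⟩
  obtain ⟨s, rfl⟩ := (secEquiv (gp_mem hx)).surjective b
  exact (aff_bridge hU hy s).2 (h ((aff_bridge hU hx s).1 hb))

theorem pr_maximal (hU : IsAffineOpen U) (hx : x ∈ U) (hc : IsClosed ({x} : Set X.left)) :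
    (pr hx).IsMaximal := by
  obtain ⟨M, hM, hle⟩ := Ideal.exists_le_maximal _ (pr_prime hx).ne_top
  obtain ⟨y, hy, rfl⟩ := aff_point hU (gp_mem hx) M
  obtain rfl : y = x := ((aff_spec hU hx hy).2 hle).mem_closed hc rfl
  exact hM

theorem closed_of_pr_maximal [IsProper X.hom] (hU : IsAffineOpen U) (hx : x ∈ U)
    (hc : (pr hx).IsMaximal) : IsClosed ({x} : Set X.left) := by
  obtain ⟨y, hy, h1, h2⟩ := exists_closed_spec_mem hx
  have e := hc.eq_of_le (pr_prime hy).ne_top ((aff_spec hU hx hy).1 h1)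
  obtain rfl : x = y := ((aff_spec hU hy hx).2 e.ge).mem_closed h2 rfl
  exact h2

theorem mem_pr_pow (hU : IsAffineOpen U) (hx : x ∈ U) (hc : IsClosed ({x} : Set X.left))
    (b : B X U) : b ∈ pr hx ^ p ↔ (b : Fn X) ∈ mp X x p := by
  refine ⟨coe_mem_mp_of_pr hx, fun hb => ?_⟩
  have := pr_maximal hU hx hc
  obtain ⟨a, c, h1, h2, h3, h4⟩ := aff_frac_mp hU hx hb
  have e : (⟨c, h2⟩ : B X U) * b = a := Subtype.ext h4
  exact (Ideal.IsMaximal.mul_mem_pow _ (e ▸ h1)).resolve_left fun h => h3.2 ((mem_pr hx _).1 h)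

/-- jets at a closed point are jets of functions on an affine neighbourhood -/
theorem aff_jet (hU : IsAffineOpen U) (hx : x ∈ U) (hc : IsClosed ({x} : Set X.left))
    (hh : h ∈ O X x) (p : ℕ) : ∃ b ∈ B X U, h - b ∈ mp X x p := by
  have := pr_maximal hU hx hc
  obtain ⟨c, h1, h2, h3⟩ := aff_frac hU hx hh
  obtain ⟨y, i, hi, e⟩ := Ideal.IsMaximal.exists_inv_pow (pr hx) (x := ⟨c, h1⟩)
    (fun h => h2.2 ((mem_pr hx _).1 h)) p
  have e' : (y : Fn X) * c + i = 1 := congrArg Subtype.val e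
  refine ⟨y * (c * h), mul_mem y.2 h3, ?_⟩
  have e2 : h - y * (c * h) = h * i := by linear_combination (-h) * e'
  rw [e2]
  exact O_mul_mem_mp hh (coe_mem_mp_of_pr hx hi)

/-- a function vanishing at the closed point `x` and invertible at `y ≠ x` -/
theorem aff_separate (hU : IsAffineOpen U) (hx : x ∈ U) (hy : y ∈ U)
    (hc : IsClosed ({x} : Set X.left)) (hne : y ≠ x) : ∃ b ∈ B X U, b ∈ mp X x 1 ∧ IsU X y b := by
  have h1 : ¬ pr hx ≤ pr hy := fun h => hne (((aff_spec hU hx hy).2 h).mem_closed hc rfl)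
  obtain ⟨b, h2, h3⟩ := SetLike.not_le_iff_exists.1 h1
  exact ⟨b, b.2, (mem_pr hx b).1 h2, B_le_O hy b.2, fun h => h3 ((mem_pr hy b).2 h)⟩

theorem aff_finiteType [IsProper X.hom] (hU : IsAffineOpen U) (hg : gp X ∈ U) :
    Algebra.FiniteType k (B X U) := by
  have h1 := X.hom.finiteType_appLE (isAffineOpen_top _) hU le_top
  have h2 : (Scheme.ΓSpecIso (CommRingCat.of k)).inv.hom.FiniteType :=
    .of_surjective _ (Scheme.ΓSpecIso (CommRingCat.of k)).symm.commRingCatIsoToRingEquiv.surjective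
  have h3 := (RingHom.FiniteType.of_surjective _ (secEquiv hg).surjective).comp (h1.comp h2)
  rw [← RingHom.finiteType_algebraMap]
  convert h3 using 1
  exact RingHom.ext fun c => Subtype.ext (germ_res le_top hg (cst X c)).symm

theorem aff_noeth [IsProper X.hom] (hU : IsAffineOpen U) (hg : gp X ∈ U) :
    IsNoetherianRing (B X U) :=
  haveI := aff_finiteType hU hg
  Algebra.FiniteType.isNoetherianRing k _

theorem aff_basic (hU : IsAffineOpen U) (hf : f ∈ B X U) : IsAffineOpen (U ⊓ ul f) := by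
  by_cases hg : gp X ∈ U
  · obtain ⟨s, rfl⟩ := (mem_B_iff_germ hg).1 hf
    rw [← basicOpen_eq]
    exact hU.basicOpen s
  · rwa [inf_eq_left.2 fun x hx => absurd (gp_mem hx) hg]

theorem aff_exists_basic (hU : IsAffineOpen U) (hx : x ∈ U) (hV : x ∈ V) :
    ∃ f ∈ B X U, IsU X x f ∧ U ⊓ ul f ≤ V := by
  obtain ⟨s, h1, h2⟩ := hU.exists_basicOpen_le ⟨x, hV⟩ hx
  rw [basicOpen_eq (gp_mem hx)] at h1 h2
  exact ⟨_, germ_mem_B _ s, h2.2, h1⟩

theorem aff_ext (hU : IsAffineOpen U) (hf : f ∈ B X U) (hg : gp X ∈ U) (h0 : f ≠ 0)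
    (hh : h ∈ B X (U ⊓ ul f)) : ∃ n : ℕ, f ^ n * h ∈ B X U := by
  obtain ⟨s, rfl⟩ := (mem_B_iff_germ hg).1 hf
  have hg' : gp X ∈ X.left.basicOpen s := by
    rw [basicOpen_eq hg]
    exact ⟨hg, isU_gp.2 h0⟩
  rw [← basicOpen_eq] at hh
  obtain ⟨t, rfl⟩ := (mem_B_iff_germ hg').1 hh
  have := hU.isLocalization_basicOpen s
  obtain ⟨n, r, e⟩ := IsLocalization.Away.surj s t
  have e' := congrArg (germ X _ hg') e
  have k1 : ∀ a : Γ(X.left, U), germ X _ hg' (algebraMap _ _ a) = germ X U hg a := fun a =>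
    germ_res (X.left.basicOpen_le s) hg' a
  rw [map_mul, map_pow, k1, k1] at e'
  exact ⟨n, by rw [mul_comm, e']; exact germ_mem_B _ _⟩

/-- partition of unity -/
theorem aff_partition (hU : IsAffineOpen U) (hg : gp X ∈ U) (T : Set (Fn X))
    (hT : ∀ f ∈ T, f ∈ B X U) (h : ∀ x ∈ U, ∃ f ∈ T, IsU X x f) :
    ∃ (n : ℕ) (f b : Fin n → Fn X), (∀ l, f l ∈ T) ∧ (∀ l, b l ∈ B X U) ∧ ∑ l, b l * f l = 1 := by
  have h1 : Ideal.span {b : B X U | (b : Fn X) ∈ T} = ⊤ := by
    by_contra hne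
    obtain ⟨M, hM, hle⟩ := Ideal.exists_le_maximal _ hne
    obtain ⟨x, hx, rfl⟩ := aff_point hU hg M
    obtain ⟨f, hf, hu⟩ := h x hx
    exact hu.2 ((mem_pr hx ⟨f, hT f hf⟩).1 (hle (Ideal.subset_span hf)))
  obtain ⟨n, b, f, e⟩ := Submodule.mem_span_set'.1 ((Ideal.eq_top_iff_one _).1 h1)
  refine ⟨n, fun l => (f l).1, fun l => b l, fun l => (f l).2, fun l => (b l).2, ?_⟩
  simpa using congrArg Subtype.val e

theorem aff_of_partition {ι : Type} [Fintype ι] (hg : gp X ∈ U) (f b : ι → Fn X)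
    (hf : ∀ l, f l ∈ B X U) (hb : ∀ l, b l ∈ B X U) (h : ∑ l, b l * f l = 1)
    (ha : ∀ l, IsAffineOpen (U ⊓ ul (f l))) : IsAffineOpen U := by
  choose s hs using fun l => (mem_B_iff_germ hg).1 (hf l)
  choose t ht using fun l => (mem_B_iff_germ hg).1 (hb l)
  refine isAffineOpen_of_isAffineOpen_basicOpen U (Set.range s) ?_ ?_
  · have e : ∑ l, t l * s l = 1 := germ_injective hg (by simp [hs, ht, h])
    rw [Ideal.eq_top_iff_one, ← e]
    exact Ideal.sum_mem _ fun l _ => Ideal.mul_mem_left _ _ (Ideal.subset_span ⟨l, rfl⟩)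
  · rintro _ ⟨l, rfl⟩
    rw [basicOpen_eq hg, hs]
    exact ha l

/-- a function vanishing at all closed points of a nonempty open set vanishes -/
theorem eq_zero_of_closed [IsProper X.hom] (hg : gp X ∈ U)
    (hh : ∀ x ∈ U, IsClosed ({x} : Set X.left) → h ∈ mp X x 1) : h = 0 := by
  by_contra h0
  obtain ⟨y, hy, -, hc⟩ := exists_closed_spec_mem (U := U ⊓ ul h) ⟨hg, isU_gp.2 h0⟩
  exact hy.2.2 (hh y hy.1 hc)

end Pool.Agent.Work.MP_e120ef_ag
end

-- merged part: Pool.Agent.Work.MP_e120ef_ag.Pb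
section
/-!
# Pull-back of functions, and `k`-points

`pb φ h` is the pull-back of `h` when `h` is regular at the image of the generic point (and `0` otherwise).
Key lemma `pb_toK`: `Scheme.Hom.stalkSpecializes_stalkMap`.  Useful: `Scheme.Hom.germ_stalkMap`, `Scheme.Hom.stalkMap_comp`, `Over.w`,
`pointEquivClosedPoint`, `ext_of_apply_closedPoint_eq`, `residueFieldIsoBase`, `ext_of_isDominant`, `Scheme.fromSpecStalk`,
`IsFinite.finite_app`, `SurjectiveOnStalks`.
-/

open CategoryTheory Limits AlgebraicGeometry TopologicalSpace IsLocalRing MonoidalCategory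
  CartesianMonoidalCategory

namespace Pool.Agent.Work.MP_e120ef_ag


variable {k : Type} [Field k] {X Y Z : Sch k}

/-- the `k`-points -/
abbrev Pt (X : Sch k) := 𝟙_ (Sch k) ⟶ X

/-- the closed point underlying a `k`-point -/
noncomputable def pt (y : Pt X) : X.left :=
  y.left (show (𝟙_ (Sch k)).left from IsLocalRing.closedPoint k)

theorem Pb_subsingleton : Subsingleton (𝟙_ (Sch k)).left :=
  inferInstanceAs (Subsingleton (PrimeSpectrum k))

theorem Pb_integral : IsIntegral (𝟙_ (Sch k)).left :=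
  inferInstanceAs (IsIntegral (Spec (CommRingCat.of k)))

theorem pt_comp (y : Pt X) (φ : X ⟶ Y) : pt (y ≫ φ) = φ.left (pt y) := rfl

theorem comp_apply' (ψ : Z ⟶ Y) (φ : Y ⟶ X) (z : Z.left) : (ψ ≫ φ).left z = φ.left (ψ.left z) := rfl

theorem id_apply' (x : X.left) : (𝟙 X : X ⟶ X).left x = x := rfl

theorem const_apply (y : Pt X) (z : Z.left) : (toUnit Z ≫ y).left z = pt y := by
  have : Subsingleton (𝟙_ (Sch k)).left := Pb_subsingleton
  exact congrArg y.left (Subsingleton.elim _ _)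

theorem pt_closed [IsProper X.hom] (y : Pt X) : IsClosed ({pt y} : Set X.left) := by
  have : IsClosedImmersion y.left := isClosedImmersion_of_comp_eq_id X.hom y.left (Over.w y)
  have h := y.left.isClosedEmbedding.isClosed_range
  have : Subsingleton (𝟙_ (Sch k)).left := Pb_subsingleton
  have : Nonempty (𝟙_ (Sch k)).left := ⟨IsLocalRing.closedPoint k⟩
  rwa [Set.range_eq_singleton] at h
  exact fun x => congrArg y.left (Subsingleton.elim _ _)

theorem pt_injective [IsAlgClosed k] [IsProper X.hom] : Function.Injective (pt : Pt X → X.left) := fun y y' h =>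
  Over.OverMorphism.ext (ext_of_apply_closedPoint_eq X.hom (Over.w y) (Over.w y') h)

theorem exists_pt [IsAlgClosed k] [IsProper X.hom] {x : X.left} (hx : IsClosed ({x} : Set X.left)) :
    ∃ y : Pt X, pt y = x :=
  ⟨Over.homMk (pointOfClosedPoint X.hom x hx) (pointOfClosedPoint_comp X.hom x hx),
    pointOfClosedPoint_apply X.hom x hx _⟩

theorem closed_image [IsProper X.hom] [IsProper Y.hom] (φ : X ⟶ Y) : IsClosedMap φ.left := by
  have : IsProper (φ.left ≫ Y.hom) := by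
    rw [Over.w φ]
    infer_instance
  have : IsProper φ.left := IsProper.of_comp φ.left Y.hom
  exact φ.left.isClosedMap

variable [IsIntegral X.left] [IsIntegral Y.left] [IsIntegral Z.left]

open Classical in
/-- pull-back of a function regular at the image of the generic point -/
noncomputable def pb (φ : Y ⟶ X) (h : Fn X) : Fn Y :=
  if H : h ∈ O X (φ.left (gp Y)) then (φ.left.stalkMap (gp Y)).hom (mem_O.1 H).choose else 0

variable {φ : Y ⟶ X} {y : Y.left} {a b h : Fn X} {p : ℕ}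

omit [IsIntegral X.left] in
theorem spec_gp (φ : Y ⟶ X) (y : Y.left) : φ.left (gp Y) ⤳ φ.left y :=
  (gp_spec Y y).map φ.left.continuous

theorem O_le_gp (φ : Y ⟶ X) (y : Y.left) : O X (φ.left y) ≤ O X (φ.left (gp Y)) :=
  O_le_of_spec (spec_gp φ y)

theorem Pb_toK_spec {x x' : X.left} (h : x ⤳ x') (a : X.left.presheaf.stalk x') :
    toK X x ((X.left.presheaf.stalkSpecializes h).hom a) = toK X x' a :=
  congrArg (fun f => f.hom a) (X.left.presheaf.stalkSpecializes_comp (gp_spec X x) h)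

theorem pb_toK (φ : Y ⟶ X) (y : Y.left) (a : X.left.presheaf.stalk (φ.left y)) :
    pb φ (toK X (φ.left y) a) = toK Y y ((φ.left.stalkMap y).hom a) := by
  have e : toK X (φ.left (gp Y)) ((X.left.presheaf.stalkSpecializes (spec_gp φ y)).hom a) =
      toK X (φ.left y) a := Pb_toK_spec (spec_gp φ y) a
  have H : toK X (φ.left y) a ∈ O X (φ.left (gp Y)) := ⟨_, e⟩
  rw [pb, dif_pos H, toK_injective _ ((mem_O.1 H).choose_spec.trans e.symm)]
  exact φ.left.stalkSpecializes_stalkMap_apply (gp Y) y (gp_spec Y y) a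

theorem pb_germ {U : X.left.Opens} {V : Y.left.Opens} (hV : gp Y ∈ V) (e : V ≤ φ.left ⁻¹ᵁ U)
    (s : Γ(X.left, U)) :
    pb φ (germ X U (gp_mem (e hV)) s) = germ Y V hV ((φ.left.appLE U V e).hom s) := by
  rw [← toK_germ (x := φ.left (gp Y)) (U := U) (e hV) s, pb_toK]
  refine Eq.trans (congrArg (toK Y (gp Y)) (φ.left.germ_stalkMap_apply U (gp Y) (e hV) s)) ?_
  rw [toK_germ]
  exact (germ_res e hV _).symm

theorem Pb_germ_app {U : X.left.Opens} (hV : gp Y ∈ φ.left ⁻¹ᵁ U) (s : Γ(X.left, U)) :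
    pb φ (germ X U (gp_mem hV) s) = germ Y _ hV ((φ.left.app U).hom s) := by
  rw [φ.left.app_eq_appLE]
  exact pb_germ hV le_rfl s

theorem pb_mem_O (hh : h ∈ O X (φ.left y)) : pb φ h ∈ O Y y := by
  obtain ⟨a, rfl⟩ := mem_O.1 hh
  exact mem_O.2 ⟨_, (pb_toK φ y a).symm⟩

theorem pb_add (ha : a ∈ O X (φ.left y)) (hb : b ∈ O X (φ.left y)) :
    pb φ (a + b) = pb φ a + pb φ b := by
  obtain ⟨a, rfl⟩ := mem_O.1 ha
  obtain ⟨b, rfl⟩ := mem_O.1 hb
  rw [← map_add, pb_toK, pb_toK, pb_toK, map_add, map_add]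

theorem pb_mul (ha : a ∈ O X (φ.left y)) (hb : b ∈ O X (φ.left y)) :
    pb φ (a * b) = pb φ a * pb φ b := by
  obtain ⟨a, rfl⟩ := mem_O.1 ha
  obtain ⟨b, rfl⟩ := mem_O.1 hb
  rw [← map_mul, pb_toK, pb_toK, pb_toK, map_mul, map_mul]

theorem pb_algebraMap (φ : Y ⟶ X) (c : k) :
    pb φ (algebraMap k (Fn X) c) = algebraMap k (Fn Y) c := by
  rw [algebraMap_eq, algebraMap_eq]
  refine (pb_germ (φ := φ) (U := ⊤) (V := ⊤) trivial le_rfl (cst X c)).trans ?_
  congr 1
  have e : φ.left.appLE ⊤ ⊤ le_rfl = φ.left.appTop := φ.left.appLE_eq_app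
  rw [e, cst, cst, ← Over.w φ, Scheme.Hom.comp_appTop]
  rfl

theorem pb_one (φ : Y ⟶ X) : pb φ 1 = 1 := by simpa using pb_algebraMap φ 1

theorem pb_zero (φ : Y ⟶ X) : pb φ 0 = 0 := by simpa using pb_algebraMap φ 0

/-- the local homomorphism at `y` -/
noncomputable def pbA (φ : Y ⟶ X) (y : Y.left) : O X (φ.left y) →ₐ[k] O Y y where
  toFun a := ⟨pb φ a, pb_mem_O a.2⟩
  map_one' := Subtype.ext (pb_one φ)
  map_mul' a b := Subtype.ext (pb_mul a.2 b.2)
  map_zero' := Subtype.ext (pb_zero φ)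
  map_add' a b := Subtype.ext (pb_add a.2 b.2)
  commutes' c := Subtype.ext (pb_algebraMap φ c)

theorem coe_pbA (a : O X (φ.left y)) : (pbA φ y a : Fn Y) = pb φ a := rfl

theorem Pb_pbA_stalk (φ : Y ⟶ X) (y : Y.left) (a : X.left.presheaf.stalk (φ.left y)) :
    pbA φ y (stalkEquiv X (φ.left y) a) = stalkEquiv Y y ((φ.left.stalkMap y).hom a) :=
  Subtype.ext (pb_toK φ y a)

instance (φ : Y ⟶ X) (y : Y.left) : IsLocalHom (pbA φ y) := by
  refine ⟨fun a ha => ?_⟩
  obtain ⟨a, rfl⟩ := (stalkEquiv X (φ.left y)).surjective a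
  rw [Pb_pbA_stalk, MulEquiv.isUnit_map] at ha
  exact (IsUnit.of_map (φ.left.stalkMap y).hom a ha).map _

theorem pb_sub (ha : a ∈ O X (φ.left y)) (hb : b ∈ O X (φ.left y)) :
    pb φ (a - b) = pb φ a - pb φ b := by
  have h := congrArg Subtype.val (map_sub (pbA φ y) ⟨a, ha⟩ ⟨b, hb⟩)
  exact h

theorem pb_neg (φ : Y ⟶ X) (a : Fn X) : pb φ (-a) = -pb φ a := by
  by_cases ha : a ∈ O X (φ.left (gp Y))
  · exact congrArg Subtype.val (map_neg (pbA φ (gp Y)) ⟨a, ha⟩)
  · rw [pb, pb, dif_neg ha, dif_neg fun h => ha (neg_mem_iff.1 h), neg_zero]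

theorem pb_smul (ha : a ∈ O X (φ.left y)) (c : k) : pb φ (c • a) = c • pb φ a := by
  have h := congrArg Subtype.val (map_smul (pbA φ y) c ⟨a, ha⟩)
  exact h

theorem pb_pow (ha : a ∈ O X (φ.left y)) (n : ℕ) : pb φ (a ^ n) = pb φ a ^ n := by
  have h := congrArg Subtype.val (map_pow (pbA φ y) ⟨a, ha⟩ n)
  exact h

theorem pb_sum {ι : Type} (S : Finset ι) {f : ι → Fn X} (hf : ∀ i ∈ S, f i ∈ O X (φ.left y)) :
    pb φ (∑ i ∈ S, f i) = ∑ i ∈ S, pb φ (f i) := by
  classical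
  induction S using Finset.induction_on with
  | empty => simpa using pb_zero φ
  | insert i S hi ih =>
    have h1 : ∀ j ∈ S, f j ∈ O X (φ.left y) := fun j hj => hf j (Finset.mem_insert_of_mem hj)
    rw [Finset.sum_insert hi, Finset.sum_insert hi,
      pb_add (hf i (Finset.mem_insert_self i S)) (sum_mem h1), ih h1]

theorem pb_prod {ι : Type} (S : Finset ι) {f : ι → Fn X} (hf : ∀ i ∈ S, f i ∈ O X (φ.left y)) :
    pb φ (∏ i ∈ S, f i) = ∏ i ∈ S, pb φ (f i) := by
  classical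
  induction S using Finset.induction_on with
  | empty => simpa using pb_one φ
  | insert i S hi ih =>
    have h1 : ∀ j ∈ S, f j ∈ O X (φ.left y) := fun j hj => hf j (Finset.mem_insert_of_mem hj)
    rw [Finset.prod_insert hi, Finset.prod_insert hi,
      pb_mul (hf i (Finset.mem_insert_self i S)) (prod_mem h1), ih h1]

theorem pb_inv (ha : IsU X (φ.left y) a) : pb φ a⁻¹ = (pb φ a)⁻¹ := by
  refine eq_inv_of_mul_eq_one_right ?_
  rw [← pb_mul ha.1 ha.inv.1, mul_inv_cancel₀ ha.ne_zero, pb_one]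

theorem pb_div (ha : a ∈ O X (φ.left y)) (hb : IsU X (φ.left y) b) :
    pb φ (a / b) = pb φ a / pb φ b := by
  rw [div_eq_mul_inv, div_eq_mul_inv, pb_mul ha hb.inv.1, pb_inv hb]

theorem pb_mem_mp (hh : h ∈ mp X (φ.left y) p) : pb φ h ∈ mp Y y p := by
  obtain ⟨a, ha, rfl⟩ := mem_mp.1 hh
  refine (coe_mem_mp (pbA φ y a)).2 ?_
  have h1 : (maximalIdeal (O X (φ.left y))).map (pbA φ y) ≤ maximalIdeal (O Y y) :=
    Ideal.map_le_iff_le_comap.2 fun b hb => Ideal.mem_comap.2 fun hu =>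
      hb (IsUnit.of_map (pbA φ y) b hu)
  have h2 := Ideal.mem_map_of_mem (pbA φ y) ha
  rw [Ideal.map_pow] at h2
  exact Ideal.pow_right_mono h1 p h2

theorem pb_mem_mp_one (hh : h ∈ O X (φ.left y)) : pb φ h ∈ mp Y y 1 ↔ h ∈ mp X (φ.left y) 1 := by
  refine ⟨fun h1 => ?_, pb_mem_mp⟩
  by_contra h2
  exact ((isU_coe _).2 (((isU_coe ⟨h, hh⟩).1 ⟨hh, h2⟩).map (pbA φ y))).2 h1

theorem pb_isU (hh : h ∈ O X (φ.left y)) : IsU Y y (pb φ h) ↔ IsU X (φ.left y) h :=
  ⟨fun h1 => ⟨hh, fun h2 => h1.2 (pb_mem_mp h2)⟩,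
    fun h1 => ⟨pb_mem_O hh, fun h2 => h1.2 ((pb_mem_mp_one hh).1 h2)⟩⟩

theorem pb_eq_zero (hh : h ∈ O X (φ.left (gp Y))) : pb φ h = 0 ↔ h ∈ mp X (φ.left (gp Y)) 1 :=
  mem_mp_gp.symm.trans (pb_mem_mp_one hh)

theorem pb_comp (ψ : Z ⟶ Y) (hh : h ∈ O X ((ψ ≫ φ).left (gp Z))) :
    pb (ψ ≫ φ) h = pb ψ (pb φ h) := by
  obtain ⟨a, rfl⟩ := mem_O.1 hh
  refine (pb_toK (ψ ≫ φ) (gp Z) a).trans ?_
  refine Eq.trans ?_ (congrArg (pb ψ) (pb_toK φ (ψ.left (gp Z)) a)).symm
  rw [pb_toK]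
  exact congrArg (toK Z (gp Z))
    (congrArg (fun f => f.hom a) (Scheme.Hom.stalkMap_comp ψ.left φ.left (gp Z)))

theorem pb_id (h : Fn X) : pb (𝟙 X) h = h := by
  obtain ⟨a, rfl⟩ := mem_O.1 (show h ∈ O X (gp X) by rw [O_gp]; trivial)
  refine (pb_toK (𝟙 X) (gp X) a).trans ?_
  exact congrArg (toK X (gp X))
    (congrArg (fun f => f.hom a) (Scheme.Hom.stalkMap_id X.left (gp X)))

theorem pb_mem_B {U : X.left.Opens} {V : Y.left.Opens} (e : V ≤ φ.left ⁻¹ᵁ U) (hh : h ∈ B X U) :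
    pb φ h ∈ B Y V :=
  mem_B.2 fun _ hy => pb_mem_O (mem_B.1 hh _ (e hy))

theorem Pb_unit_surj [IsIntegral (𝟙_ (Sch k)).left] :
    Function.Surjective (algebraMap k (Fn (𝟙_ (Sch k)))) := fun h => by
  have : Subsingleton (𝟙_ (Sch k)).left := Pb_subsingleton
  have h1 : h ∈ B (𝟙_ (Sch k)) ⊤ := mem_B.2 fun x _ => by
    rw [Subsingleton.elim x (gp _), O_gp]
    trivial
  obtain ⟨s, rfl⟩ := (mem_B_iff_germ (U := ⊤) trivial).1 h1
  refine ⟨(Scheme.ΓSpecIso (CommRingCat.of k)).hom.hom s, ?_⟩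
  rw [algebraMap_eq]
  congr 1
  have e : (𝟙_ (Sch k)).hom.appTop = 𝟙 _ := Scheme.Hom.id_appTop
  rw [cst, e]
  exact (Scheme.ΓSpecIso (CommRingCat.of k)).hom_inv_id_apply s

/-- values at `k`-points -/
theorem exists_value (x : Pt X) (hh : h ∈ O X (pt x)) :
    ∃ c : k, h - algebraMap k (Fn X) c ∈ mp X (pt x) 1 := by
  have : IsIntegral (𝟙_ (Sch k)).left := Pb_integral
  obtain ⟨c, hc⟩ := Pb_unit_surj (k := k) (pb x h)
  have h1 : algebraMap k (Fn X) c ∈ O X (pt x) := (O X (pt x)).algebraMap_mem c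
  refine ⟨c, (pb_mem_mp_one (φ := x) (sub_mem hh h1)).1 ?_⟩
  rw [pb_sub (φ := x) hh h1, pb_algebraMap, hc, sub_self]
  exact zero_mem _

theorem pb_const (x : Pt X) {c : k} (hc : h - algebraMap k (Fn X) c ∈ mp X (pt x) 1) :
    pb (toUnit Y ≫ x) h = algebraMap k (Fn Y) c := by
  rw [← const_apply x (gp Y)] at hc
  have h1 := (O X ((toUnit Y ≫ x).left (gp Y))).algebraMap_mem c
  have h2 : h ∈ O X ((toUnit Y ≫ x).left (gp Y)) := by
    simpa using add_mem (mem_O_of_mp hc) h1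
  have h3 := (pb_eq_zero (mem_O_of_mp hc)).2 hc
  rwa [pb_sub h2 h1, pb_algebraMap, sub_eq_zero] at h3

theorem value_unique {x : X.left} {c : k} (hc : algebraMap k (Fn X) c ∈ mp X x 1) : c = 0 := by
  by_contra h0
  exact (isU_algebraMap h0).2 hc

/-- dominant morphisms -/
def Dom (φ : Y ⟶ X) : Prop := φ.left (gp Y) = gp X

theorem Dom.mem (hφ : Dom φ) (h : Fn X) : h ∈ O X (φ.left (gp Y)) := by
  rw [hφ, O_gp]
  trivial

/-- the map of function fields -/
noncomputable def pbF (hφ : Dom φ) : Fn X →ₐ[k] Fn Y where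
  toFun := pb φ
  map_one' := pb_one φ
  map_mul' a b := pb_mul (hφ.mem a) (hφ.mem b)
  map_zero' := pb_zero φ
  map_add' a b := pb_add (hφ.mem a) (hφ.mem b)
  commutes' := pb_algebraMap φ

theorem pbF_apply (hφ : Dom φ) (h : Fn X) : pbF hφ h = pb φ h := rfl

theorem pull_eq (φ : Y ⟶ X) [IsDominant φ.left] (h : Fn X) : pull φ h = pb φ h := by
  have e := pb_toK φ (gp Y) ((X.left.presheaf.stalkSpecializes (specializes_of_eq (dom_gp φ))).hom h)
  rw [Pb_toK_spec, Fn_toK_gp, Fn_toK_gp] at e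
  exact e.symm

theorem Dom.of_surjective (h : Function.Surjective φ.left) : Dom φ := by
  have h1 := (genericPoint_spec Y.left).image φ.left.continuous
  rw [Set.image_univ, h.range_eq, closure_univ] at h1
  exact h1.eq (genericPoint_spec X.left)

theorem Dom.comp {ψ : Z ⟶ Y} (hψ : Dom ψ) (hφ : Dom φ) : Dom (ψ ≫ φ) := by
  unfold Dom at *
  rw [comp_apply', hψ, hφ]

theorem dom_id : Dom (𝟙 X) := id_apply' _

theorem Dom.gp_mem (hφ : Dom φ) {U : X.left.Opens} (hU : gp X ∈ U) : gp Y ∈ φ.left ⁻¹ᵁ U := by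
  change φ.left (gp Y) ∈ U
  rwa [hφ]

/-- dominant morphisms are determined by the map of function fields -/
theorem Dom.ext [IsProper X.hom] {ψ : Y ⟶ X} (hφ : Dom φ) (hψ : Dom ψ)
    (h : ∀ a, pb φ a = pb ψ a) : φ = ψ := by
  have hd : IsDominant (Y.left.fromSpecStalk (gp Y)) := by
    refine ⟨Dense.mono ?_ (dense_iff_closure_eq.2 (genericPoint_spec Y.left))⟩
    rw [Scheme.range_fromSpecStalk]
    rintro _ rfl
    exact specializes_rfl
  have key : ∀ χ : Y ⟶ X, Dom χ → ∃ g : X.left.presheaf.stalk (gp X) ⟶ Y.left.presheaf.stalk (gp Y),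
      Y.left.fromSpecStalk (gp Y) ≫ χ.left = Spec.map g ≫ X.left.fromSpecStalk (gp X) ∧
        ∀ a, toK Y (gp Y) (g.hom a) = pb χ (toK X (gp X) a) := by
    intro χ hχ
    have hs : χ.left (gp Y) ⤳ gp X := specializes_of_eq hχ
    refine ⟨X.left.presheaf.stalkSpecializes hs ≫ χ.left.stalkMap (gp Y), ?_, fun a => ?_⟩
    · rw [Spec.map_comp, Category.assoc, Scheme.SpecMap_stalkSpecializes_fromSpecStalk,
        Scheme.SpecMap_stalkMap_fromSpecStalk]
    · rw [← Pb_toK_spec hs a, pb_toK]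
      rfl
  obtain ⟨g, hg, hg'⟩ := key φ hφ
  obtain ⟨g', he, he'⟩ := key ψ hψ
  have e : g = g' := by
    ext a
    exact toK_injective _ (by rw [hg', he', h])
  refine Over.OverMorphism.ext (ext_of_isDominant_of_isSeparated X.hom
    ((Over.w φ).trans (Over.w ψ).symm) (Y.left.fromSpecStalk (gp Y)) ?_)
  rw [hg, he, e]

/-- for a finite morphism the functions on the preimage of an affine open form a finite module -/
theorem finite_B [IsFinite φ.left] (hφ : Dom φ) {U : X.left.Opens} (hU : IsAffineOpen U)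
    (hg : gp X ∈ U) : ∃ s : Finset (Fn Y), (∀ v ∈ s, v ∈ B Y (φ.left ⁻¹ᵁ U)) ∧
      ∀ v ∈ B Y (φ.left ⁻¹ᵁ U), ∃ c : Fn Y → Fn X, (∀ w, c w ∈ B X U) ∧
        ∑ w ∈ s, pb φ (c w) * w = v := by
  classical
  have hV := hφ.gp_mem hg
  let := (φ.left.app U).hom.toAlgebra
  have hf : Module.Finite Γ(X.left, U) Γ(Y.left, φ.left ⁻¹ᵁ U) := φ.left.finite_app U hU
  obtain ⟨s, hs⟩ := hf.fg_top
  refine ⟨s.image (germ Y _ hV), fun v hv => ?_, fun v hv => ?_⟩
  · obtain ⟨w, -, rfl⟩ := Finset.mem_image.1 hv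
    exact germ_mem_B hV w
  obtain ⟨t, rfl⟩ := (mem_B_iff_germ hV).1 hv
  have ht : t ∈ Submodule.span Γ(X.left, U) (s : Set Γ(Y.left, φ.left ⁻¹ᵁ U)) := by
    rw [hs]
    trivial
  clear hv
  induction ht using Submodule.span_induction with
  | mem t ht =>
    refine ⟨fun w => if w = germ Y _ hV t then 1 else 0, fun w => ?_, ?_⟩
    · dsimp only
      split_ifs
      exacts [one_mem _, zero_mem _]
    · rw [Finset.sum_eq_single (germ Y _ hV t)]
      · dsimp only
        rw [if_pos rfl, pb_one, one_mul]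
      · intro w _ hw
        dsimp only
        rw [if_neg hw, pb_zero, zero_mul]
      · intro hw
        exact absurd (Finset.mem_image_of_mem _ ht) hw
  | zero => exact ⟨fun _ => 0, fun _ => zero_mem _, by simp [pb_zero]⟩
  | add t t' _ _ ih ih' =>
    obtain ⟨c, hc, e⟩ := ih
    obtain ⟨c', hc', e'⟩ := ih'
    refine ⟨fun w => c w + c' w, fun w => add_mem (hc w) (hc' w), ?_⟩
    rw [map_add, ← e, ← e', ← Finset.sum_add_distrib]
    exact Finset.sum_congr rfl fun w _ => by rw [pb_add (hφ.mem _) (hφ.mem _), add_mul]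
  | smul r t _ ih =>
    obtain ⟨c, hc, e⟩ := ih
    refine ⟨fun w => germ X U hg r * c w, fun w => mul_mem (germ_mem_B hg r) (hc w), ?_⟩
    have h1 : germ Y _ hV (r • t) = pb φ (germ X U hg r) * germ Y _ hV t := by
      rw [Pb_germ_app hV r, ← map_mul]
      rfl
    rw [h1, ← e, Finset.mul_sum]
    exact Finset.sum_congr rfl fun w _ => by rw [pb_mul (hφ.mem _) (hφ.mem _), mul_assoc]

theorem pbA_surjective [IsClosedImmersion φ.left] (y : Y.left) : Function.Surjective (pbA φ y) := fun b => by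
  obtain ⟨b, rfl⟩ := (stalkEquiv Y y).surjective b
  obtain ⟨a, rfl⟩ := φ.left.stalkMap_surjective y b
  exact ⟨_, Pb_pbA_stalk φ y a⟩

theorem pb_B_surjective [IsClosedImmersion φ.left] {U : X.left.Opens} (hU : IsAffineOpen U)
    (hg : gp Y ∈ φ.left ⁻¹ᵁ U) {v : Fn Y} (hv : v ∈ B Y (φ.left ⁻¹ᵁ U)) :
    ∃ h ∈ B X U, pb φ h = v := by
  obtain ⟨t, rfl⟩ := (mem_B_iff_germ hg).1 hv
  obtain ⟨r, rfl⟩ := φ.left.app_surjective U hU t
  exact ⟨_, germ_mem_B (gp_mem (x := φ.left (gp Y)) hg) r, Pb_germ_app hg r⟩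

end Pool.Agent.Work.MP_e120ef_ag
end

-- merged part: Pool.Agent.Work.MP_e120ef_ag.Grp
section
/-! Abelian varieties: translations. -/

open CategoryTheory Limits AlgebraicGeometry TopologicalSpace MonoidalCategory
  CartesianMonoidalCategory MonObj

namespace Pool.Agent.Work.MP_e120ef_ag

variable {k : Type} [Field k]

instance av_integral {X : Sch k} [GeometricallyIntegral X.hom] : IsIntegral X.left :=
  GeometricallyIntegral.isIntegral_of_subsingleton X.hom

theorem grp_dom_iso {X Y : Sch k} [IsIntegral X.left] [IsIntegral Y.left] (φ : Y ⟶ X) [IsIso φ] :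
    Dom φ :=
  Dom.of_surjective fun x => ⟨(inv φ).left x, by rw [← comp_apply', IsIso.inv_hom_id, id_apply']⟩

theorem grp_pb_inv {X Y : Sch k} [IsIntegral X.left] [IsIntegral Y.left] (φ : Y ⟶ X) [IsIso φ]
    (h : Fn X) : pb (inv φ) (pb φ h) = h := by
  rw [← pb_comp (inv φ) ((grp_dom_iso _).mem h), IsIso.inv_hom_id, pb_id]

theorem grp_inv_apply {X Y : Sch k} (φ : Y ⟶ X) [IsIso φ] (y : Y.left) :
    (inv φ).left (φ.left y) = y := by
  rw [← comp_apply', IsIso.hom_inv_id, id_apply']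

theorem grp_pb_mem_mp {X Y : Sch k} [IsIntegral X.left] [IsIntegral Y.left] (φ : Y ⟶ X) [IsIso φ]
    (y : Y.left) (h : Fn X) (p : ℕ) : pb φ h ∈ mp Y y p ↔ h ∈ mp X (φ.left y) p := by
  refine ⟨fun hh => ?_, pb_mem_mp⟩
  rw [← grp_pb_inv φ h]
  refine pb_mem_mp ?_
  rwa [grp_inv_apply]

variable {A : Sch k} [GrpObj A]

/-- Translation by the `k`-point `y`. -/
noncomputable def tr (y : Pt A) : A ⟶ A := 𝟙 A * (toUnit A ≫ y)

theorem comp_tr {T : Sch k} (f : T ⟶ A) (y : Pt A) : f ≫ tr y = f * (toUnit T ≫ y) := by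
  rw [tr, MonObj.comp_mul, Category.comp_id, ← Category.assoc, comp_toUnit]

theorem pt_comp_tr (x y : Pt A) : x ≫ tr y = x * y := by
  rw [comp_tr, toUnit_unit, Category.id_comp]

theorem tr_one : tr (1 : Pt A) = 𝟙 A := by
  rw [tr, MonObj.comp_one, _root_.mul_one]

theorem tr_mul (x y : Pt A) : tr (x * y) = tr x ≫ tr y := by
  rw [comp_tr, tr, tr, MonObj.comp_mul, _root_.mul_assoc]

instance (y : Pt A) : IsIso (tr y) :=
  ⟨tr y⁻¹, by rw [← tr_mul, mul_inv_cancel, tr_one], by rw [← tr_mul, inv_mul_cancel, tr_one]⟩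

theorem exists_tr (p q : Pt A) : ∃ y : Pt A, (tr y).left (pt q) = pt p :=
  ⟨q⁻¹ * p, by rw [← pt_comp, pt_comp_tr, mul_inv_cancel_left]⟩

variable [IsProper A.hom] [GeometricallyIntegral A.hom]

instance av_comm : IsCommMonObj A := isCommMonObj_of_isProper_of_geometricallyIntegral A

omit [IsProper A.hom] in
theorem dom_tr (y : Pt A) : Dom (tr y) := grp_dom_iso _

omit [IsProper A.hom] in
theorem pb_tr_mem_O (y : Pt A) (z : A.left) (h : Fn A) :
    pb (tr y) h ∈ O A z ↔ h ∈ O A ((tr y).left z) := by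
  rw [← mem_mp_zero, ← mem_mp_zero]
  exact grp_pb_mem_mp _ _ _ _

omit [IsProper A.hom] in
theorem pb_tr_mem_mp (y : Pt A) (z : A.left) (h : Fn A) (p : ℕ) :
    pb (tr y) h ∈ mp A z p ↔ h ∈ mp A ((tr y).left z) p := grp_pb_mem_mp _ _ _ _

end Pool.Agent.Work.MP_e120ef_ag
end

-- merged part: Pool.Agent.Work.MP_e120ef_ag.Geo
section
/-! Geometric definitions used in the proof. -/

open CategoryTheory AlgebraicGeometry

namespace Pool.Agent.Work.MP_e120ef_ag

variable {K : Type} [Field K] {X A : Sch K} [IsIntegral X.left] [IsIntegral A.left]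

/-- derivations of the function field -/
abbrev Dr (X : Sch K) [IsIntegral X.left] : Type := Derivation K (Fn X) (Fn X)

/-- the derivation is regular at `x` -/
def RegAt (D : Dr X) (x : X.left) : Prop := ∀ b ∈ O X x, D b ∈ O X x

/-- `t` is a uniformiser at `x` -/
def IsUnif (x : X.left) (t : Fn X) : Prop :=
  t ∈ mp X x 1 ∧ t ≠ 0 ∧ ∀ u : Fn X, u ≠ 0 → ∃ n : ℤ, IsU X x (u * t ^ n)

/-- the local ring at `x` is a discrete valuation ring -/
def IsDiv (x : X.left) : Prop := ∃ t, IsUnif x t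

/-- `z` has codimension at least two -/
def Cod2 (z : X.left) : Prop := ∃ d : X.left, d ≠ gp X ∧ d ≠ z ∧ d ⤳ z

/-- `η` lies in the closure of the leaf of `ξ` through `q` -/
def Leaf (ξ : Dr X) (η q : X.left) : Prop :=
  η ⤳ q ∧ ∀ a ∈ O X q, (∀ j, ξ^[j] a ∈ mp X q 1) → a ∈ mp X η 1

/-- `ξ` is the image of a tangent vector at `c` -/
def Tan (α : X ⟶ A) (ξ : Dr A) (c : X.left) : Prop :=
  ∀ a ∈ O A (α.left c), (∀ D : Dr X, RegAt D c → D (pb α a) ∈ mp X c 1) →
    ξ a ∈ mp A (α.left c) 1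

/-- `h` is regular wherever the `δ k` have regular lifts -/
def Good (α : X ⟶ A) {g : ℕ} (δ : Fin g → Dr A) (h : Fn X) : Prop :=
  ∀ (x : X.left) (D : Fin g → Dr X), (∀ k, RegAt (D k) x) →
    (∀ k a, D k (pb α a) = pb α (δ k a)) → h ∈ O X x

/-- a basis of the invariant vector fields -/
structure IsFrame [GrpObj A] {g : ℕ} (δ : Fin g → Dr A) : Prop where
  mem : ∀ i x, RegAt (δ i) x
  tr : ∀ i y a, δ i (pb (tr y) a) = pb (tr y) (δ i a)
  comm : ∀ i k a, δ i (δ k a) = δ k (δ i a)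
  span : ∀ (M : Type) [Field M] [Algebra K M] (j : Fn A →ₐ[K] M) (d : Fn A →ₗ[K] M),
    (∀ a b, d (a * b) = j a * d b + j b * d a) → ∃ c : Fin g → M, ∀ a, d a = ∑ i, c i * j (δ i a)
  unit : ∀ x, ∃ b : Fin g → Fn A, (∀ l, b l ∈ O A x) ∧
    IsU A x (Matrix.of fun k l => δ k (b l)).det

variable {M : Type} [Field M] [Algebra K M]

/-- a point of `X` with values in the field `M` -/
structure Sl (X : Sch K) [IsIntegral X.left] (M : Type) [Field M] [Algebra K M] where
  η : X.left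
  ρ : Fn X → M
  add : ∀ a ∈ O X η, ∀ b ∈ O X η, ρ (a + b) = ρ a + ρ b
  mul : ∀ a ∈ O X η, ∀ b ∈ O X η, ρ (a * b) = ρ a * ρ b
  alg : ∀ c, ρ (algebraMap K (Fn X) c) = algebraMap K M c
  ker : ∀ a ∈ O X η, ρ a = 0 ↔ a ∈ mp X η 1

/-- the image of a point -/
noncomputable def Sl.map (s : Sl X M) (α : X ⟶ A) : Sl A M where
  η := α.left s.η
  ρ a := s.ρ (pb α a)
  add a ha b hb := by rw [pb_add ha hb, s.add _ (pb_mem_O ha) _ (pb_mem_O hb)]
  mul a ha b hb := by rw [pb_mul ha hb, s.mul _ (pb_mem_O ha) _ (pb_mem_O hb)]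
  alg c := by rw [pb_algebraMap, s.alg]
  ker a ha := (s.ker _ (pb_mem_O ha)).trans (pb_mem_mp_one ha)

/-- the local homomorphism -/
def Sl.hom (s : Sl X M) : O X s.η →ₐ[K] M where
  toFun a := s.ρ a
  map_one' := by simpa using s.alg 1
  map_mul' a b := s.mul _ a.2 _ b.2
  map_zero' := by simpa using s.alg 0
  map_add' a b := s.add _ a.2 _ b.2
  commutes' c := s.alg c

theorem Sl.hom_apply (s : Sl X M) (a : O X s.η) : s.hom a = s.ρ a := rfl

theorem Sl.zero (s : Sl X M) : s.ρ 0 = 0 := map_zero s.hom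

theorem Sl.one (s : Sl X M) : s.ρ 1 = 1 := map_one s.hom

theorem Sl.sub (s : Sl X M) {a b : Fn X} (ha : a ∈ O X s.η) (hb : b ∈ O X s.η) :
    s.ρ (a - b) = s.ρ a - s.ρ b := map_sub s.hom ⟨a, ha⟩ ⟨b, hb⟩

theorem Sl.pow (s : Sl X M) {a : Fn X} (ha : a ∈ O X s.η) (n : ℕ) : s.ρ (a ^ n) = s.ρ a ^ n :=
  map_pow s.hom ⟨a, ha⟩ n

theorem Sl.ne_zero (s : Sl X M) {a : Fn X} (ha : IsU X s.η a) : s.ρ a ≠ 0 :=
  fun h => ha.2 ((s.ker a ha.1).1 h)

theorem Sl.inv (s : Sl X M) {a : Fn X} (ha : IsU X s.η a) : s.ρ a⁻¹ = (s.ρ a)⁻¹ := by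
  refine eq_inv_of_mul_eq_one_right ?_
  rw [← s.mul _ ha.1 _ ha.inv.1, mul_inv_cancel₀ ha.ne_zero, s.one]

theorem Sl.sum (s : Sl X M) {ι : Type} (t : Finset ι) {f : ι → Fn X} (hf : ∀ i ∈ t, f i ∈ O X s.η) :
    s.ρ (∑ i ∈ t, f i) = ∑ i ∈ t, s.ρ (f i) := by
  classical
  induction t using Finset.induction_on with
  | empty => simpa using s.zero
  | insert i t hi ih =>
    have h1 : ∀ j ∈ t, f j ∈ O X s.η := fun j hj => hf j (Finset.mem_insert_of_mem hj)
    rw [Finset.sum_insert hi, Finset.sum_insert hi,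
      s.add _ (hf i (Finset.mem_insert_self i t)) _ (sum_mem h1), ih h1]

theorem Sl.det (s : Sl X M) {g : ℕ} (Q : Fin g → Fin g → Fn X) (hQ : ∀ k l, Q k l ∈ O X s.η) :
    s.ρ (Matrix.of Q).det = (Matrix.of fun k l => s.ρ (Q k l)).det := by
  have h1 := (O X s.η).val.map_det (Matrix.of fun k l => (⟨Q k l, hQ k l⟩ : O X s.η))
  have h2 := s.hom.map_det (Matrix.of fun k l => (⟨Q k l, hQ k l⟩ : O X s.η))
  exact (congrArg s.ρ h1.symm).trans h2

theorem Sl.aeval (s : Sl X M) {ι : Type} {y : ι → Fn X} (hy : ∀ i, y i ∈ O X s.η)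
    (σ : MvPolynomial ι K) : MvPolynomial.aeval y σ ∈ O X s.η ∧
      s.ρ (MvPolynomial.aeval y σ) = MvPolynomial.aeval (fun i => s.ρ (y i)) σ := by
  have h1 := MvPolynomial.comp_aeval_apply (fun i => (⟨y i, hy i⟩ : O X s.η)) (O X s.η).val σ
  have h2 := MvPolynomial.comp_aeval_apply (fun i => (⟨y i, hy i⟩ : O X s.η)) s.hom σ
  exact ⟨h1 ▸ Subtype.prop _, (congrArg s.ρ h1.symm).trans h2⟩

/-- `c` is the centre of the valuation ring `𝒪` -/
structure Ctr (s : Sl X M) (𝒪 : ValuationSubring M) (c : X.left) : Prop where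
  spec : s.η ⤳ c
  mem : ∀ h ∈ O X c, s.ρ h ∈ 𝒪
  non : ∀ h ∈ O X c, s.ρ h ∈ 𝒪.nonunits ↔ h ∈ mp X c 1

theorem Ctr.map {s : Sl X M} {𝒪 : ValuationSubring M} {c : X.left} (h : Ctr s 𝒪 c) (α : X ⟶ A) :
    Ctr (s.map α) 𝒪 (α.left c) where
  spec := h.spec.map α.left.continuous
  mem _ ha := h.mem _ (pb_mem_O ha)
  non _ ha := (h.non _ (pb_mem_O ha)).trans (pb_mem_mp_one ha)

theorem RegAt.iter {D : Dr X} {x : X.left} (h : RegAt D x) {b : Fn X} (hb : b ∈ O X x) (j : ℕ) :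
    D^[j] b ∈ O X x := by
  induction j with
  | zero => exact hb
  | succ j ih => rw [Function.iterate_succ_apply']; exact h _ ih

end Pool.Agent.Work.MP_e120ef_ag
end

-- merged part: Pool.Agent.Work.MP_e120ef_ag.PtL
section
/-!
# Lemmas on points

Plans.  Everything is read in an affine open set (`exists_aff`, `aff_point`, `aff_spec`, `aff_frac`, `mem_pr`).  `spec_frac`: `aff_frac` at `y` in an affine neighbourhood of `c`.  `spec_of_le`: `aff_spec`.
`exists_gen`: pull `p` back to `B X U`, take the point `d` of this prime; for `a ∈ O X c` multiply by a denominator which is a unit at `c` (so a unit at `d`, and not in `p`).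
`closed_of_val`: take a closed `y` with `c ⤳ y`; for `a ∈ O X y ∩ mp X y 1`, `a - k ∈ mp X c 1 ∩ O X y ⊆ mp X y 1`, so `k = 0` (`value_unique`); `spec_of_le` gives `y ⤳ c`.
`fin_max`: `TopologicalSpace.NoetherianSpace.exists_finite_set_isClosed_irreducible`, `IsIrreducible.genericPoint`.  `div_gen`: if `z ≠ gp X` take `0 ≠ e ∈ mp X z 1` (`exists_ne_zero`); `e t ^ n` is a unit at `d`, so at `z`; this forces `t ∈ mp X z 1`
(otherwise `t` is a unit at `z`); then every nonzero `a ∈ mp X d 1` is a unit times a positive power of `t`, so lies in `mp X z 1`; `spec_of_le`.  `fin_cover`: compactness.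
`exists_ctr`: the pattern is `val_str`, `exists_center` in `Pool/Agent/Work/MP_e57da2_ag/Val.lean` (copy, do not import), with `i₁ = Spec.map (stalk → M) ≫ fromSpecStalk s.η`.  With `l` the lift and `c` the image of the closed point, the image of the
generic point of `Spec 𝒪` is `s.η`, so `s.η ⤳ c`; `Scheme.SpecMap_stalkSpecializes_fromSpecStalk`, `cancel_mono`, `Spec.map_injective`.
-/

open CategoryTheory AlgebraicGeometry

namespace Pool.Agent.Work.MP_e120ef_ag

variable {K : Type} [Field K] {X : Sch K} [IsIntegral X.left] {x y c : X.left} {h : Fn X}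

instance O_frac (x : X.left) : IsFractionRing (O X x) (Fn X) := by
  refine IsFractionRing.of_field _ _ fun z => ?_
  obtain ⟨U, hU, hx, -⟩ := exists_aff (W := ⊤) (x := x) trivial
  obtain ⟨b, h1, h2, h3⟩ := aff_frac_field hU (gp_mem hx) z
  exact ⟨⟨_, B_le_O hx h3⟩, ⟨_, B_le_O hx h1⟩, (mul_div_cancel_left₀ z h2).symm⟩

theorem spec_frac (hy : y ⤳ c) (hh : h ∈ O X y) : ∃ s ∈ O X c, IsU X y s ∧ s * h ∈ O X c := by
  obtain ⟨U, hU, hc, -⟩ := exists_aff (W := ⊤) (x := c) trivial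
  obtain ⟨b, h1, h2, h3⟩ := aff_frac hU (hy.mem_open U.isOpen hc) hh
  exact ⟨b, B_le_O hc h1, h2, B_le_O hc h3⟩

theorem RegAt.of_spec {D : Dr X} (hD : RegAt D c) (hy : y ⤳ c) : RegAt D y := by
  intro b hb
  obtain ⟨s, h1, h2, h3⟩ := spec_frac hy hb
  have h4 : s * D b = D (s * b) - b * D s := by
    rw [Derivation.leibniz, smul_eq_mul, smul_eq_mul, add_sub_cancel_right]
  rw [← h2.mul_mem_O_iff, h4]
  exact sub_mem (O_le_of_spec hy (hD _ h3)) (mul_mem hb (O_le_of_spec hy (hD _ h1)))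

theorem RegAt.mp_two {D : Dr X} (hD : RegAt D c) (hh : h ∈ mp X c 2) : D h ∈ mp X c 1 := by
  obtain ⟨a, ha, rfl⟩ := mem_mp.1 hh
  rw [pow_two] at ha
  clear hh
  refine Submodule.mul_induction_on ha (fun m hm n hn => ?_) fun m n hm hn => ?_
  · have hm' : (m : Fn X) ∈ mp X c 1 := (coe_mem_mp m).2 (by rwa [pow_one])
    have hn' : (n : Fn X) ∈ mp X c 1 := (coe_mem_mp n).2 (by rwa [pow_one])
    rw [MulMemClass.coe_mul, Derivation.leibniz, smul_eq_mul, smul_eq_mul, mul_comm,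
      mul_comm (n : Fn X)]
    exact add_mem (O_mul_mem_mp (hD _ n.2) hm') (O_mul_mem_mp (hD _ m.2) hn')
  · rw [AddMemClass.coe_add, map_add]
    exact add_mem hm hn

theorem spec_of_le (hx : x ⤳ c) (hy : y ⤳ c) (H : ∀ a ∈ O X c, a ∈ mp X x 1 → a ∈ mp X y 1) :
    x ⤳ y := by
  obtain ⟨U, hU, hc, -⟩ := exists_aff (W := ⊤) (x := c) trivial
  refine (aff_spec hU (hx.mem_open U.isOpen hc) (hy.mem_open U.isOpen hc)).2 fun b hb => ?_
  exact (mem_pr _ b).2 (H _ (B_le_O hc b.2) ((mem_pr _ b).1 hb))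

theorem exists_ne_zero (hx : x ≠ gp X) : ∃ e ∈ mp X x 1, e ≠ 0 := by
  by_contra hn
  refine hx ((spec_of_le specializes_rfl (gp_spec X x) fun a _ ha => ?_).antisymm
    (gp_spec X x)).eq
  exact mem_mp_gp.2 (not_not.1 fun h0 => hn ⟨a, ha, h0⟩)

theorem exists_gen (c : X.left) (p : Ideal (O X c)) [p.IsPrime] :
    ∃ d, d ⤳ c ∧ ∀ a : O X c, (a : Fn X) ∈ mp X d 1 ↔ a ∈ p := by
  obtain ⟨U, hU, hc, -⟩ := exists_aff (W := ⊤) (x := c) trivial
  obtain ⟨d, hd, e⟩ := aff_point hU (gp_mem hc) (p.comap (Subalgebra.inclusion (B_le_O hc)))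
  have hdc : d ⤳ c := by
    rw [aff_spec hU hd hc, e]
    exact Ideal.comap_mono (IsLocalRing.le_maximalIdeal Ideal.IsPrime.ne_top')
  refine ⟨d, hdc, fun a => ?_⟩
  obtain ⟨b, h1, h2, h3⟩ := aff_frac hU hc a.2
  rw [← (h2.of_spec hdc).mul_mem_mp_iff, ← mem_pr hd ⟨_, h3⟩, e, Ideal.mem_comap]
  exact p.unit_mul_mem_iff_mem (x := a) ((isU_coe ⟨b, h2.1⟩).1 h2)

theorem div_gen {d z : X.left} (hd : IsDiv d) (hz : z ⤳ d) : z = d ∨ z = gp X := by
  obtain ⟨t, ht, ht0, hu⟩ := hd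
  refine or_iff_not_imp_right.2 fun hg => ?_
  obtain ⟨e, he, he0⟩ := exists_ne_zero hg
  have htO : t ∈ O X z := O_le_of_spec hz (mem_O_of_mp ht)
  have htz : t ∈ mp X z 1 := by
    by_contra hn
    obtain ⟨n, h1⟩ := hu e he0
    refine (h1.of_spec hz).2 ?_
    rw [mul_comm]
    exact O_mul_mem_mp (IsU.zpow ⟨htO, hn⟩ n).1 he
  refine (hz.antisymm (spec_of_le specializes_rfl hz fun a _ ha => ?_)).eq
  by_cases h0 : a = 0
  · rw [h0]
    exact zero_mem _
  obtain ⟨n, h1⟩ := hu a h0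
  cases n with
  | ofNat n =>
    refine absurd ?_ h1.2
    rw [mul_comm, Int.ofNat_eq_natCast, zpow_natCast]
    exact O_mul_mem_mp (pow_mem (mem_O_of_mp ht) n) ha
  | negSucc n =>
    have e1 : a = a * t ^ Int.negSucc n * t ^ n * t := by
      rw [zpow_negSucc, mul_assoc, ← pow_succ, inv_mul_cancel_right₀ (pow_ne_zero _ ht0)]
    rw [e1]
    exact O_mul_mem_mp (mul_mem (h1.of_spec hz).1 (pow_mem htO n)) htz

omit [IsIntegral X.left] in
theorem PtL_str (x : X.left) : X.left.fromSpecStalk x ≫ X.hom =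
    Spec.map (CommRingCat.ofHom ((X.left.presheaf.germ ⊤ x trivial).hom.comp (cst X))) := by
  have h1 : X.hom = X.left.toSpecΓ ≫ Spec.map X.hom.appTop ≫
      Spec.map (Scheme.ΓSpecIso (CommRingCat.of K)).inv := by
    rw [← Scheme.toSpecΓ_naturality_assoc, ← SpecMap_ΓSpecIso_hom, ← Spec.map_comp,
      Iso.inv_hom_id, Spec.map_id]
    exact (Category.comp_id _).symm
  rw [h1, Scheme.fromSpecStalk_toSpecΓ_assoc, ← Spec.map_comp, ← Spec.map_comp]
  rfl

variable [IsProper X.hom]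

theorem closed_of_val (H : ∀ a ∈ O X c, ∃ k : K, a - algebraMap K (Fn X) k ∈ mp X c 1) :
    IsClosed ({c} : Set X.left) := by
  obtain ⟨y, hy, hc⟩ := exists_closed_spec c
  have h1 : y ⤳ c := spec_of_le specializes_rfl hy fun a ha ha' => by
    obtain ⟨k, hk⟩ := H a (O_le_of_spec hy ha)
    have h2 := mem_mp_of_spec hy (sub_mem ha ((O X y).algebraMap_mem k)) hk
    have h3 := sub_mem ha' h2
    rw [sub_sub_cancel] at h3
    rwa [value_unique h3, map_zero, sub_zero] at hk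
  rwa [(hy.antisymm h1).eq]

omit [IsIntegral X.left] in
theorem fin_max {C : Set X.left} (hC : IsClosed C) :
    ∃ S : Set X.left, S.Finite ∧ S ⊆ C ∧ ∀ x ∈ C, ∃ z ∈ S, z ⤳ x := by
  obtain ⟨T, hT, h1, h2, h3⟩ :=
    TopologicalSpace.NoetherianSpace.exists_finite_set_isClosed_irreducible hC
  have h4 : ∀ c : T, ∃ η : X.left, closure {η} = c.1 := fun c =>
    ⟨_, (h2 c c.2).closure_genericPoint (h1 c c.2)⟩
  choose η hη using h4
  have := hT.to_subtype
  refine ⟨Set.range η, Set.finite_range η, ?_, fun x hx => ?_⟩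
  · rintro _ ⟨c, rfl⟩
    rw [h3]
    exact ⟨c, c.2, (hη c).le (subset_closure rfl)⟩
  · rw [h3] at hx
    obtain ⟨c, hc, hx⟩ := hx
    exact ⟨η ⟨c, hc⟩, ⟨_, rfl⟩, specializes_iff_mem_closure.2 ((hη ⟨c, hc⟩).ge hx)⟩

omit [IsIntegral X.left] in
variable (X) in
theorem fin_cover : ∃ 𝒰 : Set X.left.Opens, 𝒰.Finite ∧ (∀ U ∈ 𝒰, IsAffineOpen U) ∧
    (∀ U ∈ 𝒰, ∃ x, x ∈ U) ∧ ∀ x, ∃ U ∈ 𝒰, x ∈ U := by
  choose U hU hx _ using fun x : X.left => exists_aff (W := ⊤) (x := x) trivial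
  obtain ⟨T, hT⟩ := isCompact_univ.elim_finite_subcover (fun x => (U x : Set X.left))
    (fun x => (U x).isOpen) fun x _ => Set.mem_iUnion.2 ⟨x, hx x⟩
  refine ⟨U '' T, T.finite_toSet.image U, ?_, ?_, fun x => ?_⟩
  · rintro _ ⟨x, -, rfl⟩
    exact hU x
  · rintro _ ⟨x, -, rfl⟩
    exact ⟨x, hx x⟩
  · obtain ⟨y, hy, hxy⟩ := Set.mem_iUnion₂.1 (hT (Set.mem_univ x))
    exact ⟨U y, ⟨y, hy, rfl⟩, hxy⟩

theorem pol_finite (h : Fn X) : {d | IsDiv d ∧ h ∉ O X d}.Finite := by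
  obtain ⟨S, hS, h1, h2⟩ := fin_max (isOpen_O h).isClosed_compl
  refine hS.subset fun d hd => ?_
  obtain ⟨z, hz, hzd⟩ := h2 d hd.2
  rcases div_gen hd.1 hzd with rfl | rfl
  · exact hz
  · refine absurd ?_ (h1 hz)
    rw [Set.mem_ofPred_eq, O_gp]
    trivial

theorem exists_ctr {M : Type} [Field M] [Algebra K M] (s : Sl X M) (𝒪 : ValuationSubring M)
    (hK : ∀ k : K, algebraMap K M k ∈ 𝒪) : ∃ c, Ctr s 𝒪 c := by
  let φ : X.left.presheaf.stalk s.η ⟶ CommRingCat.of M :=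
    CommRingCat.ofHom ((s.hom : O X s.η →+* M).comp (stalkEquiv X s.η).toRingHom)
  have hφ : ∀ a, φ.hom a = s.ρ (toK X s.η a) := fun a => rfl
  have hloc : IsLocalHom φ.hom := ⟨fun a ha => by
    by_contra hn
    refine ha.ne_zero ?_
    rw [hφ, s.ker _ ⟨a, rfl⟩, toK_mem_mp, pow_one]
    exact hn⟩
  have h1 : UniversallyClosed X.hom := inferInstance
  rw [UniversallyClosed.eq_valuativeCriterion] at h1
  obtain ⟨l, hl⟩ : ∃ l : Spec (CommRingCat.of 𝒪) ⟶ X.left,
      Spec.map (CommRingCat.ofHom (algebraMap 𝒪 M)) ≫ l =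
        Spec.map φ ≫ X.left.fromSpecStalk s.η := by
    obtain ⟨l, hl, -⟩ := (h1.1
      { R := 𝒪
        K := M
        i₁ := Spec.map φ ≫ X.left.fromSpecStalk s.η
        i₂ := Spec.map (CommRingCat.ofHom ((algebraMap K M).codRestrict 𝒪 hK))
        commSq := ⟨by
          rw [Category.assoc, PtL_str, ← Spec.map_comp, ← Spec.map_comp]
          congr 1
          ext k
          exact (congrArg s.ρ (toK_germ (U := ⊤) trivial (cst X k))).trans (s.alg k)⟩ }).exists_lift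
    exact ⟨l, hl⟩
  have hη : s.η ⤳ l (IsLocalRing.closedPoint 𝒪) := by
    have h2 := congrArg (fun f => f (IsLocalRing.closedPoint M)) hl
    simp only [Scheme.Hom.comp_apply] at h2
    rw [Spec_closedPoint (f := φ), Scheme.fromSpecStalk_closedPoint] at h2
    rw [← h2]
    exact (IsLocalRing.specializes_closedPoint _).map l.continuous
  have h2 : Spec.map (Scheme.stalkClosedPointTo l ≫ CommRingCat.ofHom (algebraMap 𝒪 M)) =
      Spec.map (X.left.presheaf.stalkSpecializes hη ≫ φ) := by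
    rw [← cancel_mono (X.left.fromSpecStalk _), Spec.map_comp, Category.assoc,
      Scheme.Spec_stalkClosedPointTo_fromSpecStalk, hl, Spec.map_comp, Category.assoc,
      Scheme.SpecMap_stalkSpecializes_fromSpecStalk]
  have h3 : ∀ a, s.ρ (toK X _ a) = ((Scheme.stalkClosedPointTo l).hom a : 𝒪) := fun a => by
    rw [← Pb_toK_spec hη a, ← hφ]
    exact (congrArg (fun f => CommRingCat.Hom.hom f a) (Spec.map_injective h2)).symm
  refine ⟨l (IsLocalRing.closedPoint 𝒪), hη, ?_, ?_⟩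
  · rintro _ ⟨a, rfl⟩
    rw [h3]
    exact Subtype.prop _
  · rintro _ ⟨a, rfl⟩
    rw [h3, ValuationSubring.coe_mem_nonunits_iff, toK_mem_mp, pow_one]
    exact map_mem_nonunits_iff (Scheme.stalkClosedPointTo l).hom a

end Pool.Agent.Work.MP_e120ef_ag
end

-- merged part: Pool.Agent.Work.MP_e120ef_ag.MkPt
section
/-!
# Points with values in a ring
-/

open CategoryTheory AlgebraicGeometry IsLocalRing

set_option maxHeartbeats 400000

namespace Pool.Agent.Work.MP_e120ef_ag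

variable {K : Type} [Field K] {R R' : Type} [CommRing R] [CommRing R'] [Algebra K R] [Algebra K R']

variable (K R) in
/-- the spectrum of an algebra -/
noncomputable abbrev Sp : Sch K := Over.mk (Spec.map (CommRingCat.ofHom (algebraMap K R)))

/-- the morphism of spectra -/
noncomputable def spMap (φ : R →ₐ[K] R') : Sp K R' ⟶ Sp K R :=
  Over.homMk (Spec.map (CommRingCat.ofHom (φ : R →+* R'))) (by
    change Spec.map _ ≫ Spec.map _ = Spec.map _
    rw [← Spec.map_comp, ← CommRingCat.ofHom_comp, φ.comp_algebraMap])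

theorem spMap_closed [IsLocalRing R] [IsLocalRing R'] (φ : R →ₐ[K] R') [IsLocalHom φ] :
    (spMap φ).left (closedPoint R') = closedPoint R :=
  haveI : IsLocalHom (φ : R →+* R') := ⟨IsLocalHom.map_nonunit (f := φ)⟩
  comap_closedPoint (φ : R →+* R')

variable {X Y : Sch K} [IsIntegral X.left] [IsIntegral Y.left] {x y : X.left}

theorem MkPt_str (x : X.left) : X.left.fromSpecStalk x ≫ X.hom =
    Spec.map (CommRingCat.ofHom ((stalkEquiv X x).symm.toRingHom.comp (algebraMap K (O X x)))) := by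
  have h1 : X.hom = X.left.toSpecΓ ≫ Spec.map X.hom.appTop ≫
      Spec.map (Scheme.ΓSpecIso (CommRingCat.of K)).inv := by
    rw [← Scheme.toSpecΓ_naturality_assoc, ← SpecMap_ΓSpecIso_hom, ← Spec.map_comp,
      Iso.inv_hom_id, Spec.map_id]
    exact (Category.comp_id _).symm
  rw [h1, Scheme.fromSpecStalk_toSpecΓ_assoc, ← Spec.map_comp, ← Spec.map_comp]
  congr 1
  ext c
  exact ((stalkEquiv X x).symm_apply_eq.2 (Subtype.ext (toK_germ (U := ⊤) trivial _).symm)).symm

/-- the point defined by a homomorphism from a local ring -/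
noncomputable def mkPt (x : X.left) (f : O X x →ₐ[K] R) : Sp K R ⟶ X :=
  Over.homMk (Spec.map (CommRingCat.ofHom ((f : O X x →+* R).comp (stalkEquiv X x).toRingHom)) ≫
    X.left.fromSpecStalk x) (by
      change _ = Spec.map _
      rw [Category.assoc, MkPt_str]
      refine (Spec.map_comp _ _).symm.trans ?_
      congr 1
      ext c
      simp)

theorem mkPt_left (f : O X x →ₐ[K] R) : (mkPt x f).left =
    Spec.map (CommRingCat.ofHom ((f : O X x →+* R).comp (stalkEquiv X x).toRingHom)) ≫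
      X.left.fromSpecStalk x := rfl

theorem sp_mkPt (φ : R →ₐ[K] R') (f : O X x →ₐ[K] R) : spMap φ ≫ mkPt x f = mkPt x (φ.comp f) := by
  ext1
  change Spec.map _ ≫ Spec.map _ ≫ _ = Spec.map _ ≫ _
  rw [← Spec.map_comp_assoc]
  rfl

theorem mkPt_inj {f f' : O X x →ₐ[K] R} (h : mkPt x f = mkPt x f') : f = f' := by
  have h1 := congrArg (fun P => P.left) h
  simp only [mkPt_left, cancel_mono] at h1
  ext a
  obtain ⟨a, rfl⟩ := (stalkEquiv X x).surjective a
  exact congrArg (fun φ => CommRingCat.Hom.hom φ a) (Spec.map_injective h1)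

theorem mkPt_spec (h : y ⤳ x) (f : O X y →ₐ[K] R) :
    mkPt x (f.comp (Subalgebra.inclusion (O_le_of_spec h))) = mkPt y f := by
  ext1
  rw [mkPt_left, mkPt_left, ← Scheme.SpecMap_stalkSpecializes_fromSpecStalk h]
  refine Eq.trans ?_ (Category.assoc _ _ _)
  congr 1
  refine Eq.trans ?_ (Spec.map_comp _ _)
  congr 1
  ext a
  exact congrArg f (Subtype.ext (Pb_toK_spec h a).symm)

theorem mkPt_comp (φ : Y ⟶ X) {y : Y.left} (f : O Y y →ₐ[K] R) :
    mkPt y f ≫ φ = mkPt (φ.left y) (f.comp (pbA φ y)) := by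
  ext1
  change (Spec.map _ ≫ _) ≫ _ = Spec.map _ ≫ _
  rw [Category.assoc, ← Scheme.SpecMap_stalkMap_fromSpecStalk]
  refine (Category.assoc _ _ _).symm.trans ?_
  congr 1
  refine (Spec.map_comp _ _).symm.trans ?_
  congr 1
  ext a
  exact congrArg f (Pb_pbA_stalk φ y a).symm

theorem mkPt_closed [IsLocalRing R] (f : O X x →ₐ[K] R) [IsLocalHom f] :
    (mkPt x f).left (closedPoint R) = x := by
  have : IsLocalHom ((f : O X x →+* R).comp (stalkEquiv X x).toRingHom) :=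
    ⟨fun a ha => (isUnit_map_iff (stalkEquiv X x) a).1 (IsUnit.of_map f _ ha)⟩
  exact (congrArg (X.left.fromSpecStalk x) (comap_closedPoint _)).trans
    Scheme.fromSpecStalk_closedPoint

theorem MkPt_exists {Z : Scheme.{0}} [IsLocalRing R] (l : Spec (CommRingCat.of R) ⟶ Z) {z : Z}
    (hz : l (closedPoint R) = z) : ∃ ψ : Z.presheaf.stalk z →+* R, IsLocalHom ψ ∧
      Spec.map (CommRingCat.ofHom ψ) ≫ Z.fromSpecStalk z = l := by
  subst hz
  exact ⟨(Scheme.stalkClosedPointTo l).hom, inferInstance,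
    Scheme.Spec_stalkClosedPointTo_fromSpecStalk l⟩

theorem exists_mkPt [IsLocalRing R] (P : Sp K R ⟶ X) (hx : P.left (closedPoint R) = x) :
    ∃ f : O X x →ₐ[K] R, IsLocalHom f ∧ P = mkPt x f := by
  obtain ⟨ψ, hψ, h1⟩ := MkPt_exists P.left hx
  have h2 : (Spec.map (CommRingCat.ofHom ψ) ≫ X.left.fromSpecStalk x) ≫ X.hom =
      Spec.map (CommRingCat.ofHom (algebraMap K R)) := h1 ▸ Over.w P
  rw [Category.assoc, MkPt_str] at h2
  have h3 := Spec.map_injective ((Spec.map_comp _ _).trans h2)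
  refine ⟨⟨ψ.comp (stalkEquiv X x).symm.toRingHom, fun c =>
    congrArg (fun φ => CommRingCat.Hom.hom φ c) h3⟩, ⟨fun a ha => ?_⟩, ?_⟩
  · exact (isUnit_map_iff (stalkEquiv X x).symm a).1 (IsUnit.of_map ψ _ ha)
  · ext1
    refine h1.symm.trans ?_
    rw [mkPt_left]
    congr 3
    ext a
    exact congrArg ψ ((stalkEquiv X x).symm_apply_apply a).symm

/-- the point defined by a homomorphism from the function field -/
noncomputable def mkG (j : Fn X →ₐ[K] R) : Sp K R ⟶ X := mkPt (gp X) (j.comp (O X _).val)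

theorem mkG_eq (x : X.left) (j : Fn X →ₐ[K] R) : mkG j = mkPt x (j.comp (O X x).val) :=
  (mkPt_spec (gp_spec X x) _).symm

theorem sp_mkG (φ : R →ₐ[K] R') (j : Fn X →ₐ[K] R) : spMap φ ≫ mkG j = mkG (φ.comp j) :=
  sp_mkPt _ _

theorem mkG_inj {j j' : Fn X →ₐ[K] R} (h : mkG j = mkG j') : j = j' :=
  AlgHom.ext fun a => DFunLike.congr_fun (mkPt_inj h) ⟨a, by rw [O_gp]; trivial⟩

theorem mkG_comp {φ : Y ⟶ X} (hφ : Dom φ) (j : Fn Y →ₐ[K] R) :
    mkG j ≫ φ = mkG (j.comp (pbF hφ)) :=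
  (mkPt_comp φ _).trans (mkG_eq _ (j.comp (pbF hφ))).symm

end Pool.Agent.Work.MP_e120ef_ag
end

-- merged part: Pool.Agent.Work.MP_e120ef_ag.SB
section
/-!
# Growth of the degree filtration

Plans.  `Fl_mul`: `MvPolynomial.totalDegree_mul`.  `Fl_aeval`: each monomial of `σ` is a product of at most `k` factors `y i`.  `Fl_exists`: surjectivity.
`Fl_der`: choose `c` with `ξ (x i) ∈ Fl x (c + 1)` for all `i`; induction on `k` for monomials (`Fl x (k + 1)` is spanned by `Fl x k` and the `x i * a`, `a ∈ Fl x k`), Leibniz.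
`sec_bound`: `R` is generated as a module over `P = MvPolynomial (Fin s) K` by finitely many `e l` including `1`; `x i * e l = ∑ m, g (a i l m) * e m` with all `a i l m` of total degree `≤ c`; by induction `Fl x k` lies in the image of
`(l → restrictTotalDegree (c k))`, of dimension at most `card * (c k + 1) ^ s` (`restrictTotalDegree_le_restrictDegree`, `finrank_restrictDegree`).
`finrank_restrictDegree`: `MvPolynomial.basisRestrictSupport`, the index set is in bijection with `Fin s → Fin (k + 1)`.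
`indep_lift`: view a relation as a polynomial in `a` with coefficients `P j` evaluated at `x` (`MvPolynomial.optionEquivLeft`, or `AlgebraicIndependent.option_iff`); divide by the smallest power of `a`, reduce modulo `p`.
-/

namespace Pool.Agent.Work.MP_e120ef_ag

open MvPolynomial

variable {K R : Type} [Field K] [CommRing R] [Algebra K R] {n : ℕ}

variable (K) in
/-- the values of the polynomials of total degree at most `k` -/
noncomputable def Fl (x : Fin n → R) (k : ℕ) : Submodule K R :=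
  (restrictTotalDegree (Fin n) K k).map (aeval x : MvPolynomial (Fin n) K →ₐ[K] R).toLinearMap

instance (x : Fin n → R) (k : ℕ) : Module.Finite K (Fl K x k) := by
  unfold Fl
  infer_instance

theorem SB_mem {x : Fin n → R} {k : ℕ} {a : R} :
    a ∈ Fl K x k ↔ ∃ p : MvPolynomial (Fin n) K, p.totalDegree ≤ k ∧ aeval x p = a := by
  simp [Fl, mem_restrictTotalDegree]

theorem SB_one (x : Fin n → R) (k : ℕ) : (1 : R) ∈ Fl K x k :=
  SB_mem.2 ⟨1, by simp, map_one _⟩

theorem SB_X (x : Fin n → R) (i : Fin n) : x i ∈ Fl K x 1 :=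
  SB_mem.2 ⟨X i, by simp, aeval_X _ _⟩

/-- induction along the degree filtration -/
theorem SB_ind {ι : Type} (P : ℕ → Submodule K (MvPolynomial ι K)) (h1 : ∀ k, 1 ∈ P k)
    (hX : ∀ k i p, p.totalDegree ≤ k → p ∈ P k → p * X i ∈ P (k + 1)) (k : ℕ) :
    ∀ p : MvPolynomial ι K, p.totalDegree ≤ k → p ∈ P k := by
  have key : ∀ k (d : ι →₀ ℕ), (d.sum fun _ e => e) ≤ k → monomial d (1 : K) ∈ P k := by
    intro k
    induction k with
    | zero =>
      intro d hd
      obtain rfl : d = 0 := (Finsupp.degree_eq_zero_iff d).1 (Nat.le_zero.1 hd)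
      exact h1 0
    | succ k ih =>
      intro d hd
      rcases eq_or_ne d 0 with rfl | h
      · exact h1 _
      obtain ⟨i, hi⟩ := Finsupp.ne_iff.1 h
      obtain ⟨d', rfl⟩ : ∃ d', d = d' + Finsupp.single i 1 :=
        ⟨_, (tsub_add_cancel_of_le (Finsupp.single_le_iff.2 (Nat.one_le_iff_ne_zero.2 hi))).symm⟩
      rw [Finsupp.sum_add_index' (fun _ => rfl) (fun _ _ _ => rfl),
        Finsupp.sum_single_index rfl] at hd
      have := hX k i _ ((totalDegree_monomial_le d' (1 : K)).trans (Nat.le_of_succ_le_succ hd))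
        (ih d' (by omega))
      rwa [X, monomial_mul, mul_one] at this
  intro p hp
  rw [p.as_sum]
  refine Submodule.sum_mem _ fun d hd => ?_
  have := (P k).smul_mem (coeff d p) (key k d ((le_totalDegree hd).trans hp))
  rwa [smul_monomial, smul_eq_mul, mul_one] at this

theorem Fl_mono (x : Fin n → R) {k l : ℕ} (h : k ≤ l) : Fl K x k ≤ Fl K x l := fun _ ha =>
  (SB_mem.1 ha).elim fun p hp => SB_mem.2 ⟨p, hp.1.trans h, hp.2⟩

theorem Fl_mul {x : Fin n → R} {k l : ℕ} {a b : R} (ha : a ∈ Fl K x k) (hb : b ∈ Fl K x l) :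
    a * b ∈ Fl K x (k + l) := by
  obtain ⟨p, hp, rfl⟩ := SB_mem.1 ha
  obtain ⟨q, hq, rfl⟩ := SB_mem.1 hb
  exact SB_mem.2 ⟨p * q, (totalDegree_mul p q).trans (add_le_add hp hq), map_mul _ _ _⟩

theorem Fl_exists {x : Fin n → R} (hx : Function.Surjective (aeval x : MvPolynomial (Fin n) K →ₐ[K] R))
    (a : R) : ∃ k, a ∈ Fl K x k := (hx a).elim fun p hp => ⟨p.totalDegree, SB_mem.2 ⟨p, le_rfl, hp⟩⟩

theorem Fl_aeval {x : Fin n → R} {ι : Type} {y : ι → R} {c k : ℕ} (hy : ∀ i, y i ∈ Fl K x c)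
    {σ : MvPolynomial ι K} (hσ : σ.totalDegree ≤ k) : aeval y σ ∈ Fl K x (c * k) := by
  refine SB_ind (fun k => (Fl K x (c * k)).comap
    (aeval y : MvPolynomial ι K →ₐ[K] R).toLinearMap) (fun k => ?_) (fun k i p _ hp => ?_) k σ hσ
  · simpa using SB_one x _
  · simpa [mul_add] using Fl_mul (Submodule.mem_comap.1 hp) (hy i)

theorem Fl_map {R' : Type} [CommRing R'] [Algebra K R'] (f : R →ₐ[K] R') {x : Fin n → R} {k : ℕ}
    {a : R} (ha : a ∈ Fl K x k) : f a ∈ Fl K (fun i => f (x i)) k := by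
  obtain ⟨p, hp, rfl⟩ := SB_mem.1 ha
  exact SB_mem.2 ⟨p, hp, (comp_aeval_apply x f p).symm⟩

theorem Fl_der {x : Fin n → R} (hx : Function.Surjective (aeval x : MvPolynomial (Fin n) K →ₐ[K] R))
    (ξ : Derivation K R R) : ∃ c : ℕ, ∀ (j k : ℕ), ∀ a ∈ Fl K x k, ξ^[j] a ∈ Fl K x (k + c * j) := by
  choose c hc using fun i => Fl_exists hx (ξ (x i))
  obtain ⟨c0, h0⟩ : ∃ c0, ∀ i, c i ≤ c0 := ⟨_, fun i => Finset.le_sup (Finset.mem_univ i)⟩
  have key : ∀ k, ∀ a ∈ Fl K x k, ξ a ∈ Fl K x (k + c0) := by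
    intro k a ha
    obtain ⟨p, hp, rfl⟩ := SB_mem.1 ha
    refine SB_ind (fun k => (Fl K x (k + c0)).comap (ξ.toLinearMap.comp
      (aeval x : MvPolynomial (Fin n) K →ₐ[K] R).toLinearMap)) (fun k => ?_)
      (fun k i p h1 h2 => ?_) k p hp
    · simp
    · have h3 := Fl_mono x (by have := h0 i; omega : k + c i ≤ k + 1 + c0)
        (Fl_mul (SB_mem.2 ⟨p, h1, rfl⟩) (hc i))
      have h4 := Fl_mono x (by omega : 1 + (k + c0) ≤ k + 1 + c0) (Fl_mul (SB_X x i) h2)
      simpa using add_mem h3 h4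
  refine ⟨c0, fun j => ?_⟩
  induction j with
  | zero => exact fun k a ha => ha
  | succ j ih =>
    intro k a ha
    rw [Function.iterate_succ_apply', mul_add, mul_one, ← add_assoc]
    exact key _ _ (ih k a ha)

theorem finrank_restrictDegree (s k : ℕ) :
    Module.finrank K (restrictDegree (Fin s) K k) = (k + 1) ^ s := by
  let e : {d : Fin s →₀ ℕ | ∀ i, d i ≤ k} ≃ (Fin s → Fin (k + 1)) :=
    { toFun := fun d i => ⟨d.1 i, Nat.lt_succ_of_le (d.2 i)⟩
      invFun := fun f => ⟨Finsupp.equivFunOnFinite.symm fun i => (f i : ℕ),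
        fun i => Nat.le_of_lt_succ (f i).2⟩
      left_inv := fun d => by ext i; rfl
      right_inv := fun f => rfl }
  rw [restrictDegree, Module.finrank_eq_card_basis ((basisRestrictSupport K _).reindex e)]
  simp

theorem sec_bound {s : ℕ} (g : MvPolynomial (Fin s) K →ₐ[K] R) (hg : g.Finite) (x : Fin n → R) :
    ∃ C : ℕ, ∀ k, Module.finrank K (Fl K x k) ≤ C * (k + 1) ^ s := by
  let := g.toRingHom.toAlgebra
  have : Module.Finite (MvPolynomial (Fin s) K) R := hg
  obtain ⟨m, e, he⟩ := Module.Finite.exists_fin (R := MvPolynomial (Fin s) K) (M := R)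
  have hs : ∀ r : R, ∃ a : Fin m → MvPolynomial (Fin s) K, ∑ l, g (a l) * e l = r := fun r =>
    (Submodule.mem_span_range_iff_exists_fun _).1 (he ▸ Submodule.mem_top)
  choose A hA using hs
  obtain ⟨c, h1, h2⟩ : ∃ c, (∀ l, (A 1 l).totalDegree ≤ c) ∧
      ∀ i l l', (A (e l * x i) l').totalDegree ≤ c := by
    obtain ⟨c1, h1⟩ := (Set.finite_range fun l => (A 1 l).totalDegree).bddAbove
    obtain ⟨c2, h2⟩ := (Set.finite_range fun t : Fin n × Fin m × Fin m =>
      (A (e t.2.1 * x t.1) t.2.2).totalDegree).bddAbove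
    exact ⟨c1 + c2, fun l => le_add_right (h1 ⟨l, rfl⟩),
      fun i l l' => le_add_left (h2 ⟨(i, l, l'), rfl⟩)⟩
  let Φ (d : ℕ) : (Fin m → restrictTotalDegree (Fin s) K d) →ₗ[K] R :=
    ∑ l, (LinearMap.mulRight K (e l)).comp (g.toLinearMap.comp
      ((restrictTotalDegree (Fin s) K d).subtype.comp (LinearMap.proj l)))
  have hΦ : ∀ d r, r ∈ LinearMap.range (Φ d) ↔ ∃ a : Fin m → MvPolynomial (Fin s) K,
      (∀ l, (a l).totalDegree ≤ d) ∧ ∑ l, g (a l) * e l = r := fun d r =>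
    ⟨fun ⟨a, ha⟩ => ⟨fun l => a l, fun l => (mem_restrictTotalDegree _ _ _).1 (a l).2,
      by simpa [Φ] using ha⟩, fun ⟨a, h, ha⟩ =>
      ⟨fun l => ⟨a l, (mem_restrictTotalDegree _ _ _).2 (h l)⟩, by simpa [Φ] using ha⟩⟩
  refine ⟨m * (c + 1) ^ s, fun k => ?_⟩
  have hle : Fl K x k ≤ LinearMap.range (Φ (c * (k + 1))) := by
    intro r hr
    obtain ⟨p, hp, rfl⟩ := SB_mem.1 hr
    refine SB_ind (fun k => (LinearMap.range (Φ (c * (k + 1)))).comap
      (aeval x : MvPolynomial (Fin n) K →ₐ[K] R).toLinearMap) (fun k => ?_)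
      (fun k i p _ h => ?_) k p hp
    · exact (hΦ _ _).2 ⟨A 1, fun l => (h1 l).trans (by nlinarith), by simpa using hA 1⟩
    · obtain ⟨a, h3, h4⟩ := (hΦ _ _).1 h
      refine (hΦ _ _).2 ⟨fun l' => ∑ l, a l * A (e l * x i) l', fun l' => ?_, ?_⟩
      · refine totalDegree_finsetSum_le fun l _ => (totalDegree_mul _ _).trans ?_
        have := h3 l
        have := h2 i l l'
        nlinarith
      · simp only [AlgHom.toLinearMap_apply, map_mul, aeval_X] at h4 ⊢
        simp only [← h4, map_sum, map_mul, Finset.sum_mul]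
        rw [Finset.sum_comm]
        refine Finset.sum_congr rfl fun l _ => ?_
        simp only [mul_assoc, ← Finset.mul_sum, hA]
  refine (Submodule.finrank_mono hle).trans ((LinearMap.finrank_range_le _).trans ?_)
  have h5 := Submodule.finrank_mono (restrictTotalDegree_le_restrictDegree (Fin s) K (c * (k + 1)))
  rw [finrank_restrictDegree] at h5
  rw [Module.finrank_pi_fintype, Finset.sum_const, Finset.card_univ, Fintype.card_fin, smul_eq_mul,
    mul_assoc, ← mul_pow]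
  exact Nat.mul_le_mul_left _ (h5.trans (Nat.pow_le_pow_left (by nlinarith) _))

theorem indep_lift [IsDomain R] (p : Ideal R) {ι : Type} {x : ι → R}
    (hx : AlgebraicIndependent K fun i => Ideal.Quotient.mk p (x i)) {a : R} (ha : a ∈ p)
    (h0 : a ≠ 0) : AlgebraicIndependent K fun o : Option ι => o.elim a x := by
  refine AlgebraicIndependent.option_iff.2 ⟨.of_comp (Ideal.Quotient.mkₐ K p) hx, fun h => ?_⟩
  obtain ⟨⟨r, hr⟩, h1, h2⟩ := h.exists_nonzero_dvd (mem_nonZeroDivisors_of_ne_zero h0)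
  obtain ⟨P, rfl⟩ : ∃ P : MvPolynomial ι K, aeval x P = r := by
    rwa [Algebra.adjoin_range_eq_range_aeval] at hr
  have h3 : P = 0 := by
    refine algebraicIndependent_iff.1 hx P ?_
    have := comp_aeval_apply x (Ideal.Quotient.mkₐ K p) P
    exact this.symm.trans (Ideal.Quotient.eq_zero_iff_mem.2 (p.mem_of_dvd h2 ha))
  exact h1 (Subtype.ext (by simp [h3]))

end Pool.Agent.Work.MP_e120ef_ag
end

-- merged part: Pool.Agent.Work.MP_e120ef_ag.AuxA
section
/-!
# The auxiliary function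

Plans.  `aux_alg`: Noether normalisation `exists_finite_inj_algHom_of_fg` for `B ⧸ q` with `s` variables.  Lift the images of the variables to `B`; `indep_lift` in `B ⧸ p` (for the ideal `q.map (mk p)`; `DoubleQuot.quotQuotEquivQuotOfLEₐ`,
`AlgebraicIndependent.of_map`/`map'`) and then in `B` give `s + 2` algebraically independent `y i` (reindex `Option (Option (Fin s))` by `Fin (s + 2)`).  Let `x` be generators of `B`, `y i ∈ Fl x c₀`, `c` from `Fl_der`, `C` from `sec_bound`.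
The linear map `restrictDegree (Fin (s + 2)) K k → (Fin (L * (k + 1)) → Fl (mk ∘ x) (c₁ (k + 1)))`, `σ ↦ (mk (ξ^[j] (aeval y σ)))_j`, with `c₁ = c₀ (s + 2) + c L`, has a nonzero kernel as soon as
`L (k + 1) C (c₁ (k + 1) + 1) ^ s < (k + 1) ^ (s + 2)`; take `k = L C (c₁ + 1) ^ s` (`LinearMap.ker_ne_bot_of_finrank_lt`).
`aux`: `B = B X U` (`aff_finiteType`), `p = pr d`, `q = pr z` (`aff_spec`; `d ∈ U` since `d ⤳ z`; two points which specialise to each other are equal, `Specializes.antisymm`; `pr (gp X) = ⊥` by `mem_mp_gp`).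
-/

open CategoryTheory AlgebraicGeometry

namespace Pool.Agent.Work.MP_e120ef_ag

variable {K : Type} [Field K]

theorem AuxA_indep {B : Type} [CommRing B] [IsDomain B] [Algebra K B] {p q : Ideal B} [p.IsPrime]
    (hp : p ≠ ⊥) (hq : p < q) {s : ℕ} {g : MvPolynomial (Fin s) K →ₐ[K] B ⧸ q}
    (hg : Function.Injective g) : ∃ y : Fin (s + 2) → B, AlgebraicIndependent K y := by
  choose x hx using fun i => Ideal.Quotient.mk_surjective (g (MvPolynomial.X i))
  have h1 : AlgebraicIndependent K fun i => Ideal.Quotient.mk q (x i) := by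
    have e : MvPolynomial.aeval (fun i => Ideal.Quotient.mk q (x i)) = g :=
      MvPolynomial.algHom_ext fun i => by rw [MvPolynomial.aeval_X, hx]
    rw [algebraicIndependent_iff_injective_aeval, e]
    exact hg
  have h2 : AlgebraicIndependent K fun i =>
      Ideal.Quotient.mk (q.map (Ideal.Quotient.mkₐ K p)) (Ideal.Quotient.mk p (x i)) :=
    AlgebraicIndependent.of_comp (DoubleQuot.quotQuotEquivQuotOfLEₐ K hq.le).toAlgHom h1
  obtain ⟨a, ha, ha'⟩ := SetLike.exists_of_lt hq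
  obtain ⟨b, hb, hb'⟩ := Submodule.exists_mem_ne_zero_of_ne_bot hp
  have h3 := indep_lift (q.map (Ideal.Quotient.mkₐ K p)) h2
    (Ideal.mem_map_of_mem (Ideal.Quotient.mkₐ K p) ha)
    fun h => ha' (Ideal.Quotient.eq_zero_iff_mem.1 h)
  have h4 : AlgebraicIndependent K fun o : Option (Fin s) => Ideal.Quotient.mk p (o.elim a x) := by
    convert h3 using 2 with o
    cases o <;> rfl
  exact ⟨_, (indep_lift p h4 hb hb').comp _
    ((finSuccEquiv (s + 1)).trans (finSuccEquiv s).optionCongr).injective⟩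

theorem AuxA_deg {n k : ℕ} {σ : MvPolynomial (Fin n) K}
    (h : σ ∈ MvPolynomial.restrictDegree (Fin n) K k) : σ.totalDegree ≤ n * k := by
  refine Finset.sup_le fun m hm => ?_
  rw [Finsupp.sum_fintype _ _ fun _ => rfl]
  refine (Finset.sum_le_card_nsmul _ _ k fun i _ =>
    (MvPolynomial.mem_restrictDegree _ σ k).1 h m hm i).trans ?_
  simp

theorem AuxA_count (L C c s : ℕ) :
    L * (L * C * (c + 1) ^ s + 1) * (C * (c * (L * C * (c + 1) ^ s + 1) + 1) ^ s) <
      (L * C * (c + 1) ^ s + 1) ^ (s + 2) := by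
  generalize hk : L * C * (c + 1) ^ s = k
  have h1 : (c * (k + 1) + 1) ^ s ≤ (c + 1) ^ s * (k + 1) ^ s := by
    rw [← mul_pow]
    exact Nat.pow_le_pow_left (by nlinarith) s
  calc L * (k + 1) * (C * (c * (k + 1) + 1) ^ s)
      ≤ L * (k + 1) * (C * ((c + 1) ^ s * (k + 1) ^ s)) := by gcongr
    _ = k * ((k + 1) * (k + 1) ^ s) := by rw [← hk]; ring
    _ < (k + 1) * ((k + 1) * (k + 1) ^ s) := by gcongr; exact k.lt_succ_self
    _ = _ := by ring

/-- restriction of a derivation to an invariant subalgebra -/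
def AuxA_res {F : Type} [CommRing F] [Algebra K F] (S : Subalgebra K F) (ξ : Derivation K F F)
    (h : ∀ b ∈ S, ξ b ∈ S) : Derivation K S S :=
  Derivation.mk'
    { toFun := fun b => ⟨ξ b, h b b.2⟩
      map_add' := fun a b => Subtype.ext (map_add ξ (a : F) b)
      map_smul' := fun c b => Subtype.ext (ξ.map_smul c (b : F)) }
    fun a b => Subtype.ext (ξ.leibniz (a : F) b)

theorem AuxA_iter {F : Type} [CommRing F] [Algebra K F] (S : Subalgebra K F)
    (ξ : Derivation K F F) (h : ∀ b ∈ S, ξ b ∈ S) (j : ℕ) (b : S) :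
    (((AuxA_res S ξ h)^[j] b : S) : F) = ξ^[j] b := by
  induction j with
  | zero => rfl
  | succ j ih =>
    rw [Function.iterate_succ_apply', Function.iterate_succ_apply', ← ih]
    rfl

theorem aux_alg {B : Type} [CommRing B] [IsDomain B] [Algebra K B] [Algebra.FiniteType K B]
    (ξ : Derivation K B B) {p q : Ideal B} [p.IsPrime] [q.IsPrime] (hp : p ≠ ⊥) (hq : p < q) :
    ∃ (n : ℕ) (y : Fin n → B), ∀ L : ℕ, ∃ (k : ℕ) (σ : MvPolynomial (Fin n) K),
      MvPolynomial.aeval y σ ≠ 0 ∧ (∀ i, σ.degreeOf i ≤ k) ∧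
      ∀ j < L * (k + 1), ξ^[j] (MvPolynomial.aeval y σ) ∈ q := by
  obtain ⟨s, g, hinj, hfin⟩ := exists_finite_inj_algHom_of_fg K (B ⧸ q)
  obtain ⟨y, hy⟩ := AuxA_indep hp hq hinj
  obtain ⟨n, f, hf⟩ := Algebra.FiniteType.iff_quotient_mvPolynomial''.1
    (inferInstance : Algebra.FiniteType K B)
  obtain ⟨x, hx⟩ : ∃ x : Fin n → B,
      Function.Surjective (MvPolynomial.aeval x : MvPolynomial (Fin n) K →ₐ[K] B) := by
    refine ⟨fun i => f (MvPolynomial.X i), ?_⟩
    rwa [show MvPolynomial.aeval (fun i => f (MvPolynomial.X i)) = f from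
      MvPolynomial.algHom_ext fun i => MvPolynomial.aeval_X _ i]
  choose e he using fun i => Fl_exists hx (y i)
  have h0 : ∀ i, y i ∈ Fl K x (Finset.univ.sup e) := fun i =>
    Fl_mono x (Finset.le_sup (Finset.mem_univ i)) (he i)
  generalize Finset.univ.sup e = c₀ at h0
  obtain ⟨c, hc⟩ := Fl_der hx ξ
  obtain ⟨C, hC⟩ := sec_bound g hfin fun i => Ideal.Quotient.mkₐ K q (x i)
  refine ⟨s + 2, y, fun L => ?_⟩
  have h1 := AuxA_count L C (c₀ * (s + 2) + c * L) s
  generalize L * C * (c₀ * (s + 2) + c * L + 1) ^ s = k at h1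
  let Φ : MvPolynomial.restrictDegree (Fin (s + 2)) K k →ₗ[K] Fin (L * (k + 1)) →
      Fl K (fun i => Ideal.Quotient.mkₐ K q (x i)) ((c₀ * (s + 2) + c * L) * (k + 1)) :=
    LinearMap.pi fun j => LinearMap.codRestrict _ ((Ideal.Quotient.mkₐ K q).toLinearMap ∘ₗ
      ((ξ : B →ₗ[K] B) ^ j.1) ∘ₗ (MvPolynomial.aeval y).toLinearMap ∘ₗ Submodule.subtype _)
      fun σ => by
        refine Fl_map (Ideal.Quotient.mkₐ K q) ?_
        rw [LinearMap.comp_apply, Module.End.pow_apply]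
        refine Fl_mono x ?_ (hc j.1 _ _ (Fl_aeval h0 (AuxA_deg σ.2)))
        have h2 : c * j.1 ≤ c * (L * (k + 1)) := Nat.mul_le_mul_left c j.2.le
        nlinarith [Nat.zero_le (c₀ * (s + 2))]
  have h2 : LinearMap.ker Φ ≠ ⊥ := by
    refine LinearMap.ker_ne_bot_of_finrank_lt (lt_of_le_of_lt ?_ (h1.trans_eq ?_))
    · rw [Module.finrank_pi_fintype, Finset.sum_const, Finset.card_univ, Fintype.card_fin,
        smul_eq_mul]
      exact Nat.mul_le_mul_left _ (hC _)
    · rw [finrank_restrictDegree]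
  obtain ⟨σ, h3, h4⟩ := Submodule.exists_mem_ne_zero_of_ne_bot h2
  refine ⟨k, σ, fun h => h4 (Subtype.ext (hy (h.trans (map_zero _).symm))), fun i => ?_,
    fun j hj => ?_⟩
  · exact MvPolynomial.degreeOf_le_iff.2 fun m hm =>
      (MvPolynomial.mem_restrictDegree _ _ k).1 σ.2 m hm i
  · have h5 := congrArg Subtype.val (congrFun (LinearMap.mem_ker.1 h3) ⟨j, hj⟩)
    refine Ideal.Quotient.eq_zero_iff_mem.1 (Eq.trans ?_ h5)
    exact congrArg _ (Module.End.pow_apply (ξ : B →ₗ[K] B) j _).symm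

theorem aux {X : Sch K} [IsIntegral X.left] [IsProper X.hom] {ξ : Dr X} (hξ : ∀ x, RegAt ξ x)
    {z : X.left} (hz : Cod2 z) {U : X.left.Opens} (hU : IsAffineOpen U) (hzU : z ∈ U) :
    ∃ (n : ℕ) (y : Fin n → Fn X), ∀ L : ℕ, ∃ (k : ℕ) (σ : MvPolynomial (Fin n) K),
      MvPolynomial.aeval y σ ≠ 0 ∧ (∀ i, σ.degreeOf i ≤ k) ∧ MvPolynomial.aeval y σ ∈ B X U ∧
      ∀ j < L * (k + 1), ξ^[j] (MvPolynomial.aeval y σ) ∈ mp X z 1 := by
  obtain ⟨d, h1, h2, h3⟩ := hz
  have hd : d ∈ U := h3.mem_open U.isOpen hzU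
  have hg : gp X ∈ U := gp_mem hzU
  have := aff_finiteType hU hg
  have hB : ∀ b ∈ B X U, ξ b ∈ B X U := fun b hb =>
    mem_B.2 fun x hx => hξ x b (mem_B.1 hb x hx)
  have hp : pr hd ≠ ⊥ := fun e => h1 (((aff_spec hU hd hg).2 (e ▸ bot_le)).antisymm
    (gp_spec X d)).eq
  have hq : pr hd < pr hzU := ((aff_spec hU hd hzU).1 h3).lt_of_ne fun e =>
    h2 (h3.antisymm ((aff_spec hU hzU hd).2 e.ge)).eq
  obtain ⟨n, y, h⟩ := aux_alg (AuxA_res (B X U) ξ hB) hp hq
  refine ⟨n, fun i => y i, fun L => ?_⟩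
  obtain ⟨k, σ, h4, h5, h6⟩ := h L
  have e : MvPolynomial.aeval (fun i => (y i : Fn X)) σ = (MvPolynomial.aeval y σ : B X U) :=
    (MvPolynomial.comp_aeval_apply y (B X U).val σ).symm
  refine ⟨k, σ, ?_, h5, ?_, fun j hj => ?_⟩
  · rw [e]
    exact fun h0 => h4 (Subtype.ext h0)
  · rw [e]
    exact Subtype.prop _
  · rw [e, ← AuxA_iter (B X U) ξ hB]
    exact (mem_pr hzU _).1 (h6 j hj)

end Pool.Agent.Work.MP_e120ef_ag
end
end

-- merged part: Pool.Agent.Work.MP_e120ef_ag.Bad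
section
-- merged part: Pool.Agent.Work.MP_e120ef_ag.Hart
section
/-!
# Normality of smooth domains, the algebraic Hartogs lemma, lifting of tangent vectors

Plans.  `smooth_closed`: copy `MgAA_etale`, `MgAA_idem`, `MgAA_closed`, `MgAA_local` from `Pool/Agent/Work/MP_da2620_ag/MgAA.lean` (rename them; do not import that file) and finish with
`IsIntegrallyClosed.of_localization_maximal` or `IsIntegrallyClosed.of_isLocalization_maximal`-type lemmas (a localisation of `Localization.Away f` is integrally closed).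
`krull`: compare the theorem `krull` in `Pool/Agent/Work/MP_475c1a_ag/Aff.lean`.  Write `h = a / b`; `p = (b : c)` is an associated prime of `R ⧸ (b)` containing the annihilator of the class of `a`
(`exists_le_isAssociatedPrime_of_isNoetherianRing`).  `(c / b) p ⊆ R`, and `(c / b) p ⊆ p` is impossible (`isIntegral_of_smul_mem_submodule`), so `t c = b d` with `t ∈ p`, `d ∉ p`; for `q ∈ p`, `q c = b d'`, so `d q = d' t`.
Hence the maximal ideal of `Localization.AtPrime p` is generated by `t`; by the Krull intersection theorem (`Ideal.iInf_pow_eq_bot_of_isDomain`, or `IsDiscreteValuationRing.TFAE`, or finite multiplicity in a noetherian domain) every `a ≠ 0` is a unit times a power of `t`.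
`lift_der`: make `K` an `R`-module through `ev`; `d` is a derivation, so a linear map `Ω[R⁄K] → K` (`Derivation.liftKaehlerDifferential`); `Ω[R⁄K]` is projective, lift along the surjection `ev` (`Module.projective_lifting_property`).
To avoid the clash of `R`-module structures on `K` one can use `R ⧸ RingHom.ker ev` as the target instead of `K` (`Ideal.quotientKerAlgEquivOfSurjective`).
-/

namespace Pool.Agent.Work.MP_e120ef_ag

open TensorProduct in
theorem Hart_etale (P B : Type) [CommRing P] [IsDomain P] [IsIntegrallyClosed P] [CommRing B]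
    [Algebra P B] [Algebra.Etale P B] :
    ∃ (T : Type) (_ : CommRing T) (_ : Algebra B T), IsIntegrallyClosedIn B T ∧
      IsSemisimpleRing T := by
  let F := FractionRing P
  refine ⟨B ⊗[P] F, inferInstance, inferInstance, isIntegrallyClosedIn_iff.2 ⟨?_, fun {t} ht => ?_⟩,
    ?_⟩
  · exact Algebra.TensorProduct.includeLeft_injective (S := P) (IsFractionRing.injective P F)
  · obtain ⟨z, hz⟩ := (TensorProduct.toIntegralClosure_bijective_of_smooth (R := P) (S := B)
      (B := F)).2 ⟨t, ht⟩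
    have e : t = Algebra.TensorProduct.map (AlgHom.id B B) (integralClosure P F).val z :=
      (congrArg Subtype.val hz).symm
    rw [e]
    clear e hz
    induction z using TensorProduct.induction_on with
    | zero => exact ⟨0, by rw [map_zero, map_zero]⟩
    | tmul b y =>
      obtain ⟨p, hp⟩ := IsIntegrallyClosed.isIntegral_iff.1 y.2
      refine ⟨p • b, ?_⟩
      change (p • b) ⊗ₜ[P] (1 : F) = b ⊗ₜ y.1
      rw [← hp, Algebra.algebraMap_eq_smul_one, smul_tmul]
    | add y z hy hz =>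
      obtain ⟨a, ha⟩ := hy
      obtain ⟨b, hb⟩ := hz
      exact ⟨a + b, by rw [map_add, map_add, ha, hb]⟩
  · have : Module.Finite F (F ⊗[P] B) := Algebra.FormallyUnramified.finite_of_free _ _
    have : IsArtinianRing (F ⊗[P] B) := IsArtinianRing.of_finite F _
    have : IsReduced (F ⊗[P] B) := Algebra.FormallyUnramified.isReduced_of_field F _
    have := IsArtinianRing.isSemisimpleRing_of_isReduced (F ⊗[P] B)
    exact (Algebra.TensorProduct.comm P F B).toRingEquiv.isSemisimpleRing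

theorem Hart_idem {B T : Type} [CommRing B] [CommRing T] [Algebra B T] [IsIntegrallyClosedIn B T]
    [IsSemisimpleRing T] (a : B) : ∃ (e : B) (c : T), IsIdempotentElem e ∧ a * e = a ∧
      algebraMap B T e = c * algebraMap B T a := by
  have hi : Function.Injective (algebraMap B T) := (isIntegrallyClosedIn_iff.1 inferInstance).1
  obtain ⟨e, he, h⟩ := IsSemisimpleRing.ideal_eq_span_idempotent (Ideal.span {algebraMap B T a})
  obtain ⟨e, rfl⟩ : ∃ y, algebraMap B T y = e := IsIntegrallyClosedIn.isIntegral_iff.1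
    ⟨Polynomial.X ^ 2 - Polynomial.X, Polynomial.monic_X_pow_sub
      (Polynomial.degree_X_le.trans_lt (by decide)), by
      rw [Polynomial.eval₂_sub, Polynomial.eval₂_X_pow, Polynomial.eval₂_X, sq, he.eq, sub_self]⟩
  obtain ⟨c, hc⟩ := Ideal.mem_span_singleton'.1 (h.ge (Ideal.mem_span_singleton_self _))
  obtain ⟨d, hd⟩ := Ideal.mem_span_singleton'.1 (h.le (Ideal.mem_span_singleton_self _))
  refine ⟨e, c, hi (by rw [map_mul, he.eq]), hi ?_, hc.symm⟩
  rw [map_mul, ← hd, mul_assoc, he.eq]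

theorem Hart_closed {B T : Type} [CommRing B] [IsDomain B] [CommRing T] [Algebra B T]
    [IsIntegrallyClosedIn B T] [IsSemisimpleRing T] : IsIntegrallyClosed B := by
  have hi : Function.Injective (algebraMap B T) := (isIntegrallyClosedIn_iff.1 inferInstance).1
  have := hi.nontrivial
  let φ : FractionRing B →ₐ[B] T :=
    IsLocalization.liftAlgHom (M := nonZeroDivisors B) (f := Algebra.ofId B T) fun b => by
      obtain ⟨e, c, h1, h2, h3⟩ := Hart_idem (T := T) b.1
      rcases IsIdempotentElem.iff_eq_zero_or_one.1 h1 with rfl | rfl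
      · exact absurd (by rw [← h2, mul_zero]) (nonZeroDivisors.ne_zero b.2)
      · exact IsUnit.of_mul_eq_one_right c (h3.symm.trans (map_one _))
  exact AlgHom.isIntegrallyClosedIn φ φ.toRingHom.injective inferInstance

theorem Hart_local (K : Type) {A : Type} [Field K] [CommRing A] [Algebra K A]
    [Algebra.Smooth K A] (m : Ideal A) [m.IsPrime] :
    ∃ f ∉ m, ∃ (T : Type) (_ : CommRing T) (_ : Algebra (Localization.Away f) T),
      IsIntegrallyClosedIn (Localization.Away f) T ∧ IsSemisimpleRing T := by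
  obtain ⟨f, hf, n, _, -, _⟩ :=
    Algebra.IsSmoothAt.exists_isStandardEtale_mvPolynomial (R := K) (p := m)
  exact ⟨f, hf, Hart_etale (MvPolynomial (Fin n) K) _⟩

theorem smooth_closed (K B : Type) [Field K] [CommRing B] [IsDomain B] [Algebra K B]
    [Algebra.Smooth K B] : IsIntegrallyClosed B := by
  refine IsIntegrallyClosed.of_localization_maximal fun m _ _ => ?_
  obtain ⟨f, hf, T, _, _, _, _⟩ := Hart_local K m
  have h0 : Submonoid.powers f ≤ nonZeroDivisors B :=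
    powers_le_nonZeroDivisors_of_noZeroDivisors fun e => hf (e ▸ m.zero_mem)
  have := IsLocalization.isDomain_localization h0
  have := Hart_closed (B := Localization.Away f) (T := T)
  have h1 : Submonoid.powers f ≤ m.primeCompl := Submonoid.powers_le.2 hf
  let _ := IsLocalization.localizationAlgebraOfSubmonoidLe (Localization.Away f)
    (Localization.AtPrime m) _ _ h1
  have := IsLocalization.localization_isScalarTower_of_submonoid_le (Localization.Away f)
    (Localization.AtPrime m) _ _ h1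
  have := IsLocalization.isLocalization_of_submonoid_le (Localization.Away f)
    (Localization.AtPrime m) _ _ h1
  refine isIntegrallyClosed_of_isLocalization _
    (m.primeCompl.map (algebraMap B (Localization.Away f))) ?_
  rintro _ ⟨a, ha, rfl⟩
  exact mem_nonZeroDivisors_of_ne_zero fun e => ha
    ((IsLocalization.injective (Localization.Away f) h0 (e.trans (map_zero _).symm)) ▸ m.zero_mem)

theorem krull {R F : Type} [CommRing R] [IsDomain R] [IsNoetherianRing R] [IsIntegrallyClosed R]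
    [Field F] [Algebra R F] [IsFractionRing R F] {h : F} (hh : ∀ a : R, algebraMap R F a ≠ h) :
    ∃ (p : Ideal R) (t : R), p.IsPrime ∧ t ∈ p ∧ t ≠ 0 ∧
      (∀ s ∉ p, ∀ a : R, algebraMap R F a ≠ algebraMap R F s * h) ∧
      ∀ a : R, a ≠ 0 → ∃ (n : ℕ) (s s' : R), s ∉ p ∧ s' ∉ p ∧ s * a = s' * t ^ n := by
  obtain ⟨a, b, hb0, rfl⟩ := IsFractionRing.div_surjective (A := R) h
  have inj := IsFractionRing.injective R F
  have hb : b ≠ 0 := nonZeroDivisors.ne_zero hb0
  have hb' : algebraMap R F b ≠ 0 := fun e => hb (inj (e.trans (map_zero _).symm))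
  have h1 : Ideal.Quotient.mk (Ideal.span {b}) a ≠ 0 := fun h => by
    obtain ⟨c, rfl⟩ := Ideal.mem_span_singleton.mp (Ideal.Quotient.eq_zero_iff_mem.mp h)
    exact hh c (by rw [map_mul]; field_simp)
  obtain ⟨P, hP, hle⟩ := exists_le_isAssociatedPrime_of_isNoetherianRing R _ h1
  obtain ⟨hP, y, hy⟩ := isAssociatedPrime_iff.mp hP
  obtain ⟨c, rfl⟩ := Ideal.Quotient.mk_surjective y
  have hm : ∀ {a n : R}, n ∈ (⊥ : Submodule R (R ⧸ Ideal.span {b})).colon
      {Ideal.Quotient.mk (Ideal.span {b}) a} ↔ b ∣ n * a := fun {a n} => by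
    rw [Submodule.mem_colon_singleton, Submodule.mem_bot, ← Ideal.mem_span_singleton,
      ← Ideal.Quotient.eq_zero_iff_mem]
    rfl
  have hP' : ∀ {n}, n ∈ P ↔ b ∣ n * c := by rw [hy]; exact hm
  have hbP : b ∈ P := hP'.mpr (dvd_mul_right b c)
  have key : ∃ q ∈ P, ∃ d ∉ P, q * c = b * d := by
    by_contra! h
    have h2 : IsIntegral R (algebraMap R F c / algebraMap R F b) :=
      isIntegral_of_smul_mem_submodule (M := F) (Submodule.map (Algebra.linearMap R F) P)
        ((Submodule.ne_bot_iff _).mpr ⟨_, Submodule.mem_map_of_mem hbP, hb'⟩)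
        ((IsNoetherian.noetherian P).map _) _ (by
          rintro _ ⟨q, hq, rfl⟩
          obtain ⟨d, hd⟩ := hP'.mp hq
          refine ⟨d, by_contra fun h3 => h q hq d h3 hd, ?_⟩
          change algebraMap R F d = algebraMap R F c / algebraMap R F b * algebraMap R F q
          rw [div_mul_eq_mul_div, eq_div_iff hb', ← map_mul, ← map_mul, mul_comm c, hd, mul_comm])
    obtain ⟨d, hd⟩ := IsIntegrallyClosed.isIntegral_iff.mp h2
    refine hP.ne_top ((Ideal.eq_top_iff_one _).mpr (hP'.mpr ⟨d, inj ?_⟩))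
    rw [one_mul, map_mul, hd]
    field_simp
  obtain ⟨t, ht, d, hd, e⟩ := key
  have h3 : ∀ q ∈ P, ∃ d', q * d = t * d' := fun q hq => by
    obtain ⟨d', h⟩ := hP'.mp hq
    exact ⟨d', mul_left_cancel₀ hb (by linear_combination t * h - q * e)⟩
  refine ⟨P, t, hP, ht, ?_, fun s hs a' ha' => hs (hle (hm.mpr ⟨a', inj ?_⟩)), fun x hx => ?_⟩
  · rintro rfl
    rw [zero_mul, eq_comm, mul_eq_zero] at e
    exact hd ((e.resolve_left hb) ▸ P.zero_mem)
  · rw [map_mul, map_mul, ha']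
    field_simp
  · by_contra! hn
    have h4 : ∀ n : ℕ, ∃ s ∉ P, ∃ y, s * x = y * t ^ n := by
      intro n
      induction n with
      | zero => exact ⟨1, (Ideal.ne_top_iff_one _).1 hP.ne_top, x, by ring⟩
      | succ n ih =>
        obtain ⟨s, hs, y, hy⟩ := ih
        obtain ⟨d', hd'⟩ := h3 y (by_contra fun h5 => hn n s y hs h5 hy)
        exact ⟨s * d, fun h5 => (hP.mem_or_mem h5).elim hs hd, d',
          by linear_combination d * hy + t ^ n * hd'⟩
    have h5 : ¬ IsUnit (algebraMap R (Localization.AtPrime P) t) := fun h5 =>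
      (IsLocalization.AtPrime.isUnit_to_map_iff _ P t).1 h5 ht
    have h6 : algebraMap R (Localization.AtPrime P) x ≠ 0 := fun h6 =>
      hx (IsLocalization.injective (Localization.AtPrime P) P.primeCompl_le_nonZeroDivisors
        (h6.trans (map_zero _).symm))
    have := IsLocalization.isNoetherianRing P.primeCompl (Localization.AtPrime P) inferInstance
    obtain ⟨n, h7⟩ := FiniteMultiplicity.of_not_isUnit h5 h6
    obtain ⟨s, hs, y, hy⟩ := h4 (n + 1)
    refine h7 (((IsLocalization.AtPrime.isUnit_to_map_iff _ P s).2 hs).dvd_mul_left.1 ?_)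
    rw [← map_mul, hy, map_mul, map_pow]
    exact dvd_mul_left _ _

theorem lift_der {K R : Type} [Field K] [CommRing R] [Algebra K R] [Algebra.FormallySmooth K R]
    (ev : R →ₐ[K] K) (d : R →ₗ[K] K) (hd : ∀ a b, d (a * b) = ev a * d b + ev b * d a) :
    ∃ D : Derivation K R R, ∀ a, ev (D a) = d a := by
  have hs : Function.Surjective ev := fun x => ⟨algebraMap K R x, by simp⟩
  let e := Ideal.quotientKerAlgEquivOfSurjective hs
  have he : ∀ a, e (Ideal.Quotient.mk _ a) = ev a := fun _ => rfl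
  let δ : Derivation K R (R ⧸ RingHom.ker ev) :=
    Derivation.mk' (e.symm.toLinearMap ∘ₗ d) fun a b => e.injective (by
      change e (e.symm (d (a * b))) = e (Ideal.Quotient.mk _ a * e.symm (d b) +
        Ideal.Quotient.mk _ b * e.symm (d a))
      simp only [map_add, map_mul, he, AlgEquiv.apply_symm_apply, hd])
  obtain ⟨L, hL⟩ := Module.projective_lifting_property (Submodule.mkQ (RingHom.ker ev))
    δ.liftKaehlerDifferential (Submodule.mkQ_surjective _)
  refine ⟨L.compDer (KaehlerDifferential.D K R), fun a => ?_⟩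
  have h1 := LinearMap.congr_fun hL (KaehlerDifferential.D K R a)
  rw [Derivation.liftKaehlerDifferential_comp_D] at h1
  have h2 : e (Ideal.Quotient.mk _ (L (KaehlerDifferential.D K R a))) = e (e.symm (d a)) :=
    congrArg e h1
  rwa [he, AlgEquiv.apply_symm_apply] at h2

end Pool.Agent.Work.MP_e120ef_ag
end

-- merged part: Pool.Agent.Work.MP_e120ef_ag.Sm
section
/-!
# Smooth varieties

Plans.  `aff_smooth`: imitate `aff_finiteType` (`Smooth.smooth_appLE` or `HasRingHomProperty.appLE`; `RingHom.Smooth.comp`, `RingHom.Smooth.of_bijective`).  `O_smooth`, `O_closed`: `aff_isLocalization`,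
`Algebra.FormallySmooth.of_isLocalization`, `Algebra.FormallySmooth.comp`, `isIntegrallyClosed_of_isLocalization`.  `hartogs`: `krull` for `R = O X c`, then `exists_gen`, `spec_frac`.  `lift_at`: `lift_der`, `frac_ext`.
-/

open CategoryTheory AlgebraicGeometry

namespace Pool.Agent.Work.MP_e120ef_ag

variable {K : Type} [Field K] {X : Sch K} [IsIntegral X.left] [Smooth X.hom]

theorem aff_smooth {U : X.left.Opens} (hU : IsAffineOpen U) (hg : gp X ∈ U) :
    Algebra.Smooth K (B X U) := by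
  have h1 := X.hom.smooth_appLE (isAffineOpen_top _) hU le_top
  have h2 : (Scheme.ΓSpecIso (CommRingCat.of K)).inv.hom.Smooth :=
    .of_bijective (Scheme.ΓSpecIso (CommRingCat.of K)).symm.commRingCatIsoToRingEquiv.bijective
  have h3 := (h2.comp h1).comp (RingHom.Smooth.of_bijective (f := (secEquiv hg).toRingHom)
    (secEquiv hg).bijective)
  rw [← RingHom.smooth_algebraMap]
  convert h3 using 1
  exact RingHom.ext fun c => Subtype.ext (germ_res le_top hg (cst X c)).symm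

theorem O_smooth (x : X.left) : Algebra.FormallySmooth K (O X x) := by
  obtain ⟨U, hU, hx, -⟩ := exists_aff (W := ⊤) (x := x) trivial
  let := (Subalgebra.inclusion (B_le_O hx)).toRingHom.toAlgebra
  have := aff_isLocalization hU hx
  have := aff_smooth hU (gp_mem hx)
  have : IsScalarTower K (B X U) (O X x) := .of_algebraMap_eq fun _ => rfl
  have : Algebra.FormallySmooth (B X U) (O X x) := .of_isLocalization (pr hx).primeCompl
  exact .comp K (B X U) (O X x)

theorem O_closed (x : X.left) : IsIntegrallyClosed (O X x) := by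
  obtain ⟨U, hU, hx, -⟩ := exists_aff (W := ⊤) (x := x) trivial
  let := (Subalgebra.inclusion (B_le_O hx)).toRingHom.toAlgebra
  have := aff_isLocalization hU hx
  have := aff_smooth hU (gp_mem hx)
  have := smooth_closed K (B X U)
  exact isIntegrallyClosed_of_isLocalization (O X x) (pr hx).primeCompl
    (pr hx).primeCompl_le_nonZeroDivisors

theorem hartogs [IsProper X.hom] {c : X.left} {h : Fn X} (hh : h ∉ O X c) :
    ∃ d, d ⤳ c ∧ IsDiv d ∧ h ∉ O X d := by
  have := O_closed c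
  obtain ⟨p, t, hp, htp, ht0, h1, h2⟩ := krull (R := O X c) (F := Fn X) (h := h)
    fun a e => hh (e ▸ a.2)
  obtain ⟨d, hd, H⟩ := exists_gen c p
  have hU : ∀ s : O X c, s ∉ p → IsU X d s := fun s hs =>
    ⟨O_le_of_spec hd s.2, fun h => hs ((H s).1 h)⟩
  have ht : (t : Fn X) ≠ 0 := fun e => ht0 (Subtype.ext e)
  have key : ∀ a : O X c, a ≠ 0 → ∃ n : ℕ, IsU X d ((a : Fn X) / t ^ n) := fun a ha => by
    obtain ⟨n, s, s', hs, hs', e⟩ := h2 a ha
    have e' : (s : Fn X) * a = s' * t ^ n := congrArg Subtype.val e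
    refine ⟨n, ?_⟩
    have e2 : (a : Fn X) / t ^ n = s' / s := by
      rw [div_eq_div_iff (pow_ne_zero n ht) (hU s hs).ne_zero]
      linear_combination e'
    rw [e2]
    exact (hU s' hs').div (hU s hs)
  refine ⟨d, hd, ⟨t, (H t).2 htp, ht, fun u hu => ?_⟩, fun h3 => ?_⟩
  · obtain ⟨a, b, hb, rfl⟩ := IsFractionRing.div_surjective (A := O X c) u
    have hb0 : b ≠ 0 := nonZeroDivisors.ne_zero hb
    have ha0 : a ≠ 0 := fun e => hu (by simp [e])
    obtain ⟨n, hn⟩ := key a ha0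
    obtain ⟨m, hm⟩ := key b hb0
    refine ⟨(m : ℤ) - n, ?_⟩
    have hb1 : (b : Fn X) ≠ 0 := fun e => hb0 (Subtype.ext e)
    have e : algebraMap (O X c) (Fn X) a / algebraMap (O X c) (Fn X) b * (t : Fn X) ^ ((m : ℤ) - n)
        = ((a : Fn X) / t ^ n) / ((b : Fn X) / t ^ m) := by
      rw [zpow_sub₀ ht, zpow_natCast, zpow_natCast]
      change (a : Fn X) / b * _ = _
      field_simp
    rw [e]
    exact hn.div hm
  · obtain ⟨s, hs, hs1, hs2⟩ := spec_frac hd h3
    exact h1 ⟨s, hs⟩ (fun hsp => hs1.2 ((H ⟨s, hs⟩).2 hsp)) ⟨_, hs2⟩ rfl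

theorem lift_at (c : X.left) (ev : O X c →ₐ[K] K) (d : O X c →ₗ[K] K)
    (hd : ∀ a b, d (a * b) = ev a * d b + ev b * d a) :
    ∃ (D : Dr X) (H : RegAt D c), ∀ b : O X c, ev ⟨D b, H b b.2⟩ = d b := by
  have := O_smooth c
  obtain ⟨D₀, h0⟩ := lift_der ev d hd
  obtain ⟨D, hD⟩ := frac_ext (F := Fn X) D₀
  have e : ∀ b : O X c, D b = D₀ b := hD
  refine ⟨D, fun b hb => (e ⟨b, hb⟩).symm ▸ (D₀ ⟨b, hb⟩).2, fun b => ?_⟩
  rw [← h0 b]
  exact congrArg ev (Subtype.ext (e b))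

theorem av_smooth (A : Sch K) [GrpObj A] [IsProper A.hom] [GeometricallyIntegral A.hom] :
    Smooth A.hom := by
  let : GrpObj (Over.mk A.hom) := ‹GrpObj A›
  exact smooth_of_grpObj A.hom

end Pool.Agent.Work.MP_e120ef_ag
end

-- merged part: Pool.Agent.Work.MP_e120ef_ag.PO
section
/-!
# Regular extension of a derivation at an unramified prime divisor

Plans.  First: `u * t ^ n` unit with `u ∈ O X x` forces `n ≤ 0`; `u ∈ mp X x 1` iff `u = t * a` with `a ∈ O X x`; every `u` has `t ^ N * u ∈ O X x` for some `N`; for `u`, `v` either `u = a v` or `v = a u` with `a ∈ O X x`.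
`pole_bound`: affine `U ∋ x`, finitely many generators of `B X U` (`aff_finiteType`); the set of `b ∈ O X x` with `t ^ N * D b ∈ O X x` is a subalgebra, closed under inverting units; `aff_frac`.
`pole_desc`: induction on `N` in `∀ b ∈ O X x, t ^ N * D b ∈ O X x`.  Given `b` take `Q` as in `halg` of minimal `natDegree`; it is not constant, its derivative `Q'` still has a unit coefficient (characteristic `0`; first remove the leading coefficients that
are not units, or minimise the largest index of a unit coefficient), so `Q' b` is a unit.  `Q b = t b₁`, and `Q' b * D b = - Q^D b + b₁ D t + t D b₁` (`Derivation.apply_aeval_eq`, or expand the sum).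
`PO`: let `R₀ = π.range ⊓ O X x`, `κ` the residue field of `O X x`, `κ₀` the image of `R₀`.  Choose a transcendence basis of `κ` over the domain `κ₀` (`exists_isTranscendenceBasis`) and lifts `y i ∈ O X x`.  If `t ∈ π.range`: the `y i` are independent over
`F₀` (divide a relation by a coefficient which divides all the others in `O X x`); extend `δ` with `D (y i) = 0`.  If all `π a ∈ O X x`: the family `Option.elim · t y` is independent (expand in powers of `t`, `MvPolynomial.optionEquivLeft`, and look at the lowest one; nonzero `π a` are units);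
extend with `D t = 0` too.  Apply `pole_desc` to `R = Algebra.adjoin K (R₀ ∪ range y ∪ {t})`.
-/

open CategoryTheory AlgebraicGeometry

namespace Pool.Agent.Work.MP_e120ef_ag

variable {K : Type} [Field K] {X : Sch K} [IsIntegral X.left] [IsProper X.hom] {x : X.left}
  {t : Fn X}

omit [IsProper X.hom] in
theorem PO_mem (ht : IsUnif x t) : t ∈ O X x := mem_O_of_mp ht.1

omit [IsProper X.hom] in
theorem PO_mul_mem (ht : IsUnif x t) {a : Fn X} (ha : a ∈ O X x) : t * a ∈ mp X x 1 :=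
  mul_comm a t ▸ O_mul_mem_mp ha ht.1

omit [IsProper X.hom] in
/-- every nonzero element is a unit times an integral power of `t` -/
theorem PO_eq (ht : IsUnif x t) {u : Fn X} (hu : u ≠ 0) :
    ∃ (n : ℤ) (e : Fn X), IsU X x e ∧ u = e * t ^ n := by
  obtain ⟨n, hn⟩ := ht.2.2 u hu
  refine ⟨-n, _, hn, ?_⟩
  rw [mul_assoc, ← zpow_add₀ ht.2.1, add_neg_cancel, zpow_zero, mul_one]

omit [IsProper X.hom] in
theorem PO_zpow_mem (ht : IsUnif x t) {n : ℤ} (hn : 0 ≤ n) : t ^ n ∈ O X x := by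
  obtain ⟨m, rfl⟩ := Int.eq_ofNat_of_zero_le hn
  rw [zpow_natCast]
  exact pow_mem (PO_mem ht) m

omit [IsProper X.hom] in
theorem PO_of_mp (ht : IsUnif x t) {u : Fn X} (hu : u ∈ mp X x 1) : ∃ a ∈ O X x, u = t * a := by
  by_cases h0 : u = 0
  · exact ⟨0, zero_mem _, by rw [h0, mul_zero]⟩
  obtain ⟨n, e, he, rfl⟩ := PO_eq ht h0
  by_cases hn : 1 ≤ n
  · refine ⟨e * t ^ (n - 1), mul_mem he.1 (PO_zpow_mem ht (by omega)), ?_⟩
    rw [zpow_sub_one₀ ht.2.1]
    field_simp [ht.2.1]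
  · exfalso
    have h1 := O_mul_mem_mp (PO_zpow_mem ht (n := -n) (by omega)) hu
    rw [mul_left_comm, ← zpow_add₀ ht.2.1, neg_add_cancel, zpow_zero, mul_one] at h1
    exact he.2 h1

omit [IsProper X.hom] in
theorem PO_pow (ht : IsUnif x t) (u : Fn X) : ∃ N : ℕ, t ^ N * u ∈ O X x := by
  by_cases h0 : u = 0
  · exact ⟨0, by rw [h0, mul_zero]; exact zero_mem _⟩
  obtain ⟨n, e, he, rfl⟩ := PO_eq ht h0
  refine ⟨n.natAbs, ?_⟩
  rw [mul_left_comm, ← zpow_natCast, ← zpow_add₀ ht.2.1]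
  exact mul_mem he.1 (PO_zpow_mem ht (by omega))

omit [IsProper X.hom] in
theorem PO_pow_mono (ht : IsUnif x t) {u : Fn X} {N M : ℕ} (h : N ≤ M) (hu : t ^ N * u ∈ O X x) :
    t ^ M * u ∈ O X x := by
  obtain ⟨j, rfl⟩ := Nat.exists_eq_add_of_le' h
  rw [pow_add, mul_assoc]
  exact mul_mem (pow_mem (PO_mem ht) j) hu

omit [IsProper X.hom] in
theorem PO_total (ht : IsUnif x t) {u v : Fn X} (hu : u ≠ 0) (hv : v ≠ 0) :
    u / v ∈ O X x ∨ v / u ∈ O X x := by
  obtain ⟨n, e, he, h⟩ := PO_eq ht (div_ne_zero hu hv)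
  by_cases hn : 0 ≤ n
  · exact Or.inl (h ▸ mul_mem he.1 (PO_zpow_mem ht hn))
  · right
    rw [← inv_div, h, mul_inv, ← zpow_neg]
    exact mul_mem he.inv.1 (PO_zpow_mem ht (by omega))

omit [IsProper X.hom] in
/-- among finitely many nonzero elements one divides all the others -/
theorem PO_min (ht : IsUnif x t) {ι : Type} (c : ι → Fn X) {s : Finset ι} (hs : s.Nonempty) :
    (∀ i ∈ s, c i ≠ 0) → ∃ i ∈ s, ∀ j ∈ s, c j / c i ∈ O X x := by
  induction hs using Finset.Nonempty.cons_induction with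
  | singleton a =>
    intro h
    refine ⟨a, Finset.mem_singleton_self a, fun j hj => ?_⟩
    rw [Finset.mem_singleton.1 hj, div_self (h a (Finset.mem_singleton_self a))]
    exact one_mem _
  | cons a s ha _ ih =>
    intro h
    obtain ⟨i, hi, H⟩ := ih fun j hj => h j (Finset.mem_cons_of_mem hj)
    have ha0 := h a (Finset.mem_cons_self a s)
    have hi0 := h i (Finset.mem_cons_of_mem hi)
    rcases PO_total ht ha0 hi0 with h1 | h1
    · refine ⟨i, Finset.mem_cons_of_mem hi, fun j hj => ?_⟩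
      rcases Finset.mem_cons.1 hj with rfl | hj
      · exact h1
      · exact H j hj
    · refine ⟨a, Finset.mem_cons_self a s, fun j hj => ?_⟩
      rcases Finset.mem_cons.1 hj with rfl | hj
      · rw [div_self ha0]
        exact one_mem _
      · have e : c j / c a = c j / c i * (c i / c a) := by field_simp
        rw [e]
        exact mul_mem (H j hj) h1

omit [IsProper X.hom] in
theorem PO_mul (D : Dr X) (a b : Fn X) : D (a * b) = a * D b + b * D a := by
  rw [D.leibniz, smul_eq_mul, smul_eq_mul]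

/-- the functions regular at `x` whose derivative times `w` is regular at `x` -/
def PO_sub (x : X.left) (D : Dr X) (w : Fn X) : Subalgebra K (Fn X) where
  carrier := {a | a ∈ O X x ∧ w * D a ∈ O X x}
  mul_mem' := fun {a b} ha hb => ⟨mul_mem ha.1 hb.1, by
    have e : w * D (a * b) = a * (w * D b) + b * (w * D a) := by rw [PO_mul]; ring
    rw [e]
    exact add_mem (mul_mem ha.1 hb.2) (mul_mem hb.1 ha.2)⟩
  add_mem' := fun {a b} ha hb => ⟨add_mem ha.1 hb.1, by
    rw [map_add, mul_add]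
    exact add_mem ha.2 hb.2⟩
  algebraMap_mem' := fun c => ⟨Subalgebra.algebraMap_mem _ c, by
    rw [D.map_algebraMap, mul_zero]
    exact zero_mem _⟩

omit [IsProper X.hom] in
theorem PO_mem_sub {D : Dr X} {w a : Fn X} : a ∈ PO_sub x D w ↔ a ∈ O X x ∧ w * D a ∈ O X x :=
  Iff.rfl

theorem pole_bound (ht : IsUnif x t) (D : Dr X) : ∃ N : ℕ, ∀ b ∈ O X x, t ^ N * D b ∈ O X x := by
  obtain ⟨U, hU, hx, -⟩ := exists_aff (X := X) (W := ⊤) (x := x) trivial
  obtain ⟨s, hs⟩ := (aff_finiteType hU (gp_mem hx)).out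
  choose n hn using fun b : B X U => PO_pow ht (D b)
  have h1 : ∀ b : B X U, (b : Fn X) ∈ PO_sub x D (t ^ s.sup n) := by
    have h2 : Algebra.adjoin K (s : Set (B X U)) ≤ (PO_sub x D (t ^ s.sup n)).comap (B X U).val :=
      Algebra.adjoin_le fun b hb =>
        PO_mem_sub.2 ⟨B_le_O hx b.2, PO_pow_mono ht (Finset.le_sup hb) (hn b)⟩
    intro b
    exact h2 (hs ▸ Algebra.mem_top)
  refine ⟨s.sup n, fun b hb => ?_⟩
  obtain ⟨c, hc, hcu, hcb⟩ := aff_frac hU hx hb
  have h3 := (PO_mem_sub.1 (h1 ⟨_, hcb⟩)).2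
  have h4 := (PO_mem_sub.1 (h1 ⟨_, hc⟩)).2
  rw [← hcu.mul_mem_O_iff]
  have e : c * (t ^ s.sup n * D b) = t ^ s.sup n * D (c * b) - b * (t ^ s.sup n * D c) := by
    rw [PO_mul]; ring
  rw [e]
  exact sub_mem h3 (mul_mem hb h4)

variable [CharZero K]

omit [IsProper X.hom] [CharZero K] in
theorem PO_aeval_mem {R : Subalgebra K (Fn X)} (hR : R ≤ O X x) {b : Fn X} (hb : b ∈ O X x)
    (Q : Polynomial R) : Polynomial.aeval b Q ∈ O X x := by
  induction Q using Polynomial.induction_on' with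
  | add p q hp hq => rw [map_add]; exact add_mem hp hq
  | monomial n a =>
    rw [Polynomial.aeval_monomial]
    exact mul_mem (hR a.2) (pow_mem hb n)

omit [IsProper X.hom] [CharZero K] in
theorem PO_der_aeval (D : Dr X) {R : Subalgebra K (Fn X)} (hD : ∀ a ∈ R, D a ∈ O X x) {b : Fn X}
    (hb : b ∈ O X x) (Q : Polynomial R) :
    D (Polynomial.aeval b Q) - Polynomial.aeval b (Polynomial.derivative Q) * D b ∈ O X x := by
  induction Q using Polynomial.induction_on' with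
  | add p q hp hq =>
    have e := add_mem hp hq
    simp only [map_add]
    convert e using 1
    ring
  | monomial n a =>
    rw [Polynomial.derivative_monomial, Polynomial.aeval_monomial, Polynomial.aeval_monomial,
      PO_mul, D.leibniz_pow, map_mul, map_natCast]
    have e := mul_mem (pow_mem hb n) (hD a a.2)
    convert e using 1
    simp only [nsmul_eq_mul, smul_eq_mul]
    change _ + b ^ n * D a - _ = _
    ring

omit [IsProper X.hom] in
/-- a relation modulo the maximal ideal can be chosen separable -/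
theorem PO_sep {R : Subalgebra K (Fn X)} (hR : R ≤ O X x) {b : Fn X} (hb : b ∈ O X x) (n : ℕ) :
    ∀ Q : Polynomial R, Q.natDegree = n → (∃ i, IsU X x (Q.coeff i)) →
      Polynomial.aeval b Q ∈ mp X x 1 → ∃ Q : Polynomial R, Polynomial.aeval b Q ∈ mp X x 1 ∧
        IsU X x (Polynomial.aeval b (Polynomial.derivative Q)) := by
  induction n using Nat.strong_induction_on with
  | _ n ih =>
    intro Q hn hi hQ
    by_cases h : Polynomial.aeval b (Polynomial.derivative Q) ∈ mp X x 1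
    swap
    · exact ⟨Q, hQ, PO_aeval_mem hR hb _, h⟩
    have h1 : ∃ j, IsU X x (Q.coeff (j + 1)) := by
      by_contra hj
      have h2 : ∀ j, (Q.coeff (j + 1) : Fn X) ∈ mp X x 1 := fun j => by
        by_contra h3
        exact hj ⟨j, hR (Q.coeff (j + 1)).2, h3⟩
      obtain ⟨i, hi⟩ := hi
      rcases i with _ | i
      · rw [Polynomial.aeval_eq_sum_range, Finset.sum_range_succ'] at hQ
        have h4 : ∑ k ∈ Finset.range Q.natDegree, Q.coeff (k + 1) • b ^ (k + 1) ∈ mp X x 1 :=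
          sum_mem fun k _ => by
            change (Q.coeff (k + 1) : Fn X) * b ^ (k + 1) ∈ _
            rw [mul_comm]
            exact O_mul_mem_mp (pow_mem hb _) (h2 k)
        have h5 := sub_mem hQ h4
        rw [add_sub_cancel_left, pow_zero] at h5
        change (Q.coeff 0 : Fn X) * 1 ∈ _ at h5
        rw [mul_one] at h5
        exact hi.2 h5
      · exact hi.2 (h2 i)
    obtain ⟨j, hj⟩ := h1
    have h0 : Q.natDegree ≠ 0 := by
      have : j + 1 ≤ Q.natDegree :=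
        Polynomial.le_natDegree_of_ne_zero fun h6 => hj.ne_zero (by rw [h6]; rfl)
      omega
    refine ih _ (hn ▸ Polynomial.natDegree_derivative_lt h0) _ rfl ⟨j, ?_⟩ h
    rw [Polynomial.coeff_derivative]
    have h7 : IsU X x (algebraMap K (Fn X) ((j + 1 : ℕ) : K)) :=
      isU_algebraMap (Nat.cast_ne_zero.2 (Nat.succ_ne_zero j))
    rw [map_natCast] at h7
    have h8 := hj.mul h7
    push_cast at h8 ⊢
    exact h8

theorem pole_desc (ht : IsUnif x t) (D : Dr X) (R : Subalgebra K (Fn X)) (hR : R ≤ O X x)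
    (htR : t ∈ R) (hD : ∀ a ∈ R, D a ∈ O X x)
    (halg : ∀ b ∈ O X x, ∃ Q : Polynomial R, (∃ i, IsU X x (Q.coeff i)) ∧
      Polynomial.aeval b Q ∈ mp X x 1) : RegAt D x := by
  obtain ⟨N, hN⟩ := pole_bound ht D
  induction N with
  | zero => exact fun b hb => by simpa using hN b hb
  | succ N ih =>
    refine ih fun b hb => ?_
    obtain ⟨Q₀, h1, h2⟩ := halg b hb
    obtain ⟨Q, h3, h4⟩ := PO_sep hR hb _ Q₀ rfl h1 h2
    obtain ⟨c, hc, e⟩ := PO_of_mp ht h3
    have h5 := PO_der_aeval D hD hb Q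
    rw [e, PO_mul] at h5
    have htN : t ^ N ∈ O X x := pow_mem (PO_mem ht) N
    rw [← h4.mul_mem_O_iff]
    have h6 := sub_mem (add_mem (hN c hc) (mul_mem htN (mul_mem hc (hD t htR)))) (mul_mem htN h5)
    convert h6 using 1
    ring

/-- lifts of a transcendence basis of the residue field -/
theorem PO_basis {S A : Type} [CommRing S] [CommRing A] [IsLocalRing A] (ψ : S →+* A) :
    ∃ (ι : Type) (z : ι → A),
      (∀ P : MvPolynomial ι S, MvPolynomial.eval₂ ψ z P ∈ IsLocalRing.maximalIdeal A →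
        ∀ m, ψ (P.coeff m) ∈ IsLocalRing.maximalIdeal A) ∧
      ∀ b : A, ∃ Q : Polynomial (MvPolynomial ι S),
        (∃ i, MvPolynomial.eval₂ ψ z (Q.coeff i) ∉ IsLocalRing.maximalIdeal A) ∧
        Polynomial.eval₂ (MvPolynomial.eval₂Hom ψ z) b Q ∈ IsLocalRing.maximalIdeal A := by
  let φ : S →+* IsLocalRing.ResidueField A := (IsLocalRing.residue A).comp ψ
  obtain ⟨s, hs⟩ := exists_isTranscendenceBasis φ.range (IsLocalRing.ResidueField A)
  choose z hz using fun i : s => IsLocalRing.residue_surjective (i : IsLocalRing.ResidueField A)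
  have key : ∀ P : MvPolynomial s S, IsLocalRing.residue A (MvPolynomial.eval₂ ψ z P) =
      MvPolynomial.aeval (fun i : s => (i : IsLocalRing.ResidueField A))
        (MvPolynomial.map φ.rangeRestrict P) := fun P => by
    induction P using MvPolynomial.induction_on with
    | C a =>
      rw [MvPolynomial.eval₂_C, MvPolynomial.map_C, MvPolynomial.aeval_C]
      rfl
    | add p q hp hq => rw [MvPolynomial.eval₂_add, map_add, map_add, map_add, hp, hq]
    | mul_X p i hp =>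
      rw [MvPolynomial.eval₂_mul, map_mul, map_mul, map_mul, hp, MvPolynomial.eval₂_X,
        MvPolynomial.map_X, MvPolynomial.aeval_X, hz]
  refine ⟨s, z, fun P hP m => ?_, fun b => ?_⟩
  · have h1 := algebraicIndependent_iff.1 hs.1 _
      ((key P).symm.trans ((IsLocalRing.residue_eq_zero_iff _).2 hP))
    have h2 := congrArg (MvPolynomial.coeff m) h1
    rw [MvPolynomial.coeff_map, MvPolynomial.coeff_zero] at h2
    exact (IsLocalRing.residue_eq_zero_iff _).1 (congrArg Subtype.val h2)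
  · obtain ⟨q, hq0, hq⟩ := hs.isAlgebraic.isAlgebraic (IsLocalRing.residue A b)
    let θ : MvPolynomial s S →+* Algebra.adjoin φ.range
        (Set.range fun i : s => (i : IsLocalRing.ResidueField A)) :=
      ((IsLocalRing.residue A).comp (MvPolynomial.eval₂Hom ψ z)).codRestrict _ fun P => by
        rw [Algebra.adjoin_range_eq_range_aeval]
        exact ⟨_, (key P).symm⟩
    have hθ : Function.Surjective θ := by
      rintro ⟨c, hc⟩
      rw [Algebra.adjoin_range_eq_range_aeval] at hc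
      obtain ⟨P', rfl⟩ := hc
      obtain ⟨P, rfl⟩ := MvPolynomial.map_surjective _ φ.rangeRestrict_surjective P'
      exact ⟨P, Subtype.ext (key P)⟩
    obtain ⟨Q, rfl⟩ := Polynomial.map_surjective θ hθ q
    refine ⟨Q, ?_, ?_⟩
    · by_contra h
      refine hq0 (Polynomial.ext fun i => ?_)
      rw [Polynomial.coeff_map, Polynomial.coeff_zero]
      refine Subtype.ext ((IsLocalRing.residue_eq_zero_iff _).2 ?_)
      by_contra h1
      exact h ⟨i, h1⟩
    · rw [← IsLocalRing.residue_eq_zero_iff, Polynomial.hom_eval₂, ← hq, Polynomial.aeval_def,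
        Polynomial.eval₂_map]
      rfl

omit [IsProper X.hom] [CharZero K] in
theorem PO_transc (ht : IsUnif x t) {A : Type} [CommRing A] (ψ : A →+* Fn X)
    (h1 : ∀ a, ψ a ∈ O X x) (h2 : ∀ a, ψ a ∈ mp X x 1 → a = 0) (n : ℕ) :
    ∀ p : Polynomial A, p.natDegree = n → Polynomial.eval₂ ψ t p = 0 → p = 0 := by
  have hmem : ∀ p : Polynomial A, Polynomial.eval₂ ψ t p ∈ O X x := fun p => by
    induction p using Polynomial.induction_on' with
    | add p q hp hq => rw [Polynomial.eval₂_add]; exact add_mem hp hq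
    | monomial n a =>
      rw [Polynomial.eval₂_monomial]
      exact mul_mem (h1 a) (pow_mem (PO_mem ht) n)
  induction n using Nat.strong_induction_on with
  | _ n ih =>
    intro p hn hp
    have e := Polynomial.X_mul_divX_add p
    have e1 : t * Polynomial.eval₂ ψ t p.divX + ψ (p.coeff 0) = 0 := by
      rw [← hp]
      conv_rhs => rw [← e]
      rw [Polynomial.eval₂_add, Polynomial.eval₂_mul, Polynomial.eval₂_X, Polynomial.eval₂_C]
    have h3 : p.coeff 0 = 0 := by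
      refine h2 _ ?_
      rw [eq_neg_of_add_eq_zero_right e1]
      exact neg_mem (PO_mul_mem ht (hmem _))
    rw [h3, map_zero, add_zero, mul_eq_zero] at e1
    have h4 : p.divX = 0 := by
      by_cases h0 : p.natDegree = 0
      · exact Polynomial.divX_eq_zero_iff.2 (Polynomial.eq_C_of_natDegree_eq_zero h0)
      · refine ih _ ?_ _ rfl (e1.resolve_left ht.2.1)
        rw [Polynomial.natDegree_divX_eq_natDegree_tsub_one]
        omega
    rw [← e, h4, h3, mul_zero, map_zero, add_zero]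

theorem PO {F₀ : Type} [Field F₀] [Algebra K F₀] (π : F₀ →ₐ[K] Fn X) (δ : Derivation K F₀ F₀)
    (ht : IsUnif x t) (h : (∀ a, π a ∈ O X x) ∨ ∃ a, π a = t)
    (hδ : ∀ a, π a ∈ O X x → π (δ a) ∈ O X x) :
    ∃ D : Dr X, RegAt D x ∧ ∀ a, D (π a) = π (δ a) := by
  let S₀ : Subalgebra K F₀ := (O X x).comap π
  let ψ : S₀ →+* O X x :=
    ((π : F₀ →+* Fn X).comp S₀.val.toRingHom).codRestrict (O X x) fun a => a.2
  obtain ⟨ι, z, hz1, hz2⟩ := PO_basis ψ
  have hev : ∀ P : MvPolynomial ι S₀, ((MvPolynomial.eval₂ ψ z P : O X x) : Fn X) =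
      MvPolynomial.eval₂ (π : F₀ →+* Fn X) (fun i => (z i : Fn X))
        (MvPolynomial.map S₀.val.toRingHom P) := fun P => by
    rw [MvPolynomial.eval₂_map]
    exact MvPolynomial.eval₂_comp_left (O X x).val.toRingHom ψ z P
  have hz3 : ∀ P : MvPolynomial ι F₀, (∀ m, π (P.coeff m) ∈ O X x) →
      MvPolynomial.eval₂ (π : F₀ →+* Fn X) (fun i => (z i : Fn X)) P ∈ mp X x 1 →
      ∀ m, π (P.coeff m) ∈ mp X x 1 := fun P h1 h2 m => by
    obtain ⟨P₀, rfl⟩ : ∃ P₀, MvPolynomial.map S₀.val.toRingHom P₀ = P := by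
      refine ⟨∑ m ∈ P.support, MvPolynomial.monomial m ⟨P.coeff m, h1 m⟩, ?_⟩
      rw [map_sum]
      simp only [MvPolynomial.map_monomial]
      exact P.as_sum.symm
    rw [← hev, coe_mem_mp, pow_one] at h2
    have h3 := hz1 P₀ h2 m
    rw [← pow_one (IsLocalRing.maximalIdeal _), ← coe_mem_mp] at h3
    rw [MvPolynomial.coeff_map]
    exact h3
  obtain ⟨D, hD1, hD2, hD3⟩ : ∃ D : Dr X, (∀ a, D (π a) = π (δ a)) ∧ (∀ i, D (z i) = 0) ∧
      D t ∈ O X x := by
    rcases h with h | ⟨a, rfl⟩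
    · suffices hind : ∀ P : MvPolynomial (Option ι) F₀, MvPolynomial.eval₂ (π : F₀ →+* Fn X)
          (fun o : Option ι => o.elim t fun i => (z i : Fn X)) P = 0 → P = 0 by
        obtain ⟨D, h1, h2⟩ := exists_der_ext π δ _ hind fun _ => 0
        exact ⟨D, h1, fun i => h2 (some i), (h2 none : D t = 0) ▸ zero_mem _⟩
      intro P hP
      refine (MvPolynomial.optionEquivLeft F₀ ι).injective ?_
      rw [map_zero]
      refine PO_transc ht (MvPolynomial.eval₂Hom (π : F₀ →+* Fn X) fun i => (z i : Fn X))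
        (fun a => ?_) (fun a ha => ?_) _ _ rfl ?_
      · induction a using MvPolynomial.induction_on with
        | C a => rw [MvPolynomial.eval₂Hom_C]; exact h a
        | add p q hp hq => rw [map_add]; exact add_mem hp hq
        | mul_X p i hp => rw [map_mul, MvPolynomial.eval₂Hom_X']; exact mul_mem hp (z i).2
      · refine MvPolynomial.ext _ _ fun m => ?_
        rw [MvPolynomial.coeff_zero]
        by_contra h0
        refine (isU_iff.2 ⟨(_root_.map_ne_zero π).2 h0, h _, ?_⟩).2 (hz3 a (fun _ => h _) ha m)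
        rw [← map_inv₀]
        exact h _
      · rw [← hP]
        clear hP
        induction P using MvPolynomial.induction_on with
        | C a =>
          rw [MvPolynomial.optionEquivLeft_C, Polynomial.eval₂_C, MvPolynomial.eval₂Hom_C,
            MvPolynomial.eval₂_C]
        | add p q hp hq => rw [map_add, Polynomial.eval₂_add, MvPolynomial.eval₂_add, hp, hq]
        | mul_X p i hp =>
          rw [map_mul, Polynomial.eval₂_mul, MvPolynomial.eval₂_mul, hp, MvPolynomial.eval₂_X]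
          rcases i with _ | i
          · rw [MvPolynomial.optionEquivLeft_X_none, Polynomial.eval₂_X]
            rfl
          · rw [MvPolynomial.optionEquivLeft_X_some, Polynomial.eval₂_C, MvPolynomial.eval₂Hom_X']
            rfl
    · suffices hind : ∀ P : MvPolynomial ι F₀, MvPolynomial.eval₂ (π : F₀ →+* Fn X)
          (fun i => (z i : Fn X)) P = 0 → P = 0 by
        obtain ⟨D, h1, h2⟩ := exists_der_ext π δ _ hind fun _ => 0
        exact ⟨D, h1, h2, (h1 a).symm ▸ hδ a (PO_mem ht)⟩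
      intro P hP
      by_contra h0
      have hne : ∀ m ∈ P.support, π (P.coeff m) ≠ 0 := fun m hm =>
        (_root_.map_ne_zero π).2 (MvPolynomial.mem_support_iff.1 hm)
      obtain ⟨m, hm, H⟩ := PO_min ht (fun m => π (P.coeff m)) (MvPolynomial.support_nonempty.2 h0) hne
      suffices h3 : π ((MvPolynomial.C (P.coeff m)⁻¹ * P).coeff m) ∈ mp X x 1 by
        rw [MvPolynomial.coeff_C_mul, inv_mul_cancel₀ (MvPolynomial.mem_support_iff.1 hm),
          map_one] at h3
        exact one_notMem_mp h3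
      refine hz3 _ (fun j => ?_) ?_ m
      · rw [MvPolynomial.coeff_C_mul, map_mul, map_inv₀, ← div_eq_inv_mul]
        by_cases hj : j ∈ P.support
        · exact H j hj
        · rw [MvPolynomial.notMem_support_iff.1 hj, map_zero, zero_div]
          exact zero_mem _
      · rw [MvPolynomial.eval₂_mul, hP, mul_zero]
        exact zero_mem _
  refine ⟨D, pole_desc ht D (PO_sub x D 1) (fun a ha => ha.1) ⟨PO_mem ht, by rwa [one_mul]⟩
    (fun a ha => by simpa using ha.2) fun b hb => ?_, hD1⟩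
  have hmem : ∀ P : MvPolynomial ι S₀,
      ((MvPolynomial.eval₂ ψ z P : O X x) : Fn X) ∈ PO_sub x D 1 := fun P => by
    induction P using MvPolynomial.induction_on with
    | C a =>
      rw [MvPolynomial.eval₂_C]
      refine ⟨(ψ a).2, ?_⟩
      change 1 * D (π a) ∈ _
      rw [one_mul, hD1]
      exact hδ a a.2
    | add p q hp hq => rw [MvPolynomial.eval₂_add]; exact add_mem hp hq
    | mul_X p i hp =>
      rw [MvPolynomial.eval₂_mul, MvPolynomial.eval₂_X]
      refine mul_mem hp ⟨(z i).2, ?_⟩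
      rw [hD2, mul_zero]
      exact zero_mem _
  let θ : MvPolynomial ι S₀ →+* PO_sub x D 1 :=
    ((O X x).val.toRingHom.comp (MvPolynomial.eval₂Hom ψ z)).codRestrict _ hmem
  obtain ⟨Q, ⟨i, hi⟩, hQ⟩ := hz2 ⟨b, hb⟩
  rw [← pow_one (IsLocalRing.maximalIdeal _), ← coe_mem_mp] at hi hQ
  refine ⟨Q.map θ, ⟨i, ?_⟩, ?_⟩
  · rw [Polynomial.coeff_map]
    exact ⟨(MvPolynomial.eval₂ ψ z (Q.coeff i)).2, hi⟩
  · have e := Polynomial.hom_eval₂ Q (MvPolynomial.eval₂Hom ψ z) (O X x).val.toRingHom ⟨b, hb⟩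
    rw [Polynomial.aeval_def, Polynomial.eval₂_map]
    exact e ▸ hQ

end Pool.Agent.Work.MP_e120ef_ag
end

-- merged part: Pool.Agent.Work.MP_e120ef_ag.Bad
section
/-!
# Where a good function has poles along an integral curve

Plans.  Let `π = pbF hα`, `y = α d`.  `polar`: if `y = gp A` all `π a` are in `O X d` (`pb_mem_O`, `O_gp`), `PO` lifts every `δ k`, and `Good` gives `h ∈ O X d`.  Otherwise, if some `u ∉ O A y` has `π u ∈ O X d`, take `d'` from `hartogs` on `A`: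
`d' ≠ gp A` (`O_gp`), and `d' ≠ y` (else `u t ^ n` is a unit at `y` with `n > 0`, so `u⁻¹ ∈ mp A y 1`, `π u⁻¹ ∈ mp X d 1`, `1 = π u * π u⁻¹`).  If there is no such `u`, then `π a ∈ O X d → π (δ a) ∈ O X d`; if some `a ∈ mp A y 1` has `π a ∉ mp X d 2`, then `π a` is a uniformiser
(`π a * t ^ n` unit forces `n = -1`), and `PO` applies again.
`bad`: for each of the finitely many `d` of `pol_finite` choose: in the first case `𝒵 d = {y}`; in the second case `e d` from `exists_ne_zero`, the closed set `C = {x | y ⤳ x ∧ ∀ a ∈ O A x, a ∈ mp A y 1 → ξ a ∈ mp A x 1}`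
(the complement is open: `reg a ⊓ ul (ξ a)`), `𝒵 d = S \ {y}` with `S` from `fin_max`.  Given `c`, take `d ⤳ c` from `hartogs` on `X`.  In the second case `α c ∈ C` (`RegAt.of_spec`, `RegAt.mp_two`, `mem_mp_of_spec`, `Tan`).  If the point `z ∈ S` above `α c` is `y`, then `ξ` preserves
`mp A y 1`, so `Leaf` and `spec_of_le` give `y ⤳ η`, and `e d` is a unit at `y` (`IsU.of_spec`): contradiction.
`mult`: for `U` in `fin_cover A` let `a U` be the product over the polar `d` with `α d ∈ U` of a high power of a nonzero element of `B A U ∩ mp A (α d) 1` (`exists_ne_zero`, `aff_frac_mp`), so `π (a U) * h ∈ O X d`; `hartogs` on `X` gives `π (a U) * h ∈ O X c` if `α c ∈ U`.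
The ideals of `B A U` spanned by the `ξ^[j] (a U)`, `j ≤ μ`, stabilise (`aff_noeth`, `monotone_stabilizes_iff_noetherian`).
-/

open CategoryTheory AlgebraicGeometry

namespace Pool.Agent.Work.MP_e120ef_ag

section aux

variable {K : Type} [Field K] {X : Sch K} [IsIntegral X.left] {x : X.left} {t u v : Fn X}

theorem Bad_pow_mp (ht : t ∈ mp X x 1) (n : ℕ) : t ^ n ∈ mp X x n := by
  induction n with
  | zero => rw [pow_zero]; exact mem_mp_zero.2 (one_mem _)
  | succ n ih => rw [pow_succ]; exact mul_mem_mp ih ht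

theorem Bad_zpow_mp (ht : t ∈ mp X x 1) {n : ℤ} {p : ℕ} (hn : (p : ℤ) ≤ n) :
    t ^ n ∈ mp X x p := by
  obtain ⟨m, rfl⟩ := Int.eq_ofNat_of_zero_le (le_trans (Int.natCast_nonneg p) hn)
  rw [zpow_natCast]
  exact mp_anti (by exact_mod_cast hn) (Bad_pow_mp ht m)

theorem Bad_mem_mp (ht : t ∈ mp X x 1) (h0 : t ≠ 0) {n : ℤ} {p : ℕ} (hu : IsU X x (u * t ^ n))
    (hn : (p : ℤ) ≤ -n) : u ∈ mp X x p := by
  have h1 := O_mul_mem_mp hu.1 (Bad_zpow_mp ht hn)
  rwa [mul_assoc, ← zpow_add₀ h0, add_neg_cancel, zpow_zero, mul_one] at h1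

theorem Bad_neg (ht : t ∈ mp X x 1) {n : ℤ} (hu : IsU X x (u * t ^ n)) (hm : u ∈ mp X x 1) :
    n ≤ -1 := by
  by_contra hn
  have h1 : t ^ n ∈ mp X x 0 := Bad_zpow_mp ht (by push_cast; omega)
  exact hu.2 (mul_comm (t ^ n) u ▸ O_mul_mem_mp (mem_O_of_mp h1) hm)

theorem Bad_inv_mp (ht : IsUnif x t) (hu : u ∉ O X x) : u⁻¹ ∈ mp X x 1 := by
  have h0 : u ≠ 0 := fun h => hu (h ▸ zero_mem _)
  obtain ⟨n, hn⟩ := ht.2.2 u h0
  have h1 : (1 : ℤ) ≤ n := by
    by_contra h2
    exact hu (mem_O_of_mp (Bad_mem_mp (p := 0) ht.1 ht.2.1 hn (by push_cast; omega)))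
  have h2 : IsU X x (u⁻¹ * t ^ (-n)) := by
    have := hn.inv
    rwa [mul_inv, ← zpow_neg] at this
  exact Bad_mem_mp ht.1 ht.2.1 h2 (by push_cast; omega)

theorem Bad_unif (ht : IsUnif x t) (h1 : v ∈ mp X x 1) (h2 : v ∉ mp X x 2) : IsUnif x v := by
  have h0 : v ≠ 0 := fun h => h2 (h ▸ zero_mem _)
  obtain ⟨n, hn⟩ := ht.2.2 v h0
  have h3 := Bad_neg ht.1 hn h1
  have h4 : n = -1 := by
    by_contra h5
    exact h2 (Bad_mem_mp ht.1 ht.2.1 hn (by push_cast; omega))
  subst h4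
  refine ⟨h1, h0, fun u hu => ?_⟩
  obtain ⟨m, hm⟩ := ht.2.2 u hu
  refine ⟨m, ?_⟩
  have h5 := hm.mul (hn.zpow m)
  have h6 : t ^ m ≠ 0 := zpow_ne_zero m ht.2.1
  have e : u * t ^ m * (v * t ^ (-1 : ℤ)) ^ m = u * v ^ m := by
    rw [mul_zpow, zpow_neg_one, inv_zpow]
    field_simp
  rwa [e] at h5

theorem Bad_clear (ht : IsUnif x t) (hv : v ∈ mp X x 1) (u : Fn X) :
    ∃ N : ℕ, v ^ N * u ∈ O X x := by
  by_cases hu : u = 0
  · exact ⟨0, by rw [hu, mul_zero]; exact zero_mem _⟩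
  by_cases h0 : v = 0
  · exact ⟨1, by rw [h0, pow_one, zero_mul]; exact zero_mem _⟩
  obtain ⟨n, hn⟩ := ht.2.2 u hu
  obtain ⟨m, hm⟩ := ht.2.2 v h0
  have h1 := Bad_neg ht.1 hm hv
  refine ⟨n.toNat, ?_⟩
  have h2 := (hm.pow n.toNat).mul hn
  have e : (v * t ^ m) ^ n.toNat * (u * t ^ n) = v ^ n.toNat * u * t ^ (m * n.toNat + n) := by
    rw [mul_pow, zpow_add₀ ht.2.1, zpow_mul, zpow_natCast]
    ring
  rw [e] at h2
  refine mem_O_of_mp (Bad_mem_mp (p := 0) ht.1 ht.2.1 h2 ?_)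
  have h3 : n ≤ (n.toNat : ℤ) := Int.self_le_toNat n
  have h4 : (0 : ℤ) ≤ (n.toNat : ℤ) := Int.natCast_nonneg _
  push_cast
  nlinarith

theorem Bad_closed {ξ : Dr X} (hξ : ∀ x, RegAt ξ x) (y : X.left) :
    IsClosed {x | y ⤳ x ∧ ∀ a ∈ O X x, a ∈ mp X y 1 → ξ a ∈ mp X x 1} := by
  have h1 : IsClosed {x | y ⤳ x} := by
    have e : {x | y ⤳ x} = closure {y} := Set.ext fun x => specializes_iff_mem_closure
    rw [e]
    exact isClosed_closure
  refine h1.inter ⟨isOpen_iff_forall_mem_open.2 fun x hx => ?_⟩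
  have hx' : ¬ ∀ a ∈ O X x, a ∈ mp X y 1 → ξ a ∈ mp X x 1 := hx
  push Not at hx'
  obtain ⟨a, ha, h2, h3⟩ := hx'
  refine ⟨{z | a ∈ O X z} ∩ {z | IsU X z (ξ a)}, fun z hz h4 => hz.2.2 (h4 a hz.1 h2),
    (isOpen_O a).inter (isOpen_isU _), ha, hξ x a ha, h3⟩

theorem Bad_stab [IsProper X.hom] {ξ : Dr X} (hξ : ∀ x, RegAt ξ x) {U : X.left.Opens}
    (hU : IsAffineOpen U) (hg : gp X ∈ U) {a : Fn X} (ha : a ∈ B X U) :
    ∃ μ : ℕ, ∀ x ∈ U, (∀ j ≤ μ, ξ^[j] a ∈ mp X x 1) → ∀ j, ξ^[j] a ∈ mp X x 1 := by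
  have := aff_noeth hU hg
  have h1 : ∀ j, ξ^[j] a ∈ B X U := fun j => mem_B.2 fun x hx => (hξ x).iter (mem_B.1 ha x hx) j
  let I : ℕ →o Ideal (B X U) :=
    ⟨fun n => Ideal.span {b | ∃ j ≤ n, b = ⟨ξ^[j] a, h1 j⟩}, fun n m hnm =>
      Ideal.span_mono fun b ⟨j, hj, e⟩ => ⟨j, hj.trans hnm, e⟩⟩
  obtain ⟨μ, hμ⟩ := monotone_stabilizes_iff_noetherian.2 (inferInstance : IsNoetherian (B X U) (B X U)) I
  refine ⟨μ, fun x hx H j => ?_⟩
  have h2 : I μ ≤ pr hx := Ideal.span_le.2 (by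
    rintro _ ⟨i, hi, rfl⟩
    exact (mem_pr hx _).2 (H i hi))
  have h3 : (⟨ξ^[j] a, h1 j⟩ : B X U) ∈ I (max μ j) := Ideal.subset_span ⟨j, le_max_right _ _, rfl⟩
  rw [← hμ _ (le_max_left μ j)] at h3
  exact (mem_pr hx _).1 (h2 h3)

end aux

variable {K : Type} [Field K] [CharZero K] {X A : Sch K} [IsIntegral X.left] [IsProper X.hom]
  [Smooth X.hom] [IsIntegral A.left] [IsProper A.hom] [Smooth A.hom] {α : X ⟶ A} {g : ℕ}
  {δ : Fin g → Dr A} {ξ : Dr A} {h : Fn X}

omit [Smooth X.hom] in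
theorem polar (hα : Dom α) (hδ : ∀ k x, RegAt (δ k) x) (hh : Good α δ h) {d : X.left}
    (hd : IsDiv d) (hn : h ∉ O X d) : α.left d ≠ gp A ∧
      (Cod2 (α.left d) ∨ ∀ a ∈ mp A (α.left d) 1, pb α a ∈ mp X d 2) := by
  obtain ⟨t, ht⟩ := hd
  have key : ∀ s, IsUnif d s → ((∀ a, pbF hα a ∈ O X d) ∨ ∃ a, pbF hα a = s) →
      (∀ a, pb α a ∈ O X d → a ∈ O A (α.left d)) → False := fun s hs h1 h2 => by
    choose D hD hD' using fun k => PO (pbF hα) (δ k) hs h1 fun a ha =>
      pb_mem_O (hδ k _ a (h2 a ha))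
    exact hn (hh d D hD hD')
  have hy : α.left d ≠ gp A := fun e => by
    have h1 : ∀ a, a ∈ O A (α.left d) := fun a => by
      rw [e, O_gp]
      trivial
    exact key t ht (Or.inl fun a => pb_mem_O (h1 a)) fun a _ => h1 a
  refine ⟨hy, ?_⟩
  by_cases H : ∀ a, pb α a ∈ O X d → a ∈ O A (α.left d)
  · refine Or.inr fun a ha => ?_
    by_contra h2
    exact key _ (Bad_unif ht (pb_mem_mp ha) h2) (Or.inr ⟨a, rfl⟩) H
  · push Not at H
    obtain ⟨u, h1, h2⟩ := H
    obtain ⟨d', h3, ⟨t', ht'⟩, h4⟩ := hartogs h2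
    refine Or.inl ⟨d', fun e => h4 (by rw [e, O_gp]; trivial), fun e => ?_, h3⟩
    subst e
    have h0 : u ≠ 0 := fun h => h2 (h ▸ zero_mem _)
    have h5 := O_mul_mem_mp h1 (pb_mem_mp (φ := α) (Bad_inv_mp ht' h2))
    rw [← pb_mul (hα.mem _) (hα.mem _), mul_inv_cancel₀ h0, pb_one] at h5
    exact one_notMem_mp h5

omit [Smooth X.hom] in
theorem Bad_one (hα : Dom α) (hδ : ∀ k x, RegAt (δ k) x) (hξ : ∀ x, RegAt ξ x) (hh : Good α δ h)
    {d : X.left} (hd : IsDiv d) (hn : h ∉ O X d) :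
    ∃ (Z : Set A.left) (e : Fn A), Z.Finite ∧ (∀ z ∈ Z, Cod2 z) ∧ e ≠ 0 ∧
      ∀ (η : A.left) (c : X.left), IsU A η e → Leaf ξ η (α.left c) → Tan α ξ c → d ⤳ c →
        ∃ z ∈ Z, z ⤳ α.left c := by
  obtain ⟨hy, H | H⟩ := polar hα hδ hh hd hn
  · exact ⟨{α.left d}, 1, Set.finite_singleton _, fun z hz => hz ▸ H, one_ne_zero,
      fun η c _ _ _ hc => ⟨_, rfl, hc.map α.left.continuous⟩⟩
  obtain ⟨e, he, he0⟩ := exists_ne_zero hy
  obtain ⟨S, hS, hSC, hC⟩ := fin_max (Bad_closed hξ (α.left d))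
  refine ⟨S \ {α.left d}, e, hS.sdiff, fun z hz => ⟨_, hy, fun e => hz.2 e.symm, (hSC hz.1).1⟩,
    he0, fun η c h1 h2 h3 hc => ?_⟩
  have h4 : α.left d ⤳ α.left c := hc.map α.left.continuous
  obtain ⟨z, hz, h5⟩ := hC (α.left c) ⟨h4, fun a ha h6 => h3 a ha fun D hD =>
    mem_mp_of_spec hc (hD _ (pb_mem_O ha)) ((hD.of_spec hc).mp_two (H a h6))⟩
  refine ⟨z, ⟨hz, fun e => ?_⟩, h5⟩
  have e' : z = α.left d := e
  subst e'
  have h6 : ∀ a ∈ mp A (α.left d) 1, ∀ j, ξ^[j] a ∈ mp A (α.left d) 1 := fun a ha j => by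
    induction j with
    | zero => exact ha
    | succ j ih =>
      rw [Function.iterate_succ_apply']
      exact (hSC hz).2 _ (mem_O_of_mp ih) ih
  have h7 : α.left d ⤳ η := spec_of_le h4 h2.1 fun a ha h8 =>
    h2.2 a ha fun j => mem_mp_of_spec h4 ((hξ _).iter ha j) (h6 a h8 j)
  exact (h1.of_spec h7).2 he

theorem bad (hα : Dom α) (hδ : ∀ k x, RegAt (δ k) x) (hξ : ∀ x, RegAt ξ x) (hh : Good α δ h) :
    ∃ (𝒵 : Set A.left) (E : Finset (Fn A)), 𝒵.Finite ∧ (∀ z ∈ 𝒵, Cod2 z) ∧ 0 ∉ E ∧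
      ∀ (η : A.left) (c : X.left), (∀ e ∈ E, IsU A η e) → Leaf ξ η (α.left c) → Tan α ξ c →
        h ∉ O X c → ∃ z ∈ 𝒵, z ⤳ α.left c := by
  classical
  have hf := (pol_finite h).to_subtype
  have := Fintype.ofFinite {d | IsDiv d ∧ h ∉ O X d}
  choose Z e h1 h2 h3 h4 using fun d : {d | IsDiv d ∧ h ∉ O X d} =>
    Bad_one hα hδ hξ hh d.2.1 d.2.2
  refine ⟨⋃ d, Z d, Finset.univ.image e, Set.finite_iUnion h1, fun z hz => ?_, fun h0 => ?_,
    fun η c h5 h6 h7 h8 => ?_⟩
  · obtain ⟨d, hd⟩ := Set.mem_iUnion.1 hz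
    exact h2 d z hd
  · obtain ⟨d, -, hd⟩ := Finset.mem_image.1 h0
    exact h3 d hd
  · obtain ⟨d, hc, hd, hn⟩ := hartogs h8
    obtain ⟨z, hz, h9⟩ := h4 ⟨d, hd, hn⟩ η c
      (h5 _ (Finset.mem_image_of_mem e (Finset.mem_univ _))) h6 h7 hc
    exact ⟨z, Set.mem_iUnion.2 ⟨_, hz⟩, h9⟩

omit [Smooth X.hom] in
theorem Bad_kill (hα : Dom α) (hδ : ∀ k x, RegAt (δ k) x) (hh : Good α δ h) {U : A.left.Opens}
    (hU : IsAffineOpen U) {d : X.left} (hd : IsDiv d) (hn : h ∉ O X d) :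
    ∃ b ∈ B A U, b ≠ 0 ∧ (α.left d ∈ U → pb α b * h ∈ O X d) := by
  by_cases hy : α.left d ∈ U
  swap
  · exact ⟨1, one_mem _, one_ne_zero, fun h1 => absurd h1 hy⟩
  obtain ⟨e, he, he0⟩ := exists_ne_zero (polar hα hδ hh hd hn).1
  obtain ⟨s, -, h2, h3⟩ := aff_frac hU hy (mem_O_of_mp he)
  obtain ⟨t, ht⟩ := hd
  obtain ⟨N, hN⟩ := Bad_clear ht (pb_mem_mp (φ := α) (O_mul_mem_mp h2.1 he)) h
  refine ⟨(s * e) ^ N, pow_mem h3 N, pow_ne_zero N (mul_ne_zero h2.ne_zero he0), fun _ => ?_⟩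
  rwa [pb_pow (hα.mem _)]

theorem Bad_kill_all (hα : Dom α) (hδ : ∀ k x, RegAt (δ k) x) (hh : Good α δ h)
    {U : A.left.Opens} (hU : IsAffineOpen U) :
    ∃ a ∈ B A U, a ≠ 0 ∧ ∀ c, α.left c ∈ U → pb α a * h ∈ O X c := by
  classical
  have hf := (pol_finite h).to_subtype
  have := Fintype.ofFinite {d | IsDiv d ∧ h ∉ O X d}
  choose b h1 h2 h3 using fun d : {d | IsDiv d ∧ h ∉ O X d} => Bad_kill hα hδ hh hU d.2.1 d.2.2
  refine ⟨∏ d, b d, prod_mem fun d _ => h1 d, Finset.prod_ne_zero_iff.2 fun d _ => h2 d,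
    fun c hc => ?_⟩
  by_contra h4
  obtain ⟨d, h5, hd, h6⟩ := hartogs h4
  have h7 : α.left d ∈ U := (h5.map α.left.continuous).mem_open U.isOpen hc
  by_cases hn : h ∈ O X d
  · exact h6 (mul_mem (pb_mem_O (B_le_O h7 (prod_mem fun d _ => h1 d))) hn)
  · refine h6 ?_
    rw [← Finset.prod_erase_mul _ _ (Finset.mem_univ (⟨d, hd, hn⟩ : {d | IsDiv d ∧ h ∉ O X d})),
      pb_mul (hα.mem _) (hα.mem _), mul_assoc]
    exact mul_mem (pb_mem_O (B_le_O h7 (prod_mem fun d _ => h1 d))) (h3 ⟨d, hd, hn⟩ h7)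

theorem mult (hα : Dom α) (hδ : ∀ k x, RegAt (δ k) x) (hξ : ∀ x, RegAt ξ x) (hh : Good α δ h) :
    ∃ (E : Finset (Fn A)) (μ : ℕ), 0 ∉ E ∧ ∀ c : X.left, ∃ a ∈ E, a ∈ O A (α.left c) ∧
      pb α a * h ∈ O X c ∧ ((∀ j ≤ μ, ξ^[j] a ∈ mp A (α.left c) 1) →
        ∀ j, ξ^[j] a ∈ mp A (α.left c) 1) := by
  classical
  obtain ⟨𝒰, hf, hU, hne, hc⟩ := fin_cover A
  have := hf.to_subtype
  have := Fintype.ofFinite 𝒰
  choose a h1 h2 h3 using fun U : 𝒰 => Bad_kill_all hα hδ hh (hU U U.2)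
  choose μ hμ using fun U : 𝒰 => Bad_stab hξ (hU U U.2) (gp_mem (hne U U.2).choose_spec) (h1 U)
  refine ⟨Finset.univ.image a, Finset.univ.sup μ, fun h0 => ?_, fun c => ?_⟩
  · obtain ⟨U, -, e⟩ := Finset.mem_image.1 h0
    exact h2 U e
  · obtain ⟨U, h4, h5⟩ := hc (α.left c)
    exact ⟨a ⟨U, h4⟩, Finset.mem_image_of_mem a (Finset.mem_univ _), B_le_O h5 (h1 ⟨U, h4⟩),
      h3 ⟨U, h4⟩ c h5, fun H => hμ ⟨U, h4⟩ _ h5 fun j hj =>
        H j (hj.trans (Finset.le_sup (f := μ) (Finset.mem_univ _)))⟩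

end Pool.Agent.Work.MP_e120ef_ag
end
end
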