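import Mathlib

/-! Definitions used in the statements: function field, local rings, pull-back of rational
functions, sections of the powers of a saturated line bundle. -/

open CategoryTheory AlgebraicGeometry

namespace Pool.Agent.Work.MP_e120ef_ag

/-- Schemes over `k`. -/
abbrev Sch (k : Type) [Field k] := Over (Spec (CommRingCat.of k))

variable {k : Type} [Field k]

/-- The constant functions. -/
noncomputable def cst (X : Sch k) : k →+* Γ(X.left, ⊤) :=
  X.hom.appTop.hom.comp (Scheme.ΓSpecIso (CommRingCat.of k)).inv.hom

/-- the function field -/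
def Fn (X : Sch k) [IsIntegral X.left] : Type := X.left.functionField

variable (X : Sch k) [IsIntegral X.left]

noncomputable instance : Field (Fn X) := instFieldCarrierFunctionField X.left

/-- the generic point -/
noncomputable def gp : X.left := genericPoint X.left

theorem gp_spec (x : X.left) : gp X ⤳ x := genericPoint_specializes x

/-- a function on a nonempty open set, as an element of the function field -/
noncomputable def germ (U : X.left.Opens) (h : gp X ∈ U) : Γ(X.left, U) →+* Fn X :=
  (X.left.presheaf.germ U (gp X) h).hom

noncomputable instance : Algebra k (Fn X) := ((germ X ⊤ trivial).comp (cst X)).toAlgebra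

/-- a germ at `x`, as an element of the function field -/
noncomputable def toK (x : X.left) : X.left.presheaf.stalk x →+* Fn X :=
  (X.left.presheaf.stalkSpecializes (gp_spec X x)).hom

variable {X}

theorem gp_mem {U : X.left.Opens} {x : X.left} (h : x ∈ U) : gp X ∈ U :=
  (gp_spec X x).mem_open U.isOpen h

theorem toK_germ {U : X.left.Opens} {x : X.left} (h : x ∈ U) (s : Γ(X.left, U)) :
    toK X x (X.left.presheaf.germ U x h s) = germ X U (gp_mem h) s := by
  have := X.left.presheaf.germ_stalkSpecializes h (gp_spec X x)
  exact congrArg (fun f => f.hom s) this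

variable (X)

/-- the local ring at `x` -/
noncomputable def O (x : X.left) : Subalgebra k (Fn X) :=
  { (toK X x).range with
    algebraMap_mem' := fun c => ⟨X.left.presheaf.germ ⊤ x trivial (cst X c), toK_germ _ _⟩ }

variable {X} {Y : Sch k} [IsIntegral Y.left]

theorem dom_gp (φ : Y ⟶ X) [IsDominant φ.left] : φ.left (gp Y) = gp X := by
  have h1 := (genericPoint_spec Y.left).image φ.left.continuous
  rw [Set.image_univ, φ.left.denseRange.closure_range] at h1
  exact h1.eq (genericPoint_spec X.left)

/-- pull-back of rational functions along a dominant morphism -/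
noncomputable def pull (φ : Y ⟶ X) [IsDominant φ.left] : Fn X →+* Fn Y :=
  (X.left.presheaf.stalkSpecializes (specializes_of_eq (dom_gp φ)) ≫ φ.left.stalkMap (gp Y)).hom

variable {F ι : Type} [Field F] [Algebra k F]

/-- The `h` such that `h (dt₁ ∧ ... ∧ dt_g) ^ m` is regular: its value on every `g`-tuple of
vector fields regular at `x` is regular at `x`. -/
def Pluri (𝒪 : ι → Subalgebra k F) {g : ℕ} (t : Fin g → F) (m : ℕ) : Set F :=
  {h | ∀ (x : ι) (D : Fin g → Derivation k F F), (∀ l, ∀ b ∈ 𝒪 x, D l b ∈ 𝒪 x) →
    h * (Matrix.of fun i l => D l (t i)).det ^ m ∈ 𝒪 x}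

variable (k) in
/-- `a` is algebraic over the algebra generated by the quotients of elements of `P` -/
def AlgQ (P : Set F) (a : F) : Prop :=
  IsAlgebraic (Algebra.adjoin k {u | ∃ h ∈ P, ∃ h' ∈ P, u = h / h'}) a

variable (k) in
/-- Every `k`-algebra map from `F` to the fractions of `R` sends `f` to a fraction whose values,
computed through `ev`, agree at `r`-related points. -/
def Contracts {R P : Type} [CommRing R] [Algebra k R] (ev : R → P → k) (r : P → P → Prop)
    (f : F) : Prop :=
  ∀ (φ : F →ₐ[k] FractionRing R) (a b : R), b ≠ 0 →
    φ f * algebraMap R _ b = algebraMap R _ a →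
    ∀ z z', r z z' → ev a z * ev b z' = ev a z' * ev b z

end Pool.Agent.Work.MP_e120ef_ag
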