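import Mathlib

/-! Cauchy product of unconditionally convergent series over a non-archimedean field. -/

namespace Pool.Agent.Work.MP_e120ef_ag

variable (K : Type) [NontriviallyNormedField K]

theorem ser_mul [IsUltrametricDist K] [CompleteSpace K] {Γ T : Type} [AddCommGroup Γ]
    (χ : T → Γ → K) (hχ : ∀ t I J, χ t (I + J) = χ t I * χ t J) (t₀ : T) (h₀ : ∀ I, χ t₀ I = 1)
    {a b : Γ → K} {f g : T → K} (ha : ∀ t, HasSum (fun I => a I * χ t I) (f t))
    (hb : ∀ t, HasSum (fun I => b I * χ t I) (g t)) :
    (∀ N, Summable fun I => a I * b (N - I)) ∧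
      ∀ t, HasSum (fun N => (∑' I, a I * b (N - I)) * χ t N) (f t * g t) := by
  have : NonarchimedeanRing K :=
    { (inferInstance : IsTopologicalRing K) with
      is_nonarchimedean := NonarchimedeanAddGroup.is_nonarchimedean }
  let e : Γ × Γ ≃ Γ × Γ :=
    { toFun := fun p => (p.2, p.1 - p.2)
      invFun := fun p => (p.1 + p.2, p.1)
      left_inv := fun p => by simp
      right_inv := fun p => by simp }
  have key : ∀ t, HasSum (fun p : Γ × Γ => a p.2 * b (p.1 - p.2) * χ t p.1) (f t * g t) := by
    intro t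
    have h0 := (ha t).mul_of_nonarchimedean (hb t)
    have h1 := (e.hasSum_iff (f := fun p : Γ × Γ => a p.1 * χ t p.1 * (b p.2 * χ t p.2))).2 h0
    refine h1.congr_fun fun p => ?_
    have h2 : χ t p.1 = χ t p.2 * χ t (p.1 - p.2) := by rw [← hχ, add_sub_cancel]
    simp only [e, Function.comp, Equiv.coe_fn_mk]
    rw [h2]
    ring
  have hs : ∀ N, Summable fun I => a I * b (N - I) := fun N => by
    simpa [h₀] using (key t₀).summable.prod_factor N
  exact ⟨hs, fun t => (key t).prod_fiberwise fun N => ((hs N).hasSum.mul_right (χ t N) :)⟩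

end Pool.Agent.Work.MP_e120ef_ag
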