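import Mathlib
import Pool.Agent.Work.MP_e120ef_ag.Bad

attribute [-instance] Subalgebra.normedCommRing Subalgebra.seminormedCommRing
  Subalgebra.seminormedRing Subalgebra.normedRing
  Localization.subalgebra.instIsFractionRingSubtypeMemSubalgebra
attribute [local instance 2000] RingHomClass.toAddMonoidHomClass AddMonoidHomClass.toAddHomClass
  RingHom.instRingHomClass AlgHomClass.toRingHomClass IsDomain.to_noZeroDivisors
  IsDomain.toNontrivial NeZero.one RingHomClass.toMonoidHomClass MonoidHomClass.toMulHomClass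
  RingHomClass.toMonoidWithZeroHomClass AddMonoidHomClass.toZeroHomClass MonoidHomClass.toOneHomClass
attribute [-instance] instCharZeroOfIsSemireal AlgHom.instContinuousLinearMapClassOfAlgHomClass
  RingHomClass.toLinearMapClassRat RingHomClass.toLinearMapClassNNRat NumberField.to_charZero

-- merged part: Pool.Agent.Work.MP_e120ef_ag.Cot
section
/-!
# Tangent vectors at a rational point; first order deformations of homomorphisms
-/

set_option maxHeartbeats 400000

namespace Pool.Agent.Work.MP_e120ef_ag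

variable {K S R : Type} [Field K] [CommRing S] [CommRing R] [Algebra K S] [Algebra K R] {g : ℕ}

/-- the tangent vectors -/
def derAt (ev : S →ₐ[K] K) : Submodule K (S → K) where
  carrier := {d | IsLinearMap K d ∧ ∀ a a', d (a * a') = ev a * d a' + ev a' * d a}
  add_mem' {d d'} hd hd' := ⟨(hd.1.mk' d + hd'.1.mk' d').isLinear, fun a a' => by
    simp only [Pi.add_apply, hd.2, hd'.2]
    ring⟩
  zero_mem' := ⟨(0 : S →ₗ[K] K).isLinear, fun a a' => by simp⟩
  smul_mem' c d hd := ⟨(c • hd.1.mk' d).isLinear, fun a a' => by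
    simp only [Pi.smul_apply, smul_eq_mul, hd.2]
    ring⟩

theorem derAt_finite [IsNoetherianRing S] (ev : S →ₐ[K] K) : Module.Finite K (derAt ev) := by
  obtain ⟨s, hs⟩ := IsNoetherian.noetherian (RingHom.ker ev)
  refine Module.Finite.of_injective (LinearMap.funLeft K K ((↑) : s → S) ∘ₗ (derAt ev).subtype)
    ((injective_iff_map_eq_zero _).2 fun d hd => Subtype.ext (funext fun a => ?_))
  have h1 : d.1 1 = 0 := by simpa using d.2.2 1 1
  have h2 : ∀ a ∈ RingHom.ker ev, d.1 a = 0 := fun a ha => by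
    rw [← hs] at ha
    induction ha using Submodule.span_induction with
    | mem x hx => exact congrFun hd ⟨x, hx⟩
    | zero => exact d.2.1.map_zero
    | add x y _ _ hx hy => rw [d.2.1.map_add, hx, hy, add_zero]
    | smul r x hx' hx =>
      rw [hs] at hx'
      rw [smul_eq_mul, d.2.2, hx, RingHom.mem_ker.1 hx', mul_zero, zero_mul, add_zero]
  have h3 := h2 (a - ev a • 1) (by simp [RingHom.mem_ker])
  rwa [d.2.1.map_sub, d.2.1.map_smul, h1, smul_zero, sub_zero] at h3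

theorem exists_cot [IsNoetherianRing S] (ev : S →ₐ[K] K) :
    ∃ (g : ℕ) (b : Fin g → S) (l : Fin g → S →ₗ[K] K),
      (∀ i a a', l i (a * a') = ev a * l i a' + ev a' * l i a) ∧
      (∀ i k, l i (b k) = if i = k then 1 else 0) ∧
      ∀ (M : Type) [AddCommGroup M] [Module K M] (d : S →ₗ[K] M),
        (∀ a a', d (a * a') = ev a • d a' + ev a' • d a) → ∀ a, d a = ∑ i, l i a • d (b i) := by
  have := derAt_finite ev
  let B := Module.finBasis K (derAt ev)
  let l := fun i => (B i).2.1.mk' (B i).1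
  have hli := span_flip_eq_top_iff_linearIndependent.2
    (B.linearIndependent.map' _ (derAt ev).ker_subtype)
  have hsurj : LinearMap.range (LinearMap.pi l) = ⊤ :=
    top_le_iff.1 (hli.ge.trans (Submodule.span_le.2 (by rintro _ ⟨a, rfl⟩; exact ⟨a, rfl⟩)))
  choose b hb using fun k => LinearMap.range_eq_top.1 hsurj (Pi.single k 1)
  have hb' : ∀ i k, l i (b k) = if i = k then 1 else 0 := fun i k =>
    (congrFun (hb k) i).trans (Pi.single_apply k 1 i)
  refine ⟨_, b, l, fun i => (B i).2.2, hb', fun M _ _ d hd a => ?_⟩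
  rw [← sub_eq_zero, ← Module.forall_dual_apply_eq_zero_iff K]
  intro φ
  obtain ⟨c, h1⟩ : ∃ c : _ → K, ∀ a, φ (d a) = ∑ i, c i * l i a := by
    have h2 := congrArg (derAt ev).subtype
      (B.sum_repr ⟨φ ∘ₗ d, (φ ∘ₗ d).isLinear, fun a a' => by simp [hd]⟩)
    rw [map_sum] at h2
    exact ⟨_, fun a => (congrFun h2 a).symm.trans (Finset.sum_apply a _ _)⟩
  have h2 : ∀ i, φ (d (b i)) = c i := fun i => by simp [h1, hb']
  rw [map_sub, map_sum, h1 a, sub_eq_zero]
  exact Finset.sum_congr rfl fun i _ => by rw [map_smul, h2, smul_eq_mul, mul_comm]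

/-- first order deformation of a homomorphism -/
def twist (j : S →ₐ[K] R) (ε : Fin g → R) (hε : ∀ i k, ε i * ε k = 0) (Δ : Fin g → S →ₗ[K] R)
    (hΔ : ∀ i a b, Δ i (a * b) = j a * Δ i b + j b * Δ i a) : S →ₐ[K] R :=
  AlgHom.ofLinearMap (j.toLinearMap + ∑ i, LinearMap.mulLeft K (ε i) ∘ₗ Δ i)
    (by
      have h : ∀ i, Δ i 1 = 0 := fun i => by simpa using hΔ i 1 1
      simp [h])
    fun a b => by
      have h : (∑ i, ε i * Δ i a) * ∑ i, ε i * Δ i b = 0 := by
        rw [Finset.sum_mul_sum]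
        exact Finset.sum_eq_zero fun i _ => Finset.sum_eq_zero fun k _ => by
          rw [mul_mul_mul_comm, hε, zero_mul]
      simp only [LinearMap.add_apply, AlgHom.toLinearMap_apply, LinearMap.sum_apply,
        LinearMap.comp_apply, LinearMap.mulLeft_apply, map_mul, hΔ, mul_add, add_mul, h,
        Finset.sum_add_distrib, mul_left_comm (ε _), ← Finset.mul_sum]
      ring

theorem twist_apply (j : S →ₐ[K] R) (ε : Fin g → R) (hε : ∀ i k, ε i * ε k = 0)
    (Δ : Fin g → S →ₗ[K] R) (hΔ : ∀ i a b, Δ i (a * b) = j a * Δ i b + j b * Δ i a) (a : S) :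
    twist j ε hε Δ hΔ a = j a + ∑ i, ε i * Δ i a := by
  simp [twist]

theorem single_sq {e : R} (he : e * e = 0) (i k l : Fin g) :
    (Pi.single i e : Fin g → R) k * (Pi.single i e : Fin g → R) l = 0 := by
  simp only [Pi.single_apply]
  split_ifs <;> simp [he]

theorem tsze_local {N : Type} [IsLocalRing S] [AddCommGroup N] [Module S N] [Module Sᵐᵒᵖ N]
    [IsCentralScalar S N] : IsLocalRing (TrivSqZeroExt S N) :=
  haveI : Nontrivial (TrivSqZeroExt S N) := TrivSqZeroExt.fst_surjective.nontrivial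
  .of_isUnit_or_isUnit_one_sub_self fun a => by
    simpa only [TrivSqZeroExt.isUnit_iff_isUnit_fst, TrivSqZeroExt.fst_sub, TrivSqZeroExt.fst_one]
      using IsLocalRing.isUnit_or_isUnit_one_sub_self a.fst

variable (K S g) in
open TrivSqZeroExt in
theorem exists_univ [IsLocalRing S] : ∃ (T : Type) (_ : CommRing T) (_ : Algebra K T)
    (_ : IsLocalRing T) (e : Fin g → T) (p : T →ₐ[K] S) (ι : S →ₐ[K] T) (c : Fin g → T → S),
    (∀ i k, e i * e k = 0) ∧ IsLocalHom p ∧ p.comp ι = AlgHom.id K S ∧ (∀ i, p (e i) = 0) ∧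
    ∀ (R : Type) [CommRing R] [Algebra K R] (ε : Fin g → R), (∀ i k, ε i * ε k = 0) →
      ∀ j : S →ₐ[K] R, ∃ φ : T →ₐ[K] R, (∀ a, φ a = j (p a) + ∑ i, ε i * j (c i a)) ∧
        (∀ i, φ (e i) = ε i) ∧ φ.comp ι = j := by
  refine ⟨TrivSqZeroExt S (Fin g → S), inferInstance, inferInstance, tsze_local,
    fun i => inr (Pi.single i 1), fstHom K _ _, inlAlgHom K _ _, fun i a => a.snd i,
    fun i k => inr_mul_inr _ _ _, ⟨fun a ha => isUnit_iff_isUnit_fst.2 ha⟩, rfl, fun _ => rfl,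
    fun R _ _ ε hε j => ?_⟩
  let φ := twist (j.comp (fstHom K S (Fin g → S))) ε hε
    (fun i => j.toLinearMap ∘ₗ (LinearMap.proj i ∘ₗ sndHom S _).restrictScalars K)
    fun i a b => by
      change j (a.fst * b.snd i + a.snd i * b.fst) = j a.fst * j (b.snd i) + j b.fst * j (a.snd i)
      rw [map_add, map_mul, map_mul, mul_comm (j (a.snd i))]
  have hφ : ∀ a, φ a = j a.fst + ∑ i, ε i * j (a.snd i) := twist_apply _ _ _ _ _
  exact ⟨φ, hφ, fun i => by simp [hφ, Pi.single_apply, apply_ite j],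
    AlgHom.ext fun a => (hφ _).trans (by simp)⟩

end Pool.Agent.Work.MP_e120ef_ag
end

-- merged part: Pool.Agent.Work.MP_e120ef_ag.Inv
section
/-!
# Invariant vector fields

`tanPt ε` is the point of `A` infinitesimally near the origin with coordinates `ε`.  Multiplying a point `j` by it deforms `j` by invariant derivations.
-/

open CategoryTheory AlgebraicGeometry MonObj TrivSqZeroExt IsLocalRing

set_option maxHeartbeats 400000

namespace Pool.Agent.Work.MP_e120ef_ag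

variable {K : Type} [Field K] {A : Sch K} [GrpObj A] [IsIntegral A.left] {g : ℕ}

/-- coordinates on the tangent space at the origin -/
structure Cot (A : Sch K) [GrpObj A] [IsIntegral A.left] (g : ℕ) where
  ev : O A (pt 1) →ₐ[K] K
  l : Fin g → O A (pt 1) →ₗ[K] K
  one : (1 : Sp K K ⟶ A) = mkPt _ ev
  mul : ∀ i a a', l i (a * a') = ev a * l i a' + ev a' * l i a

variable (C : Cot A g) {R R' : Type} [CommRing R] [Algebra K R] [CommRing R'] [Algebra K R']

variable (R) in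
theorem Cot.one_eq : (1 : Sp K R ⟶ A) = mkPt _ ((Algebra.ofId K R).comp C.ev) := by
  rw [← sp_mkPt, ← C.one, MonObj.comp_one]

/-- the local homomorphism of an infinitesimal point -/
noncomputable def Cot.w (ε : Fin g → R) (hε : ∀ i k, ε i * ε k = 0) : O A (pt 1) →ₐ[K] R :=
  twist ((Algebra.ofId K R).comp C.ev) ε hε (fun i => Algebra.linearMap K R ∘ₗ C.l i)
    fun i a b => by simp [C.mul, Algebra.ofId_apply]

theorem Cot.w_apply (ε : Fin g → R) (hε : ∀ i k, ε i * ε k = 0) (a : O A (pt 1)) :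
    C.w ε hε a = algebraMap K R (C.ev a) + ∑ i, ε i * algebraMap K R (C.l i a) :=
  twist_apply _ _ _ _ _ _

theorem Cot.sp_w (φ : R →ₐ[K] R') {ε : Fin g → R} (hε : ∀ i k, ε i * ε k = 0) {ε' : Fin g → R'}
    (hε' : ∀ i k, ε' i * ε' k = 0) (h : ∀ i, φ (ε i) = ε' i) :
    spMap φ ≫ mkPt _ (C.w ε hε) = mkPt _ (C.w ε' hε') := by
  rw [sp_mkPt]
  congr 1
  ext a
  simp [C.w_apply, h]

theorem Cot.w_zero : mkPt _ (C.w (0 : Fin g → R) fun _ _ => mul_zero _) = 1 := by
  rw [C.one_eq]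
  congr 1
  ext a
  simp [C.w_apply, Algebra.ofId_apply]

theorem Cot.master (x : A.left) : ∃ Δ : Fin g → O A x → O A x,
    ∀ (R : Type) [CommRing R] [Algebra K R] (ε : Fin g → R) (hε : ∀ i k, ε i * ε k = 0)
      (j : O A x →ₐ[K] R), ∃ j' : O A x →ₐ[K] R, (∀ a, j' a = j a + ∑ i, ε i * j (Δ i a)) ∧
        mkPt _ (C.w ε hε) * mkPt x j = mkPt x j' := by
  obtain ⟨T, _, _, _, e, p, s, c, he, _, hs, hp, H⟩ := exists_univ K (O A x) g
  have h1 : spMap p ≫ (mkPt _ (C.w e he) * mkPt x s) = mkPt (R := O A x) x (AlgHom.id K (O A x)) := by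
    rw [MonObj.comp_mul, C.sp_w p he (ε' := 0) (fun _ _ => mul_zero _) hp, C.w_zero,
      _root_.one_mul, sp_mkPt, hs]
  have : IsLocalHom (AlgHom.id K (O A x)) := ⟨fun _ h => h⟩
  obtain ⟨f, -, hf⟩ := exists_mkPt (mkPt _ (C.w e he) * mkPt x s) (x := x) (by
    rw [← spMap_closed p, ← comp_apply', h1, mkPt_closed])
  rw [hf, sp_mkPt] at h1
  have h2 : ∀ a, p (f a) = a := DFunLike.congr_fun (mkPt_inj h1)
  refine ⟨fun i a => c i (f a), fun R _ _ ε hε j => ?_⟩
  obtain ⟨φ, h3, h4, h5⟩ := H R ε hε j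
  refine ⟨φ.comp f, fun a => by rw [AlgHom.comp_apply, h3, h2], ?_⟩
  rw [← sp_mkPt, ← hf, MonObj.comp_mul, C.sp_w φ he hε h4, sp_mkPt, h5]

/-- multiplication by an infinitesimal point deforms by the derivations `δ i` -/
def Cot.Ms (δ : Fin g → Dr A) : Prop :=
  ∀ (R : Type) [CommRing R] [Algebra K R] (ε : Fin g → R) (hε : ∀ i k, ε i * ε k = 0)
    (j : Fn A →ₐ[K] R), ∃ j' : Fn A →ₐ[K] R, (∀ a, j' a = j a + ∑ i, ε i * j (δ i a)) ∧
      mkPt _ (C.w ε hε) * mkG j = mkG j'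

theorem Cot.masterG : ∃ δ, C.Ms δ := by
  obtain ⟨Δ, hΔ⟩ := C.master (gp A)
  let u : Fn A →ₐ[K] O A (gp A) := (AlgHom.id K _).codRestrict _ fun a => by rw [O_gp]; trivial
  have key : ∀ (R : Type) [CommRing R] [Algebra K R] (ε : Fin g → R) (hε : ∀ i k, ε i * ε k = 0)
      (j : Fn A →ₐ[K] R), ∃ j' : Fn A →ₐ[K] R, (∀ a, j' a = j a + ∑ i, ε i * j (Δ i (u a))) ∧
        mkPt _ (C.w ε hε) * mkG j = mkG j' := fun R _ _ ε hε j => by
    obtain ⟨j', h1, h2⟩ := hΔ R ε hε (j.comp (O A _).val)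
    exact ⟨j'.comp u, fun a => h1 _, h2⟩
  have : ∀ i, ∃ δ : Dr A, ∀ a, δ a = Δ i (u a) := fun i => by
    obtain ⟨j, hj, -⟩ := key (DualNumber (Fn A)) _ (single_sq DualNumber.eps_mul_eps i)
      (inlAlgHom K _ _)
    have h1 : ∀ a, (j a).fst = a ∧ (j a).snd = Δ i (u a) := fun a => by
      simp [hj, Pi.single_apply]
    exact ⟨.mk' ((sndHom (Fn A) _).restrictScalars K ∘ₗ j.toLinearMap) fun a b => by
      change (j (a * b)).snd = a * (j b).snd + b * (j a).snd
      rw [map_mul, DualNumber.snd_mul, (h1 a).1, (h1 b).1, mul_comm b], fun a => (h1 a).2⟩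
  choose δ hδ using this
  exact ⟨δ, by simpa only [Cot.Ms, hδ] using key⟩

omit [IsIntegral A.left] in
theorem one_closed (R : Type) [CommRing R] [Algebra K R] [IsLocalRing R] :
    (1 : Sp K R ⟶ A).left (closedPoint R) = pt 1 := by
  rw [← MonObj.comp_one (CartesianMonoidalCategory.toUnit (Sp K R)), const_apply]

variable {C} {δ : Fin g → Dr A} (hδ : C.Ms δ)

include hδ

theorem Cot.Ms.loc (x : A.left) : ∃ Δ : Fin g → O A x → O A x, (∀ i (a : O A x), δ i a = Δ i a) ∧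
    ∀ (R : Type) [CommRing R] [Algebra K R] (ε : Fin g → R) (hε : ∀ i k, ε i * ε k = 0)
      (j : O A x →ₐ[K] R), ∃ j' : O A x →ₐ[K] R, (∀ a, j' a = j a + ∑ i, ε i * j (Δ i a)) ∧
        mkPt _ (C.w ε hε) * mkPt x j = mkPt x j' := by
  obtain ⟨Δ, hΔ⟩ := C.master x
  refine ⟨Δ, fun i a => ?_, hΔ⟩
  obtain ⟨j, h2, h3⟩ := hδ (DualNumber (Fn A)) _ (single_sq DualNumber.eps_mul_eps i)
    (inlAlgHom K _ _)
  obtain ⟨j', h4, h5⟩ := hΔ (DualNumber (Fn A)) _ (single_sq DualNumber.eps_mul_eps i)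
    ((inlAlgHom K _ _).comp (O A x).val)
  rw [← mkG_eq, h3, mkG_eq x] at h5
  have h6 := congrArg snd (DFunLike.congr_fun (mkPt_inj h5) a)
  simpa [h2, h4, Pi.single_apply] using h6

theorem Cot.Ms.transl (i : Fin g) (y : Pt A) (a : Fn A) : δ i (pb (tr y) a) = pb (tr y) (δ i a) := by
  obtain ⟨j, h2, h3⟩ := hδ (DualNumber (Fn A)) _ (single_sq DualNumber.eps_mul_eps i)
    (inlAlgHom K _ _)
  obtain ⟨j', h4, h5⟩ := hδ (DualNumber (Fn A)) _ (single_sq DualNumber.eps_mul_eps i)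
    ((inlAlgHom K _ _).comp (pbF (grp_dom_iso (tr y))))
  rw [← mkG_comp, comp_tr, ← _root_.mul_assoc, h3, ← comp_tr, mkG_comp (grp_dom_iso _)] at h5
  have h6 := congrArg snd (DFunLike.congr_fun (mkG_inj h5) a)
  simpa [h2, h4, Pi.single_apply, pbF_apply] using h6

theorem Cot.Ms.comm [IsCommMonObj A] (i k : Fin g) (a : Fn A) : δ i (δ k a) = δ k (δ i a) := by
  have h3 : (inl DualNumber.eps * inl DualNumber.eps : DualNumber (DualNumber (Fn A))) = 0 := by
    rw [← inl_mul, DualNumber.eps_mul_eps, inl_zero]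
  let j : Fn A →ₐ[K] DualNumber (DualNumber (Fn A)) := (inlAlgHom K _ _).comp (inlAlgHom K _ _)
  obtain ⟨j₁, a₁, b₁⟩ := hδ (DualNumber (DualNumber (Fn A))) _
    (single_sq h3 i) j
  obtain ⟨j₂, a₂, b₂⟩ := hδ (DualNumber (DualNumber (Fn A))) _
    (single_sq DualNumber.eps_mul_eps k) j
  obtain ⟨j₃, a₃, b₃⟩ := hδ (DualNumber (DualNumber (Fn A))) _
    (single_sq DualNumber.eps_mul_eps k) j₁
  obtain ⟨j₄, a₄, b₄⟩ := hδ (DualNumber (DualNumber (Fn A))) _
    (single_sq h3 i) j₂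
  rw [← b₁, mul_left_comm, b₂, b₄] at b₃
  have h6 := congrArg (fun z => z.snd.snd) (DFunLike.congr_fun (mkG_inj b₃) a)
  simpa [a₁, a₂, a₃, a₄, j, Pi.single_apply] using h6.symm

theorem Cot.Ms.span {b : Fin g → O A (pt 1)} (M : Type) [Field M] [Algebra K M]
    (hspan : ∀ d : O A (pt 1) →ₗ[K] M, (∀ a a', d (a * a') = C.ev a • d a' + C.ev a' • d a) →
      ∀ a, d a = ∑ i, C.l i a • d (b i)) (j : Fn A →ₐ[K] M) (d : Fn A →ₗ[K] M)
    (hd : ∀ a b, d (a * b) = j a * d b + j b * d a) :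
    ∃ c : Fin g → M, ∀ a, d a = ∑ i, c i * j (δ i a) := by
  let p : DualNumber M →ₐ[K] M := fstHom K _ _
  have : IsLocalHom p := ⟨fun a ha => isUnit_iff_isUnit_fst.2 ha⟩
  let j₀ : Fn A →ₐ[K] DualNumber M := (inlAlgHom K _ _).comp j
  let J := twist j₀ (fun _ : Fin 1 => DualNumber.eps) (fun _ _ => DualNumber.eps_mul_eps)
    (fun _ => (inlAlgHom K M M).toLinearMap ∘ₗ d) fun _ a b => by simp [hd, j₀, inl_mul]
  have hJ : ∀ a, (J a).fst = j a ∧ (J a).snd = d a := fun a => by simp [J, twist_apply, j₀]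
  have h3 : spMap p ≫ (mkG J * (mkG j₀)⁻¹) = 1 := by
    rw [MonObj.comp_mul, GrpObj.comp_inv, sp_mkG, sp_mkG, mul_inv_eq_one]
    exact congrArg mkG (AlgHom.ext fun a => (hJ a).1)
  obtain ⟨q, -, hq⟩ := exists_mkPt (mkG J * (mkG j₀)⁻¹) (x := pt 1) (by
    rw [← spMap_closed p, ← comp_apply', h3, one_closed])
  rw [hq, sp_mkPt, C.one_eq] at h3
  have h4 : ∀ a, (q a).fst = algebraMap K M (C.ev a) := DFunLike.congr_fun (mkPt_inj h3)
  have h5 : ∀ a, (q a).snd = ∑ i, C.l i a • (q (b i)).snd :=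
    hspan ((sndHom M M).restrictScalars K ∘ₗ q.toLinearMap) fun a a' => by
      change (q (a * a')).snd = C.ev a • (q a').snd + C.ev a' • (q a).snd
      rw [map_mul, DualNumber.snd_mul, h4, h4, Algebra.smul_def, Algebra.smul_def,
        mul_comm (snd _)]
  obtain ⟨j', h6, h7⟩ := hδ (DualNumber M) (fun i => inr (q (b i)).snd)
    (fun _ _ => inr_mul_inr _ _ _) j₀
  have h8 : C.w (fun i => inr (q (b i)).snd) (fun _ _ => inr_mul_inr _ _ _) = q := by
    refine AlgHom.ext fun a => TrivSqZeroExt.ext ?_ ?_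
    · simp [C.w_apply, fst_sum, h4, algebraMap_eq_inl']
    · rw [h5 a, C.w_apply, snd_add, snd_sum, algebraMap_eq_inl', snd_inl, zero_add]
      refine Finset.sum_congr rfl fun i _ => ?_
      rw [algebraMap_eq_inl', DualNumber.snd_mul, snd_inl, fst_inl, snd_inr, mul_zero, zero_add,
        Algebra.smul_def, mul_comm]
  rw [h8, ← hq, inv_mul_cancel_right] at h7
  refine ⟨fun i => (q (b i)).snd, fun a => ?_⟩
  rw [← (hJ a).2, mkG_inj h7, h6]
  simp [j₀, snd_sum]

theorem Cot.Ms.unit [IsLocalHom C.ev] {b : Fin g → O A (pt 1)}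
    (hb : ∀ i k, C.l i (b k) = if i = k then 1 else 0) :
    IsU A (pt 1) (Matrix.of fun k m => δ k (b m)).det := by
  obtain ⟨Δ, h2, hΔ⟩ := hδ.loc (pt 1)
  have h3 : ∀ i a, C.ev (Δ i a) = C.l i a := fun i a => by
    obtain ⟨j', h4, h5⟩ := hΔ (DualNumber K) _ (single_sq DualNumber.eps_mul_eps i)
      ((Algebra.ofId K _).comp C.ev)
    rw [← C.one_eq, _root_.mul_one] at h5
    have h6 := congrArg snd (DFunLike.congr_fun (mkPt_inj h5) a)
    simpa [h4, C.w_apply, Pi.single_apply, Algebra.ofId_apply, algebraMap_eq_inl] using h6.symm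
  have h5 : IsUnit (Matrix.of fun k m => Δ k (b m)).det := by
    refine IsUnit.of_map C.ev _ ?_
    rw [AlgHom.map_det, show C.ev.mapMatrix (Matrix.of fun k m => Δ k (b m)) = 1 from Matrix.ext
      fun k m => (h3 k _).trans ((hb k m).trans Matrix.one_apply.symm), Matrix.det_one]
    exact isUnit_one
  simp only [h2]
  have h6 := (O A (pt 1)).val.map_det (Matrix.of fun k m => Δ k (b m))
  exact (congrArg (IsU A (pt 1)) h6).mp ((isU_coe _).2 h5)

omit hδ

variable (A : Sch K) [IsAlgClosed K] [GrpObj A] [IsProper A.hom] [GeometricallyIntegral A.hom]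

theorem exists_frame : ∃ (g : ℕ) (δ : Fin g → Dr A), IsFrame δ := by
  obtain ⟨ev, hev, h1⟩ := exists_mkPt _ (one_closed (A := A) K)
  obtain ⟨g, b, l, hl, hb, hspan⟩ := exists_cot ev
  let C : Cot A g := ⟨ev, l, h1, hl⟩
  obtain ⟨δ, hδ⟩ := C.masterG
  refine ⟨g, δ, fun i x a ha => ?_, hδ.transl, hδ.comm, fun M _ _ => hδ.span M (hspan M), fun x => ?_⟩
  · obtain ⟨Δ, h2, -⟩ := hδ.loc x
    exact h2 i ⟨a, ha⟩ ▸ (Δ i _).2
  · obtain ⟨p, hp, hc⟩ := exists_closed_spec x
    obtain ⟨y', rfl⟩ := exists_pt hc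
    obtain ⟨y, hy⟩ := exists_tr 1 y'
    obtain ⟨b', h5, h4⟩ : ∃ b' : Fin g → Fn A, (∀ m, b' m ∈ O A ((tr y).left (pt y'))) ∧
        IsU A ((tr y).left (pt y')) (Matrix.of fun k m => δ k (b' m)).det := by
      rw [hy]
      exact ⟨_, fun m => (b m).2, hδ.unit hb⟩
    refine ⟨fun m => pb (tr y) (b' m), fun m => O_le_of_spec hp (pb_mem_O (h5 m)), ?_⟩
    simp only [hδ.transl]
    have h6 := (pbF (dom_tr y)).map_det (Matrix.of fun k m => δ k (b' m))
    exact (congrArg (IsU A x) h6).mp (((pb_isU h4.1).2 h4).of_spec hp)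

end Pool.Agent.Work.MP_e120ef_ag
end
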