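import Mathlib

/-!
# Abstract value distribution data on a field of meromorphic functions on the punctured line

`nr w u` is the Gauss norm of `u` at the radius `‖w‖`, `ord z u` the order of `u` at `z`, `D = t d/dt`.
-/

namespace Pool.Agent.Work.MP_e120ef_ag

/-- the weight of the point `z` in the counting function at radius `‖w₂‖` based at radius `‖w₁‖` -/
noncomputable def wt {K : Type} [NormedField K] (w₁ w₂ z : Kˣ) : ℝ :=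
  if ‖(w₁ : K)‖ < ‖(z : K)‖ then Real.posLog (‖(w₂ : K)‖ / ‖(z : K)‖)
  else Real.posLog (‖(z : K)‖ / ‖(w₂ : K)‖)

/-- the data -/
structure Nev (K M : Type) [NormedField K] [Field M] [Algebra K M] where
  nr : Kˣ → M → ℝ
  ord : Kˣ → M → ℤ
  D : Derivation K M M
  nr_nonneg : ∀ w u, 0 ≤ nr w u
  nr_eq_zero : ∀ w u, nr w u = 0 ↔ u = 0
  nr_mul : ∀ w u v, nr w (u * v) = nr w u * nr w v
  nr_add : ∀ w u v, nr w (u + v) ≤ max (nr w u) (nr w v)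
  nr_alg : ∀ w c, nr w (algebraMap K M c) = ‖c‖
  nr_D : ∀ w u, nr w (D u) ≤ nr w u
  ord_zero : ∀ z, ord z 0 = 0
  ord_mul : ∀ z u v, u ≠ 0 → v ≠ 0 → ord z (u * v) = ord z u + ord z v
  ord_add : ∀ z u v, u ≠ 0 → v ≠ 0 → u + v ≠ 0 → min (ord z u) (ord z v) ≤ ord z (u + v)
  ord_alg : ∀ z c, ord z (algebraMap K M c) = 0
  ord_val : ∀ z u, ord z u = 0 → ∃ c, u = algebraMap K M c ∨ 0 < ord z (u - algebraMap K M c)
  ord_D : ∀ z u, ord z u ≠ 0 → D u ≠ 0 ∧ ord z (D u) = ord z u - 1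
  fin : ∀ (u : M) (w₁ w₂ : Kˣ),
    {z : Kˣ | ‖(w₁ : K)‖ ≤ ‖(z : K)‖ ∧ ‖(z : K)‖ ≤ ‖(w₂ : K)‖ ∧ ord z u ≠ 0}.Finite
  jensen : ∀ u, u ≠ 0 → ∀ w₁ : Kˣ, ∃ n : ℤ, ∀ w₂ : Kˣ, Real.log (nr w₂ u) = Real.log (nr w₁ u) +
    n * Real.log (‖(w₂ : K)‖ / ‖(w₁ : K)‖) + ∑ᶠ z, (ord z u : ℝ) * wt w₁ w₂ z
  res : ∀ u c, D u = algebraMap K M c → c = 0

variable {K M : Type} [NormedField K] [Field M] [Algebra K M]

/-- the characteristic function -/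
noncomputable def Nev.T (N : Nev K M) (u : M) (w : Kˣ) : ℝ :=
  Real.posLog (N.nr w u) + ∑ᶠ z, ((max (-N.ord z u) 0 : ℤ) : ℝ) * wt 1 w z

/-- `f ≤ g + O(log r)` for `r ≥ 1` -/
def Le (f g : Kˣ → ℝ) : Prop :=
  ∃ C : ℝ, ∀ w : Kˣ, 1 ≤ ‖(w : K)‖ → f w ≤ g w + C * (1 + Real.log ‖(w : K)‖)

end Pool.Agent.Work.MP_e120ef_ag
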