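import Pool.Agent.Work.MP_e120ef_ag.Nev
import Mathlib
import Pool.Agent.Work.MP_e120ef_ag.Bad

attribute [-instance] Subalgebra.normedCommRing Subalgebra.seminormedCommRing
  Subalgebra.seminormedRing Subalgebra.normedRing
  Localization.subalgebra.instIsFractionRingSubtypeMemSubalgebra
attribute [local instance 2000] RingHomClass.toAddMonoidHomClass AddMonoidHomClass.toAddHomClass
  RingHom.instRingHomClass AlgHomClass.toRingHomClass IsDomain.to_noZeroDivisors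
  IsDomain.toNontrivial NeZero.one RingHomClass.toMonoidHomClass MonoidHomClass.toMulHomClass
  RingHomClass.toMonoidWithZeroHomClass AddMonoidHomClass.toZeroHomClass MonoidHomClass.toOneHomClass
attribute [-instance] instCharZeroOfIsSemireal AlgHom.instContinuousLinearMapClassOfAlgHomClass
  RingHomClass.toLinearMapClassRat RingHomClass.toLinearMapClassNNRat NumberField.to_charZero

-- merged part: Pool.Agent.Work.MP_e120ef_ag.NevA
section
/-!
# Valuation rings of points and of ends; Liouville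

Plans.  First `nr w 1 = 1`, `nr w u⁻¹ = (nr w u)⁻¹`, `nr w (-u) = nr w u`, `ord z u⁻¹ = -ord z u`, `ord z (-u) = ord z u`.
`regV_D`: if `ord z u = 0` use `ord_val`, `D (u - c) = D u`, `ord_D`.  `ord_iter`, `ord_ge`: induction with `ord_D` (generalise `u`).  `D_const`: `ord_D` at `z = 1` for `u` and for `u - c`.
`bddV`: for `u ≠ 0` either `nr w u ≤ 1` for almost all `w`, or `1 ≤ nr w u` for almost all `w` (`Ultrafilter.em`, `Ultrafilter.eventually_or`).  `bddV_nonunits`: `ValuationSubring.mem_nonunits_iff_or`; if `u⁻¹` is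
not bounded then for each `C` almost all `w` have `C < nr w u⁻¹`.  `bdd_of_ultra`: otherwise choose `w n` with `n < nr (w n) u` and take `(Filter.hyperfilter ℕ).map w`.
`liouville`: by `ord_val` at `z = 1` either `u` is constant or `u' = u - c ≠ 0` has `0 < ord 1 u'`, no pole, and is bounded.  Jensen with `w₁ = 1`: all terms of the sum are `≥ 0` (`finsum_nonneg`); for `‖w‖ → ∞` we get `n ≤ 0`;
for `‖w‖ → 0` the term `z = 1` is `≥ log (1 / ‖w‖)` (`single_le_finsum`; the support is finite by `fin`: lemma `wt_support`), so `(1 - n) log (1 / ‖w‖)` is bounded above and `1 ≤ n`.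
`decay`: choose `R : Kˣ`, `1 < ‖R‖`, with all poles `z`, `1 < ‖z‖`, in `‖z‖ ≤ ‖R‖`; `C` bounds `nr R u` and `nr w u` along `𝒰`.  Key: let `‖R‖ < ‖z₁‖`, `c : K`, `v = u - c ≠ 0` with `0 < ord z₁ v`.  Jensen based at `R`: for `‖z₁‖ ≤ ‖w‖`,
`log nr w v ≥ log nr R v + n log (‖w‖ / ‖R‖) + log (‖w‖ / ‖z₁‖)`; more precisely with `S` the finite set of zeros `z` of `v` with `‖R‖ < ‖z‖ ≤ ‖z₁‖` and `d = ∑ z ∈ S, ord z v ≥ 1`, boundedness of `nr w v` along `𝒰` gives `n + d ≤ 0`; hence at `w = z₁`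
(where points with `‖z‖ = ‖z₁‖` have weight `0`, the others weight `≤ log (‖z₁‖ / ‖R‖)`): `log nr z₁ v ≤ log nr R v - log (‖z₁‖ / ‖R‖)`.  If `C < ‖c‖` then `nr R v = ‖c‖ = nr w v` for `w` along `𝒰`; take `z₁` itself along `𝒰`: contradiction
with the inequality.  So `‖c‖ ≤ C` and `nr z₁ (D u) = nr z₁ (D v) ≤ nr z₁ v ≤ C ‖R‖ / ‖z₁‖`.  For each `z₁` along `𝒰` such a `c` exists (`c = 0` or `ord_val`), unless `u` is constant.
-/

open Filter Topology

namespace Pool.Agent.Work.MP_e120ef_ag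

variable {K M : Type} [NontriviallyNormedField K] [Field M] [Algebra K M] (N : Nev K M)

theorem NevA_nr_one (w : Kˣ) : N.nr w 1 = 1 := by
  have := N.nr_alg w 1
  rwa [map_one, norm_one] at this

theorem NevA_nr_inv (w : Kˣ) (u : M) : N.nr w u⁻¹ = (N.nr w u)⁻¹ := by
  by_cases h : u = 0
  · rw [h, inv_zero, (N.nr_eq_zero w 0).2 rfl, inv_zero]
  · have h1 := N.nr_mul w u u⁻¹
    rw [mul_inv_cancel₀ h, NevA_nr_one] at h1
    exact eq_inv_of_mul_eq_one_right h1.symm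

theorem NevA_nr_neg (w : Kˣ) (u : M) : N.nr w (-u) = N.nr w u := by
  have h : -u = algebraMap K M (-1) * u := by simp
  rw [h, N.nr_mul, N.nr_alg]
  simp

theorem NevA_nr_sub (w : Kˣ) (u v : M) : N.nr w (u - v) ≤ max (N.nr w u) (N.nr w v) := by
  have := N.nr_add w u (-v)
  rwa [NevA_nr_neg, ← sub_eq_add_neg] at this

theorem NevA_nr_pos (w : Kˣ) {u : M} (h : u ≠ 0) : 0 < N.nr w u :=
  lt_of_le_of_ne (N.nr_nonneg w u) fun h1 => h ((N.nr_eq_zero w u).1 h1.symm)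

theorem NevA_ord_one (z : Kˣ) : N.ord z 1 = 0 := by
  have := N.ord_alg z 1
  rwa [map_one] at this

theorem NevA_ord_inv (z : Kˣ) (u : M) : N.ord z u⁻¹ = -N.ord z u := by
  by_cases h : u = 0
  · rw [h, inv_zero, N.ord_zero, neg_zero]
  · have h1 := N.ord_mul z u u⁻¹ h (inv_ne_zero h)
    rw [mul_inv_cancel₀ h, NevA_ord_one] at h1
    omega

theorem NevA_ord_neg (z : Kˣ) (u : M) : N.ord z (-u) = N.ord z u := by
  by_cases h : u = 0
  · rw [h, neg_zero]
  · have h1 : -u = algebraMap K M (-1) * u := by simp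
    rw [h1, N.ord_mul z _ u (by simp) h, N.ord_alg, zero_add]

theorem NevA_D_sub (u : M) (c : K) : N.D (u - algebraMap K M c) = N.D u := by
  rw [map_sub, Derivation.map_algebraMap, sub_zero]

theorem wt_nonneg (w₁ w₂ z : Kˣ) : 0 ≤ wt w₁ w₂ z := by
  unfold wt
  split_ifs <;> exact Real.posLog_nonneg

theorem Nev.wt_support (u : M) (w₁ w₂ : Kˣ) : {z | N.ord z u ≠ 0 ∧ wt w₁ w₂ z ≠ 0}.Finite := by
  refine ((N.fin u w₁ w₂).union (N.fin u w₂ w₁)).subset ?_
  rintro z ⟨h1, h2⟩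
  have hz : 0 < ‖(z : K)‖ := norm_pos_iff.2 z.ne_zero
  have hw : 0 < ‖(w₂ : K)‖ := norm_pos_iff.2 w₂.ne_zero
  unfold wt at h2
  split_ifs at h2 with h
  · refine Or.inl ⟨h.le, ?_, h1⟩
    by_contra h3
    apply h2
    rw [Real.posLog_eq_zero_iff, abs_of_nonneg (by positivity), div_le_one hz]
    exact (not_le.1 h3).le
  · refine Or.inr ⟨?_, not_lt.1 h, h1⟩
    by_contra h3
    apply h2
    rw [Real.posLog_eq_zero_iff, abs_of_nonneg (by positivity), div_le_one hw]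
    exact (not_le.1 h3).le

/-- the functions regular at `z` -/
def Nev.regV (z : Kˣ) : ValuationSubring M where
  carrier := {u | 0 ≤ N.ord z u}
  mul_mem' := by
    intro u v hu hv
    simp only [Set.mem_ofPred_eq] at hu hv ⊢
    by_cases h1 : u = 0
    · rw [h1, zero_mul, N.ord_zero]
    by_cases h2 : v = 0
    · rw [h2, mul_zero, N.ord_zero]
    rw [N.ord_mul z u v h1 h2]
    omega
  one_mem' := (NevA_ord_one N z).ge
  add_mem' := by
    intro u v hu hv
    simp only [Set.mem_ofPred_eq] at hu hv ⊢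
    by_cases h1 : u = 0
    · rwa [h1, zero_add]
    by_cases h2 : v = 0
    · rwa [h2, add_zero]
    by_cases h3 : u + v = 0
    · rw [h3, N.ord_zero]
    exact (le_min hu hv).trans (N.ord_add z u v h1 h2 h3)
  zero_mem' := (N.ord_zero z).ge
  neg_mem' := by
    intro u hu
    simp only [Set.mem_ofPred_eq] at hu ⊢
    rwa [NevA_ord_neg]
  mem_or_inv_mem' := by
    intro u
    simp only [Set.mem_ofPred_eq]
    rw [NevA_ord_inv]
    omega

theorem Nev.mem_regV {z : Kˣ} {u : M} : u ∈ N.regV z ↔ 0 ≤ N.ord z u := Iff.rfl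

theorem Nev.regV_nonunits {z : Kˣ} {u : M} : u ∈ (N.regV z).nonunits ↔ u = 0 ∨ 0 < N.ord z u := by
  rw [ValuationSubring.mem_nonunits_iff_or, Nev.mem_regV, NevA_ord_inv]
  apply or_congr Iff.rfl
  omega

theorem Nev.regV_alg (z : Kˣ) (c : K) : algebraMap K M c ∈ N.regV z := by
  exact (N.ord_alg z c).ge

theorem Nev.regV_D {z : Kˣ} {u : M} (h : u ∈ N.regV z) : N.D u ∈ N.regV z := by
  rw [Nev.mem_regV] at h ⊢
  by_cases h0 : N.ord z u = 0
  · obtain ⟨c, hc | hc⟩ := N.ord_val z u h0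
    · rw [hc, Derivation.map_algebraMap, N.ord_zero]
    · have := (N.ord_D z _ hc.ne').2
      rw [NevA_D_sub] at this
      omega
  · have := (N.ord_D z u h0).2
    omega

theorem Nev.regV_val {z : Kˣ} {u : M} (h : u ∈ N.regV z) :
    ∃ c : K, u - algebraMap K M c ∈ (N.regV z).nonunits := by
  rw [Nev.mem_regV] at h
  by_cases h0 : N.ord z u = 0
  · obtain ⟨c, hc | hc⟩ := N.ord_val z u h0
    · exact ⟨c, N.regV_nonunits.2 (Or.inl (sub_eq_zero.2 hc))⟩
    · exact ⟨c, N.regV_nonunits.2 (Or.inr hc)⟩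
  · refine ⟨0, N.regV_nonunits.2 (Or.inr ?_)⟩
    rw [map_zero, sub_zero]
    omega

theorem Nev.ord_iter {z : Kˣ} {u : M} {j : ℕ} (h : (j : ℤ) < N.ord z u) :
    N.D^[j] u ∈ (N.regV z).nonunits := by
  induction j generalizing u with
  | zero => exact N.regV_nonunits.2 (Or.inr (by simpa using h))
  | succ j ih =>
    rw [Function.iterate_succ_apply]
    apply ih
    have := (N.ord_D z u (by omega)).2
    omega

theorem Nev.ord_ge {z : Kˣ} {u : M} (hu : u ≠ 0) {n : ℕ}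
    (h : ∀ j < n, N.D^[j] u ∈ (N.regV z).nonunits) (h0 : u ∈ N.regV z) : (n : ℤ) ≤ N.ord z u := by
  induction n generalizing u with
  | zero => exact h0
  | succ n ih =>
    have h1 := (N.regV_nonunits.1 (h 0 (Nat.succ_pos n))).resolve_left hu
    rw [Function.iterate_zero_apply] at h1
    obtain ⟨h2, h3⟩ := N.ord_D z u h1.ne'
    have h4 := ih h2 (fun j hj => by
      rw [← Function.iterate_succ_apply]
      exact h _ (Nat.succ_lt_succ hj)) (N.regV_D h0)
    omega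

theorem Nev.van_iter {z : Kˣ} {u : M} (h : ∀ j, N.D^[j] u ∈ (N.regV z).nonunits) : u = 0 := by
  by_contra hu
  have h1 := (N.regV_nonunits.1 (h 0)).resolve_left hu
  rw [Function.iterate_zero_apply] at h1
  have h2 := N.ord_ge hu (n := (N.ord z u).toNat + 1) (fun j _ => h j) h1.le
  omega

theorem Nev.D_const {u : M} (h : N.D u = 0) : ∃ c : K, u = algebraMap K M c := by
  by_cases h0 : N.ord 1 u = 0
  · obtain ⟨c, hc | hc⟩ := N.ord_val 1 u h0
    · exact ⟨c, hc⟩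
    · have := (N.ord_D 1 _ hc.ne').1
      rw [NevA_D_sub] at this
      exact absurd h this
  · exact absurd h (N.ord_D 1 u h0).1

/-- the functions bounded along an ultrafilter of radii -/
def Nev.bddV (𝒰 : Ultrafilter Kˣ) : ValuationSubring M where
  carrier := {u | ∃ C : ℝ, ∀ᶠ w in (𝒰 : Filter Kˣ), N.nr w u ≤ C}
  mul_mem' := by
    rintro u v ⟨C, hC⟩ ⟨E, hE⟩
    refine ⟨C * E, ?_⟩
    filter_upwards [hC, hE] with w h1 h2
    rw [N.nr_mul]
    exact mul_le_mul h1 h2 (N.nr_nonneg _ _) ((N.nr_nonneg _ _).trans h1)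
  one_mem' := ⟨1, Eventually.of_forall fun w => (NevA_nr_one N w).le⟩
  add_mem' := by
    rintro u v ⟨C, hC⟩ ⟨E, hE⟩
    refine ⟨max C E, ?_⟩
    filter_upwards [hC, hE] with w h1 h2
    exact (N.nr_add w u v).trans (max_le_max h1 h2)
  zero_mem' := ⟨0, Eventually.of_forall fun w => ((N.nr_eq_zero w 0).2 rfl).le⟩
  neg_mem' := by
    rintro u ⟨C, hC⟩
    exact ⟨C, hC.mono fun w h => by rwa [NevA_nr_neg]⟩
  mem_or_inv_mem' := by
    intro u
    rcases 𝒰.em fun w => N.nr w u ≤ 1 with h | h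
    · exact Or.inl ⟨1, h⟩
    · refine Or.inr ⟨1, h.mono fun w hw => ?_⟩
      rw [NevA_nr_inv]
      exact inv_le_one_of_one_le₀ (not_le.1 hw).le

theorem Nev.bddV_nonunits {𝒰 : Ultrafilter Kˣ} {u : M} :
    u ∈ (N.bddV 𝒰).nonunits ↔ Tendsto (fun w => N.nr w u) 𝒰 (𝓝 0) := by
  rw [ValuationSubring.mem_nonunits_iff_or]
  constructor
  · rintro (h | h)
    · rw [h]
      simp only [(N.nr_eq_zero _ 0).2 rfl]
      exact tendsto_const_nhds
    · rw [tendsto_order]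
      refine ⟨fun a ha => Eventually.of_forall fun w => ha.trans_le (N.nr_nonneg w u),
        fun a ha => ?_⟩
      rcases 𝒰.em fun w => N.nr w u < a with h1 | h1
      · exact h1
      · refine absurd ⟨a⁻¹, h1.mono fun w hw => ?_⟩ h
        rw [NevA_nr_inv]
        exact inv_anti₀ ha (not_lt.1 hw)
  · intro h
    by_cases hu : u = 0
    · exact Or.inl hu
    refine Or.inr ?_
    rintro ⟨C, hC⟩
    have h1 : Tendsto (fun w => N.nr w u * C) 𝒰 (𝓝 0) := by simpa using h.mul_const C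
    have h2 : (1 : ℝ) ≤ 0 := ge_of_tendsto h1 (hC.mono fun w hw => by
      have h3 := NevA_nr_pos N w hu
      rw [NevA_nr_inv] at hw
      have h4 := mul_le_mul_of_nonneg_left hw h3.le
      rwa [mul_inv_cancel₀ h3.ne'] at h4)
    linarith

theorem Nev.bddV_alg (𝒰 : Ultrafilter Kˣ) (c : K) : algebraMap K M c ∈ N.bddV 𝒰 := by
  exact ⟨‖c‖, Eventually.of_forall fun w => (N.nr_alg w c).le⟩

theorem Nev.bddV_D {𝒰 : Ultrafilter Kˣ} {u : M} (h : u ∈ N.bddV 𝒰) : N.D u ∈ N.bddV 𝒰 := by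
  obtain ⟨C, hC⟩ := h
  exact ⟨C, hC.mono fun w hw => (N.nr_D w u).trans hw⟩

theorem Nev.bddV_D_nonunits {𝒰 : Ultrafilter Kˣ} {u : M} (h : u ∈ (N.bddV 𝒰).nonunits) :
    N.D u ∈ (N.bddV 𝒰).nonunits := by
  rw [Nev.bddV_nonunits] at h ⊢
  exact squeeze_zero (fun w => N.nr_nonneg w _) (fun w => N.nr_D w u) h

theorem Nev.bdd_of_ultra {u : M} (h : ∀ 𝒰, u ∈ N.bddV 𝒰) : ∃ C : ℝ, ∀ w, N.nr w u ≤ C := by
  by_contra h1
  push Not at h1
  choose w hw using fun n : ℕ => h1 n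
  obtain ⟨C, hC⟩ := h ((hyperfilter ℕ).map w)
  rw [Ultrafilter.coe_map, eventually_map] at hC
  have h2 : ∀ᶠ n : ℕ in (hyperfilter ℕ : Filter ℕ), C ≤ n :=
    Nat.hyperfilter_le_atTop (tendsto_natCast_atTop_atTop.eventually_ge_atTop C)
  obtain ⟨n, h3, h4⟩ := (hC.and h2).exists
  linarith [hw n]

theorem NevA_supp (u : M) (w₁ w₂ : Kˣ) :
    (Function.support fun z => (N.ord z u : ℝ) * wt w₁ w₂ z).Finite := by
  refine (N.wt_support u w₁ w₂).subset fun z hz => ?_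
  rw [Function.mem_support, mul_ne_zero_iff] at hz
  exact ⟨by exact_mod_cast hz.1, hz.2⟩

theorem NevA_large (r : ℝ) : ∃ w : Kˣ, r < ‖(w : K)‖ := by
  obtain ⟨x, hx⟩ := NormedField.exists_lt_norm K (max r 0)
  exact ⟨Units.mk0 x (norm_pos_iff.1 ((le_max_right _ _).trans_lt hx)),
    (le_max_left _ _).trans_lt hx⟩

theorem Nev.liouville {u : M} (h₁ : ∀ z, u ∈ N.regV z) (h₂ : ∀ 𝒰, u ∈ N.bddV 𝒰) : N.D u = 0 := by
  obtain ⟨c, hc⟩ := N.regV_val (h₁ 1)
  rw [← NevA_D_sub N u c]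
  generalize hv : u - algebraMap K M c = v at hc
  have r : ∀ z, 0 ≤ N.ord z v := fun z => hv ▸ sub_mem (h₁ z) (N.regV_alg z c)
  obtain ⟨C, hC⟩ := N.bdd_of_ultra (u := v) fun 𝒰 => hv ▸ sub_mem (h₂ 𝒰) (N.bddV_alg 𝒰 c)
  by_cases h0 : v = 0
  · rw [h0, map_zero]
  exfalso
  have h1 := (N.regV_nonunits.1 hc).resolve_left h0
  obtain ⟨n, hn⟩ := N.jensen v h0 1
  obtain ⟨w, hw⟩ := NevA_large (K := K)
    (max 1 (Real.exp (2 * Real.log C - 2 * Real.log (N.nr 1 v))))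
  have w1 : 1 < ‖(w : K)‖ := (le_max_left _ _).trans_lt hw
  have w2 : 2 * Real.log C - 2 * Real.log (N.nr 1 v) < Real.log ‖(w : K)‖ :=
    (Real.lt_log_iff_exp_lt (by linarith)).2 ((le_max_right _ _).trans_lt hw)
  have p : ∀ w z, 0 ≤ (N.ord z v : ℝ) * wt 1 w z := fun w z =>
    mul_nonneg (by exact_mod_cast r z) (wt_nonneg _ _ _)
  have a1 := hn w
  have a2 := hn w⁻¹
  have b1 : 0 ≤ ∑ᶠ z, (N.ord z v : ℝ) * wt 1 w z := finsum_nonneg (p w)
  have b2 := single_le_finsum 1 (NevA_supp N v 1 w⁻¹) (p w⁻¹)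
  have b3 : wt (1 : Kˣ) w⁻¹ 1 = Real.log ‖(w : K)‖ := by
    unfold wt
    rw [if_neg (lt_irrefl _)]
    simp only [Units.val_one, norm_one, Units.val_inv_eq_inv_val, norm_inv, div_inv_eq_mul,
      one_mul]
    exact Real.posLog_eq_log (by rw [abs_of_nonneg (norm_nonneg _)]; exact w1.le)
  have b4 : (1 : ℝ) ≤ N.ord 1 v := by exact_mod_cast h1
  have b5 := Real.log_pos w1
  have c1 := Real.log_le_log (NevA_nr_pos N w h0) (hC w)
  have c2 := Real.log_le_log (NevA_nr_pos N w⁻¹ h0) (hC w⁻¹)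
  simp only [Units.val_one, norm_one, Units.val_inv_eq_inv_val, norm_inv, div_one,
    Real.log_inv] at a1 a2
  simp only [b3] at b2
  nlinarith

theorem exists_ultra : ∃ 𝒰 : Ultrafilter Kˣ, Tendsto (fun w : Kˣ => ‖(w : K)‖) 𝒰 atTop := by
  choose w hw using fun n : ℕ => NevA_large (K := K) n
  refine ⟨(hyperfilter ℕ).map w, ?_⟩
  rw [Ultrafilter.coe_map, tendsto_map'_iff]
  exact (tendsto_atTop_mono (fun n => (hw n).le) tendsto_natCast_atTop_atTop).mono_left
    Nat.hyperfilter_le_atTop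

theorem NevA_wt {R z₁ w : Kˣ} (h1 : ‖(R : K)‖ < ‖(z₁ : K)‖) (h2 : ‖(z₁ : K)‖ ≤ ‖(w : K)‖)
    (z : Kˣ) : (Real.log ‖(w : K)‖ - Real.log ‖(R : K)‖) * wt R z₁ z ≤
      (Real.log ‖(z₁ : K)‖ - Real.log ‖(R : K)‖) * wt R w z := by
  have hR : 0 < ‖(R : K)‖ := norm_pos_iff.2 R.ne_zero
  have hz : 0 < ‖(z : K)‖ := norm_pos_iff.2 z.ne_zero
  have l1 := Real.log_lt_log hR h1
  have l2 := Real.log_le_log (hR.trans h1) h2
  by_cases h : ‖(R : K)‖ < ‖(z : K)‖ ∧ ‖(z : K)‖ ≤ ‖(z₁ : K)‖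
  · unfold wt
    have l3 := Real.log_lt_log hR h.1
    rw [if_pos h.1, if_pos h.1, Real.posLog_eq_log, Real.posLog_eq_log,
      Real.log_div (by linarith) hz.ne', Real.log_div (by linarith) hz.ne']
    · nlinarith
    · rw [abs_of_nonneg (by positivity), one_le_div hz]
      linarith [h.2]
    · rw [abs_of_nonneg (by positivity), one_le_div hz]
      exact h.2
  · have h3 : wt R z₁ z = 0 := by
      unfold wt
      split_ifs with h4
      · rw [Real.posLog_eq_zero_iff, abs_of_nonneg (by positivity), div_le_one hz]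
        by_contra h5
        exact h ⟨h4, (not_le.1 h5).le⟩
      · rw [Real.posLog_eq_zero_iff, abs_of_nonneg (by positivity), div_le_one (hR.trans h1)]
        linarith [not_lt.1 h4]
    rw [h3, mul_zero]
    exact mul_nonneg (by linarith) (wt_nonneg _ _ _)

theorem NevA_wt0 {R w z : Kˣ} (h1 : ‖(R : K)‖ ≤ ‖(w : K)‖) (h2 : ‖(z : K)‖ ≤ ‖(R : K)‖) :
    wt R w z = 0 := by
  unfold wt
  rw [if_neg (not_lt.2 h2), Real.posLog_eq_zero_iff, abs_of_nonneg (by positivity),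
    div_le_one (norm_pos_iff.2 w.ne_zero)]
  exact h2.trans h1

theorem NevA_sum {v : M} {R z₁ w : Kˣ} (hp : ∀ z : Kˣ, ‖(R : K)‖ < ‖(z : K)‖ → 0 ≤ N.ord z v)
    (h0 : 0 < N.ord z₁ v) (h1 : ‖(R : K)‖ < ‖(z₁ : K)‖) (h2 : ‖(z₁ : K)‖ ≤ ‖(w : K)‖) :
    (Real.log ‖(w : K)‖ - Real.log ‖(R : K)‖) * ∑ᶠ z, (N.ord z v : ℝ) * wt R z₁ z +
      (Real.log ‖(z₁ : K)‖ - Real.log ‖(R : K)‖) * (Real.log ‖(w : K)‖ - Real.log ‖(z₁ : K)‖) ≤
      (Real.log ‖(z₁ : K)‖ - Real.log ‖(R : K)‖) * ∑ᶠ z, (N.ord z v : ℝ) * wt R w z := by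
  classical
  have hR : 0 < ‖(R : K)‖ := norm_pos_iff.2 R.ne_zero
  have hz : 0 < ‖(z₁ : K)‖ := hR.trans h1
  have l1 := Real.log_lt_log hR h1
  have l2 := Real.log_le_log hz h2
  obtain ⟨T, t1, t2, t3⟩ : ∃ T : Finset Kˣ, z₁ ∈ T ∧
      (Function.support fun z => (N.ord z v : ℝ) * wt R z₁ z) ⊆ T ∧
      (Function.support fun z => (N.ord z v : ℝ) * wt R w z) ⊆ T := by
    refine ⟨insert z₁ ((NevA_supp N v R z₁).toFinset ∪ (NevA_supp N v R w).toFinset),
      Finset.mem_insert_self _ _, fun z hz => ?_, fun z hz => ?_⟩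
    · exact Finset.mem_insert_of_mem (Finset.mem_union_left _ ((Set.Finite.mem_toFinset _).2 hz))
    · exact Finset.mem_insert_of_mem (Finset.mem_union_right _ ((Set.Finite.mem_toFinset _).2 hz))
  rw [finsum_eq_sum_of_support_subset _ t2, finsum_eq_sum_of_support_subset _ t3,
    Finset.mul_sum, Finset.mul_sum, add_comm, ← le_sub_iff_add_le, ← Finset.sum_sub_distrib]
  refine le_trans ?_ (Finset.single_le_sum (fun z _ => ?_) t1)
  · have e1 : wt R z₁ z₁ = 0 := by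
      unfold wt
      rw [if_pos h1, div_self hz.ne', Real.posLog_one]
    have e2 : wt R w z₁ = Real.log ‖(w : K)‖ - Real.log ‖(z₁ : K)‖ := by
      unfold wt
      rw [if_pos h1, Real.posLog_eq_log, Real.log_div (by linarith) hz.ne']
      rwa [abs_of_nonneg (by positivity), one_le_div hz]
    have e3 : (1 : ℝ) ≤ N.ord z₁ v := by exact_mod_cast h0
    rw [e1, e2, mul_zero, mul_zero, sub_zero]
    exact mul_le_mul_of_nonneg_left (le_mul_of_one_le_left (by linarith) e3) (by linarith)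
  · rcases lt_or_ge ‖(R : K)‖ ‖(z : K)‖ with h | h
    · have e1 : (0 : ℝ) ≤ N.ord z v := by exact_mod_cast hp z h
      have e2 := mul_le_mul_of_nonneg_left (NevA_wt h1 h2 z) e1
      linarith
    · rw [NevA_wt0 h1.le h, NevA_wt0 (h1.le.trans h2) h]
      simp

theorem NevA_key {v : M} {R z₁ : Kˣ} (hp : ∀ z : Kˣ, ‖(R : K)‖ < ‖(z : K)‖ → 0 ≤ N.ord z v)
    (h0 : 0 < N.ord z₁ v) (h1 : ‖(R : K)‖ < ‖(z₁ : K)‖) {𝒰 : Ultrafilter Kˣ}
    (h𝒰 : Tendsto (fun w : Kˣ => ‖(w : K)‖) 𝒰 atTop) (hb : v ∈ N.bddV 𝒰) :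
    N.nr z₁ v ≤ N.nr R v * (‖(R : K)‖ / ‖(z₁ : K)‖) := by
  have hv : v ≠ 0 := fun h => by rw [h, N.ord_zero] at h0; exact lt_irrefl _ h0
  have hR : 0 < ‖(R : K)‖ := norm_pos_iff.2 R.ne_zero
  have hz : 0 < ‖(z₁ : K)‖ := hR.trans h1
  have l1 := Real.log_lt_log hR h1
  obtain ⟨C, hC⟩ := hb
  obtain ⟨n, hn⟩ := N.jensen v hv R
  have p1 := NevA_nr_pos N z₁ hv
  have p2 := NevA_nr_pos N R hv
  rw [← Real.log_le_log_iff p1 (by positivity), Real.log_mul p2.ne' (by positivity),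
    Real.log_div hR.ne' hz.ne']
  by_contra hc
  push Not at hc
  obtain ⟨l, hl⟩ : ∃ l, l = Real.log ‖(z₁ : K)‖ - Real.log ‖(R : K)‖ := ⟨_, rfl⟩
  obtain ⟨F, hF⟩ : ∃ F, F = Real.log (N.nr z₁ v) - Real.log (N.nr R v) := ⟨_, rfl⟩
  have e0 : 0 < F + l := by linarith
  have ht := (Real.tendsto_log_atTop.comp h𝒰).eventually_gt_atTop
    (Real.log ‖(z₁ : K)‖ + (l * (Real.log C - Real.log (N.nr R v)) - l * F) / (F + l))
  obtain ⟨w, w1, w2, w3⟩ := (hC.and (ht.and (h𝒰.eventually_ge_atTop ‖(z₁ : K)‖))).exists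
  have a1 := hn z₁
  have a2 := hn w
  rw [Real.log_div (by linarith) hR.ne'] at a1 a2
  have a3 := NevA_sum N hp h0 h1 w3
  have a4 := Real.log_le_log (NevA_nr_pos N w hv) w1
  simp only [Function.comp] at w2
  obtain ⟨m, hm⟩ : ∃ m, m = Real.log ‖(w : K)‖ - Real.log ‖(z₁ : K)‖ := ⟨_, rfl⟩
  have a5 : l * (Real.log C - Real.log (N.nr R v)) - l * F < m * (F + l) := by
    rw [← div_lt_iff₀ e0]
    linarith
  have e1 : Real.log ‖(w : K)‖ - Real.log ‖(R : K)‖ = m + l := by linarith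
  rw [e1, ← hl] at a3
  rw [e1] at a2
  rw [← hl] at a1
  rw [← hm] at a3
  generalize ∑ᶠ z, (N.ord z v : ℝ) * wt R z₁ z = S1 at a1 a3
  generalize ∑ᶠ z, (N.ord z v : ℝ) * wt R w z = S2 at a2 a3
  have l0 : 0 < l := by linarith
  have e2 : S1 = F - n * l := by linarith
  have e3 : S2 ≤ Real.log C - Real.log (N.nr R v) - n * (m + l) := by linarith
  have e4 := mul_le_mul_of_nonneg_left e3 l0.le
  rw [e2] at a3
  nlinarith

theorem Nev.decay {u : M} (hfin : {z : Kˣ | 1 < ‖(z : K)‖ ∧ N.ord z u < 0}.Finite)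
    {𝒰 : Ultrafilter Kˣ} (h𝒰 : Tendsto (fun w : Kˣ => ‖(w : K)‖) 𝒰 atTop) (hb : u ∈ N.bddV 𝒰) :
    N.D u ∈ (N.bddV 𝒰).nonunits := by
  obtain ⟨B, hB⟩ := (hfin.image fun z : Kˣ => ‖(z : K)‖).bddAbove
  obtain ⟨R, hR⟩ := NevA_large (K := K) (max 1 B)
  have hp : ∀ z : Kˣ, ‖(R : K)‖ < ‖(z : K)‖ → 0 ≤ N.ord z u := by
    intro z hz
    by_contra h
    have h1 := hB ⟨z, ⟨(le_max_left _ _).trans_lt (hR.trans hz), not_le.1 h⟩, rfl⟩
    linarith [le_max_right 1 B]
  obtain ⟨C₀, hC₀⟩ := id hb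
  obtain ⟨C, c1, c2⟩ : ∃ C, C₀ ≤ C ∧ N.nr R u ≤ C := ⟨_, le_max_left _ _, le_max_right _ _⟩
  have R0 : 0 < ‖(R : K)‖ := norm_pos_iff.2 R.ne_zero
  have C0 : 0 ≤ C := (N.nr_nonneg R u).trans c2
  rw [Nev.bddV_nonunits]
  have ht : Tendsto (fun w : Kˣ => C * (‖(R : K)‖ / ‖(w : K)‖)) 𝒰 (𝓝 0) := by
    simpa using (h𝒰.const_div_atTop ‖(R : K)‖).const_mul C
  refine squeeze_zero' (Eventually.of_forall fun w => N.nr_nonneg w _) ?_ ht
  filter_upwards [hC₀, h𝒰.eventually_gt_atTop ‖(R : K)‖] with z h1 h2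
  obtain ⟨c, hc⟩ := N.regV_val (N.mem_regV.2 (hp z h2))
  have z0 : 0 < ‖(z : K)‖ := R0.trans h2
  rw [← NevA_D_sub N u c]
  refine (N.nr_D z _).trans ?_
  rcases N.regV_nonunits.1 hc with h | h
  · rw [h, (N.nr_eq_zero z 0).2 rfl]
    positivity
  have k := NevA_key N (v := u - algebraMap K M c)
    (fun y hy => sub_mem (N.mem_regV.2 (hp y hy)) (N.regV_alg y c)) h h2 h𝒰
    (sub_mem hb (N.bddV_alg 𝒰 c))
  have k1 := NevA_nr_sub N R u (algebraMap K M c)
  have k2 := NevA_nr_sub N z u (u - algebraMap K M c)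
  rw [sub_sub_cancel] at k2
  rw [N.nr_alg] at k1 k2
  have q0 : 0 < ‖(R : K)‖ / ‖(z : K)‖ := by positivity
  have q1 : ‖(R : K)‖ / ‖(z : K)‖ < 1 := (div_lt_one z0).2 h2
  rcases le_or_gt ‖c‖ C with h3 | h3
  · exact k.trans (mul_le_mul_of_nonneg_right (k1.trans (max_le c2 h3)) q0.le)
  · exfalso
    have k3 : N.nr R (u - algebraMap K M c) ≤ ‖c‖ := k1.trans (max_le (by linarith) le_rfl)
    have k4 := mul_le_mul_of_nonneg_right k3 q0.le
    rcases le_max_iff.1 k2 with h4 | h4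
    · linarith
    · nlinarith

end Pool.Agent.Work.MP_e120ef_ag
end

-- merged part: Pool.Agent.Work.MP_e120ef_ag.NevT
section
/-!
# The characteristic function

Plans.  All sums have finite support (`Nev.wt_support`); rewrite them as sums over one finite set (`finsum_eq_sum_of_support_subset`).  A convenient master lemma: if `posLog (nr w u) ≤ C + ∑ i ∈ s, k i * posLog (nr w (y i))`
and `max (-ord z u) 0 ≤ ∑ i ∈ s, k i * max (-ord z (y i)) 0` for all `z`, then `T u w ≤ C + ∑ i ∈ s, k i * T (y i) w`.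
`T_inv`: Jensen with `w₁ = 1`, `log x = posLog x - posLog x⁻¹` (`Real.posLog_sub_posLog_inv`), `ord = max ord 0 - max (-ord) 0`.
`T_poly`: `nr w (aeval y σ) ≤ C₀ * ∏ i, max 1 (nr w (y i)) ^ k` by induction over the support (each monomial satisfies the bound, ultrametric inequality); the set of `u` with `u = 0` or `-ord z u ≤ B` is closed under addition.
`T_root`: if `nr w u > max 1 (nr w (a i))` for all `i` then `nr w (u ^ d)` is larger than the norm of every other term; same for `-ord z`.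
-/

open Filter Topology

namespace Pool.Agent.Work.MP_e120ef_ag

variable {K M : Type} [NontriviallyNormedField K] [Field M] [Algebra K M] (N : Nev K M)

omit [Field M] [Algebra K M] in
theorem Le.of_le {f g : Kˣ → ℝ} (h : ∀ w : Kˣ, 1 ≤ ‖(w : K)‖ → f w ≤ g w) : Le f g := by
  exact ⟨0, fun w hw => by simpa using h w hw⟩

omit [Field M] [Algebra K M] in
theorem Le.trans {f g h : Kˣ → ℝ} (h₁ : Le f g) (h₂ : Le g h) : Le f h := by
  obtain ⟨C, hC⟩ := h₁
  obtain ⟨D, hD⟩ := h₂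
  exact ⟨C + D, fun w hw => by have := hC w hw; have := hD w hw; linarith⟩

omit [Field M] [Algebra K M] in
theorem Le.add {f g f' g' : Kˣ → ℝ} (h₁ : Le f g) (h₂ : Le f' g') :
    Le (fun w => f w + f' w) fun w => g w + g' w := by
  obtain ⟨C, hC⟩ := h₁
  obtain ⟨D, hD⟩ := h₂
  exact ⟨C + D, fun w hw => by have := hC w hw; have := hD w hw; linarith⟩

omit [Field M] [Algebra K M] in
theorem Le.mul {f g : Kˣ → ℝ} (h : Le f g) {c : ℝ} (hc : 0 ≤ c) :
    Le (fun w => c * f w) fun w => c * g w := by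
  obtain ⟨C, hC⟩ := h
  exact ⟨c * C, fun w hw => by have := mul_le_mul_of_nonneg_left (hC w hw) hc; linarith⟩

omit [Field M] [Algebra K M] in
theorem Le.sum {ι : Type} (s : Finset ι) {f g : ι → Kˣ → ℝ} (h : ∀ i ∈ s, Le (f i) (g i)) :
    Le (fun w => ∑ i ∈ s, f i w) fun w => ∑ i ∈ s, g i w := by
  classical
  induction s using Finset.induction_on with
  | empty => exact Le.of_le fun w _ => le_rfl
  | insert a s ha ih =>
    simp only [Finset.sum_insert ha]
    exact (h a (Finset.mem_insert_self a s)).add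
      (ih fun i hi => h i (Finset.mem_insert_of_mem hi))

omit [Field M] [Algebra K M] in
theorem Le.const (f : Kˣ → ℝ) (c : ℝ) : Le (fun w => c + f w) f := by
  refine ⟨|c|, fun w hw => ?_⟩
  have h1 := Real.log_nonneg hw
  have h2 := le_abs_self c
  have h3 := mul_nonneg (abs_nonneg c) h1
  linarith

/-- ultrametric absolute values -/
structure NevT_Abs (ν : M → ℝ) : Prop where
  nonneg : ∀ u, 0 ≤ ν u
  eq_zero : ∀ u, ν u = 0 ↔ u = 0
  mul : ∀ u v, ν (u * v) = ν u * ν v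
  add : ∀ u v, ν (u + v) ≤ max (ν u) (ν v)

namespace NevT_Abs

variable {ν : M → ℝ} (h : NevT_Abs ν)
include h

theorem zero : ν 0 = 0 := (h.eq_zero 0).2 rfl

theorem one : ν 1 = 1 := by
  have h1 := h.mul 1 1
  rw [one_mul] at h1
  exact mul_left_cancel₀ (fun h2 => one_ne_zero ((h.eq_zero 1).1 h2)) (h1.symm.trans (mul_one _).symm)

theorem neg (u : M) : ν (-u) = ν u := by
  have h1 := h.mul (-1) (-1)
  rw [neg_mul_neg, one_mul, h.one] at h1
  have h2 : ν (-1) = 1 := by have := h.nonneg (-1); nlinarith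
  rw [← neg_one_mul, h.mul, h2, one_mul]

theorem pow (u : M) (n : ℕ) : ν (u ^ n) = ν u ^ n := by
  induction n with
  | zero => simp [h.one]
  | succ n ih => rw [pow_succ, h.mul, ih, pow_succ]

theorem inv (u : M) : ν u⁻¹ = (ν u)⁻¹ := by
  by_cases hu : u = 0
  · simp [hu, h.zero]
  · exact eq_inv_of_mul_eq_one_left (by rw [← h.mul, inv_mul_cancel₀ hu, h.one])

theorem sum_lt {ι : Type} (s : Finset ι) {f : ι → M} {B : ℝ} (hB : 0 < B)
    (hf : ∀ i ∈ s, ν (f i) < B) : ν (∑ i ∈ s, f i) < B :=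
  Finset.sum_induction f (fun u => ν u < B) (fun u v hu hv => (h.add u v).trans_lt (max_lt hu hv))
    (h.zero ▸ hB) hf

theorem pl_mul (u v : M) :
    Real.posLog (ν (u * v)) ≤ Real.posLog (ν u) + Real.posLog (ν v) := by
  rw [h.mul]
  exact Real.posLog_mul

theorem pl_max (u v : M) :
    Real.posLog (ν (u + v)) ≤ max (Real.posLog (ν u)) (Real.posLog (ν v)) := by
  rcases le_max_iff.1 (h.add u v) with h1 | h1
  · exact le_max_of_le_left (Real.posLog_le_posLog (h.nonneg _) h1)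
  · exact le_max_of_le_right (Real.posLog_le_posLog (h.nonneg _) h1)

theorem pl_add (u v : M) :
    Real.posLog (ν (u + v)) ≤ Real.posLog (ν u) + Real.posLog (ν v) :=
  (h.pl_max u v).trans (max_le (le_add_of_nonneg_right Real.posLog_nonneg)
    (le_add_of_nonneg_left Real.posLog_nonneg))

theorem pl_prod {ι : Type} (s : Finset ι) (f : ι → M) :
    Real.posLog (ν (∏ i ∈ s, f i)) ≤ ∑ i ∈ s, Real.posLog (ν (f i)) := by
  classical
  induction s using Finset.induction_on with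
  | empty => simp [h.one]
  | insert a s ha ih =>
    rw [Finset.prod_insert ha, Finset.sum_insert ha]
    exact (h.pl_mul _ _).trans (add_le_add le_rfl ih)

theorem pl_poly {n k : ℕ} (y : Fin n → M) (σ : MvPolynomial (Fin n) K)
    (hσ : ∀ i, σ.degreeOf i ≤ k) {C : ℝ} (hC : 0 ≤ C)
    (hc : ∀ m ∈ σ.support, Real.posLog (ν (algebraMap K M (σ.coeff m))) ≤ C) :
    Real.posLog (ν (MvPolynomial.aeval y σ)) ≤ C + k * ∑ i, Real.posLog (ν (y i)) := by
  rw [MvPolynomial.aeval_def, MvPolynomial.eval₂_eq']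
  refine Finset.sum_induction _ (fun u => Real.posLog (ν u) ≤ C + k * ∑ i, Real.posLog (ν (y i)))
    (fun u v hu hv => (h.pl_max u v).trans (max_le hu hv)) ?_ fun m hm => ?_
  · rw [h.zero, Real.posLog_zero]
    exact add_nonneg hC (mul_nonneg k.cast_nonneg (Finset.sum_nonneg fun _ _ => Real.posLog_nonneg))
  · refine (h.pl_mul _ _).trans (add_le_add (hc m hm) ((h.pl_prod _ _).trans ?_))
    rw [Finset.mul_sum]
    refine Finset.sum_le_sum fun i _ => ?_
    rw [h.pow, Real.posLog_pow]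
    exact mul_le_mul_of_nonneg_right
      (Nat.cast_le.2 ((MvPolynomial.monomial_le_degreeOf i hm).trans (hσ i))) Real.posLog_nonneg

theorem pl_root {u : M} {d : ℕ} (a : ℕ → M)
    (hu : u ^ d + ∑ i ∈ Finset.range d, a i * u ^ i = 0) :
    Real.posLog (ν u) ≤ ∑ i ∈ Finset.range d, Real.posLog (ν (a i)) := by
  by_contra h1
  rw [not_le] at h1
  have h2 : 1 < ν u := by
    by_contra h2
    rw [(Real.posLog_eq_zero_iff _).2 (by rw [abs_of_nonneg (h.nonneg u)]; exact not_lt.1 h2)] at h1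
    exact h1.not_ge (Finset.sum_nonneg fun _ _ => Real.posLog_nonneg)
  have h3 : ν (∑ i ∈ Finset.range d, a i * u ^ i) < ν u ^ d := by
    refine h.sum_lt _ (pow_pos (one_pos.trans h2) d) fun i hi => ?_
    have h4 : ν (a i) < ν u := by
      by_contra h4
      exact h1.not_ge ((Real.posLog_le_posLog (h.nonneg u) (not_lt.1 h4)).trans
        (Finset.single_le_sum (f := fun i => Real.posLog (ν (a i)))
          (fun _ _ => Real.posLog_nonneg) hi))
    rw [h.mul, h.pow]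
    refine (mul_lt_mul_of_pos_right h4 (pow_pos (one_pos.trans h2) i)).trans_le ?_
    rw [← pow_succ']
    exact pow_le_pow_right₀ h2.le (Finset.mem_range.1 hi)
  rw [eq_neg_of_add_eq_zero_right hu, h.neg, h.pow] at h3
  exact h3.false

end NevT_Abs

theorem NevT_nr (w : Kˣ) : NevT_Abs (N.nr w) :=
  ⟨N.nr_nonneg w, N.nr_eq_zero w, N.nr_mul w, N.nr_add w⟩

open Classical in
/-- the absolute value attached to a point -/
noncomputable def NevT_av (z : Kˣ) (u : M) : ℝ := if u = 0 then 0 else Real.exp (-N.ord z u)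

theorem NevT_av_abs (z : Kˣ) : NevT_Abs (NevT_av N z) := by
  have h0 : ∀ u, 0 ≤ NevT_av N z u := fun u => by
    unfold NevT_av
    split_ifs
    exacts [le_rfl, (Real.exp_pos _).le]
  refine ⟨h0, fun u => by simp [NevT_av], fun u v => ?_, fun u v => ?_⟩
  · by_cases hu : u = 0
    · simp [NevT_av, hu]
    by_cases hv : v = 0
    · simp [NevT_av, hv]
    simp [NevT_av, hu, hv, N.ord_mul z u v hu hv, ← Real.exp_add, add_comm]
  · by_cases hu : u = 0
    · rw [hu, zero_add]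
      exact le_max_right _ _
    by_cases hv : v = 0
    · rw [hv, add_zero]
      exact le_max_left _ _
    by_cases huv : u + v = 0
    · rw [huv]
      exact le_max_of_le_left (by simpa [NevT_av] using h0 u)
    simp only [NevT_av, hu, hv, huv, if_false, le_max_iff, Real.exp_le_exp, neg_le_neg_iff,
      Int.cast_le]
    exact min_le_iff.1 (N.ord_add z u v hu hv huv)

theorem NevT_pl (z : Kˣ) (u : M) :
    Real.posLog (NevT_av N z u) = ((max (-N.ord z u) 0 : ℤ) : ℝ) := by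
  by_cases hu : u = 0
  · simp [NevT_av, hu, N.ord_zero]
  · simp [NevT_av, hu, Real.posLog_apply, max_comm]

theorem NevT_fin (u : M) (w₁ w₂ : Kˣ) (φ : ℤ → ℝ) (hφ : φ 0 = 0) :
    Function.HasFiniteSupport fun z => φ (N.ord z u) * wt w₁ w₂ z :=
  (N.wt_support u w₁ w₂).subset fun _ hz =>
    ⟨fun h => hz (by simp only [h, hφ, zero_mul]), right_ne_zero_of_mul hz⟩

theorem NevT_fin' (u : M) (w : Kˣ) :
    Function.HasFiniteSupport fun z => ((max (-N.ord z u) 0 : ℤ) : ℝ) * wt 1 w z :=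
  NevT_fin N u 1 w (fun n => ((max (-n) 0 : ℤ) : ℝ)) (by simp)

theorem NevT_master {ι : Type} (s : Finset ι) (y : ι → M) (u : M) (w : Kˣ) (C k : ℝ)
    (h1 : Real.posLog (N.nr w u) ≤ C + k * ∑ i ∈ s, Real.posLog (N.nr w (y i)))
    (h2 : ∀ z, Real.posLog (NevT_av N z u) ≤ 0 + k * ∑ i ∈ s, Real.posLog (NevT_av N z (y i))) :
    N.T u w ≤ C + k * ∑ i ∈ s, N.T (y i) w := by
  simp only [NevT_pl, zero_add] at h2
  unfold Nev.T
  rw [Finset.sum_add_distrib, mul_add, ← add_assoc,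
    ← finsum_sum_comm _ _ fun i _ => NevT_fin' N (y i) w, mul_finsum]
  refine add_le_add h1 (finsum_le_finsum' (NevT_fin' N u w) ?_ fun z => ?_)
  · refine ((s.finite_toSet.biUnion fun i _ => NevT_fin' N (y i) w)).subset fun z hz => ?_
    obtain ⟨i, hi, hz⟩ := Finset.exists_ne_zero_of_sum_ne_zero (right_ne_zero_of_mul hz)
    exact Set.mem_biUnion hi hz
  · have h3 := mul_le_mul_of_nonneg_right (h2 z) (wt_nonneg 1 w z)
    rwa [mul_assoc, Finset.sum_mul] at h3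

theorem Nev.T_nonneg (u : M) (w : Kˣ) : 0 ≤ N.T u w := by
  exact add_nonneg Real.posLog_nonneg (finsum_nonneg fun z =>
    mul_nonneg (Int.cast_nonneg (le_max_right _ _)) (wt_nonneg 1 w z))

theorem Nev.T_alg (c : K) (w : Kˣ) : N.T (algebraMap K M c) w = Real.posLog ‖c‖ := by
  simp [Nev.T, N.nr_alg, N.ord_alg]

theorem Nev.T_mul (u v : M) (w : Kˣ) : N.T (u * v) w ≤ N.T u w + N.T v w := by
  simpa using NevT_master N Finset.univ ![u, v] (u * v) w 0 1
    (by simpa using (NevT_nr N w).pl_mul u v) fun z => by simpa using (NevT_av_abs N z).pl_mul u v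

theorem Nev.T_add (u v : M) (w : Kˣ) : N.T (u + v) w ≤ N.T u w + N.T v w := by
  simpa using NevT_master N Finset.univ ![u, v] (u + v) w 0 1
    (by simpa using (NevT_nr N w).pl_add u v) fun z => by simpa using (NevT_av_abs N z).pl_add u v

theorem Nev.T_inv (u : M) : Le (N.T u⁻¹) (N.T u) := by
  by_cases hu : u = 0
  · rw [hu, inv_zero]
    exact Le.of_le fun _ _ => le_rfl
  obtain ⟨n, hn⟩ := N.jensen u hu 1
  refine ⟨|Real.log (N.nr 1 u)| + |(n : ℝ)|, fun w hw => ?_⟩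
  have h1 := hn w
  have h2 : ∀ z, N.ord z u⁻¹ = -N.ord z u := fun z => by
    have h2 := N.ord_mul z u u⁻¹ hu (inv_ne_zero hu)
    rw [mul_inv_cancel₀ hu, ← map_one (algebraMap K M), N.ord_alg] at h2
    omega
  have h3 : ∑ᶠ z, ((max (-N.ord z u⁻¹) 0 : ℤ) : ℝ) * wt 1 w z =
      ∑ᶠ z, ((max (-N.ord z u) 0 : ℤ) : ℝ) * wt 1 w z + ∑ᶠ z, (N.ord z u : ℝ) * wt 1 w z := by
    rw [← finsum_add_distrib (NevT_fin' N u w) (NevT_fin N u 1 w (fun n => (n : ℝ)) (by simp))]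
    refine finsum_congr fun z => ?_
    rw [← add_mul, ← Int.cast_add, h2]
    congr 2
    omega
  have h4 := Real.posLog_sub_posLog_inv (x := N.nr w u)
  have h5 := Real.log_nonneg hw
  have h6 := neg_abs_le (Real.log (N.nr 1 u))
  have h7 := mul_le_mul_of_nonneg_right (neg_abs_le (n : ℝ)) h5
  have h8 := mul_nonneg (abs_nonneg (Real.log (N.nr 1 u))) h5
  have h9 := abs_nonneg (n : ℝ)
  rw [Units.val_one, norm_one, div_one] at h1
  rw [Nev.T, Nev.T, h3, (NevT_nr N w).inv]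
  linarith

theorem Nev.T_poly {n k : ℕ} (y : Fin n → M) (σ : MvPolynomial (Fin n) K)
    (hσ : ∀ i, σ.degreeOf i ≤ k) :
    Le (N.T (MvPolynomial.aeval y σ)) fun w => k * ∑ i, N.T (y i) w := by
  refine (Le.of_le fun w _ => NevT_master N Finset.univ y _ w
    (∑ m ∈ σ.support, Real.posLog ‖σ.coeff m‖) k ?_ fun z => ?_).trans (Le.const _ _)
  · refine (NevT_nr N w).pl_poly y σ hσ (Finset.sum_nonneg fun _ _ => Real.posLog_nonneg)
      fun m hm => ?_
    rw [N.nr_alg]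
    exact Finset.single_le_sum (f := fun m => Real.posLog ‖σ.coeff m‖)
      (fun _ _ => Real.posLog_nonneg) hm
  · exact (NevT_av_abs N z).pl_poly y σ hσ le_rfl fun m _ => by simp [NevT_pl, N.ord_alg]

theorem Nev.T_root {u : M} {d : ℕ} (a : ℕ → M)
    (h : u ^ d + ∑ i ∈ Finset.range d, a i * u ^ i = 0) (w : Kˣ) :
    N.T u w ≤ ∑ i ∈ Finset.range d, N.T (a i) w := by
  simpa using NevT_master N (Finset.range d) a u w 0 1
    (by simpa using (NevT_nr N w).pl_root a h) fun z => by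
      simpa using (NevT_av_abs N z).pl_root a h

end Pool.Agent.Work.MP_e120ef_ag
end

-- merged part: Pool.Agent.Work.MP_e120ef_ag.MSl
section
/-! Restriction of meromorphic functions of several variables to a line: abstract form. -/

namespace Pool.Agent.Work.MP_e120ef_ag

variable {K M M₁ : Type} [Field K] [Field M] [Field M₁] [Algebra K M] [Algebra K M₁]

/-- `S` is the ring of functions that can be restricted, `r` the restriction. -/
structure MSl (d : Derivation K M M) (D : Derivation K M₁ M₁) where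
  S : Subalgebra K M
  r : M → M₁
  r_add : ∀ a ∈ S, ∀ b ∈ S, r (a + b) = r a + r b
  r_mul : ∀ a ∈ S, ∀ b ∈ S, r (a * b) = r a * r b
  r_alg : ∀ c, r (algebraMap K M c) = algebraMap K M₁ c
  inv_mem : ∀ a ∈ S, r a ≠ 0 → a⁻¹ ∈ S
  d_mem : ∀ a ∈ S, d a ∈ S
  r_d : ∀ a ∈ S, r (d a) = D (r a)

/-- there are enough lines -/
def Gen (d : Derivation K M M) (D : Derivation K M₁ M₁) : Prop :=
  ∀ E : Finset M, 0 ∉ E → ∃ s : MSl d D, ∀ e ∈ E, e ∈ s.S ∧ s.r e ≠ 0

variable {d : Derivation K M M} {D : Derivation K M₁ M₁} (s : MSl d D)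

/-- the restriction as an algebra map -/
def MSl.hom : s.S →ₐ[K] M₁ where
  toFun a := s.r a
  map_one' := by simpa using s.r_alg 1
  map_mul' a b := s.r_mul _ a.2 _ b.2
  map_zero' := by simpa using s.r_alg 0
  map_add' a b := s.r_add _ a.2 _ b.2
  commutes' c := s.r_alg c

theorem MSl.hom_apply (a : s.S) : s.hom a = s.r a := rfl

theorem MSl.r_zero : s.r 0 = 0 := map_zero s.hom

theorem MSl.r_sum {ι : Type} (t : Finset ι) {f : ι → M} (hf : ∀ i ∈ t, f i ∈ s.S) :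
    s.r (∑ i ∈ t, f i) = ∑ i ∈ t, s.r (f i) := by
  classical
  induction t using Finset.induction_on with
  | empty => simpa using s.r_zero
  | insert i t hi ih =>
    have h1 : ∀ j ∈ t, f j ∈ s.S := fun j hj => hf j (Finset.mem_insert_of_mem hj)
    rw [Finset.sum_insert hi, Finset.sum_insert hi,
      s.r_add _ (hf i (Finset.mem_insert_self i t)) _ (sum_mem h1), ih h1]

end Pool.Agent.Work.MP_e120ef_ag
end

-- merged part: Pool.Agent.Work.MP_e120ef_ag.Ctl
section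
/-!
# Control of characteristic functions; restriction to a line

Plans.  `ctl`: call `a` controlled if the conclusion holds for `Y = {a}`.  Since `T ≥ 0`, one can enlarge `E` and `s` (for two elements take the union and the sum of the `s`).  Put the nonzero elements of `H` in `E`.  The elements of `H`, constants, sums, products and
inverses (put `a` in `E`; `Sl.inv`, `T_inv`) of controlled elements are controlled, so all elements of `Algebra.adjoin` (`Algebra.adjoin_induction`).  If `Q a = 0`, `Q ≠ 0` of degree `d` then `a ^ d + ∑ i < d, (Q i / Q d) a ^ i = 0`; put `a` in `E` if `a ≠ 0`,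
apply `ρ` (`Sl.sum`, `Sl.pow`) and `T_root`.  `fin_alg`: the coefficients of the equations of the `π (t i)` lie in the algebra generated by finitely many quotients (`Algebra.adjoin_induction`, or `Algebra.mem_adjoin_iff`-type finiteness lemmas); transitivity through
`Subalgebra.algebraicClosure`, `IsAlgebraic.restrictScalars`, `IsTranscendenceBasis.isAlgebraic`.
`xslice`: take an affine `U ≤ W` containing `gp X` (`exists_aff`), generators `y i` of `B X U` (`aff_finiteType`); apply `hg` to the nonzero `ι (y i)` and `E'`.  Then `ι (B X U) ⊆ s.S`;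
`η` is the point (`aff_point`) of the kernel of `B X U → s.S → M₁`; `aff_frac`, `inv_mem`.
`solve_mem`: multiply by the adjugate matrix (`Matrix.mul_adjugate`); its entries are in `S` (`RingHom.map_adjugate` for the matrix over `S`).
-/

open CategoryTheory AlgebraicGeometry

namespace Pool.Agent.Work.MP_e120ef_ag

theorem solve_mem {M : Type} [Field M] (S : Subring M) {g : ℕ} (Q : Fin g → Fin g → M)
    (hQ : ∀ k l, Q k l ∈ S) (h0 : (Matrix.of Q).det ≠ 0) (hi : (Matrix.of Q).det⁻¹ ∈ S)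
    {c : Fin g → M} (hc : ∀ l, ∑ k, c k * Q k l ∈ S) (k : Fin g) : c k ∈ S := by
  have h1 : Matrix.vecMul (Matrix.vecMul c (Matrix.of Q)) (Matrix.of Q).adjugate =
      (Matrix.of Q).det • c := by
    rw [Matrix.vecMul_vecMul, Matrix.mul_adjugate, Matrix.vecMul_smul, Matrix.vecMul_one]
  have h2 : ∀ l j, (Matrix.of Q).adjugate l j ∈ S := by
    intro l j
    have h3 := S.subtype.map_adjugate (Matrix.of fun k l => (⟨Q k l, hQ k l⟩ : S))
    have h4 : S.subtype.mapMatrix (Matrix.of fun k l => (⟨Q k l, hQ k l⟩ : S)) = Matrix.of Q := rfl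
    rw [h4] at h3
    rw [← h3]
    exact Subtype.prop _
  have h5 : (Matrix.of Q).det * c k ∈ S := by
    have h6 := congrFun h1 k
    rw [Pi.smul_apply, smul_eq_mul] at h6
    rw [← h6]
    exact sum_mem (t := Finset.univ)
      (f := fun l => (∑ k, c k * Q k l) * (Matrix.of Q).adjugate l k)
      fun l _ => mul_mem (hc l) (h2 l k)
  have h7 := mul_mem hi h5
  rwa [inv_mul_cancel_left₀ h0] at h7

theorem Ctl_alg {R F : Type} [CommRing R] [Field F] [Algebra R F] (T : Subalgebra R F)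
    (q : Polynomial F) (h0 : q ≠ 0) {a : F} (ha : q.eval a = 0) (hc : ∀ n, q.coeff n ∈ T) :
    IsAlgebraic T a := by
  obtain ⟨Q, hQ⟩ : q ∈ Polynomial.lifts (algebraMap T F) :=
    (Polynomial.lifts_iff_coeff_lifts q).2 fun n => ⟨⟨_, hc n⟩, rfl⟩
  rw [Polynomial.coe_mapRingHom] at hQ
  refine ⟨Q, fun h => h0 (by rw [← hQ, h, Polynomial.map_zero]), ?_⟩
  rw [← Polynomial.eval_map_algebraMap, hQ, ha]

theorem Ctl_mono {K F : Type} [Field K] [Field F] [Algebra K F] {H H' : Finset F} (h : H ⊆ H') :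
    Algebra.adjoin K {u | ∃ h ∈ H, ∃ h' ∈ H, u = h / h'} ≤
      Algebra.adjoin K {u | ∃ h ∈ H', ∃ h' ∈ H', u = h / h'} :=
  Algebra.adjoin_mono fun _ ⟨a, ha, b, hb, e⟩ => ⟨a, h ha, b, h hb, e⟩

theorem Ctl_fin1 {K F : Type} [Field K] [Field F] [Algebra K F] {P : Set F} {x : F}
    (hx : x ∈ Algebra.adjoin K {u | ∃ h ∈ P, ∃ h' ∈ P, u = h / h'}) :
    ∃ H : Finset F, (∀ h ∈ H, h ∈ P) ∧
      x ∈ Algebra.adjoin K {u | ∃ h ∈ H, ∃ h' ∈ H, u = h / h'} := by
  classical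
  induction hx using Algebra.adjoin_induction with
  | mem x hx =>
    obtain ⟨a, ha, b, hb, e⟩ := hx
    refine ⟨{a, b}, fun h hh => ?_, Algebra.subset_adjoin ⟨a, by simp, b, by simp, e⟩⟩
    rcases Finset.mem_insert.1 hh with rfl | hh
    · exact ha
    · rw [Finset.mem_singleton.1 hh]; exact hb
  | algebraMap c => exact ⟨∅, by simp, Subalgebra.algebraMap_mem _ c⟩
  | add x y _ _ ihx ihy =>
    obtain ⟨H1, a1, b1⟩ := ihx
    obtain ⟨H2, a2, b2⟩ := ihy
    exact ⟨H1 ∪ H2, fun h hh => (Finset.mem_union.1 hh).elim (a1 h) (a2 h),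
      add_mem (Ctl_mono Finset.subset_union_left b1) (Ctl_mono Finset.subset_union_right b2)⟩
  | mul x y _ _ ihx ihy =>
    obtain ⟨H1, a1, b1⟩ := ihx
    obtain ⟨H2, a2, b2⟩ := ihy
    exact ⟨H1 ∪ H2, fun h hh => (Finset.mem_union.1 hh).elim (a1 h) (a2 h),
      mul_mem (Ctl_mono Finset.subset_union_left b1) (Ctl_mono Finset.subset_union_right b2)⟩

theorem Ctl_fin2 {K F : Type} [Field K] [Field F] [Algebra K F] {P : Set F} {x : F}
    (hx : IsAlgebraic (Algebra.adjoin K {u | ∃ h ∈ P, ∃ h' ∈ P, u = h / h'}) x) :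
    ∃ H : Finset F, (∀ h ∈ H, h ∈ P) ∧
      IsAlgebraic (Algebra.adjoin K {u | ∃ h ∈ H, ∃ h' ∈ H, u = h / h'}) x := by
  classical
  obtain ⟨Q, hQ0, hQ⟩ := hx
  choose G hG1 hG2 using fun n => Ctl_fin1 (Q.coeff n).2
  refine ⟨Q.support.biUnion G, fun y hy => ?_, Ctl_alg _ (Q.map (algebraMap _ F)) ?_ ?_ fun n => ?_⟩
  · obtain ⟨i, -, hi⟩ := Finset.mem_biUnion.1 hy
    exact hG1 i y hi
  · exact (Polynomial.map_ne_zero_iff Subtype.val_injective).2 hQ0
  · rw [Polynomial.eval_map_algebraMap, hQ]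
  · rw [Polynomial.coeff_map]
    by_cases hn : n ∈ Q.support
    · exact Ctl_mono (Finset.subset_biUnion_of_mem G hn) (hG2 n)
    · rw [Polynomial.notMem_support_iff.1 hn, map_zero]
      exact zero_mem _

theorem fin_alg {K F₀ F ι : Type} [Field K] [Field F₀] [Field F] [Algebra K F₀] [Algebra K F]
    [Finite ι] (π : F₀ →ₐ[K] F) {t : ι → F₀} (ht : IsTranscendenceBasis K t) {P : Set F}
    (h : ∀ a, IsAlgebraic (Algebra.adjoin K {u | ∃ h ∈ P, ∃ h' ∈ P, u = h / h'}) (π a)) :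
    ∃ H : Finset F, (∀ h ∈ H, h ∈ P) ∧
      ∀ a, IsAlgebraic (Algebra.adjoin K {u | ∃ h ∈ H, ∃ h' ∈ H, u = h / h'}) (π a) := by
  classical
  have := Fintype.ofFinite ι
  choose G hG1 hG2 using fun i => Ctl_fin2 (h (t i))
  refine ⟨Finset.univ.biUnion G, fun x hx => ?_, fun a => ?_⟩
  · obtain ⟨i, -, hi⟩ := Finset.mem_biUnion.1 hx
    exact hG1 i x hi
  · set A := Algebra.adjoin K {u | ∃ h ∈ Finset.univ.biUnion G, ∃ h' ∈ Finset.univ.biUnion G,
      u = h / h'} with hA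
    have h1 : ∀ i, π (t i) ∈ Subalgebra.algebraicClosure A F := fun i =>
      (hG2 i).tower_top_of_subalgebra_le
        (Ctl_mono (Finset.subset_biUnion_of_mem G (Finset.mem_univ i)))
    have h2 : Algebra.adjoin K (Set.range t) ≤
        ((Subalgebra.algebraicClosure A F).restrictScalars K).comap π :=
      Algebra.adjoin_le (by rintro _ ⟨i, rfl⟩; exact h1 i)
    obtain ⟨Q, hQ0, hQ⟩ := ht.isAlgebraic.isAlgebraic a
    have h3 : IsAlgebraic (Subalgebra.algebraicClosure A F) (π a) := by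
      refine Ctl_alg _ (Q.map ((π : F₀ →+* F).comp (algebraMap _ F₀))) ?_ ?_ fun n => ?_
      · refine (Polynomial.map_ne_zero_iff fun x y hxy => ?_).2 hQ0
        exact Subtype.ext ((π : F₀ →+* F).injective hxy)
      · rw [Polynomial.eval_map]
        have h4 := Polynomial.hom_eval₂ Q (algebraMap _ F₀) (π : F₀ →+* F) a
        rw [← Polynomial.aeval_def, hQ, map_zero] at h4
        exact h4.symm
      · rw [Polynomial.coeff_map]
        exact h2 (Q.coeff n).2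
    exact h3.restrictScalars A

theorem xslice {K M M₁ : Type} [Field K] [Field M] [Field M₁] [Algebra K M] [Algebra K M₁]
    {X : Sch K} [IsIntegral X.left] [IsProper X.hom] {d : Derivation K M M}
    {D : Derivation K M₁ M₁} (hg : Gen d D) (ι : Fn X →ₐ[K] M) (W : X.left.Opens) (hW : gp X ∈ W)
    (E' : Finset M) (hE' : 0 ∉ E') :
    ∃ (s : MSl d D) (σ : Sl X M₁), σ.η ∈ W ∧ (∀ e ∈ E', e ∈ s.S ∧ s.r e ≠ 0) ∧
      (∀ h ∈ O X σ.η, ι h ∈ s.S) ∧ ∀ h, σ.ρ h = s.r (ι h) := by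
  classical
  obtain ⟨U, hU, hgU, hUW⟩ := exists_aff hW
  obtain ⟨Y, hY⟩ := (aff_finiteType hU hgU).out
  obtain ⟨s, hs⟩ := hg (E' ∪ (Y.image fun y : B X U => ι y).erase 0) (by simp [hE'])
  have h1 : ∀ b : B X U, ι b ∈ s.S := by
    have h2 : Algebra.adjoin K (Y : Set (B X U)) ≤ s.S.comap (ι.comp (B X U).val) := by
      refine Algebra.adjoin_le fun y hy => ?_
      show ι y ∈ s.S
      by_cases h0 : ι y = 0
      · rw [h0]; exact zero_mem _
      · exact (hs _ (Finset.mem_union_right _ (Finset.mem_erase.2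
          ⟨h0, Finset.mem_image_of_mem _ hy⟩))).1
    rw [hY] at h2
    exact fun b => h2 Algebra.mem_top
  let φ : B X U →ₐ[K] M₁ := s.hom.comp ((ι.comp (B X U).val).codRestrict s.S h1)
  have := RingHom.ker_isPrime (φ : B X U →+* M₁)
  obtain ⟨x, hx, hp⟩ := aff_point hU hgU (RingHom.ker (φ : B X U →+* M₁))
  have h3 : ∀ b ∈ B X U, s.r (ι b) = 0 ↔ b ∈ mp X x 1 := fun b hb => by
    rw [← mem_pr hx ⟨b, hb⟩, hp]
    rfl
  have h4 : ∀ h ∈ O X x, ι h ∈ s.S := by
    intro h hh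
    obtain ⟨b, b1, b2, b3⟩ := aff_frac hU hx hh
    have h5 := mul_mem (s.inv_mem _ (h1 ⟨b, b1⟩) fun h => b2.2 ((h3 b b1).1 h)) (h1 ⟨_, b3⟩)
    rwa [map_mul, inv_mul_cancel_left₀ ((map_ne_zero ι).2 b2.ne_zero)] at h5
  refine ⟨s, ⟨x, fun h => s.r (ι h), fun a ha b hb => ?_, fun a ha b hb => ?_, fun c => ?_,
    fun a ha => ?_⟩, hUW hx, fun e he => hs e (Finset.mem_union_left _ he), h4, fun _ => rfl⟩
  · rw [map_add, s.r_add _ (h4 a ha) _ (h4 b hb)]
  · rw [map_mul, s.r_mul _ (h4 a ha) _ (h4 b hb)]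
  · rw [ι.commutes, s.r_alg]
  · obtain ⟨b, b1, b2, b3⟩ := aff_frac hU hx ha
    rw [← b2.mul_mem_mp_iff, ← h3 _ b3, map_mul, s.r_mul _ (h4 b b2.1) _ (h4 a ha),
      mul_eq_zero, or_iff_right fun h => b2.2 ((h3 b b1).1 h)]

variable {K M : Type} [NontriviallyNormedField K] [Field M] [Algebra K M] (N : Nev K M)
  {X : Sch K} [IsIntegral X.left]

/-- controlled elements -/
def Ctl_C (H : Finset (Fn X)) (a : Fn X) : Prop :=
  ∃ (E : Finset (Fn X)) (s : ℕ), 0 ∉ E ∧ ∀ σ : Sl X M, (∀ e ∈ E, IsU X σ.η e) →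
    a ∈ O X σ.η ∧ Le (N.T (σ.ρ a)) fun w => s * ∑ h ∈ H, N.T (σ.ρ h) w

theorem Ctl_fam (H : Finset (Fn X)) {ι : Type} (t : Finset ι) (f : ι → Fn X)
    (hf : ∀ i ∈ t, Ctl_C N H (f i)) :
    ∃ (E : Finset (Fn X)) (s : ℕ), 0 ∉ E ∧ ∀ σ : Sl X M, (∀ e ∈ E, IsU X σ.η e) →
      (∀ i ∈ t, f i ∈ O X σ.η) ∧
        Le (fun w => ∑ i ∈ t, N.T (σ.ρ (f i)) w) fun w => s * ∑ h ∈ H, N.T (σ.ρ h) w := by
  classical
  choose! E s h0 h1 using hf
  refine ⟨t.biUnion E, ∑ i ∈ t, s i, fun h => ?_, fun σ hσ => ?_⟩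
  · obtain ⟨i, hi, h2⟩ := Finset.mem_biUnion.1 h
    exact h0 i hi h2
  · have h2 := fun i hi => h1 i hi σ fun e he => hσ e (Finset.mem_biUnion.2 ⟨i, hi, he⟩)
    refine ⟨fun i hi => (h2 i hi).1, (Le.sum t fun i hi => (h2 i hi).2).trans
      (Le.of_le fun w _ => le_of_eq ?_)⟩
    rw [← Finset.sum_mul, Nat.cast_sum]

theorem Ctl_const (H : Finset (Fn X)) (c : K) : Ctl_C N H (algebraMap K (Fn X) c) := by
  refine ⟨∅, 0, by simp, fun σ _ => ⟨Subalgebra.algebraMap_mem _ c,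
    (Le.of_le fun w _ => ?_).trans (Le.const _ (Real.posLog ‖c‖))⟩⟩
  rw [σ.alg, N.T_alg]
  simp

theorem Ctl_mem {H : Finset (Fn X)} {a : Fn X} (ha : a ∈ H) : Ctl_C N H a := by
  by_cases h0 : a = 0
  · have := Ctl_const N H 0
    rwa [map_zero, ← h0] at this
  · refine ⟨{a}, 1, by simpa using Ne.symm h0, fun σ hσ => ⟨(hσ a (by simp)).1,
      Le.of_le fun w _ => ?_⟩⟩
    rw [Nat.cast_one, one_mul]
    exact Finset.single_le_sum (f := fun a => N.T (σ.ρ a) w) (fun _ _ => N.T_nonneg _ _) ha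

theorem Ctl_two {H : Finset (Fn X)} {a b c : Fn X} (ha : Ctl_C N H a) (hb : Ctl_C N H b)
    (hc : ∀ σ : Sl X M, a ∈ O X σ.η → b ∈ O X σ.η → c ∈ O X σ.η ∧
      ∀ w, N.T (σ.ρ c) w ≤ N.T (σ.ρ a) w + N.T (σ.ρ b) w) : Ctl_C N H c := by
  classical
  obtain ⟨E1, s1, a1, b1⟩ := ha
  obtain ⟨E2, s2, a2, b2⟩ := hb
  refine ⟨E1 ∪ E2, s1 + s2, by simp [a1, a2], fun σ hσ => ?_⟩
  obtain ⟨c1, d1⟩ := b1 σ fun e he => hσ e (Finset.mem_union_left _ he)
  obtain ⟨c2, d2⟩ := b2 σ fun e he => hσ e (Finset.mem_union_right _ he)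
  refine ⟨(hc σ c1 c2).1, ((Le.of_le fun w _ => (hc σ c1 c2).2 w).trans (d1.add d2)).trans
    (Le.of_le fun w _ => le_of_eq ?_)⟩
  rw [Nat.cast_add, add_mul]

theorem Ctl_add {H : Finset (Fn X)} {a b : Fn X} (ha : Ctl_C N H a) (hb : Ctl_C N H b) :
    Ctl_C N H (a + b) :=
  Ctl_two N ha hb fun σ h1 h2 => ⟨add_mem h1 h2, fun w => by
    rw [σ.add _ h1 _ h2]; exact N.T_add _ _ w⟩

theorem Ctl_mul {H : Finset (Fn X)} {a b : Fn X} (ha : Ctl_C N H a) (hb : Ctl_C N H b) :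
    Ctl_C N H (a * b) :=
  Ctl_two N ha hb fun σ h1 h2 => ⟨mul_mem h1 h2, fun w => by
    rw [σ.mul _ h1 _ h2]; exact N.T_mul _ _ w⟩

theorem Ctl_inv {H : Finset (Fn X)} {a : Fn X} (ha : Ctl_C N H a) : Ctl_C N H a⁻¹ := by
  classical
  by_cases h0 : a = 0
  · rwa [h0, inv_zero, ← h0]
  · obtain ⟨E, s, a1, b1⟩ := ha
    refine ⟨insert a E, s, by simp [a1, Ne.symm h0], fun σ hσ => ?_⟩
    have hu := hσ a (Finset.mem_insert_self _ _)
    refine ⟨hu.inv.1, ?_⟩
    rw [σ.inv hu]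
    exact (N.T_inv _).trans (b1 σ fun e he => hσ e (Finset.mem_insert_of_mem he)).2

theorem Ctl_adj {H : Finset (Fn X)} {a : Fn X}
    (ha : a ∈ Algebra.adjoin K {u | ∃ h ∈ H, ∃ h' ∈ H, u = h / h'}) : Ctl_C N H a := by
  induction ha using Algebra.adjoin_induction with
  | mem x hx =>
    obtain ⟨a, ha, b, hb, rfl⟩ := hx
    rw [div_eq_mul_inv]
    exact Ctl_mul N (Ctl_mem N ha) (Ctl_inv N (Ctl_mem N hb))
  | algebraMap c => exact Ctl_const N H c
  | add x y _ _ ihx ihy => exact Ctl_add N ihx ihy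
  | mul x y _ _ ihx ihy => exact Ctl_mul N ihx ihy

theorem Ctl_root {H : Finset (Fn X)} {a : Fn X}
    (ha : IsAlgebraic (Algebra.adjoin K {u | ∃ h ∈ H, ∃ h' ∈ H, u = h / h'}) a) :
    Ctl_C N H a := by
  classical
  by_cases h0 : a = 0
  · have := Ctl_const N H 0
    rwa [map_zero, ← h0] at this
  obtain ⟨Q, hQ0, hQ⟩ := ha
  have hl : ((Q.coeff Q.natDegree : _) : Fn X) ≠ 0 := fun h =>
    hQ0 (Polynomial.leadingCoeff_eq_zero.1 (Subtype.ext h))
  set b : ℕ → Fn X := fun i => (Q.coeff i : Fn X) * ((Q.coeff Q.natDegree : _) : Fn X)⁻¹ with hb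
  have he : a ^ Q.natDegree + ∑ i ∈ Finset.range Q.natDegree, b i * a ^ i = 0 := by
    rw [Polynomial.aeval_eq_sum_range, Finset.sum_range_succ] at hQ
    have h1 : ∑ i ∈ Finset.range Q.natDegree, b i * a ^ i =
        (∑ i ∈ Finset.range Q.natDegree, Q.coeff i • a ^ i) *
          ((Q.coeff Q.natDegree : _) : Fn X)⁻¹ := by
      rw [Finset.sum_mul]
      refine Finset.sum_congr rfl fun i _ => ?_
      rw [hb, Subalgebra.smul_def, smul_eq_mul]
      ring
    rw [h1, eq_neg_of_add_eq_zero_left hQ, Subalgebra.smul_def, smul_eq_mul]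
    field_simp
    ring
  obtain ⟨E, s, a1, b1⟩ := Ctl_fam N H (Finset.range Q.natDegree) b fun i _ =>
    Ctl_mul N (Ctl_adj N (Q.coeff i).2) (Ctl_inv N (Ctl_adj N (Q.coeff _).2))
  refine ⟨insert a E, s, by simp [a1, Ne.symm h0], fun σ hσ => ?_⟩
  have hu := (hσ a (Finset.mem_insert_self _ _)).1
  obtain ⟨c1, c2⟩ := b1 σ fun e he => hσ e (Finset.mem_insert_of_mem he)
  refine ⟨hu, (Le.of_le fun w _ => N.T_root (fun i => σ.ρ (b i)) ?_ w).trans c2⟩
  have h2 : ∀ i ∈ Finset.range Q.natDegree, b i * a ^ i ∈ O X σ.η := fun i hi =>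
    mul_mem (c1 i hi) (pow_mem hu i)
  have h3 := congrArg σ.ρ he
  rw [σ.add _ (pow_mem hu _) _ (sum_mem h2), σ.sum _ h2, σ.pow hu, σ.zero] at h3
  rw [← h3]
  congr 1
  refine Finset.sum_congr rfl fun i hi => ?_
  rw [σ.mul _ (c1 i hi) _ (pow_mem hu i), σ.pow hu]

theorem ctl (H Y : Finset (Fn X))
    (hY : ∀ a ∈ Y, IsAlgebraic (Algebra.adjoin K {u | ∃ h ∈ H, ∃ h' ∈ H, u = h / h'}) a) :
    ∃ (E : Finset (Fn X)) (s : ℕ), 0 ∉ E ∧ ∀ σ : Sl X M,
      (∀ e ∈ E, IsU X σ.η e) → (∀ h ∈ H, h ∈ O X σ.η) ∧ ∀ a ∈ Y, a ∈ O X σ.η ∧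
        Le (N.T (σ.ρ a)) fun w => s * ∑ h ∈ H, N.T (σ.ρ h) w := by
  classical
  obtain ⟨E, s, h0, h1⟩ := Ctl_fam N H (H ∪ Y) (fun a => a) fun a ha =>
    (Finset.mem_union.1 ha).elim (Ctl_mem N) fun ha => Ctl_root N (hY a ha)
  refine ⟨E, s, h0, fun σ hσ => ⟨fun h hh => (h1 σ hσ).1 h (Finset.mem_union_left _ hh),
    fun a ha => ⟨(h1 σ hσ).1 a (Finset.mem_union_right _ ha), (Le.of_le fun w _ => ?_).trans
      (h1 σ hσ).2⟩⟩⟩
  exact Finset.single_le_sum (f := fun a => N.T (σ.ρ a) w) (fun _ _ => N.T_nonneg _ _)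
    (Finset.mem_union_right _ ha)

end Pool.Agent.Work.MP_e120ef_ag
end
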