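import Pool.Agent.Work.MP_e120ef_ag.SerMul
import Pool.Agent.Work.MP_e120ef_ag.Nev

attribute [-instance] Subalgebra.normedCommRing Subalgebra.seminormedCommRing
  Subalgebra.seminormedRing Subalgebra.normedRing
  Localization.subalgebra.instIsFractionRingSubtypeMemSubalgebra
attribute [local instance 2000] RingHomClass.toAddMonoidHomClass AddMonoidHomClass.toAddHomClass
  RingHom.instRingHomClass AlgHomClass.toRingHomClass IsDomain.to_noZeroDivisors
  IsDomain.toNontrivial NeZero.one RingHomClass.toMonoidHomClass MonoidHomClass.toMulHomClass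
  RingHomClass.toMonoidWithZeroHomClass AddMonoidHomClass.toZeroHomClass MonoidHomClass.toOneHomClass
attribute [-instance] instCharZeroOfIsSemireal AlgHom.instContinuousLinearMapClassOfAlgHomClass
  RingHomClass.toLinearMapClassRat RingHomClass.toLinearMapClassNNRat NumberField.to_charZero

-- merged part: Pool.Agent.Work.MP_e120ef_ag.L1
section
/-!
# Laurent series in one variable: definitions

`L1 K P` is the ring of functions given by a Laurent series converging on all of `Kˣ` (if `P` holds) or on the unit circle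
(if `P` fails).  A radius is always given as the norm of a point `w`.
-/

open Filter Topology

namespace Pool.Agent.Work.MP_e120ef_ag

variable (K : Type) [NontriviallyNormedField K]

/-- the points -/
abbrev Pt1 (P : Prop) : Type := {t : Kˣ // P ∨ ‖(t : K)‖ = 1}

variable {K} in
/-- the coordinate of a point -/
abbrev Pt1.v {P : Prop} (t : Pt1 K P) : K := (t.1 : K)

variable [IsUltrametricDist K] [CompleteSpace K]

/-- convergent Laurent series -/
def L1 (P : Prop) : Subalgebra K (Pt1 K P → K) where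
  carrier := {f | ∃ a : ℤ → K, ∀ t : Pt1 K P, HasSum (fun n => a n * t.v ^ n) (f t)}
  add_mem' := by
    rintro f g ⟨a, ha⟩ ⟨b, hb⟩
    exact ⟨a + b, fun z => by simpa [add_mul] using (ha z).add (hb z)⟩
  mul_mem' := by
    rintro f g ⟨a, ha⟩ ⟨b, hb⟩
    exact ⟨_, (ser_mul K (fun (t : Pt1 K P) (n : ℤ) => t.v ^ n)
      (fun t m n => zpow_add₀ t.1.ne_zero m n) ⟨1, by simp⟩ (by simp [Pt1.v]) ha hb).2⟩
  algebraMap_mem' c := by
    classical
    refine ⟨Pi.single 0 c, fun z => ?_⟩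
    have h := hasSum_single (f := fun n : ℤ => Pi.single (M := fun _ => K) 0 c n * z.v ^ n) 0
      fun n hn => by simp [hn]
    simpa using h

variable {K} {P : Prop}

/-- the coefficients -/
noncomputable def coef (f : L1 K P) : ℤ → K := f.2.choose

theorem hasSum_coef (f : L1 K P) (t : Pt1 K P) : HasSum (fun n => coef f n * t.v ^ n) (f.1 t) :=
  f.2.choose_spec t

variable (K P) in
/-- the coordinate function -/
def Zf : L1 K P := ⟨fun t => t.v, Pi.single 1 1, fun z => by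
  classical
  have h := hasSum_single (f := fun n : ℤ => Pi.single (M := fun _ => K) 1 1 n * z.v ^ n) 1
    fun n hn => by simp [hn]
  simpa using h⟩

/-- the function `t - c` -/
noncomputable def lin (c : K) : L1 K P := Zf K P - algebraMap K _ c

theorem lin_apply (c : K) (t : Pt1 K P) : (lin c : L1 K P).1 t = t.v - c := rfl

/-- the Gauss norm at the radius `‖w‖` -/
noncomputable def gn (w : Pt1 K P) (f : L1 K P) : ℝ := ⨆ n : ℤ, ‖coef f n * w.v ^ n‖

/-- `n` is the largest index at which the Gauss norm is attained -/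
def IsTop (w : Pt1 K P) (f : L1 K P) (n : ℤ) : Prop :=
  ‖coef f n * w.v ^ n‖ = gn w f ∧ ∀ m, n < m → ‖coef f m * w.v ^ m‖ < gn w f

/-- `n` is the smallest index at which the Gauss norm is attained -/
def IsBot (w : Pt1 K P) (f : L1 K P) (n : ℤ) : Prop :=
  ‖coef f n * w.v ^ n‖ = gn w f ∧ ∀ m, m < n → ‖coef f m * w.v ^ m‖ < gn w f

end Pool.Agent.Work.MP_e120ef_ag
end

-- merged part: Pool.Agent.Work.MP_e120ef_ag.Ser
section
/-!
# The Gauss norm is the maximum on the circle, and is multiplicative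

Plans.  `exists_generic`: divide by `w` (so radius `1`); let `u` run over the elements of `s` of norm `1`; a root `z` of `T * ∏ (T - u) - 1` has `‖z‖ ≤ 1`
(else the product has norm `> 1`), so all factors have norm `≤ 1` with product of norm `1`, so each has norm `1`; for `‖α‖ ≠ 1` use `IsUltrametricDist.norm_add_eq_max_of_norm_ne_norm`.
`exists_attain_aux` (for a sequence `a` with `a n * w ^ n → 0`, `M = ⨆ ‖a n * w ^ n‖ > 0`): the set `S` of `n` with `‖a n * w ^ n‖ = M` is finite and nonempty, and the other terms are `≤ M' < M`;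
`Q = ∑ n ∈ S, a n T ^ (n - n₀)` splits, `Polynomial.gaussNorm_mul` gives Gauss norm `= ‖lead‖ ∏ max ‖w‖ ‖α‖ = ‖Q z‖` for `z` generic for the roots; there is a finite set of `α` such that every generic `z` works.
`IsUltrametricDist.norm_tsum_le_of_forall_le_of_nonneg`-style bounds.  `coef_unique`: apply this to `a - coef f` at `w = 1`.  `gn_mul`: `≤` from `coef_mul`, `≥` from a common point.
-/

open Filter Topology

namespace Pool.Agent.Work.MP_e120ef_ag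

variable {K : Type} [NontriviallyNormedField K] [IsUltrametricDist K] [IsAlgClosed K]

omit [IsAlgClosed K] in
theorem Ser_sub_le (x y : K) : ‖x - y‖ ≤ max ‖x‖ ‖y‖ := by
  simpa only [sub_eq_add_neg, norm_neg] using IsUltrametricDist.norm_add_le_max x (-y)

omit [IsAlgClosed K] in
theorem Ser_sub_eq {x y : K} (h : ‖x‖ ≠ ‖y‖) : ‖x - y‖ = max ‖x‖ ‖y‖ := by
  simpa only [sub_eq_add_neg, norm_neg] using
    IsUltrametricDist.norm_add_eq_max_of_norm_ne_norm (x := x) (y := -y) (by rwa [norm_neg])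

theorem exists_generic (s : Finset K) (w : Kˣ) :
    ∃ z : Kˣ, ‖(z : K)‖ = ‖(w : K)‖ ∧ ∀ α ∈ s, ‖(z : K) - α‖ = max ‖(w : K)‖ ‖α‖ := by
  classical
  have hr : 0 < ‖(w : K)‖ := norm_pos_iff.2 w.ne_zero
  set U : Finset K := insert 0 (s.filter fun α => ‖α‖ ≤ ‖(w : K)‖) with hU
  have h0 : (0 : K) ∈ U := Finset.mem_insert_self _ _
  have hle : ∀ u ∈ U, ‖u‖ ≤ ‖(w : K)‖ := fun u hu => by
    rcases Finset.mem_insert.1 hu with rfl | hu
    · simp
    · exact (Finset.mem_filter.1 hu).2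
  obtain ⟨z, hz⟩ := IsAlgClosed.eval_surjective (p := ∏ u ∈ U, (Polynomial.X - Polynomial.C u))
    (by rw [Polynomial.natDegree_finsetProd_X_sub_C_eq_card U fun u => u]
        exact (Finset.card_pos.2 ⟨0, h0⟩).ne') (∏ _u ∈ U, (w : K))
  have hp : ∏ u ∈ U, ‖z - u‖ = ∏ _u ∈ U, ‖(w : K)‖ := by
    rw [← norm_prod, ← norm_prod, ← hz]
    simp [Polynomial.eval_prod]
  have hz1 : ‖z‖ ≤ ‖(w : K)‖ := by
    by_contra h
    refine (Finset.prod_lt_prod_of_nonempty (fun _ _ => hr) (fun u hu => ?_) ⟨0, h0⟩).ne' hp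
    have h1 := (hle u hu).trans_lt (not_le.1 h)
    rw [Ser_sub_eq h1.ne', max_eq_left h1.le]
    exact not_le.1 h
  have hle' : ∀ u ∈ U, ‖z - u‖ ≤ ‖(w : K)‖ := fun u hu =>
    (Ser_sub_le z u).trans (max_le hz1 (hle u hu))
  have heq : ∀ u ∈ U, ‖z - u‖ = ‖(w : K)‖ := fun u hu => by
    by_contra h
    refine (Finset.prod_lt_prod (fun v hv => ?_) hle' ⟨u, hu, (hle' u hu).lt_of_ne h⟩).ne hp
    refine (norm_nonneg _).lt_of_ne' fun e => ?_
    rw [Finset.prod_eq_zero hv e] at hp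
    exact (Finset.prod_pos fun _ _ => hr).ne hp
  have hz2 : ‖z‖ = ‖(w : K)‖ := by simpa using heq 0 h0
  refine ⟨Units.mk0 z (norm_pos_iff.1 (hz2 ▸ hr)), hz2, fun α hα => ?_⟩
  rw [Units.val_mk0]
  rcases le_or_gt ‖α‖ ‖(w : K)‖ with h | h
  · rw [max_eq_left h]
    exact heq α (Finset.mem_insert_of_mem (Finset.mem_filter.2 ⟨hα, h⟩))
  · rw [← hz2] at h ⊢
    exact Ser_sub_eq h.ne

omit [IsAlgClosed K] in
open Polynomial in
theorem Ser_poly (z c : K) (m : Multiset K) (h : ∀ α ∈ m, ‖z - α‖ = max ‖z‖ ‖α‖) (i : ℕ) :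
    ‖(C c * (m.map (X - C ·)).prod).coeff i * z ^ i‖ ≤
      ‖(C c * (m.map (X - C ·)).prod).eval z‖ := by
  induction m using Multiset.induction_on generalizing i with
  | empty =>
    rcases i with _ | i
    · simp
    · simp
  | cons α m ih =>
    have ih' := ih fun β hβ => h β (Multiset.mem_cons_of_mem hβ)
    rw [Multiset.map_cons, Multiset.prod_cons, mul_left_comm]
    generalize C c * (m.map (X - C ·)).prod = Q at ih' ⊢
    rw [eval_mul, norm_mul (eval z _), eval_sub, eval_X, eval_C, h α (Multiset.mem_cons_self _ _)]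
    have h1 : ∀ i, ‖α * (Q.coeff i * z ^ i)‖ ≤ max ‖z‖ ‖α‖ * ‖Q.eval z‖ := fun i => by
      rw [norm_mul]
      exact mul_le_mul (le_max_right _ _) (ih' i) (norm_nonneg _) (by positivity)
    rcases i with _ | i
    · refine le_trans (le_of_eq ?_) (h1 0)
      simp
    · rw [coeff_X_sub_C_mul, show (Q.coeff i - α * Q.coeff (i + 1)) * z ^ (i + 1) =
        z * (Q.coeff i * z ^ i) - α * (Q.coeff (i + 1) * z ^ (i + 1)) by ring]
      refine (Ser_sub_le _ _).trans (max_le ?_ (h1 _))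
      rw [norm_mul]
      exact mul_le_mul (le_max_left _ _) (ih' i) (norm_nonneg _) (by positivity)

open Polynomial in
theorem Ser_fin (a : ℤ → K) (S : Finset ℤ) : ∃ s : Finset K, ∀ z : K, z ≠ 0 →
    (∀ α ∈ s, ‖z - α‖ = max ‖z‖ ‖α‖) → ∀ n ∈ S, ‖a n * z ^ n‖ ≤ ‖∑ m ∈ S, a m * z ^ m‖ := by
  classical
  obtain ⟨N, hN⟩ : ∃ N : ℤ, ∀ n ∈ S, 0 ≤ n + N :=
    ⟨(S.sup Int.natAbs : ℕ), fun n hn => by
      have := Finset.le_sup (f := Int.natAbs) hn
      omega⟩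
  set Q : K[X] := ∑ m ∈ S, monomial (m + N).toNat (a m) with hQ
  refine ⟨Q.roots.toFinset, fun z hz h n hn => ?_⟩
  have h1 := Ser_poly z Q.leadingCoeff Q.roots (fun α hα => h α (Multiset.mem_toFinset.2 hα))
    (n + N).toNat
  rw [← (IsAlgClosed.splits Q).eq_prod_roots] at h1
  have hp : ∀ m ∈ S, z ^ (m + N).toNat = z ^ m * z ^ N := fun m hm => by
    rw [← zpow_natCast, Int.toNat_of_nonneg (hN m hm), zpow_add₀ hz]
  have h2 : Q.coeff (n + N).toNat = a n := by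
    rw [hQ, finsetSum_coeff, Finset.sum_eq_single_of_mem n hn fun m hm e => ?_, coeff_monomial,
      if_pos rfl]
    have := hN m hm
    have := hN n hn
    rw [coeff_monomial, if_neg (by omega)]
  have h3 : Q.eval z = (∑ m ∈ S, a m * z ^ m) * z ^ N := by
    rw [hQ, eval_finsetSum, Finset.sum_mul]
    exact Finset.sum_congr rfl fun m hm => by rw [eval_monomial, hp m hm, mul_assoc]
  rw [h2, h3, hp n hn, ← mul_assoc, norm_mul _ (z ^ N), norm_mul _ (z ^ N)] at h1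
  exact le_of_mul_le_mul_right h1 (norm_pos_iff.2 (zpow_ne_zero N hz))

omit [IsUltrametricDist K] [IsAlgClosed K] in
theorem Ser_congr {z w : K} (h : ‖z‖ = ‖w‖) (c : K) (n : ℤ) : ‖c * z ^ n‖ = ‖c * w ^ n‖ := by
  rw [norm_mul, norm_mul, norm_zpow, norm_zpow, h]

omit [IsUltrametricDist K] [IsAlgClosed K] in
theorem Ser_finite {u : ℤ → K} (h : Tendsto u cofinite (𝓝 0)) {ε : ℝ} (hε : 0 < ε) :
    {n | ε ≤ ‖u n‖}.Finite := by
  have := (tendsto_zero_iff_norm_tendsto_zero.1 h).eventually (gt_mem_nhds hε)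
  simpa only [eventually_cofinite, not_lt] using this

theorem Ser_key {a : ℤ → K} {w : K} (hw : w ≠ 0)
    (h : Tendsto (fun n : ℤ => a n * w ^ n) cofinite (𝓝 0)) {ε : ℝ} (hε : 0 < ε) :
    ∃ s : Finset K, ∀ z y : K, ‖z‖ = ‖w‖ → (∀ α ∈ s, ‖z - α‖ = max ‖w‖ ‖α‖) →
      HasSum (fun n : ℤ => a n * z ^ n) y → ∀ n, ‖a n * w ^ n‖ ≤ max ‖y‖ ε := by
  classical
  set S := (Ser_finite h hε).toFinset
  have hS : ∀ n, n ∉ S → ‖a n * w ^ n‖ ≤ ε := fun n hn =>
    (not_le.1 fun e => hn ((Set.Finite.mem_toFinset _).2 e)).le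
  obtain ⟨s, hs⟩ := Ser_fin a S
  refine ⟨s, fun z y hz hg hy n => ?_⟩
  by_cases hn : n ∈ S
  swap
  · exact (hS n hn).trans (le_max_right _ _)
  have hz0 : z ≠ 0 := norm_pos_iff.1 (hz ▸ norm_pos_iff.2 hw)
  have h1 : HasSum (fun m : ℤ => if m ∈ S then a m * z ^ m else 0) (∑ m ∈ S, a m * z ^ m) := by
    have := hasSum_sum_of_ne_finset_zero (L := SummationFilter.unconditional ℤ) (s := S)
      (f := fun m : ℤ => if m ∈ S then a m * z ^ m else 0) fun m hm => if_neg hm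
    rwa [Finset.sum_congr rfl fun m hm => if_pos hm] at this
  have h2 : ‖y - ∑ m ∈ S, a m * z ^ m‖ ≤ ε := by
    rw [← (hy.sub h1).tsum_eq]
    refine IsUltrametricDist.norm_tsum_le_of_forall_le fun m => ?_
    split_ifs with hm
    · simpa using hε.le
    · rw [sub_zero, Ser_congr hz]; exact hS m hm
  rw [← Ser_congr hz]
  refine (hs z hz0 (by rwa [hz]) n hn).trans ?_
  have := Ser_sub_le y (y - ∑ m ∈ S, a m * z ^ m)
  rw [sub_sub_cancel] at this
  exact this.trans (max_le_max_left _ h2)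

variable [CompleteSpace K] {P : Prop}

omit [IsAlgClosed K] in
theorem tendsto_coef (f : L1 K P) (w : Pt1 K P) :
    Tendsto (fun n : ℤ => coef f n * w.v ^ n) cofinite (𝓝 0) := by
  exact (hasSum_coef f w).summable.tendsto_cofinite_zero

omit [IsAlgClosed K] in
theorem le_gn (f : L1 K P) (w : Pt1 K P) (n : ℤ) : ‖coef f n * w.v ^ n‖ ≤ gn w f := by
  exact le_ciSup (tendsto_coef f w).norm.bddAbove_range_of_cofinite n

omit [IsAlgClosed K] in
theorem gn_nonneg (f : L1 K P) (w : Pt1 K P) : 0 ≤ gn w f := by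
  exact (norm_nonneg _).trans (le_gn f w 0)

omit [IsAlgClosed K] in
theorem gn_le (f : L1 K P) (w : Pt1 K P) {C : ℝ} (h : ∀ n, ‖coef f n * w.v ^ n‖ ≤ C) :
    gn w f ≤ C := by
  exact ciSup_le h

omit [IsAlgClosed K] in
theorem gn_congr (f : L1 K P) {w w' : Pt1 K P} (h : ‖w.v‖ = ‖w'.v‖) : gn w f = gn w' f := by
  exact iSup_congr fun n => Ser_congr h _ n

omit [IsAlgClosed K] in
theorem norm_le_gn (f : L1 K P) {w z : Pt1 K P} (h : ‖z.v‖ = ‖w.v‖) : ‖f.1 z‖ ≤ gn w f := by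
  rw [← gn_congr f h, ← (hasSum_coef f z).tsum_eq]
  exact IsUltrametricDist.norm_tsum_le _

omit [IsAlgClosed K] in
theorem gn_eq_zero_imp {f : L1 K P} {w : Pt1 K P} (h : gn w f = 0) : f = 0 := by
  have h1 : ∀ n, coef f n = 0 := fun n => by
    have := (le_gn f w n).trans_eq h
    exact (mul_eq_zero.1 (norm_le_zero_iff.1 this)).resolve_right (zpow_ne_zero n w.1.ne_zero)
  refine Subtype.ext (funext fun t => (hasSum_coef f t).unique ?_)
  simp only [h1, zero_mul]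
  exact hasSum_zero

omit [IsAlgClosed K] in
theorem Ser_max {f : L1 K P} (hf : f ≠ 0) (w : Pt1 K P) :
    ∃ T : Finset ℤ, T.Nonempty ∧ ∀ n, n ∈ T ↔ ‖coef f n * w.v ^ n‖ = gn w f := by
  have h0 : 0 < gn w f := (gn_nonneg f w).lt_of_ne' fun e => hf (gn_eq_zero_imp e)
  have h1 := Ser_finite (tendsto_coef f w) (half_pos h0)
  obtain ⟨m, hm⟩ : ∃ m, gn w f / 2 < ‖coef f m * w.v ^ m‖ :=
    exists_lt_of_lt_ciSup (half_lt_self h0)
  obtain ⟨n, hn, hmax⟩ := Set.exists_max_image _ (fun n => ‖coef f n * w.v ^ n‖) h1 ⟨m, hm.le⟩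
  have h2 : {n | ‖coef f n * w.v ^ n‖ = gn w f}.Finite :=
    h1.subset fun n (hn : _ = _) => (half_le_self h0.le).trans hn.ge
  refine ⟨h2.toFinset, ⟨n, h2.mem_toFinset.2 ((le_gn f w n).antisymm (gn_le f w fun l => ?_))⟩,
    fun n => h2.mem_toFinset⟩
  rcases le_total (gn w f / 2) ‖coef f l * w.v ^ l‖ with h | h
  · exact hmax l h
  · exact h.trans hn

omit [IsAlgClosed K] in
theorem exists_isTop {f : L1 K P} (hf : f ≠ 0) (w : Pt1 K P) : ∃ n, IsTop w f n := by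
  obtain ⟨T, hT, h⟩ := Ser_max hf w
  exact ⟨T.max' hT, (h _).1 (T.max'_mem hT), fun m hm => (le_gn f w m).lt_of_ne fun e =>
    (T.le_max' m ((h m).2 e)).not_gt hm⟩

omit [IsAlgClosed K] in
theorem exists_isBot {f : L1 K P} (hf : f ≠ 0) (w : Pt1 K P) : ∃ n, IsBot w f n := by
  obtain ⟨T, hT, h⟩ := Ser_max hf w
  exact ⟨T.min' hT, (h _).1 (T.min'_mem hT), fun m hm => (le_gn f w m).lt_of_ne fun e =>
    (T.min'_le m ((h m).2 e)).not_gt hm⟩

omit [IsAlgClosed K] in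
theorem IsTop.unique {f : L1 K P} {w : Pt1 K P} {m n : ℤ} (hm : IsTop w f m) (hn : IsTop w f n) :
    m = n := by
  exact le_antisymm (not_lt.1 fun h => (hn.2 m h).ne hm.1) (not_lt.1 fun h => (hm.2 n h).ne hn.1)

omit [IsAlgClosed K] in
theorem IsBot.unique {f : L1 K P} {w : Pt1 K P} {m n : ℤ} (hm : IsBot w f m) (hn : IsBot w f n) :
    m = n := by
  exact le_antisymm (not_lt.1 fun h => (hm.2 n h).ne hn.1) (not_lt.1 fun h => (hn.2 m h).ne hm.1)

omit [CompleteSpace K] in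
theorem Ser_generic (s : Finset K) (w : Pt1 K P) :
    ∃ z : Pt1 K P, ‖z.v‖ = ‖w.v‖ ∧ ∀ α ∈ s, ‖z.v - α‖ = max ‖w.v‖ ‖α‖ := by
  obtain ⟨z, h1, h2⟩ := exists_generic s w.1
  exact ⟨⟨z, w.2.imp_right h1.trans⟩, h1, h2⟩

theorem coef_unique {f : L1 K P} {a : ℤ → K}
    (ha : ∀ t : Pt1 K P, HasSum (fun n => a n * t.v ^ n) (f.1 t)) : coef f = a := by
  have h : ∀ t : Pt1 K P, HasSum (fun n => (coef f n - a n) * t.v ^ n) 0 := fun t => by
    simpa only [sub_mul, sub_self] using (hasSum_coef f t).sub (ha t)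
  let w : Pt1 K P := ⟨1, by simp⟩
  funext n
  have h1 : ‖(coef f n - a n) * w.v ^ n‖ ≤ 0 := le_of_forall_pos_le_add fun ε hε => by
    obtain ⟨s, hs⟩ := Ser_key w.1.ne_zero (h w).summable.tendsto_cofinite_zero hε
    obtain ⟨z, h1, h2⟩ := Ser_generic s w
    simpa only [norm_zero, max_eq_right hε.le, zero_add] using hs _ _ h1 h2 (h z) n
  exact sub_eq_zero.1
    ((mul_eq_zero.1 (norm_le_zero_iff.1 h1)).resolve_right (zpow_ne_zero n w.1.ne_zero))

theorem exists_attain (S : Finset (L1 K P)) (w : Pt1 K P) :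
    ∃ z : Pt1 K P, ‖z.v‖ = ‖w.v‖ ∧ ∀ f ∈ S, ‖f.1 z‖ = gn w f := by
  classical
  have key : ∀ f : L1 K P, ∃ s : Finset K, ∀ z : Pt1 K P, ‖z.v‖ = ‖w.v‖ →
      (∀ α ∈ s, ‖z.v - α‖ = max ‖w.v‖ ‖α‖) → ‖f.1 z‖ = gn w f := fun f => by
    rcases (gn_nonneg f w).eq_or_lt with h | h
    · exact ⟨∅, fun z hz _ => (norm_le_gn f hz).antisymm (h.ge.trans (norm_nonneg _))⟩
    · obtain ⟨s, hs⟩ := Ser_key w.1.ne_zero (tendsto_coef f w) (half_pos h)
      refine ⟨s, fun z hz hg => (norm_le_gn f hz).antisymm ?_⟩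
      exact (le_max_iff.1 (gn_le f w (hs _ _ hz hg (hasSum_coef f z)))).resolve_right
        (half_lt_self h).not_ge
  choose s hs using key
  obtain ⟨z, h1, h2⟩ := Ser_generic (S.biUnion s) w
  exact ⟨z, h1, fun f hf => hs f z h1 fun α hα => h2 α (Finset.mem_biUnion.2 ⟨f, hf, hα⟩)⟩

theorem coef_zero (n : ℤ) : coef (0 : L1 K P) n = 0 := by
  refine congrFun (coef_unique (a := fun _ => 0) fun t => ?_) n
  simp only [zero_mul]
  exact hasSum_zero

theorem coef_add (f g : L1 K P) (n : ℤ) : coef (f + g) n = coef f n + coef g n := by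
  refine congrFun (coef_unique (a := fun n => coef f n + coef g n) fun t => ?_) n
  simp only [add_mul]
  exact (hasSum_coef f t).add (hasSum_coef g t)

theorem coef_smul (c : K) (f : L1 K P) (n : ℤ) : coef (c • f) n = c * coef f n := by
  refine congrFun (coef_unique (a := fun n => c * coef f n) fun t => ?_) n
  simp only [mul_assoc]
  exact (hasSum_coef f t).mul_left c

theorem coef_mul (f g : L1 K P) (N : ℤ) : Summable (fun n => coef f n * coef g (N - n)) ∧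
    coef (f * g) N = ∑' n, coef f n * coef g (N - n) := by
  have h := ser_mul K (fun (t : Pt1 K P) (n : ℤ) => t.v ^ n)
    (fun t m n => zpow_add₀ t.1.ne_zero m n) ⟨1, by simp⟩ (by simp [Pt1.v])
    (hasSum_coef f) (hasSum_coef g)
  exact ⟨h.1 N, congrFun (coef_unique (f := f * g) h.2) N⟩

theorem coef_algebraMap (c : K) (n : ℤ) :
    coef (algebraMap K (L1 K P) c) n = if n = 0 then c else 0 := by
  refine congrFun (coef_unique (a := fun n => if n = 0 then c else 0) fun t => ?_) n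
  have h := hasSum_single (f := fun n : ℤ => (if n = 0 then c else 0) * t.v ^ n) 0
    fun n hn => by simp [hn]
  rw [if_pos rfl, zpow_zero, mul_one] at h
  exact h

theorem coef_Zf (n : ℤ) : coef (Zf K P) n = if n = 1 then 1 else 0 := by
  refine congrFun (coef_unique (a := fun n => if n = 1 then 1 else 0) fun t => ?_) n
  have h := hasSum_single (f := fun n : ℤ => (if n = 1 then (1 : K) else 0) * t.v ^ n) 1
    fun n hn => by simp [hn]
  rw [if_pos rfl, zpow_one, one_mul] at h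
  exact h

theorem coef_lin_mul (c : K) (g : L1 K P) (n : ℤ) :
    coef (lin c * g) n = coef g (n - 1) - c * coef g n := by
  refine congrFun (coef_unique (a := fun n => coef g (n - 1) - c * coef g n) fun t => ?_) n
  have h1 := (Equiv.subRight (1 : ℤ)).hasSum_iff.2 ((hasSum_coef g t).mul_left t.v)
  have h2 := h1.sub ((hasSum_coef g t).mul_left c)
  rw [← sub_mul] at h2
  refine h2.congr_fun fun m => ?_
  have e : t.v ^ m = t.v * t.v ^ (m - 1) := by
    rw [← zpow_one_add₀ t.1.ne_zero, add_sub_cancel]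
  simp only [Function.comp, Equiv.subRight_apply]
  rw [sub_mul, mul_assoc, mul_left_comm t.v, ← e]

theorem gn_zero (w : Pt1 K P) : gn w (0 : L1 K P) = 0 := by
  simp [gn, coef_zero]

theorem gn_mul (w : Pt1 K P) (f g : L1 K P) : gn w (f * g) = gn w f * gn w g := by
  classical
  obtain ⟨z, -, h⟩ := exists_attain {f, g, f * g} w
  rw [← h f (by simp), ← h g (by simp), ← h (f * g) (by simp), ← norm_mul]
  rfl

theorem gn_add_le (w : Pt1 K P) (f g : L1 K P) : gn w (f + g) ≤ max (gn w f) (gn w g) := by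
  obtain ⟨z, hz, h⟩ := exists_attain {f + g} w
  rw [← h _ (Finset.mem_singleton_self _)]
  exact (IsUltrametricDist.norm_add_le_max (f.1 z) (g.1 z)).trans
    (max_le_max (norm_le_gn f hz) (norm_le_gn g hz))

theorem gn_algebraMap (w : Pt1 K P) (c : K) : gn w (algebraMap K (L1 K P) c) = ‖c‖ := by
  obtain ⟨z, -, h⟩ := exists_attain {algebraMap K (L1 K P) c} w
  exact (h _ (Finset.mem_singleton_self _)).symm

theorem gn_lin (w : Pt1 K P) (c : K) : gn w (lin c : L1 K P) = max ‖w.v‖ ‖c‖ := by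
  refine le_antisymm ?_ ?_
  · obtain ⟨z, hz, h⟩ := exists_attain {(lin c : L1 K P)} w
    rw [← h _ (Finset.mem_singleton_self _), lin_apply, ← hz]
    exact Ser_sub_le _ _
  · obtain ⟨z, hz, h⟩ := Ser_generic {c} w
    rw [← h c (Finset.mem_singleton_self _), ← lin_apply]
    exact norm_le_gn _ hz

instance L1_isDomain : IsDomain (L1 K P) := by
  let w : Pt1 K P := ⟨1, by simp⟩
  have : Nontrivial (L1 K P) := ⟨0, 1, fun h => zero_ne_one (congrFun (congrArg Subtype.val h) w)⟩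
  have : NoZeroDivisors (L1 K P) := ⟨fun {f g} h => by
    have h1 := gn_mul w f g
    rw [h, gn_zero] at h1
    exact (mul_eq_zero.1 h1.symm).imp gn_eq_zero_imp gn_eq_zero_imp⟩
  exact NoZeroDivisors.to_isDomain _

end Pool.Agent.Work.MP_e120ef_ag
end

-- merged part: Pool.Agent.Work.MP_e120ef_ag.Div
section
/-!
# Dividing out zeros

Plans.  `exists_div`: `b n = ∑' k, if n < k then a k * c ^ (k - n - 1) else 0 = - ∑' k, if k ≤ n then a k * c ^ (k - n - 1) else 0` (the difference is `c ^ (-n-1) f c = 0`),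
`b (n-1) - c * b n = a n`.  At a point `w`: if `‖c‖ ≤ ‖w‖` then `‖b n w ^ n‖ ≤ sup_{k > n} ‖a k w ^ k‖ / ‖w‖` (first form; use it for `n → +∞`) and for `n ≤ 0`
`‖b n w ^ n‖ ≤ sup_{k ≤ n} ‖a k c ^ k‖ / ‖c‖` (second form); symmetrically if `‖w‖ ≤ ‖c‖`.  `NonarchimedeanAddGroup.summable_of_tendsto_cofinite_zero`; `g w = ∑' b n w ^ n`; shift the index with `Equiv.addRight`.
`isTop_lin_mul`, `isBot_lin_mul`: `coef_lin_mul`, `gn_mul`, `gn_lin`, ultrametric inequality with different norms.  `bot_le_top`: if `n₂ < n₁` compare the two terms at both radii.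
`factor`: induction on `(top at w₂) - (bot at w₁)`, which drops by one at each division.
-/

open Filter Topology

namespace Pool.Agent.Work.MP_e120ef_ag

variable {K : Type} [NontriviallyNormedField K] [IsUltrametricDist K] [IsAlgClosed K]
  [CompleteSpace K] {P : Prop}

theorem Div_between {r x ε : ℝ} (hr : 0 < r) (hx : 0 ≤ x) {k n : ℤ}
    (h : (0 ≤ n ∧ n ≤ k) ∨ (k ≤ n ∧ n ≤ 0)) (h1 : x ≤ ε) (h2 : x * r ^ k ≤ ε) : x * r ^ n ≤ ε := by
  have h3 : r ^ n ≤ 1 ∨ r ^ n ≤ r ^ k := by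
    rcases le_total r 1 with h4 | h4 <;> rcases h with h | h
    · exact Or.inl (zpow_le_one₀ hr h4 h.1)
    · exact Or.inr (zpow_le_zpow_right_of_le_one₀ hr h4 h.1)
    · exact Or.inr (zpow_le_zpow_right₀ h4 h.2)
    · exact Or.inl (zpow_le_one_of_nonpos₀ h4 h.2)
  rcases h3 with h3 | h3
  · exact (mul_le_of_le_one_right hx h3).trans h1
  · exact (mul_le_mul_of_nonneg_left h3 hx).trans h2

omit [IsAlgClosed K] [CompleteSpace K] in
theorem Div_bound {u : ℤ → K} {ρ : K} (hρ : ρ ≠ 0) {ε : ℝ} (hε : 0 < ε) (p : ℤ → Prop)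
    [DecidablePred p] {n : ℤ} (h : ∀ k, p k → ((0 ≤ n ∧ n ≤ k) ∨ (k ≤ n ∧ n ≤ 0)) ∧
      ‖u k‖ ≤ ε ∧ ‖u k * ρ ^ k‖ ≤ ε) : ‖(∑' k, if p k then u k else 0) * ρ ^ n‖ ≤ ε := by
  rw [← tsum_mul_right]
  refine IsUltrametricDist.norm_tsum_le_of_forall_le_of_nonneg hε.le fun k => ?_
  split_ifs with hk
  · obtain ⟨h1, h2, h3⟩ := h k hk
    rw [norm_mul, norm_zpow] at h3 ⊢
    exact Div_between (norm_pos_iff.2 hρ) (norm_nonneg _) h1 h2 h3
  · rw [zero_mul, norm_zero]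
    exact hε.le

omit [IsAlgClosed K] in
theorem Div_tail {u : ℤ → K} (hu : HasSum u 0) : ∃ U : ℤ → K, (∀ n, U (n - 1) = u n + U n) ∧
    ∀ ρ : K, ρ ≠ 0 → Tendsto (fun k => u k * ρ ^ k) cofinite (𝓝 0) →
      Tendsto (fun n => U n * ρ ^ n) cofinite (𝓝 0) := by
  have h0 := hu.summable.tendsto_cofinite_zero
  have hs : ∀ (p : ℤ → Prop) [DecidablePred p], Summable fun k => if p k then u k else 0 :=
    fun p _ => (hu.summable.indicator {k | p k}).congr fun k => by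
      simp [Set.indicator_apply]
  refine ⟨fun n => ∑' k, if n < k then u k else 0, fun n => ?_, fun ρ hρ h1 => ?_⟩
  · rw [← tsum_ite_eq n u, ← ((hs (· = n)).tsum_add (hs _))]
    refine tsum_congr fun k => ?_
    split_ifs <;> first | omega | simp
  · have e : ∀ n, (∑' k, if n < k then u k else 0) = -∑' k, if k ≤ n then u k else 0 := fun n => by
      rw [eq_neg_iff_add_eq_zero, ← (hs _).tsum_add (hs _)]
      refine (tsum_congr fun k => ?_).trans hu.tsum_eq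
      split_ifs <;> first | omega | simp
    rw [Metric.nhds_basis_closedBall.tendsto_right_iff] at h0 h1 ⊢
    intro ε hε
    have h2 := (h0 ε hε).and (h1 ε hε)
    simp only [mem_closedBall_zero_iff, Int.cofinite_eq, eventually_sup] at h2 ⊢
    obtain ⟨N, hN⟩ := eventually_atBot.1 h2.1
    obtain ⟨M, hM⟩ := eventually_atTop.1 h2.2
    refine ⟨eventually_atBot.2 ⟨min N 0, fun n hn => ?_⟩,
      eventually_atTop.2 ⟨max M 0, fun n hn => ?_⟩⟩
    · rw [e, neg_mul, norm_neg]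
      exact Div_bound hρ hε _ fun k hk => ⟨by omega, hN k (by omega)⟩
    · exact Div_bound hρ hε _ fun k hk => ⟨by omega, hM k (by omega)⟩

omit [IsAlgClosed K] in
theorem exists_div {f : L1 K P} {c : Pt1 K P} (h : f.1 c = 0) : ∃ g, f = lin c.v * g := by
  have hc : c.v ≠ 0 := c.1.ne_zero
  obtain ⟨U, U1, U2⟩ := Div_tail (u := fun k => coef f k * c.v ^ k) (h ▸ hasSum_coef f c)
  have hs : ∀ t : Pt1 K P, Summable fun n : ℤ => U n * c.v ^ (-n - 1) * t.v ^ n := fun t => by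
    refine NonarchimedeanAddGroup.summable_of_tendsto_cofinite_zero ?_
    have h1 := (U2 (t.v / c.v) (div_ne_zero t.1.ne_zero hc) ((tendsto_coef f t).congr fun k => by
      rw [div_zpow, mul_assoc, mul_div_cancel₀ _ (zpow_ne_zero k hc)])).mul_const c.v⁻¹
    rw [zero_mul] at h1
    refine h1.congr fun n => ?_
    rw [zpow_sub_one₀ hc, zpow_neg, div_zpow]
    ring
  refine ⟨⟨fun t => ∑' n : ℤ, U n * c.v ^ (-n - 1) * t.v ^ n, _, fun t => (hs t).hasSum⟩,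
    Subtype.ext (funext fun t => ?_)⟩
  have ht : t.v ≠ 0 := t.1.ne_zero
  have h1 := ((Equiv.subRight (1 : ℤ)).hasSum_iff.2 ((hs t).hasSum.mul_left t.v)).sub
    ((hs t).hasSum.mul_left c.v)
  rw [← sub_mul] at h1
  have e : (fun n : ℤ => coef f n * t.v ^ n) = fun b =>
      ((fun i => t.v * (U i * c.v ^ (-i - 1) * t.v ^ i)) ∘ Equiv.subRight (1 : ℤ)) b -
        c.v * (U b * c.v ^ (-b - 1) * t.v ^ b) := funext fun n => by
    rw [Function.comp_apply, Equiv.subRight_apply, U1, show -(n - 1) - 1 = -n by ring,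
      zpow_sub_one₀ hc, zpow_sub_one₀ ht, zpow_neg]
    have := zpow_ne_zero n hc
    field_simp
    ring
  exact (e ▸ hasSum_coef f t).unique h1

theorem lin_ne_zero (c : K) : (lin c : L1 K P) ≠ 0 := by
  intro h
  have h1 := gn_lin (P := P) ⟨1, Or.inr (by simp)⟩ c
  rw [h, gn_zero] at h1
  exact absurd (h1 ▸ le_max_left _ _) (not_le.2 (norm_pos_iff.2 (Units.ne_zero _)))

omit [IsAlgClosed K] [CompleteSpace K] in
theorem Div_lt {a b : K} {M : ℝ} (ha : ‖a‖ < M) (hb : ‖b‖ < M) : ‖a - b‖ < M := by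
  rw [sub_eq_add_neg]
  exact (IsUltrametricDist.norm_add_le_max _ _).trans_lt (max_lt ha (by rwa [norm_neg]))

omit [IsAlgClosed K] [CompleteSpace K] in
theorem Div_eq_l {a b : K} {M : ℝ} (ha : ‖a‖ = M) (hb : ‖b‖ < M) : ‖a - b‖ = M := by
  rw [sub_eq_add_neg, IsUltrametricDist.norm_add_eq_max_of_norm_ne_norm
    (by rw [norm_neg, ha]; exact hb.ne'), norm_neg, ha, max_eq_left hb.le]

omit [IsAlgClosed K] [CompleteSpace K] in
theorem Div_eq_r {a b : K} {M : ℝ} (hb : ‖b‖ = M) (ha : ‖a‖ < M) : ‖a - b‖ = M := by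
  rw [norm_sub_rev]
  exact Div_eq_l hb ha

omit [IsAlgClosed K] in
theorem Div_gn_pos {g : L1 K P} (hg : g ≠ 0) (w : Pt1 K P) : 0 < gn w g :=
  (gn_nonneg g w).lt_of_ne' fun h => hg (gn_eq_zero_imp h)

theorem Div_term (c : K) (g : L1 K P) (w : Pt1 K P) (m : ℤ) : coef (lin c * g) m * w.v ^ m =
    w.v * (coef g (m - 1) * w.v ^ (m - 1)) - c * (coef g m * w.v ^ m) := by
  have hw : w.v ≠ 0 := w.1.ne_zero
  rw [coef_lin_mul, zpow_sub_one₀ hw]
  field_simp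

theorem isTop_lin_mul {w : Pt1 K P} {g : L1 K P} (hg : g ≠ 0) {n : ℤ} (h : IsTop w g n) (c : K) :
    IsTop w (lin c * g) (n + if ‖c‖ ≤ ‖w.v‖ then 1 else 0) := by
  have hw : 0 < ‖w.v‖ := norm_pos_iff.2 w.1.ne_zero
  have hG := Div_gn_pos hg w
  have h0 := fun m => norm_nonneg (coef g m * w.v ^ m)
  have h1 := le_gn g w
  rw [IsTop, gn_mul, gn_lin]
  simp only [Div_term]
  split_ifs with hc
  · rw [max_eq_left hc]
    refine ⟨Div_eq_l (by rw [norm_mul, add_sub_cancel_right, h.1]) ?_, fun m hm => Div_lt ?_ ?_⟩ <;>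
      rw [norm_mul]
    · exact mul_lt_mul' hc (h.2 _ (by omega)) (h0 _) hw
    · exact mul_lt_mul_of_pos_left (h.2 _ (by omega)) hw
    · exact mul_lt_mul' hc (h.2 _ (by omega)) (h0 _) hw
  · rw [not_le] at hc
    rw [max_eq_right hc.le, add_zero]
    refine ⟨Div_eq_r (by rw [norm_mul, h.1]) ?_, fun m hm => Div_lt ?_ ?_⟩ <;> rw [norm_mul]
    · exact (mul_le_mul_of_nonneg_left (h1 _) hw.le).trans_lt (mul_lt_mul_of_pos_right hc hG)
    · exact (mul_le_mul_of_nonneg_left (h1 _) hw.le).trans_lt (mul_lt_mul_of_pos_right hc hG)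
    · exact mul_lt_mul_of_pos_left (h.2 _ hm) (hw.trans hc)

theorem isBot_lin_mul {w : Pt1 K P} {g : L1 K P} (hg : g ≠ 0) {n : ℤ} (h : IsBot w g n) (c : K) :
    IsBot w (lin c * g) (n + if ‖c‖ < ‖w.v‖ then 1 else 0) := by
  have hw : 0 < ‖w.v‖ := norm_pos_iff.2 w.1.ne_zero
  have hG := Div_gn_pos hg w
  have h0 := fun m => norm_nonneg (coef g m * w.v ^ m)
  have h1 := le_gn g w
  rw [IsBot, gn_mul, gn_lin]
  simp only [Div_term]
  split_ifs with hc
  · rw [max_eq_left hc.le]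
    refine ⟨Div_eq_l (by rw [norm_mul, add_sub_cancel_right, h.1]) ?_, fun m hm => Div_lt ?_ ?_⟩ <;>
      rw [norm_mul]
    · exact (mul_le_mul_of_nonneg_left (h1 _) (norm_nonneg c)).trans_lt
        (mul_lt_mul_of_pos_right hc hG)
    · exact mul_lt_mul_of_pos_left (h.2 _ (by omega)) hw
    · exact (mul_le_mul_of_nonneg_left (h1 _) (norm_nonneg c)).trans_lt
        (mul_lt_mul_of_pos_right hc hG)
  · rw [not_lt] at hc
    rw [max_eq_right hc, add_zero]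
    refine ⟨Div_eq_r (by rw [norm_mul, h.1]) ?_, fun m hm => Div_lt ?_ ?_⟩ <;> rw [norm_mul]
    · exact mul_lt_mul' hc (h.2 _ (by omega)) (h0 _) (hw.trans_le hc)
    · exact mul_lt_mul' hc (h.2 _ (by omega)) (h0 _) (hw.trans_le hc)
    · exact mul_lt_mul_of_pos_left (h.2 _ hm) (hw.trans_le hc)

omit [IsAlgClosed K] in
theorem bot_le_top {w₁ w₂ : Pt1 K P} (h : ‖w₁.v‖ ≤ ‖w₂.v‖) {f : L1 K P} (hf : f ≠ 0) {n₁ n₂ : ℤ}
    (h₁ : IsBot w₁ f n₁) (h₂ : IsTop w₂ f n₂) : n₁ ≤ n₂ := by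
  have _ := hf
  by_contra hn
  obtain ⟨d, rfl⟩ : ∃ d : ℕ, n₁ = n₂ + d := ⟨(n₁ - n₂).toNat, by omega⟩
  have p1 : 0 < ‖w₁.v‖ := norm_pos_iff.2 w₁.1.ne_zero
  have p2 : 0 < ‖w₂.v‖ := p1.trans_le h
  have e1 := (h₁.2 n₂ (by omega)).trans_eq h₁.1.symm
  have e2 := (h₂.2 (n₂ + d) (by omega)).trans_eq h₂.1.symm
  rw [norm_mul, norm_mul, norm_zpow, norm_zpow, add_comm n₂] at e1 e2
  rw [zpow_add₀ p1.ne', ← mul_assoc, mul_lt_mul_iff_left₀ (zpow_pos p1 _), zpow_natCast] at e1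
  rw [zpow_add₀ p2.ne', ← mul_assoc, mul_lt_mul_iff_left₀ (zpow_pos p2 _), zpow_natCast] at e2
  exact lt_irrefl _ ((e1.trans_le (mul_le_mul_of_nonneg_left (pow_le_pow_left₀ p1.le h d)
    (norm_nonneg _))).trans e2)

theorem factor {f : L1 K P} (hf : f ≠ 0) (w₁ w₂ : Pt1 K P) :
    ∃ (s : Multiset (Pt1 K P)) (g : L1 K P), (∀ z ∈ s, ‖w₁.v‖ ≤ ‖z.v‖ ∧ ‖z.v‖ ≤ ‖w₂.v‖) ∧
      (∀ z : Pt1 K P, ‖w₁.v‖ ≤ ‖z.v‖ → ‖z.v‖ ≤ ‖w₂.v‖ → g.1 z ≠ 0) ∧
      f = (s.map fun z => (lin z.v : L1 K P)).prod * g := by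
  obtain ⟨n₁, h₁⟩ := exists_isBot hf w₁
  obtain ⟨n₂, h₂⟩ := exists_isTop hf w₂
  induction hd : (n₂ - n₁).toNat using Nat.strong_induction_on generalizing f n₁ n₂ with
  | _ d ih =>
    by_cases h : ∃ z : Pt1 K P, ‖w₁.v‖ ≤ ‖z.v‖ ∧ ‖z.v‖ ≤ ‖w₂.v‖ ∧ f.1 z = 0
    · obtain ⟨z, z1, z2, z3⟩ := h
      obtain ⟨g, rfl⟩ := exists_div z3
      have hg : g ≠ 0 := right_ne_zero_of_mul hf
      obtain ⟨m₁, k₁⟩ := exists_isBot hg w₁
      obtain ⟨m₂, k₂⟩ := exists_isTop hg w₂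
      have e1 := h₁.unique (isBot_lin_mul hg k₁ z.v)
      have e2 := h₂.unique (isTop_lin_mul hg k₂ z.v)
      have e3 := bot_le_top (z1.trans z2) hg k₁ k₂
      rw [if_neg (not_lt.2 z1)] at e1
      rw [if_pos z2] at e2
      obtain ⟨s, g', s1, s2, s3⟩ := ih _ (by omega) hg m₁ k₁ m₂ k₂ rfl
      refine ⟨z ::ₘ s, g', fun y hy => ?_, s2, ?_⟩
      · rcases Multiset.mem_cons.1 hy with rfl | hy
        · exact ⟨z1, z2⟩
        · exact s1 y hy
      · rw [Multiset.map_cons, Multiset.prod_cons, mul_assoc, ← s3]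
    · exact ⟨0, f, by simp, fun z z1 z2 z3 => h ⟨z, z1, z2, z3⟩, by simp⟩

omit [IsAlgClosed K] in
theorem Div_eq {y z : Pt1 K P} (h : (lin y.v : L1 K P).1 z = 0) : z = y :=
  Subtype.ext (Units.ext (sub_eq_zero.1 h))

theorem finite_zeros {f : L1 K P} (hf : f ≠ 0) (w₁ w₂ : Pt1 K P) :
    {z : Pt1 K P | ‖w₁.v‖ ≤ ‖z.v‖ ∧ ‖z.v‖ ≤ ‖w₂.v‖ ∧ f.1 z = 0}.Finite := by
  obtain ⟨s, g, -, h2, rfl⟩ := factor hf w₁ w₂
  refine s.finite_toSet.subset fun z hz => ?_
  have key : ∀ s : Multiset (Pt1 K P),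
      ((s.map fun y => (lin y.v : L1 K P)).prod).1 z = 0 → z ∈ s := fun s => by
    induction s using Multiset.induction_on with
    | empty => exact fun h => absurd h one_ne_zero
    | cons y s ih =>
      rw [Multiset.map_cons, Multiset.prod_cons, Multiset.mem_cons]
      exact fun h => (mul_eq_zero.1 h).imp Div_eq ih
  exact key s ((mul_eq_zero.1 hz.2.2).resolve_right (h2 z hz.1 hz.2.1))

theorem exists_order {f : L1 K P} (hf : f ≠ 0) (c : Pt1 K P) :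
    ∃ (n : ℕ) (g : L1 K P), g.1 c ≠ 0 ∧ f = lin c.v ^ n * g := by
  obtain ⟨s, g, -, h2, rfl⟩ := factor hf c c
  clear hf
  induction s using Multiset.induction_on with
  | empty => exact ⟨0, g, h2 c le_rfl le_rfl, by simp⟩
  | cons y s ih =>
    obtain ⟨n, g', k1, k2⟩ := ih
    rw [Multiset.map_cons, Multiset.prod_cons, mul_assoc, k2]
    rcases eq_or_ne c y with rfl | hy
    · exact ⟨n + 1, g', k1, by ring⟩
    · exact ⟨n, lin y.v * g', mul_ne_zero (fun h => hy (Div_eq h)) k1, by ring⟩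

theorem Div_ord {c : Pt1 K P} {m n : ℕ} {g g' : L1 K P} (hg : g.1 c ≠ 0)
    (h : lin c.v ^ m * g = lin c.v ^ n * g') : n ≤ m := by
  by_contra hn
  obtain ⟨d, rfl⟩ : ∃ d, n = m + (d + 1) := ⟨n - m - 1, by omega⟩
  rw [pow_add, mul_assoc, pow_succ', mul_assoc] at h
  refine hg ?_
  rw [mul_left_cancel₀ (pow_ne_zero m (lin_ne_zero c.v)) h]
  exact mul_eq_zero_of_left (sub_self c.v) _

theorem order_unique {c : Pt1 K P} {m n : ℕ} {g g' : L1 K P} (hg : g.1 c ≠ 0) (hg' : g'.1 c ≠ 0)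
    (h : lin c.v ^ m * g = lin c.v ^ n * g') : m = n := by
  exact (Div_ord hg' h.symm).antisymm (Div_ord hg h)

end Pool.Agent.Work.MP_e120ef_ag
end

-- merged part: Pool.Agent.Work.MP_e120ef_ag.Zero
section
/-!
# Existence of zeros at critical radii

Plans.  `exists_zero`.  Let `M = gn w f`, `d = n₂ - n₁ ≥ 1`.  For `0 < ε < M` let `p` be a truncation `∑ n ∈ Icc (-N) N, a n t ^ n` with `gn w (f - p) ≤ ε`; it has the same norm, top and bottom index.
`p * Zf ^ N` is a polynomial, which splits: `p * Zf ^ N = c • ∏ lin α` over a multiset of `α : K`; `isTop_lin_mul`, `isBot_lin_mul` (also with `α = 0`) show that exactly `d` roots have norm `‖w‖`;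
for `z` on the circle `‖p z‖ = M * ∏ (‖z - α‖ / ‖w‖)` over these roots (`gn_mul`, `gn_lin`).  Hence (key step): for `z` on the circle with `‖f z‖ ≤ η`, `ε ≤ η < M`, there is `z'` on the circle
with `‖f z'‖ ≤ ε` and `(‖z - z'‖ / ‖w‖) ^ d ≤ η / M`.  Iterate with `ε k = M / 2 ^ (k + 1)`; consecutive differences tend to `0`, so the sequence is Cauchy
(`NonarchimedeanAddGroup.cauchySeq_of_tendsto_sub_nhds_zero`); the limit is on the circle; `‖f z - f z'‖ ≤ M ‖z - z'‖ / ‖w‖` on the circle (`exists_div` applied to `f - f z'`, `gn_mul`, `gn_lin`).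
`no_zero`.  By `exists_zero` top = bottom at every radius of the annulus.  Let `n` be the index at `w₁`.  Suppose the index at `w` is `n' ≠ n`, so `n < n'` (`bot_le_top`).  Among the finitely many `k > n` with
`‖a n w ^ n‖ ≤ ‖a k w ^ k‖` choose `k` minimising `ρ k = (‖a n‖ / ‖a k‖) ^ (1 / (k - n))`; take `y` with `y ^ (k - n) = a n / a k` (`IsAlgClosed.exists_pow_nat_eq`); `‖w₁‖ < ‖y‖ ≤ ‖w‖`, and at `y` both `n` and `k` attain the norm.
-/

open Filter Topology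

namespace Pool.Agent.Work.MP_e120ef_ag

variable {K : Type} [NontriviallyNormedField K] [IsUltrametricDist K] [IsAlgClosed K]
  [CompleteSpace K] {P : Prop}

/-- a finite Laurent sum -/
noncomputable def Zero_tr (a : ℤ → K) (S : Finset ℤ) : L1 K P :=
  ⟨fun t => ∑ n ∈ S, a n * t.v ^ n, fun n => if n ∈ S then a n else 0, fun t => by
    have h := hasSum_sum_of_ne_finset_zero (L := SummationFilter.unconditional ℤ)
      (f := fun n : ℤ => (if n ∈ S then a n else 0) * t.v ^ n) (s := S) fun n hn => by simp [hn]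
    rwa [Finset.sum_congr rfl fun n hn => by rw [if_pos hn]] at h⟩

theorem Zero_coef (a : ℤ → K) (S : Finset ℤ) (n : ℤ) :
    coef (Zero_tr a S : L1 K P) n = if n ∈ S then a n else 0 := by
  refine congrFun (coef_unique (a := fun n => if n ∈ S then a n else 0) fun t => ?_) n
  have h := hasSum_sum_of_ne_finset_zero (L := SummationFilter.unconditional ℤ)
    (f := fun n : ℤ => (if n ∈ S then a n else 0) * t.v ^ n) (s := S) fun n hn => by simp [hn]
  rwa [Finset.sum_congr rfl fun n hn => by rw [if_pos hn]] at h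

omit [IsAlgClosed K] in
theorem Zero_pos {f : L1 K P} (hf : f ≠ 0) (w : Pt1 K P) : 0 < gn w f :=
  (gn_nonneg f w).lt_of_ne fun h => hf (gn_eq_zero_imp h.symm)

omit [IsUltrametricDist K] [IsAlgClosed K] [CompleteSpace K] in
theorem Zero_vpos (w : Pt1 K P) : 0 < ‖w.v‖ := norm_pos_iff.2 w.1.ne_zero

omit [IsUltrametricDist K] [IsAlgClosed K] [CompleteSpace K] in
theorem Zero_pt (w : Pt1 K P) {α : K} (h : ‖α‖ = ‖w.v‖) : ∃ z : Pt1 K P, z.v = α :=
  ⟨⟨Units.mk0 α (norm_pos_iff.1 (h ▸ Zero_vpos w)), w.2.imp id fun e => h.trans e⟩, rfl⟩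

/-- The lower bound away from the zeros. -/
def Zero_Lb (w : Pt1 K P) (f : L1 K P) : Prop :=
  f ≠ 0 ∧ ∃ (n : ℤ) (d : ℕ), IsBot w f n ∧ IsTop w f (n + d) ∧ ∀ z : Pt1 K P, ‖z.v‖ = ‖w.v‖ →
    ∀ δ : ℝ, 0 ≤ δ → (∀ y : Pt1 K P, ‖y.v‖ = ‖w.v‖ → f.1 y = 0 → δ * ‖w.v‖ ≤ ‖z.v - y.v‖) →
      δ ^ d * gn w f ≤ ‖f.1 z‖

theorem Zero_mono (w : Pt1 K P) {c : K} (hc : c ≠ 0) (n : ℤ) :
    Zero_Lb w (Zero_tr (fun _ => c) {n}) := by
  have h0 : 0 < ‖c * w.v ^ n‖ := norm_pos_iff.2 (mul_ne_zero hc (zpow_ne_zero _ w.1.ne_zero))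
  have h1 : ‖coef (Zero_tr (fun _ => c) {n} : L1 K P) n * w.v ^ n‖ = ‖c * w.v ^ n‖ := by
    rw [Zero_coef, if_pos (Finset.mem_singleton_self n)]
  have h2 : ∀ m, m ≠ n → ‖coef (Zero_tr (fun _ => c) {n} : L1 K P) m * w.v ^ m‖ = 0 :=
    fun m hm => by rw [Zero_coef, if_neg (by simpa using hm), zero_mul, norm_zero]
  have h3 : gn w (Zero_tr (fun _ => c) {n}) = ‖c * w.v ^ n‖ := by
    refine le_antisymm (gn_le _ _ fun m => ?_) (h1 ▸ le_gn _ w n)
    by_cases e : m = n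
    · rw [e, h1]
    · rw [h2 m e]
      exact h0.le
  refine ⟨fun e => ?_, n, 0, ⟨h1.trans h3.symm, fun m hm => ?_⟩,
    ⟨by rw [Nat.cast_zero, add_zero, h1, h3], fun m hm => ?_⟩, fun z hz δ _ _ => ?_⟩
  · rw [e, gn_zero] at h3
    exact h0.ne h3
  · rwa [h2 m hm.ne, h3]
  · rwa [h2 m (by rintro rfl; simp at hm), h3]
  · rw [pow_zero, one_mul, h3]
    change _ ≤ ‖∑ m ∈ {n}, c * z.v ^ m‖
    rw [Finset.sum_singleton, norm_mul, norm_mul, norm_zpow, norm_zpow, hz]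

theorem Zero_step {w : Pt1 K P} {g : L1 K P} (h : Zero_Lb w g) (α : K) :
    Zero_Lb w (lin α * g) := by
  obtain ⟨hg, n, d, hb, ht, H⟩ := h
  have hb' := isBot_lin_mul hg hb α
  have ht' := isTop_lin_mul hg ht α
  have ev : ∀ z : Pt1 K P, (lin α * g).1 z = (z.v - α) * g.1 z := fun z => rfl
  refine ⟨mul_ne_zero (lin_ne_zero α) hg, ?_⟩
  by_cases e : ‖α‖ = ‖w.v‖
  · rw [if_neg e.not_lt] at hb'
    rw [if_pos e.le] at ht'
    refine ⟨n + 0, d + 1, hb', by convert ht' using 1; push_cast; ring, fun z hz δ h0 hδ => ?_⟩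
    obtain ⟨y, rfl⟩ := Zero_pt w e
    have h1 := hδ y e (by rw [ev, sub_self, zero_mul])
    have h2 := H z hz δ h0 fun y' hy' e' => hδ y' hy' (by rw [ev, e', mul_zero])
    rw [ev, norm_mul, gn_mul, gn_lin, e, max_self]
    calc δ ^ (d + 1) * (‖w.v‖ * gn w g) = δ * ‖w.v‖ * (δ ^ d * gn w g) := by ring
      _ ≤ _ := mul_le_mul h1 h2 (mul_nonneg (pow_nonneg h0 _) (gn_nonneg _ _)) (norm_nonneg _)
  · refine ⟨_, d, hb', ?_, fun z hz δ h0 hδ => ?_⟩
    · convert ht' using 1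
      simp only [← lt_iff_le_and_ne.trans (and_iff_left e)]
      ring
    · have h2 := H z hz δ h0 fun y' hy' e' => hδ y' hy' (by rw [ev, e', mul_zero])
      have h1 : ‖z.v - α‖ = max ‖w.v‖ ‖α‖ := by
        rw [sub_eq_add_neg, IsUltrametricDist.norm_add_eq_max_of_norm_ne_norm
          (by rw [norm_neg, hz]; exact Ne.symm e), norm_neg, hz]
      rw [ev, norm_mul, gn_mul, gn_lin, h1, mul_left_comm]
      exact mul_le_mul_of_nonneg_left h2 (h1 ▸ norm_nonneg _)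

theorem Zero_trLb (w : Pt1 K P) {a : ℤ → K} {S : Finset ℤ} (h : (Zero_tr a S : L1 K P) ≠ 0) :
    Zero_Lb w (Zero_tr a S) := by
  obtain ⟨N, hN⟩ := S.bddBelow
  let Q : Polynomial K := ∑ n ∈ S, Polynomial.C (a n) * Polynomial.X ^ (n - N).toNat
  have hQ : ∀ t : Pt1 K P, (Zero_tr a S : L1 K P).1 t = Q.eval t.v * t.v ^ N := fun t => by
    change ∑ n ∈ S, a n * t.v ^ n = _
    simp only [Q, Polynomial.eval_finsetSum, Finset.sum_mul]
    refine Finset.sum_congr rfl fun n hn => ?_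
    rw [Polynomial.eval_mul, Polynomial.eval_C, Polynomial.eval_pow, Polynomial.eval_X,
      mul_assoc, ← zpow_natCast, ← zpow_add₀ t.1.ne_zero,
      Int.toNat_of_nonneg (sub_nonneg.2 (hN hn)), sub_add_cancel]
  have hc : Q.leadingCoeff ≠ 0 := fun e => h <| Subtype.ext <| funext fun t => by
    rw [hQ, Polynomial.leadingCoeff_eq_zero.1 e, Polynomial.eval_zero, zero_mul]
    rfl
  have key : ∀ s : Multiset K, ∃ g : L1 K P, Zero_Lb w g ∧
      ∀ t : Pt1 K P, g.1 t = Q.leadingCoeff * (s.map fun α => t.v - α).prod * t.v ^ N := by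
    intro s
    induction s using Multiset.induction_on with
    | empty =>
      refine ⟨_, Zero_mono w hc N, fun t => ?_⟩
      change ∑ m ∈ {N}, Q.leadingCoeff * t.v ^ m = _
      simp
    | cons α s ih =>
      obtain ⟨g, h1, h2⟩ := ih
      refine ⟨_, Zero_step h1 α, fun t => ?_⟩
      change (t.v - α) * g.1 t = _
      rw [h2, Multiset.map_cons, Multiset.prod_cons]
      ring
  obtain ⟨g, h1, h2⟩ := key Q.roots
  have e : Zero_tr a S = g := Subtype.ext <| funext fun t => by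
    rw [hQ, h2, ← (IsAlgClosed.splits Q).eval_eq_prod_roots]
  exact e ▸ h1

theorem Zero_key {f : L1 K P} (hf : f ≠ 0) {w : Pt1 K P} {n : ℤ} {d : ℕ} (h₁ : IsBot w f n)
    (h₂ : IsTop w f (n + d)) {δ ε : ℝ} (h0 : 0 ≤ δ) (e0 : 0 < ε) (e1 : ε < gn w f)
    (e2 : ε < δ ^ d * gn w f) {z : Pt1 K P} (hz : ‖z.v‖ = ‖w.v‖)
    (hf' : ‖f.1 z‖ < δ ^ d * gn w f) :
    ∃ y : Pt1 K P, ‖y.v‖ = ‖w.v‖ ∧ ‖f.1 y‖ ≤ ε ∧ ‖z.v - y.v‖ < δ * ‖w.v‖ := by
  have hM := Zero_pos hf w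
  have hS : {m : ℤ | ¬ ‖coef f m * w.v ^ m‖ < ε}.Finite :=
    (NormedAddGroup.tendsto_nhds_zero.1 (tendsto_coef f w)) ε e0
  set p : L1 K P := Zero_tr (coef f) hS.toFinset with hp
  have c1 : ∀ m, ‖coef f m * w.v ^ m‖ = gn w f → coef p m = coef f m := fun m hm => by
    rw [hp, Zero_coef, if_pos (by simpa [← norm_mul, -norm_mul, hm] using e1.le)]
  have c2 : ∀ m, ‖coef p m * w.v ^ m‖ ≤ ‖coef f m * w.v ^ m‖ := fun m => by
    rw [hp, Zero_coef]
    split_ifs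
    · exact le_rfl
    · rw [zero_mul, norm_zero]
      exact norm_nonneg _
  have c3 : gn w p = gn w f := le_antisymm (gn_le _ _ fun m => (c2 m).trans (le_gn f w m))
    (by rw [← h₁.1, ← c1 n h₁.1]; exact le_gn p w n)
  have c4 : gn w (f - p) ≤ ε := gn_le _ _ fun m => by
    have e := coef_add p (f - p) m
    rw [add_sub_cancel, hp, Zero_coef, ← hp] at e
    split_ifs at e with hm
    · rw [left_eq_add.1 e, zero_mul, norm_zero]
      exact e0.le
    · rw [zero_add] at e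
      rw [← e]
      exact (not_not.1 fun h => hm (hS.mem_toFinset.2 h)).le
  have c5 : ∀ y : Pt1 K P, ‖y.v‖ = ‖w.v‖ → ‖f.1 y - p.1 y‖ ≤ ε := fun y hy =>
    (norm_le_gn (f - p) hy).trans c4
  have p0 : p ≠ 0 := fun e => by
    rw [e, gn_zero] at c3
    exact hM.ne c3
  obtain ⟨-, n', d', b', t', H⟩ := Zero_trLb w p0
  rw [← hp] at b' t' H
  have b : IsBot w p n := ⟨by rw [c1 n h₁.1, c3, h₁.1], fun m hm =>
    (c2 m).trans_lt (c3 ▸ h₁.2 m hm)⟩
  have t : IsTop w p (n + d) := ⟨by rw [c1 _ h₂.1, c3, h₂.1], fun m hm =>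
    (c2 m).trans_lt (c3 ▸ h₂.2 m hm)⟩
  obtain rfl := b.unique b'
  obtain rfl : d = d' := by simpa using t.unique t'
  by_contra hc
  have h5 := H z hz δ h0 fun y hy e => not_lt.1 fun h => hc ⟨y, hy, by simpa [e] using c5 y hy, h⟩
  have h6 : ‖p.1 z‖ ≤ max ‖f.1 z‖ ‖f.1 z - p.1 z‖ := by
    have := IsUltrametricDist.norm_add_le_max (f.1 z) (-(f.1 z - p.1 z))
    rwa [norm_neg, neg_sub, add_sub_cancel] at this
  rw [c3] at h5
  exact (h5.trans h6).not_gt (max_lt hf' ((c5 z hz).trans_lt e2))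

theorem Zero_lip (f : L1 K P) {w z y : Pt1 K P} (hz : ‖z.v‖ = ‖w.v‖) (hy : ‖y.v‖ = ‖w.v‖) :
    ‖f.1 z - f.1 y‖ ≤ ‖z.v - y.v‖ * (gn w f / ‖w.v‖) := by
  obtain ⟨g, hg⟩ := exists_div (f := f + algebraMap K _ (-f.1 y)) (c := y) (add_neg_cancel _)
  have h1 : gn w (f + algebraMap K _ (-f.1 y)) ≤ gn w f := (gn_add_le _ _ _).trans
    (max_le le_rfl (by rw [gn_algebraMap, norm_neg]; exact norm_le_gn f hy))
  rw [hg, gn_mul, gn_lin, hy, max_self] at h1
  have h2 : f.1 z + -f.1 y = (z.v - y.v) * g.1 z := congrArg (fun u : L1 K P => u.1 z) hg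
  rw [sub_eq_add_neg, h2, norm_mul]
  exact mul_le_mul_of_nonneg_left ((norm_le_gn g hz).trans
    ((le_div_iff₀' (Zero_vpos w)).2 h1)) (norm_nonneg _)

theorem exists_zero {f : L1 K P} (hf : f ≠ 0) {w : Pt1 K P} {n₁ n₂ : ℤ} (h₁ : IsBot w f n₁)
    (h₂ : IsTop w f n₂) (h : n₁ < n₂) : ∃ z : Pt1 K P, ‖z.v‖ = ‖w.v‖ ∧ f.1 z = 0 := by
  obtain ⟨d, rfl⟩ : ∃ d : ℕ, n₂ = n₁ + (d + 1 : ℕ) := ⟨(n₂ - n₁ - 1).toNat, by omega⟩
  have hM := Zero_pos hf w
  let A : ℕ → Pt1 K P → Prop := fun k z =>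
    ‖z.v‖ = ‖w.v‖ ∧ ‖f.1 z‖ < (2 * (1 / 2) ^ k) ^ (d + 1) * gn w f
  have st : ∀ k z, A k z → ∃ y, A (k + 1) y ∧ ‖z.v - y.v‖ ≤ 2 * ‖w.v‖ * (1 / 2) ^ k := by
    intro k z hz
    have a0 : (0 : ℝ) < (1 / 2) ^ k := by positivity
    have a1 : (2 * (1 / 2) ^ (k + 1) : ℝ) = (1 / 2) ^ k := by ring
    have a2 : ((1 / 2 : ℝ) ^ k) ^ (d + 1) ≤ 1 :=
      pow_le_one₀ a0.le (pow_le_one₀ (by norm_num) (by norm_num))
    have a3 : ((1 / 2 : ℝ) ^ k) ^ (d + 1) ≤ (2 * (1 / 2) ^ k) ^ (d + 1) :=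
      pow_le_pow_left₀ a0.le (by linarith) _
    have a4 : 0 < ((1 / 2 : ℝ) ^ k) ^ (d + 1) * gn w f := by positivity
    obtain ⟨y, y1, y2, y3⟩ := Zero_key hf h₁ h₂ (δ := 2 * (1 / 2) ^ k)
      (ε := ((1 / 2) ^ k) ^ (d + 1) * gn w f / 2) (by positivity) (by positivity)
      ((half_lt_self a4).trans_le (mul_le_of_le_one_left hM.le a2))
      ((half_lt_self a4).trans_le (mul_le_mul_of_nonneg_right a3 hM.le)) hz.1 hz.2
    exact ⟨y, ⟨y1, by rw [a1]; exact y2.trans_lt (half_lt_self a4)⟩,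
      y3.le.trans_eq (by ring)⟩
  have s0 : A 0 w := ⟨rfl, (norm_le_gn f rfl).trans_lt
    (lt_mul_of_one_lt_left hM (one_lt_pow₀ (by norm_num) (by omega)))⟩
  choose! F hF using st
  let u : ℕ → Pt1 K P := fun k => Nat.rec w (fun k z => F k z) k
  have hu : ∀ k, A k (u k) := fun k => by
    induction k with
    | zero => exact s0
    | succ k ih => exact (hF k _ ih).1
  have cs : CauchySeq fun k => (u k).v :=
    cauchySeq_of_le_geometric (1 / 2) (2 * ‖w.v‖) (by norm_num) fun k => by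
      rw [dist_eq_norm]
      exact (hF k _ (hu k)).2
  obtain ⟨α, hα⟩ := cauchySeq_tendsto_of_complete cs
  have hn : ‖α‖ = ‖w.v‖ := tendsto_nhds_unique hα.norm (by simp [(hu _).1])
  obtain ⟨z, rfl⟩ := Zero_pt w hn
  refine ⟨z, hn, ?_⟩
  have t1 : Tendsto (fun k => f.1 (u k)) atTop (𝓝 (f.1 z)) := by
    rw [tendsto_iff_norm_sub_tendsto_zero] at hα ⊢
    refine squeeze_zero (fun _ => norm_nonneg _) (fun k => Zero_lip f (hu k).1 hn) ?_
    simpa using hα.mul_const (gn w f / ‖w.v‖)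
  have t2 : Tendsto (fun k => f.1 (u k)) atTop (𝓝 0) := by
    refine squeeze_zero_norm (fun k => (hu k).2.le) ?_
    have := (((tendsto_pow_atTop_nhds_zero_of_lt_one (r := (1 / 2 : ℝ)) (by norm_num)
      (by norm_num)).const_mul 2).pow (d + 1)).mul_const (gn w f)
    simpa using this
  exact tendsto_nhds_unique t1 t2

theorem no_zero {g : L1 K True} {w₁ w₂ : Pt1 K True}
    (h : ∀ z : Pt1 K True, ‖w₁.v‖ ≤ ‖z.v‖ → ‖z.v‖ ≤ ‖w₂.v‖ → g.1 z ≠ 0) :
    ∃ n : ℤ, ∀ w : Pt1 K True, ‖w₁.v‖ ≤ ‖w.v‖ → ‖w.v‖ ≤ ‖w₂.v‖ → IsTop w g n := by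
  by_cases h12 : ‖w₁.v‖ ≤ ‖w₂.v‖
  swap
  · exact ⟨0, fun w a b => (h12 (a.trans b)).elim⟩
  have hg : g ≠ 0 := fun e => h w₁ le_rfl h12 (by rw [e]; rfl)
  have tb : ∀ w : Pt1 K True, ‖w₁.v‖ ≤ ‖w.v‖ → ‖w.v‖ ≤ ‖w₂.v‖ → ∀ t, IsTop w g t →
      IsBot w g t := fun w a b t ht => by
    obtain ⟨m, hm⟩ := exists_isBot hg w
    rcases (bot_le_top le_rfl hg hm ht).eq_or_lt with rfl | e
    · exact hm
    · obtain ⟨z, z1, z2⟩ := exists_zero hg hm ht e
      exact (h z (z1 ▸ a) (z1 ▸ b) z2).elim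
  have nz : ∀ (w : Pt1 K True) t, IsTop w g t → coef g t ≠ 0 := fun w t ht e => by
    have := ht.1
    rw [e, zero_mul, norm_zero] at this
    exact (Zero_pos hg w).ne this
  obtain ⟨n, hn⟩ := exists_isTop hg w₁
  have key : ∀ (D : ℕ) (w : Pt1 K True), ‖w₁.v‖ ≤ ‖w.v‖ → ‖w.v‖ ≤ ‖w₂.v‖ → ∀ t, IsTop w g t →
      t ≤ n + D → t = n := by
    intro D
    induction D with
    | zero =>
      intro w a b t ht e
      exact le_antisymm (by simpa using e) (bot_le_top a hg (tb w₁ le_rfl h12 n hn) ht)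
    | succ D ih =>
      intro w a b t ht e
      by_cases e' : t ≤ n + D
      · exact ih w a b t ht e'
      obtain rfl : t = n + (D + 1 : ℕ) := by omega
      have t0 := nz w _ ht
      obtain ⟨β, hβ⟩ := IsAlgClosed.exists_pow_nat_eq (coef g n / coef g (n + (D + 1 : ℕ)))
        D.succ_pos
      have β0 : β ≠ 0 := by
        rintro rfl
        rw [zero_pow D.succ_ne_zero] at hβ
        exact div_ne_zero (nz w₁ n hn) t0 hβ.symm
      let y : Pt1 K True := ⟨Units.mk0 β β0, Or.inl trivial⟩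
      have q1 : ∀ x : Pt1 K True, ‖coef g (n + (D + 1 : ℕ)) * x.v ^ (n + (D + 1 : ℕ))‖ =
          ‖coef g (n + (D + 1 : ℕ)) * x.v ^ n‖ * ‖x.v‖ ^ (D + 1) := fun x => by
        rw [zpow_add₀ x.1.ne_zero, zpow_natCast, ← mul_assoc, norm_mul, norm_pow]
      have q2 : ∀ x : Pt1 K True, ‖coef g n * x.v ^ n‖ =
          ‖coef g (n + (D + 1 : ℕ)) * x.v ^ n‖ * ‖y.v‖ ^ (D + 1) := fun x => by
        rw [← norm_pow, ← norm_mul, show y.v ^ (D + 1) = _ from hβ, mul_right_comm,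
          mul_div_cancel₀ _ t0]
      have q3 : ∀ x : Pt1 K True, 0 < ‖coef g (n + (D + 1 : ℕ)) * x.v ^ n‖ := fun x =>
        norm_pos_iff.2 (mul_ne_zero t0 (zpow_ne_zero _ x.1.ne_zero))
      have a' : ‖w₁.v‖ ≤ ‖y.v‖ := by
        have := (le_gn g w₁ (n + (D + 1 : ℕ))).trans hn.1.ge
        rw [q1, q2] at this
        exact le_of_pow_le_pow_left₀ D.succ_ne_zero (norm_nonneg _)
          (le_of_mul_le_mul_left this (q3 w₁))
      have b' : ‖y.v‖ ≤ ‖w.v‖ := by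
        have := (le_gn g w n).trans ht.1.ge
        rw [q1, q2] at this
        exact le_of_pow_le_pow_left₀ D.succ_ne_zero (norm_nonneg _)
          (le_of_mul_le_mul_left this (q3 w))
      obtain ⟨s, hs⟩ := exists_isTop hg y
      have hs' := tb y a' (b'.trans b) s hs
      have q4 := (q1 y).trans (q2 y).symm
      rcases (bot_le_top b' hg hs' ht).eq_or_lt with rfl | e''
      · exact ((hs'.2 n (by omega)).ne (q4.symm.trans hs.1)).elim
      · obtain rfl := ih y a' (b'.trans b) s hs (by omega)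
        exact ((hs.2 _ (by omega)).ne (q4.trans hs.1)).elim
  refine ⟨n, fun w a b => ?_⟩
  obtain ⟨t, ht⟩ := exists_isTop hg w
  exact key (t - n).toNat w a b t ht (by omega) ▸ ht

end Pool.Agent.Work.MP_e120ef_ag
end

-- merged part: Pool.Agent.Work.MP_e120ef_ag.Jen
section
/-!
# Orders of zeros and the Jensen formula for Laurent series

Plans.  `ord₀_eq`: `order_unique`.  `jensen₀`: let `n` be the top index at `w₁`; given `w₂` apply `factor` on the annulus between the two radii, `no_zero` to the factor `g` (so `gn w g = ‖coef g n_g‖ * ‖w‖ ^ n_g` at both radii),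
`isTop_lin_mul`, `IsTop.unique`, `gn_mul`, `gn_lin`; on the annulus `ord₀ (pk z) f` is the multiplicity of `pk z` in the multiset `s` (`ord₀_mul`, induction on `s`), outside the closed annulus the weight is `0`, so the `finsum` is
`(s.map fun z => wt w₁ w₂ z.1).sum` (`Finset.sum_multiset_map_count`; or prove the whole formula by induction on `s`).  For `‖w₁‖ ≤ ‖w₂‖`: a zero `z` contributes `log (‖w₂‖ / ‖z‖)`, and `n = n_g + card {‖z‖ = ‖w₁‖}`.
For `‖w₂‖ ≤ ‖w₁‖`: it contributes `log (‖w₂‖ / ‖w₁‖) + log (‖z‖ / ‖w₂‖)`, and `n = n_g + card s`.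
-/

open Filter Topology

namespace Pool.Agent.Work.MP_e120ef_ag

variable {K : Type} [NontriviallyNormedField K] [IsUltrametricDist K] [IsAlgClosed K]
  [CompleteSpace K] {P : Prop}

open Classical in
/-- the order of vanishing -/
noncomputable def ord₀ (z : Pt1 K P) (f : L1 K P) : ℕ :=
  if h : f = 0 then 0 else (exists_order h z).choose

theorem ord₀_zero (z : Pt1 K P) : ord₀ z 0 = 0 := dif_pos rfl

theorem ord₀_spec {f : L1 K P} (hf : f ≠ 0) (z : Pt1 K P) :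
    ∃ g : L1 K P, g.1 z ≠ 0 ∧ f = lin z.v ^ ord₀ z f * g := by
  have h : ord₀ z f = (exists_order hf z).choose := dif_neg hf
  rw [h]
  exact (exists_order hf z).choose_spec

theorem ord₀_eq {f g : L1 K P} {z : Pt1 K P} {n : ℕ} (hg : g.1 z ≠ 0) (h : f = lin z.v ^ n * g) :
    ord₀ z f = n := by
  have hg0 : g ≠ 0 := by
    rintro rfl
    exact hg rfl
  have hf : f ≠ 0 := by
    rw [h]
    exact mul_ne_zero (pow_ne_zero _ (lin_ne_zero _)) hg0
  obtain ⟨g', hg', h'⟩ := ord₀_spec hf z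
  exact order_unique hg' hg (h'.symm.trans h)

theorem ord₀_mul {f g : L1 K P} (hf : f ≠ 0) (hg : g ≠ 0) (z : Pt1 K P) :
    ord₀ z (f * g) = ord₀ z f + ord₀ z g := by
  obtain ⟨f', hf', h1⟩ := ord₀_spec hf z
  obtain ⟨g', hg', h2⟩ := ord₀_spec hg z
  refine ord₀_eq (g := f' * g') (mul_ne_zero hf' hg') ?_
  generalize ord₀ z f = m at h1
  generalize ord₀ z g = n at h2
  rw [h1, h2]
  ring

theorem ord₀_eq_zero {f : L1 K P} (hf : f ≠ 0) (z : Pt1 K P) : ord₀ z f = 0 ↔ f.1 z ≠ 0 := by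
  constructor
  · intro h
    obtain ⟨g, hg, h1⟩ := ord₀_spec hf z
    rw [h, pow_zero, one_mul] at h1
    rw [h1]
    exact hg
  · intro h
    exact ord₀_eq (g := f) h (by rw [pow_zero, one_mul])

theorem ord₀_add {f g : L1 K P} (h : f + g ≠ 0) (hf : f ≠ 0) (hg : g ≠ 0) (z : Pt1 K P) :
    min (ord₀ z f) (ord₀ z g) ≤ ord₀ z (f + g) := by
  obtain ⟨f', -, h1⟩ := ord₀_spec hf z
  obtain ⟨g', -, h2⟩ := ord₀_spec hg z
  generalize ord₀ z f = m at h1
  generalize ord₀ z g = n at h2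
  obtain ⟨a, ha⟩ := Nat.exists_eq_add_of_le (min_le_left m n)
  obtain ⟨b, hb⟩ := Nat.exists_eq_add_of_le (min_le_right m n)
  generalize min m n = k at ha hb
  subst ha
  have e : f + g = lin z.v ^ k * (lin z.v ^ a * f' + lin z.v ^ b * g') := by
    rw [h1, h2, hb]
    ring
  have h0 : (lin z.v ^ a * f' + lin z.v ^ b * g' : L1 K P) ≠ 0 := by
    intro h0
    rw [h0, mul_zero] at e
    exact h e
  have h3 : ord₀ z (lin z.v ^ k : L1 K P) = k :=
    ord₀_eq (g := 1) one_ne_zero (by rw [mul_one])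
  rw [e, ord₀_mul (pow_ne_zero _ (lin_ne_zero _)) h0, h3]
  exact Nat.le_add_right _ _

/-- a unit as a point -/
abbrev pk (w : Kˣ) : Pt1 K True := ⟨w, Or.inl trivial⟩

theorem fin₀ (f : L1 K True) (w₁ w₂ : Kˣ) :
    {z : Kˣ | ‖(w₁ : K)‖ ≤ ‖(z : K)‖ ∧ ‖(z : K)‖ ≤ ‖(w₂ : K)‖ ∧ ord₀ (pk z) f ≠ 0}.Finite := by
  by_cases hf : f = 0
  · subst hf
    refine Set.Finite.subset Set.finite_empty ?_
    rintro z ⟨-, -, h⟩
    exact h (ord₀_zero _)
  · have h := finite_zeros hf (pk w₁) (pk w₂)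
    refine Set.Finite.subset (h.image fun z => z.1) ?_
    rintro z ⟨h1, h2, h3⟩
    refine ⟨pk z, ⟨h1, h2, ?_⟩, rfl⟩
    by_contra h4
    exact h3 ((ord₀_eq_zero hf _).2 h4)

omit [IsUltrametricDist K] [IsAlgClosed K] [CompleteSpace K] in
theorem Jen_wt_ne {w₁ w₂ z : Kˣ} (h : wt w₁ w₂ z ≠ 0) :
    (‖(w₁ : K)‖ ≤ ‖(z : K)‖ ∧ ‖(z : K)‖ ≤ ‖(w₂ : K)‖) ∨
      (‖(w₂ : K)‖ ≤ ‖(z : K)‖ ∧ ‖(z : K)‖ ≤ ‖(w₁ : K)‖) := by
  have hz : 0 < ‖(z : K)‖ := norm_pos_iff.2 z.ne_zero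
  have h2 : 0 < ‖(w₂ : K)‖ := norm_pos_iff.2 w₂.ne_zero
  unfold wt at h
  split_ifs at h with h1
  · left
    refine ⟨h1.le, ?_⟩
    by_contra h3
    apply h
    rw [Real.posLog_eq_zero_iff, abs_of_nonneg (by positivity), div_le_one hz]
    exact (not_le.1 h3).le
  · right
    refine ⟨?_, not_lt.1 h1⟩
    by_contra h3
    apply h
    rw [Real.posLog_eq_zero_iff, abs_of_nonneg (by positivity), div_le_one h2]
    exact (not_le.1 h3).le

theorem Jen_fin (f : L1 K True) (w₁ w₂ : Kˣ) :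
    (Function.support fun z : Kˣ => (ord₀ (pk z) f : ℝ) * wt w₁ w₂ z).Finite := by
  refine Set.Finite.subset ((fin₀ f w₁ w₂).union (fin₀ f w₂ w₁)) ?_
  intro z hz
  have h1 : (ord₀ (pk z) f : ℝ) ≠ 0 := left_ne_zero_of_mul hz
  have h2 : wt w₁ w₂ z ≠ 0 := right_ne_zero_of_mul hz
  have h3 : ord₀ (pk z) f ≠ 0 := by exact_mod_cast h1
  rcases Jen_wt_ne h2 with h | h
  · exact Or.inl ⟨h.1, h.2, h3⟩
  · exact Or.inr ⟨h.1, h.2, h3⟩

theorem Jen_sum_lin (c : Pt1 K True) (w₁ w₂ : Kˣ) :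
    ∑ᶠ z, (ord₀ (pk z) (lin c.v : L1 K True) : ℝ) * wt w₁ w₂ z = wt w₁ w₂ c.1 := by
  rw [finsum_eq_single _ c.1]
  · have h : ord₀ (pk c.1) (lin c.v : L1 K True) = 1 :=
      ord₀_eq (g := 1) one_ne_zero (by rw [pow_one, mul_one])
    rw [h, Nat.cast_one, one_mul]
  · intro z hz
    have h : ord₀ (pk z) (lin c.v : L1 K True) = 0 := by
      rw [ord₀_eq_zero (lin_ne_zero _), lin_apply, sub_ne_zero]
      intro h
      exact hz (Units.ext h)
    rw [h, Nat.cast_zero, zero_mul]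

omit [IsUltrametricDist K] [IsAlgClosed K] [CompleteSpace K] in
theorem Jen_log_lin (c w₁ w₂ : Kˣ) :
    Real.log (max ‖(w₂ : K)‖ ‖(c : K)‖) = Real.log (max ‖(w₁ : K)‖ ‖(c : K)‖) +
      ((if ‖(c : K)‖ ≤ ‖(w₁ : K)‖ then 1 else 0 : ℤ) : ℝ) * Real.log (‖(w₂ : K)‖ / ‖(w₁ : K)‖) +
        wt w₁ w₂ c := by
  have hc : 0 < ‖(c : K)‖ := norm_pos_iff.2 c.ne_zero
  have h1 : 0 < ‖(w₁ : K)‖ := norm_pos_iff.2 w₁.ne_zero
  have h2 : 0 < ‖(w₂ : K)‖ := norm_pos_iff.2 w₂.ne_zero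
  have key : ∀ a b : ℝ, 0 < a → 0 < b → Real.log (max a b) = Real.log a + Real.posLog (b / a) := by
    intro a b ha hb
    rcases le_total a b with h | h
    · rw [max_eq_right h, Real.posLog_eq_log, Real.log_div hb.ne' ha.ne']
      · ring
      · rw [abs_of_nonneg (by positivity), one_le_div ha]
        exact h
    · rw [max_eq_left h, (Real.posLog_eq_zero_iff _).2, add_zero]
      rw [abs_of_nonneg (by positivity), div_le_one ha]
      exact h
  unfold wt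
  by_cases h : ‖(c : K)‖ ≤ ‖(w₁ : K)‖
  · rw [if_pos h, if_neg (not_lt.2 h), max_eq_left h, key _ _ h2 hc, Real.log_div h2.ne' h1.ne']
    push_cast
    ring
  · rw [if_neg h, if_pos (not_le.1 h), max_eq_right (not_le.1 h).le, max_comm, key _ _ hc h2]
    push_cast
    ring

theorem Jen_gn_ne {f : L1 K True} (hf : f ≠ 0) (w : Pt1 K True) : gn w f ≠ 0 :=
  fun h => hf (gn_eq_zero_imp h)

theorem Jen_base {g : L1 K True} (hg : g ≠ 0) {w₁ w₂ : Kˣ} {n : ℤ} (h₁ : IsTop (pk w₁) g n)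
    (h₂ : IsTop (pk w₂) g n) (h : ∀ z : Kˣ, wt w₁ w₂ z ≠ 0 → g.1 (pk z) ≠ 0) :
    Real.log (gn (pk w₂) g) = Real.log (gn (pk w₁) g) +
      n * Real.log (‖(w₂ : K)‖ / ‖(w₁ : K)‖) + ∑ᶠ z, (ord₀ (pk z) g : ℝ) * wt w₁ w₂ z := by
  have h1 : 0 < ‖(w₁ : K)‖ := norm_pos_iff.2 w₁.ne_zero
  have h2 : 0 < ‖(w₂ : K)‖ := norm_pos_iff.2 w₂.ne_zero
  have hs : ∑ᶠ z, (ord₀ (pk z) g : ℝ) * wt w₁ w₂ z = 0 := by
    apply finsum_eq_zero_of_forall_eq_zero
    intro z
    by_cases hz : wt w₁ w₂ z = 0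
    · rw [hz, mul_zero]
    · rw [(ord₀_eq_zero hg _).2 (h z hz), Nat.cast_zero, zero_mul]
  have hc : ‖coef g n‖ ≠ 0 := by
    intro hc
    apply Jen_gn_ne hg (pk w₁)
    rw [← h₁.1, norm_mul, hc, zero_mul]
  rw [hs, add_zero, ← h₁.1, ← h₂.1, norm_mul, norm_mul, norm_zpow, norm_zpow,
    Real.log_mul hc (zpow_ne_zero _ h1.ne'), Real.log_mul hc (zpow_ne_zero _ h2.ne'),
    Real.log_zpow, Real.log_zpow, Real.log_div h2.ne' h1.ne']
  ring

theorem Jen_step {g : L1 K True} (hg : g ≠ 0) {w₁ w₂ : Kˣ} {n : ℤ} (c : Pt1 K True)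
    (h : Real.log (gn (pk w₂) g) = Real.log (gn (pk w₁) g) +
      n * Real.log (‖(w₂ : K)‖ / ‖(w₁ : K)‖) + ∑ᶠ z, (ord₀ (pk z) g : ℝ) * wt w₁ w₂ z) :
    Real.log (gn (pk w₂) (lin c.v * g)) = Real.log (gn (pk w₁) (lin c.v * g)) +
      ((n + if ‖c.v‖ ≤ ‖(pk w₁).v‖ then 1 else 0 : ℤ) : ℝ) * Real.log (‖(w₂ : K)‖ / ‖(w₁ : K)‖) +
        ∑ᶠ z, (ord₀ (pk z) (lin c.v * g) : ℝ) * wt w₁ w₂ z := by
  have hl : (lin c.v : L1 K True) ≠ 0 := lin_ne_zero _
  have hs : ∑ᶠ z, (ord₀ (pk z) (lin c.v * g) : ℝ) * wt w₁ w₂ z =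
      wt w₁ w₂ c.1 + ∑ᶠ z, (ord₀ (pk z) g : ℝ) * wt w₁ w₂ z := by
    rw [← Jen_sum_lin c w₁ w₂, ← finsum_add_distrib (Jen_fin _ w₁ w₂) (Jen_fin _ w₁ w₂)]
    refine finsum_congr fun z => ?_
    rw [ord₀_mul hl hg, Nat.cast_add, add_mul]
  have h3 := Jen_log_lin c.1 w₁ w₂
  rw [hs, gn_mul, gn_mul, Real.log_mul (Jen_gn_ne hl _) (Jen_gn_ne hg _),
    Real.log_mul (Jen_gn_ne hl _) (Jen_gn_ne hg _), gn_lin, gn_lin, h, Int.cast_add]
  simp only [Pt1.v] at h3 ⊢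
  rw [h3]
  ring

theorem Jen_ind {g : L1 K True} (hg : g ≠ 0) {w₁ w₂ : Kˣ} {n : ℤ} (h₁ : IsTop (pk w₁) g n)
    (h₂ : IsTop (pk w₂) g n) (h : ∀ z : Kˣ, wt w₁ w₂ z ≠ 0 → g.1 (pk z) ≠ 0)
    (s : Multiset (Pt1 K True)) :
    (s.map fun z => (lin z.v : L1 K True)).prod * g ≠ 0 ∧
    ∃ m : ℤ, IsTop (pk w₁) ((s.map fun z => (lin z.v : L1 K True)).prod * g) m ∧
      Real.log (gn (pk w₂) ((s.map fun z => (lin z.v : L1 K True)).prod * g)) =
        Real.log (gn (pk w₁) ((s.map fun z => (lin z.v : L1 K True)).prod * g)) +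
        m * Real.log (‖(w₂ : K)‖ / ‖(w₁ : K)‖) +
          ∑ᶠ z, (ord₀ (pk z) ((s.map fun z => (lin z.v : L1 K True)).prod * g) : ℝ) * wt w₁ w₂ z := by
  induction s using Multiset.induction_on with
  | empty =>
    rw [Multiset.map_zero, Multiset.prod_zero, one_mul]
    exact ⟨hg, n, h₁, Jen_base hg h₁ h₂ h⟩
  | cons c s ih =>
    obtain ⟨h0, m, hm, hJ⟩ := ih
    rw [Multiset.map_cons, Multiset.prod_cons, mul_assoc]
    exact ⟨mul_ne_zero (lin_ne_zero _) h0, _, isTop_lin_mul h0 hm c.v, Jen_step h0 c hJ⟩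

theorem jensen₀ {f : L1 K True} (hf : f ≠ 0) (w₁ : Kˣ) : ∃ n : ℤ, ∀ w₂ : Kˣ,
    Real.log (gn (pk w₂) f) = Real.log (gn (pk w₁) f) +
      n * Real.log (‖(w₂ : K)‖ / ‖(w₁ : K)‖) + ∑ᶠ z, (ord₀ (pk z) f : ℝ) * wt w₁ w₂ z := by
  obtain ⟨n, hn⟩ := exists_isTop hf (pk w₁)
  refine ⟨n, fun w₂ => ?_⟩
  have main : ∀ a b : Kˣ, ‖(a : K)‖ ≤ ‖(w₁ : K)‖ → ‖(a : K)‖ ≤ ‖(w₂ : K)‖ →
      ‖(w₁ : K)‖ ≤ ‖(b : K)‖ → ‖(w₂ : K)‖ ≤ ‖(b : K)‖ →
      Real.log (gn (pk w₂) f) = Real.log (gn (pk w₁) f) +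
        n * Real.log (‖(w₂ : K)‖ / ‖(w₁ : K)‖) + ∑ᶠ z, (ord₀ (pk z) f : ℝ) * wt w₁ w₂ z := by
    intro a b ha1 ha2 hb1 hb2
    obtain ⟨s, g, -, hg, hfg⟩ := factor hf (pk a) (pk b)
    have hg0 : g ≠ 0 := by
      rintro rfl
      rw [mul_zero] at hfg
      exact hf hfg
    obtain ⟨k, hk⟩ := no_zero hg
    have hz : ∀ z : Kˣ, wt w₁ w₂ z ≠ 0 → g.1 (pk z) ≠ 0 := by
      intro z hz
      rcases Jen_wt_ne hz with h | h
      · exact hg _ (ha1.trans h.1) (h.2.trans hb2)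
      · exact hg _ (ha2.trans h.1) (h.2.trans hb1)
    obtain ⟨-, m, hm, hJ⟩ := Jen_ind hg0 (hk (pk w₁) ha1 hb1) (hk (pk w₂) ha2 hb2) hz s
    rw [← hfg] at hm hJ
    rw [hn.unique hm]
    exact hJ
  rcases le_total ‖(w₁ : K)‖ ‖(w₂ : K)‖ with h | h
  · exact main w₁ w₂ le_rfl h h le_rfl
  · exact main w₂ w₁ h le_rfl le_rfl h

end Pool.Agent.Work.MP_e120ef_ag
end
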