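import Pool.Agent.Work.MP_e120ef_ag.SerMul

/-! Definitions used in the statement: analytic functions on a product of circles and tori. -/

namespace Pool.Agent.Work.MP_e120ef_ag

variable (K : Type) [NontriviallyNormedField K]

variable {V : Type} [Fintype V] (free : V → Prop)

/-- The `K`-points of the product of one copy of `𝔾ₘ` for each free variable and one unit circle
for each other variable. -/
abbrev Pts : Type := {z : V → Kˣ // ∀ v, ¬ free v → ‖(z v : K)‖ = 1}

/-- The analytic functions: everywhere convergent Laurent series. -/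
def An [IsUltrametricDist K] [CompleteSpace K] : Subalgebra K (Pts K free → K) where
  carrier := {f | ∃ a : (V → ℤ) → K, ∀ z : Pts K free,
    HasSum (fun I => a I * ∏ v, (z.1 v : K) ^ I v) (f z)}
  add_mem' := by
    rintro f g ⟨a, ha⟩ ⟨b, hb⟩
    exact ⟨a + b, fun z => by simpa [add_mul] using (ha z).add (hb z)⟩
  mul_mem' := by
    rintro f g ⟨a, ha⟩ ⟨b, hb⟩
    exact ⟨_, (ser_mul K (fun (z : Pts K free) (I : V → ℤ) => ∏ v, (z.1 v : K) ^ I v)
      (fun z I J => by simp [zpow_add₀, Finset.prod_mul_distrib]) ⟨1, by simp⟩ (by simp) ha hb).2⟩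
  algebraMap_mem' c := by
    classical
    refine ⟨Pi.single 0 c, fun z => ?_⟩
    have h := hasSum_single (f := fun I : V → ℤ => Pi.single (M := fun _ => K) 0 c I *
      ∏ v, (z.1 v : K) ^ I v) 0 fun I hI => by simp [hI]
    simpa using h

end Pool.Agent.Work.MP_e120ef_ag
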