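import Pool.Agent.Work.MP_e120ef_ag.Jen
import Pool.Agent.Work.MP_e120ef_ag.Stmt
import Pool.Agent.Work.MP_e120ef_ag.Der
import Pool.Agent.Work.MP_e120ef_ag.Ctl

attribute [-instance] Subalgebra.normedCommRing Subalgebra.seminormedCommRing
  Subalgebra.seminormedRing Subalgebra.normedRing
  Localization.subalgebra.instIsFractionRingSubtypeMemSubalgebra
attribute [local instance 2000] RingHomClass.toAddMonoidHomClass AddMonoidHomClass.toAddHomClass
  RingHom.instRingHomClass AlgHomClass.toRingHomClass IsDomain.to_noZeroDivisors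
  IsDomain.toNontrivial NeZero.one RingHomClass.toMonoidHomClass MonoidHomClass.toMulHomClass
  RingHomClass.toMonoidWithZeroHomClass AddMonoidHomClass.toZeroHomClass MonoidHomClass.toOneHomClass
attribute [-instance] instCharZeroOfIsSemireal AlgHom.instContinuousLinearMapClassOfAlgHomClass
  RingHomClass.toLinearMapClassRat RingHomClass.toLinearMapClassNNRat NumberField.to_charZero

-- merged part: Pool.Agent.Work.MP_e120ef_ag.DerL
section
/-!
# The derivation `t d/dt`

Plans.  `exists_D1`: `‖(n : K)‖ ≤ 1` (`IsUltrametricDist.norm_intCast_le_one`), so `n a n t ^ n` is summable; additivity and Leibniz by comparing coefficients (`coef_mul`, `N = n + (N - n)`;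
an element is determined by its coefficients).  `cross_const`: if `q ≠ 0` pick `t₀` with `q t₀ ≠ 0`, `e = p - (p t₀ / q t₀) • q` also satisfies `D1 e * q = e * D1 q`; if `e ≠ 0` write `e = lin t₀ ^ (n+1) * g` (`exists_order`),
cancel `lin t₀ ^ n` and evaluate at `t₀`.  `no_log`: for a root of unity `ζ` let `p' t = p (ζ t)`, `q' t = q (ζ t)` (coefficients `a n ζ ^ n`, so `D1` commutes with this substitution).  `r = p' q - p q'` satisfies `D1 r * (q q') = r * D1 (q q')`,
so `r = l • (q q')` (`cross_const`); at a point `t` with `q (ζ ^ j t) ≠ 0` for all `j` (`finite_zeros`, `exists_generic`; or apply `exists_attain` to the finitely many substituted functions) sum `W (ζ ^ (j+1) t) - W (ζ ^ j t) = l`, `W = p / q`, to get `n l = 0`.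
So `p (ζ t₀) q t₀ = p t₀ q (ζ t₀)` for all roots of unity, with `‖t₀‖ = 1`, `q t₀ ≠ 0`: `e` as above has infinitely many zeros on the unit circle (`X ^ n - 1` has `n` distinct roots in characteristic `0`), so `e = 0`.
-/

open Filter Topology

namespace Pool.Agent.Work.MP_e120ef_ag

variable {K : Type} [NontriviallyNormedField K] [IsUltrametricDist K] [IsAlgClosed K]
  [CompleteSpace K] {P : Prop}

omit [IsAlgClosed K] in
theorem DerL_ext {f g : L1 K P} (h : ∀ n, coef f n = coef g n) : f = g :=
  Subtype.ext (funext fun t => (hasSum_coef f t).unique (by simpa only [h] using hasSum_coef g t))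

omit [IsAlgClosed K] [CompleteSpace K] in
theorem DerL_norm (n : ℤ) (a b : K) : ‖n * a * b‖ ≤ ‖a * b‖ := by
  rw [mul_assoc, norm_mul]
  exact mul_le_of_le_one_left (norm_nonneg _) (IsUltrametricDist.norm_intCast_le_one K n)

theorem DerL_ex (f : L1 K P) : ∃ g : L1 K P, ∀ n, coef g n = n * coef f n := by
  have hs : ∀ t : Pt1 K P, Summable fun n : ℤ => n * coef f n * t.v ^ n := fun t =>
    NonarchimedeanAddGroup.summable_of_tendsto_cofinite_zero
      (squeeze_zero_norm (fun n => DerL_norm n _ _)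
        (tendsto_zero_iff_norm_tendsto_zero.1 (tendsto_coef f t)))
  refine ⟨⟨fun t => ∑' n : ℤ, n * coef f n * t.v ^ n, fun n => n * coef f n,
    fun t => (hs t).hasSum⟩, fun n => ?_⟩
  exact congrFun (coef_unique (a := fun n => n * coef f n) fun t => (hs t).hasSum) n

variable (K P) in
theorem exists_D1 : ∃ D : Derivation K (L1 K P) (L1 K P), ∀ f n, coef (D f) n = n * coef f n := by
  choose d hd using DerL_ex (K := K) (P := P)
  let L : L1 K P →ₗ[K] L1 K P :=
    { toFun := d
      map_add' := fun f g => DerL_ext fun n => by rw [coef_add, hd, hd, hd, coef_add, mul_add]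
      map_smul' := fun c f => DerL_ext fun n => by
        rw [RingHom.id_apply, coef_smul, hd, hd, coef_smul, mul_left_comm] }
  refine ⟨Derivation.mk' L fun f g => DerL_ext fun N => ?_, hd⟩
  change coef (d (f * g)) N = coef (f * d g + g * d f) N
  rw [mul_comm g, coef_add, hd, (coef_mul f g N).2, (coef_mul f (d g) N).2, (coef_mul (d f) g N).2,
    ← (coef_mul f (d g) N).1.tsum_add (coef_mul (d f) g N).1, ← tsum_mul_left]
  refine tsum_congr fun n => ?_
  rw [hd, hd]
  push_cast
  ring

variable (K P) in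
/-- the derivation `t d/dt` -/
noncomputable def D1 : Derivation K (L1 K P) (L1 K P) := (exists_D1 K P).choose

theorem coef_D1 (f : L1 K P) (n : ℤ) : coef (D1 K P f) n = n * coef f n :=
  (exists_D1 K P).choose_spec f n

theorem hasSum_D1 {f : L1 K P} {a : ℤ → K}
    (ha : ∀ t : Pt1 K P, HasSum (fun n => a n * t.v ^ n) (f.1 t)) (t : Pt1 K P) :
    HasSum (fun n : ℤ => n * a n * t.v ^ n) ((D1 K P f).1 t) := by
  simpa only [coef_D1, coef_unique ha] using hasSum_coef (D1 K P f) t

theorem D1_lin (c : K) : D1 K P (lin c) = Zf K P := by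
  rw [lin, map_sub, Derivation.map_algebraMap, sub_zero]
  refine DerL_ext fun n => ?_
  rw [coef_D1, coef_Zf]
  split_ifs with h <;> simp [h]

theorem gn_D1 (w : Pt1 K P) (f : L1 K P) : gn w (D1 K P f) ≤ gn w f := by
  refine gn_le _ _ fun n => ?_
  rw [coef_D1]
  exact (DerL_norm n _ _).trans (le_gn f w n)

variable [CharZero K]

theorem DerL_zero {e q : L1 K P} (h : D1 K P e * q = e * D1 K P q) {t : Pt1 K P}
    (hq : q.1 t ≠ 0) (he : e.1 t = 0) : e = 0 := by
  by_contra h0
  obtain ⟨n, g, hg, rfl⟩ := exists_order h0 t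
  rcases n with _ | m
  · exact hg (by simpa using he)
  have h1 : lin t.v ^ m * (((m + 1 : ℕ) : L1 K P) * Zf K P * g * q +
      lin t.v * (D1 K P g * q - g * D1 K P q)) = 0 := by
    rw [Derivation.leibniz, Derivation.leibniz_pow, D1_lin] at h
    simp only [smul_eq_mul, nsmul_eq_mul, Nat.add_sub_cancel] at h
    linear_combination h
  have h2 := (mul_eq_zero.1 h1).resolve_left (pow_ne_zero _ (lin_ne_zero _))
  have h3 : ((m + 1 : ℕ) : K) * t.v * g.1 t * q.1 t +
      (t.v - t.v) * (D1 K P g * q - g * D1 K P q).1 t = 0 := congrArg (fun f : L1 K P => f.1 t) h2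
  rw [sub_self, zero_mul, add_zero] at h3
  exact mul_ne_zero (mul_ne_zero (mul_ne_zero (Nat.cast_ne_zero.2 m.succ_ne_zero) t.1.ne_zero) hg)
    hq h3

omit [IsAlgClosed K] [CharZero K] in
theorem DerL_pt {q : L1 K P} (hq : q ≠ 0) : ∃ t, q.1 t ≠ 0 := by
  by_contra h
  exact hq (Subtype.ext (funext fun t => not_not.1 fun k => h ⟨t, k⟩))

theorem cross_const {p q : L1 K P} (h : D1 K P p * q = p * D1 K P q) (t t' : Pt1 K P) :
    p.1 t * q.1 t' = p.1 t' * q.1 t := by
  by_cases hq : q = 0
  · simp [hq]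
  obtain ⟨z, hz⟩ := DerL_pt hq
  have h1 : q.1 z • p - p.1 z • q = 0 := by
    refine DerL_zero (t := z) ?_ hz ?_
    · simp only [map_sub, Derivation.map_smul]
      simp only [Algebra.smul_def]
      linear_combination algebraMap K (L1 K P) (q.1 z) * h
    · change q.1 z * p.1 z - p.1 z * q.1 z = 0
      ring
  have h2 : ∀ y, q.1 z * p.1 y - p.1 z * q.1 y = 0 := fun y =>
    congrArg (fun f : L1 K P => f.1 y) h1
  apply mul_left_cancel₀ hz
  linear_combination q.1 t' * h2 t - q.1 t * h2 t'

/-- rotation of a point -/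
def DerL_mv (ζ : Kˣ) (h : ‖(ζ : K)‖ = 1) (t : Pt1 K P) : Pt1 K P :=
  ⟨ζ * t.1, t.2.imp_right fun k => by rw [Units.val_mul, norm_mul, h, k, one_mul]⟩

omit [IsAlgClosed K] [CharZero K] in
theorem DerL_rot (ζ : Kˣ) (h : ‖(ζ : K)‖ = 1) (f : L1 K P) (t : Pt1 K P) :
    HasSum (fun n : ℤ => coef f n * (ζ : K) ^ n * t.v ^ n) (f.1 (DerL_mv ζ h t)) := by
  simpa only [DerL_mv, Pt1.v, Units.val_mul, mul_zpow, mul_assoc] using
    hasSum_coef f (DerL_mv ζ h t)

/-- the substitution of a rotation -/
noncomputable def DerL_sub (ζ : Kˣ) (h : ‖(ζ : K)‖ = 1) : L1 K P →ₐ[K] L1 K P where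
  toFun f := ⟨fun t => f.1 (DerL_mv ζ h t), _, DerL_rot ζ h f⟩
  map_one' := rfl
  map_mul' _ _ := rfl
  map_zero' := rfl
  map_add' _ _ := rfl
  commutes' _ := rfl

omit [CharZero K] in
theorem DerL_coef (ζ : Kˣ) (h : ‖(ζ : K)‖ = 1) (f : L1 K P) (n : ℤ) :
    coef (DerL_sub ζ h f) n = coef f n * (ζ : K) ^ n :=
  congrFun (coef_unique (f := DerL_sub ζ h f) (DerL_rot ζ h f)) n

omit [CharZero K] in
theorem DerL_iter (ζ : Kˣ) (h : ‖(ζ : K)‖ = 1) (f : L1 K P) (k : ℕ) (n : ℤ) :
    coef ((DerL_sub ζ h)^[k] f) n = coef f n * ((ζ : K) ^ k) ^ n := by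
  induction k with
  | zero => simp
  | succ k ih => rw [Function.iterate_succ_apply', DerL_coef, ih, pow_succ, mul_zpow, mul_assoc]

theorem DerL_add {F A : Type} [Field F] [CommRing A] [IsDomain A] [Algebra F A] (σ : A →ₐ[F] A)
    {p q : A} (hq : σ q ≠ 0) {l : F} (h : σ p * q - p * σ q = l • (q * σ q)) (k : ℕ) :
    σ^[k] p * q - p * σ^[k] q = (k * l) • (q * σ^[k] q) := by
  induction k with
  | zero => simp [mul_comm]
  | succ k ih =>
    have h1 := congrArg σ ih
    rw [map_sub, map_mul, map_mul, map_smul, map_mul] at h1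
    rw [Function.iterate_succ_apply', Function.iterate_succ_apply']
    apply mul_left_cancel₀ hq
    simp only [Algebra.smul_def, Nat.cast_succ, map_mul, map_add, map_one] at h h1 ⊢
    linear_combination q * h1 + σ (σ^[k] q) * h

theorem DerL_inv {p q : L1 K P} (hq : q ≠ 0) {c : K}
    (h : D1 K P p * q - p * D1 K P q = c • (q * q)) (ζ : Kˣ) (hζ : ‖(ζ : K)‖ = 1) {n : ℕ}
    (hn : n ≠ 0) (h1 : (ζ : K) ^ n = 1) : DerL_sub ζ hζ p * q = p * DerL_sub ζ hζ q := by
  set σ : L1 K P →ₐ[K] L1 K P := DerL_sub ζ hζ with hσ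
  have hD : ∀ f, σ (D1 K P f) = D1 K P (σ f) := fun f => DerL_ext fun m => by
    rw [hσ, DerL_coef, coef_D1, coef_D1, DerL_coef, mul_assoc]
  have hq' : σ q ≠ 0 := fun k => hq (DerL_ext fun m => by
    have := DerL_coef ζ hζ q m
    rw [← hσ, k, coef_zero] at this
    rw [coef_zero, (mul_eq_zero.1 this.symm).resolve_right (zpow_ne_zero _ ζ.ne_zero)])
  have h2 := congrArg σ h
  rw [map_sub, map_mul, map_mul, map_smul, map_mul, hD, hD] at h2
  have h3 : D1 K P (σ p * q - p * σ q) * (q * σ q) = (σ p * q - p * σ q) * D1 K P (q * σ q) := by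
    simp only [map_sub, Derivation.leibniz, smul_eq_mul, Algebra.smul_def] at h h2 ⊢
    linear_combination (q * q) * h2 - (σ q * σ q) * h
  obtain ⟨t, ht⟩ := DerL_pt (mul_ne_zero hq hq')
  have h4 : σ p * q - p * σ q = ((σ p * q - p * σ q).1 t / (q * σ q).1 t) • (q * σ q) := by
    refine Subtype.ext (funext fun z => ?_)
    change _ = _ / _ * (q * σ q).1 z
    rw [div_mul_eq_mul_div, eq_div_iff ht]
    exact cross_const h3 z t
  have h5 := DerL_add σ hq' h4 n
  have h6 : ∀ f, σ^[n] f = f := fun f => DerL_ext fun m => by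
    rw [hσ, DerL_iter, h1, one_zpow, mul_one]
  rw [h6, h6, mul_comm p q, sub_self, eq_comm, smul_eq_zero, mul_eq_zero] at h5
  rw [(h5.resolve_right (mul_ne_zero hq hq)).resolve_left (Nat.cast_ne_zero.2 hn), zero_smul] at h4
  exact sub_eq_zero.1 h4

theorem no_log {p q : L1 K P} (hq : q ≠ 0) {c : K}
    (h : D1 K P p * q - p * D1 K P q = c • (q * q)) : c = 0 := by
  obtain ⟨z, hz⟩ := DerL_pt hq
  have hr : ∀ n : ℕ, ∃ ζ : Kˣ, IsPrimitiveRoot (ζ : K) (n + 1) := fun n => by
    obtain ⟨ζ, hζ⟩ := HasEnoughRootsOfUnity.exists_primitiveRoot K (n + 1)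
    exact ⟨Units.mk0 ζ (hζ.ne_zero n.succ_ne_zero), hζ⟩
  choose ζ hζ using hr
  have hn : ∀ n, ‖(ζ n : K)‖ = 1 := fun n =>
    (pow_eq_one_iff_of_nonneg (norm_nonneg _) n.succ_ne_zero).1
      (by rw [← norm_pow, (hζ n).pow_eq_one, norm_one])
  have h1 : q.1 z • p - p.1 z • q = 0 := by
    by_contra h0
    refine Set.infinite_of_injective_forall_mem (f := fun n => DerL_mv (ζ n) (hn n) z) ?_ ?_
      (finite_zeros h0 z z)
    · intro m n e
      have e1 : ζ m = ζ n := mul_right_cancel (congrArg Subtype.val e)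
      exact Nat.succ_injective ((hζ m).unique (e1 ▸ hζ n))
    · intro n
      have e1 : ‖(DerL_mv (ζ n) (hn n) z).v‖ = ‖z.v‖ := by
        change ‖(ζ n : K) * z.v‖ = _
        rw [norm_mul, hn, one_mul]
      have e2 : p.1 (DerL_mv (ζ n) (hn n) z) * q.1 z = p.1 z * q.1 (DerL_mv (ζ n) (hn n) z) :=
        congrArg (fun f : L1 K P => f.1 z)
          (DerL_inv hq h (ζ n) (hn n) n.succ_ne_zero (hζ n).pow_eq_one)
      refine ⟨e1.ge, e1.le, ?_⟩
      change q.1 z * p.1 (DerL_mv (ζ n) (hn n) z) - p.1 z * q.1 (DerL_mv (ζ n) (hn n) z) = 0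
      linear_combination e2
  have h2 := congrArg (D1 K P) h1
  rw [map_sub, Derivation.map_smul, Derivation.map_smul, map_zero] at h2
  have h3 : (q.1 z * c) • (q * q) = 0 := by
    simp only [Algebra.smul_def, map_mul] at h h1 h2 ⊢
    linear_combination q * h2 - D1 K P q * h1 - algebraMap K (L1 K P) (q.1 z) * h
  exact (mul_eq_zero.1 ((smul_eq_zero.1 h3).resolve_right (mul_ne_zero hq hq))).resolve_left hz

end Pool.Agent.Work.MP_e120ef_ag
end

-- merged part: Pool.Agent.Work.MP_e120ef_ag.MultiA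
section
/-!
# Analytic functions of several variables through their restrictions to coordinate lines

Plans.  `res_mem`: split `I : V → ℤ` as `(I v, rest)` (`Equiv.piSplitAt`, or `Equiv.sigmaFiberEquiv fun I => I v`); the coefficient of `t ^ n` is `∑' rest, a I * ∏ w ≠ v, z w ^ I w` (summable: the fibre of the series at the point
`upd z v 1`); `HasSum.prod_fiberwise` (or `HasSum.sigma`).  Keep the formula for the coefficients: it also gives `hasSum_dd` through `hasSum_D1` (the series `I v * a I * z ^ I` is summable since `‖(n : K)‖ ≤ 1`,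
`NonarchimedeanAddGroup.summable_of_tendsto_cofinite_zero`).  `exists_dd`: define `(dd v f) z = (D1 (res v z f)) (z v)` with `P = free v`; membership, additivity and Leibniz follow from the properties of `res` and `D1`.
`exists_common`: induction on the number of coordinates where `z`, `z'` (`f z ≠ 0`, `g z' ≠ 0`) differ: if they differ at `v`, then `res v z f * res v z' g ≠ 0` in the domain `L1`, so some `t` has `f (upd z v t) ≠ 0`, `g (upd z' v t) ≠ 0`.
`dd_comm`: both sides are the sum of `I v * I w * a I * z ^ I`.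
`cross`: first, if `dd v e * b = e * dd v b` for `v ∈ W`, `b z' ≠ 0`, `e z' = 0`, then `e z = 0` for `z` agreeing with `z'` outside `W` (induction on the number of coordinates where they differ, for all `z z'`: `cross_const` on the line through `z'`
gives `e (upd z' v t) = 0`; for `t` with `b (upd z' v t) ≠ 0` induction gives `e (upd z v t) = 0`; so `res v z e * res v z' b = 0` and `res v z e = 0`).  Apply it to `e = b z' • a - a z' • b`; the cases `b z' = 0` are symmetric or trivial.
-/

open Filter Topology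

namespace Pool.Agent.Work.MP_e120ef_ag

variable {K : Type} [NontriviallyNormedField K] {V : Type} [Fintype V] {free : V → Prop}

open Classical in
/-- change the coordinate `v` -/
noncomputable def upd (z : Pts K free) (v : V) {P : Prop} (hP : P → free v) (t : Pt1 K P) :
    Pts K free :=
  ⟨Function.update z.1 v t.1, fun w hw => by
    by_cases h : w = v
    · subst h
      rw [Function.update_self]
      exact t.2.resolve_left fun h => hw (hP h)
    · rw [Function.update_of_ne h]
      exact z.2 w hw⟩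

variable [IsUltrametricDist K] [CompleteSpace K]

omit [Fintype V] [IsUltrametricDist K] [CompleteSpace K] in
theorem MultiA_pt (z : Pts K free) (v : V) : ∃ t : Pt1 K (free v), upd z v id t = z := by
  classical
  exact ⟨⟨z.1 v, (em (free v)).imp_right (z.2 v)⟩, Subtype.ext (Function.update_eq_self v z.1)⟩

omit [Fintype V] [IsUltrametricDist K] [CompleteSpace K] in
theorem MultiA_agree {z z' : Pts K free} {v : V} [DecidableEq V] {s : Finset V}
    (h : ∀ w, w ∉ insert v s → z.1 w = z'.1 w) (t : Pt1 K (free v)) (w : V) (hw : w ∉ s) :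
    (upd z v id t).1 w = (upd z' v id t).1 w := by
  by_cases e : w = v
  · subst e
    simp [upd]
  · simp [upd, e, h w (by simp [e, hw])]

open Classical in
/-- the coefficients on a coordinate line -/
noncomputable def MultiA_cf (a : (V → ℤ) → K) (z : Pts K free) (v : V) (n : ℤ) : K :=
  ∑' I : (fun I : V → ℤ => I v) ⁻¹' {n}, a I * ∏ w ∈ Finset.univ.erase v, (z.1 w : K) ^ I.1 w

omit [IsUltrametricDist K] in
theorem MultiA_line {a : (V → ℤ) → K} {z : Pts K free} {v : V} {P : Prop} {hP : P → free v}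
    {t : Pt1 K P} {s : K} (h : HasSum (fun I => a I * ∏ w, ((upd z v hP t).1 w : K) ^ I w) s) :
    HasSum (fun n => MultiA_cf a z v n * t.v ^ n) s := by
  classical
  refine (h.tsum_fiberwise fun I => I v).congr_fun fun n => ?_
  rw [MultiA_cf, ← tsum_mul_right]
  refine tsum_congr fun I => ?_
  rw [← Finset.prod_erase_mul _ _ (Finset.mem_univ v), mul_assoc, show I.1 v = n from I.2]
  congr 2
  · convert Finset.prod_congr rfl fun w hw => ?_
    simp [upd, Finset.ne_of_mem_erase hw]
  · simp [upd]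

omit [IsUltrametricDist K] [CompleteSpace K] in
theorem MultiA_cf_mul (a : (V → ℤ) → K) (z : Pts K free) (v : V) (n : ℤ) :
    MultiA_cf (fun I => I v * a I) z v n = n * MultiA_cf a z v n := by
  rw [MultiA_cf, MultiA_cf, ← tsum_mul_left]
  exact tsum_congr fun I => by rw [show I.1 v = n from I.2, mul_assoc]

theorem res_mem (z : Pts K free) (v : V) {P : Prop} (hP : P → free v) (f : An K free) :
    (fun t => f.1 (upd z v hP t)) ∈ L1 K P := by
  obtain ⟨a, ha⟩ := f.2
  exact ⟨_, fun t => MultiA_line (ha (upd z v hP t))⟩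

/-- restriction to a coordinate line -/
noncomputable def res (z : Pts K free) (v : V) {P : Prop} (hP : P → free v) :
    An K free →ₐ[K] L1 K P where
  toFun f := ⟨_, res_mem z v hP f⟩
  map_one' := rfl
  map_mul' _ _ := rfl
  map_zero' := rfl
  map_add' _ _ := rfl
  commutes' _ := rfl

theorem res_apply (z : Pts K free) (v : V) {P : Prop} (hP : P → free v) (f : An K free)
    (t : Pt1 K P) : (res z v hP f).1 t = f.1 (upd z v hP t) := rfl

variable [IsAlgClosed K]

omit [IsUltrametricDist K] [CompleteSpace K] [IsAlgClosed K] in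
theorem MultiA_ne {T : Type} {S : Subalgebra K (T → K)} {f : S} (hf : f ≠ 0) :
    ∃ z, f.1 z ≠ 0 := by
  by_contra! h
  exact hf (Subtype.ext (funext h))

omit [IsAlgClosed K] in
theorem MultiA_res_ne {f : An K free} {z : Pts K free} (h : f.1 z ≠ 0) (v : V) :
    res z v id f ≠ 0 := fun e => by
  obtain ⟨t, ht⟩ := MultiA_pt z v
  rw [← ht, ← res_apply, e] at h
  exact h rfl

theorem exists_common {f g : An K free} (hf : f ≠ 0) (hg : g ≠ 0) :
    ∃ z, f.1 z ≠ 0 ∧ g.1 z ≠ 0 := by
  classical
  have key : ∀ (s : Finset V) (z z' : Pts K free), (∀ w, w ∉ s → z.1 w = z'.1 w) → f.1 z ≠ 0 →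
      g.1 z' ≠ 0 → ∃ z, f.1 z ≠ 0 ∧ g.1 z ≠ 0 := fun s => by
    induction s using Finset.induction_on with
    | empty =>
      intro z z' h h1 h2
      obtain rfl : z = z' := Subtype.ext (funext fun w => h w (by simp))
      exact ⟨z, h1, h2⟩
    | insert v s _ ih =>
      intro z z' h h1 h2
      obtain ⟨t, ht⟩ := MultiA_ne (mul_ne_zero (MultiA_res_ne h1 v) (MultiA_res_ne h2 v))
      exact ih _ _ (MultiA_agree h t) (left_ne_zero_of_mul ht) (right_ne_zero_of_mul ht)
  obtain ⟨z, hz⟩ := MultiA_ne hf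
  obtain ⟨z', hz'⟩ := MultiA_ne hg
  exact key Finset.univ z z' (by simp) hz hz'

instance An_isDomain : IsDomain (An K free) := by
  have : Nontrivial (An K free) := ⟨⟨0, 1, fun e =>
    zero_ne_one (congrFun (congrArg Subtype.val e) ⟨1, by simp⟩ : (0 : K) = 1)⟩⟩
  have : NoZeroDivisors (An K free) := ⟨fun {f g} h => by
    by_contra! e
    obtain ⟨z, h1, h2⟩ := exists_common e.1 e.2
    exact mul_ne_zero h1 h2 (congrFun (congrArg Subtype.val h) z)⟩
  exact NoZeroDivisors.to_isDomain _

theorem MultiA_D {f : An K free} {a : (V → ℤ) → K}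
    (ha : ∀ z : Pts K free, HasSum (fun I => a I * ∏ w, (z.1 w : K) ^ I w) (f.1 z))
    (z : Pts K free) (v : V) {P : Prop} (hP : P → free v) (t : Pt1 K P) :
    HasSum (fun I => I v * a I * ∏ w, ((upd z v hP t).1 w : K) ^ I w)
      ((D1 K P (res z v hP f)).1 t) := by
  have h1 : Summable fun I => I v * a I * ∏ w, ((upd z v hP t).1 w : K) ^ I w := by
    refine NonarchimedeanAddGroup.summable_of_tendsto_cofinite_zero (squeeze_zero_norm
      (fun I => ?_) (tendsto_zero_iff_norm_tendsto_zero.1
        (ha (upd z v hP t)).summable.tendsto_cofinite_zero))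
    rw [mul_assoc, norm_mul]
    exact mul_le_of_le_one_left (norm_nonneg _) (IsUltrametricDist.norm_intCast_le_one K _)
  have h2 := MultiA_line (a := fun I => I v * a I) h1.hasSum
  simp only [MultiA_cf_mul] at h2
  rw [(hasSum_D1 (f := res z v hP f) (fun t => MultiA_line (ha (upd z v hP t))) t).unique h2]
  exact h1.hasSum

variable (K free) in
theorem exists_dd (v : V) : ∃ d : Derivation K (An K free) (An K free),
    (∀ (f : An K free) (a : (V → ℤ) → K),
      (∀ z : Pts K free, HasSum (fun I => a I * ∏ w, (z.1 w : K) ^ I w) (f.1 z)) →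
      ∀ z : Pts K free, HasSum (fun I => I v * a I * ∏ w, (z.1 w : K) ^ I w) ((d f).1 z)) ∧
    ∀ (z : Pts K free) (P : Prop) (hP : P → free v) (f : An K free),
      res z v hP (d f) = D1 K P (res z v hP f) := by
  choose τ hτ using fun z : Pts K free => MultiA_pt z v
  have h1 : ∀ (f : An K free) (a : (V → ℤ) → K),
      (∀ z : Pts K free, HasSum (fun I => a I * ∏ w, (z.1 w : K) ^ I w) (f.1 z)) →
      ∀ z : Pts K free, HasSum (fun I => I v * a I * ∏ w, (z.1 w : K) ^ I w)
        ((D1 K _ (res z v id f)).1 (τ z)) := fun f a ha z => by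
    simpa only [hτ] using MultiA_D ha z v id (τ z)
  refine ⟨Derivation.mk'
    { toFun := fun f => ⟨fun z => (D1 K _ (res z v id f)).1 (τ z), _, h1 f _ f.2.choose_spec⟩
      map_add' := fun f g => Subtype.ext (funext fun z => ?_)
      map_smul' := fun c f => Subtype.ext (funext fun z => ?_) }
    fun f g => Subtype.ext (funext fun z => ?_), h1, fun z P hP f => Subtype.ext (funext fun t =>
      (h1 f _ f.2.choose_spec _).unique (MultiA_D f.2.choose_spec z v hP t))⟩
  · simp only [map_add]
    rfl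
  · simp only [map_smul, Derivation.map_smul]
    rfl
  · have h2 := congrArg (fun p : L1 K (free v) => p.1 (τ z))
      ((D1 K _).leibniz (res z v id f) (res z v id g))
    simp only [← map_mul, smul_eq_mul, Subalgebra.coe_add, MulMemClass.coe_mul, Pi.add_apply,
      Pi.mul_apply, res_apply, hτ] at h2
    exact h2

variable (K free) in
/-- the derivation `z_v d/dz_v` -/
noncomputable def dd (v : V) : Derivation K (An K free) (An K free) := (exists_dd K free v).choose

theorem res_dd (z : Pts K free) (v : V) {P : Prop} (hP : P → free v) (f : An K free) :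
    res z v hP (dd K free v f) = D1 K P (res z v hP f) :=
  (exists_dd K free v).choose_spec.2 z P hP f

theorem dd_comm (v w : V) (f : An K free) :
    dd K free v (dd K free w f) = dd K free w (dd K free v f) := by
  obtain ⟨a, ha⟩ := f.2
  have h : ∀ v w z, _ := fun v w => (exists_dd K free v).choose_spec.1 _ _
    ((exists_dd K free w).choose_spec.1 f a ha)
  exact Subtype.ext (funext fun z => (h v w z).unique
    ((h w v z).congr_fun fun I => by ring))

theorem MultiA_cross [CharZero K] {e b : An K free} (s : Finset V) :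
    (∀ v ∈ s, dd K free v e * b = e * dd K free v b) → ∀ z z' : Pts K free,
      (∀ v, v ∉ s → z.1 v = z'.1 v) → b.1 z' ≠ 0 → e.1 z' = 0 → e.1 z = 0 := by
  classical
  induction s using Finset.induction_on with
  | empty =>
    intro _ z z' h _ h2
    obtain rfl : z = z' := Subtype.ext (funext fun w => h w (by simp))
    exact h2
  | insert v s _ ih =>
    intro h z z' hz h1 h2
    by_contra h3
    obtain ⟨t, ht⟩ := MultiA_ne (mul_ne_zero (MultiA_res_ne h3 v) (MultiA_res_ne h1 v))
    refine left_ne_zero_of_mul ht (ih (fun w hw => h w (Finset.mem_insert_of_mem hw)) _ _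
      (MultiA_agree hz t) (right_ne_zero_of_mul ht) ?_)
    obtain ⟨t', ht'⟩ := MultiA_pt z' v
    have h4 := congrArg (res z' v id) (h v (Finset.mem_insert_self v s))
    rw [map_mul, map_mul, res_dd, res_dd] at h4
    have h5 := cross_const h4 t t'
    simp only [res_apply, ht', h2, zero_mul] at h5
    exact (mul_eq_zero.1 h5).resolve_right h1

theorem cross [CharZero K] {a b : An K free} {W : V → Prop}
    (h : ∀ v, W v → dd K free v a * b = a * dd K free v b) {z z' : Pts K free}
    (hz : ∀ v, ¬ W v → z.1 v = z'.1 v) : a.1 z * b.1 z' = a.1 z' * b.1 z := by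
  classical
  have key : ∀ z z' : Pts K free, (∀ v, ¬ W v → z.1 v = z'.1 v) → b.1 z' ≠ 0 →
      a.1 z * b.1 z' = a.1 z' * b.1 z := fun z z' hz h1 => by
    have h2 := MultiA_cross (e := b.1 z' • a - a.1 z' • b) (b := b) (Finset.univ.filter W)
      (fun v hv => by
        rw [map_sub, Derivation.map_smul, Derivation.map_smul, sub_mul, sub_mul, smul_mul_assoc,
          smul_mul_assoc, smul_mul_assoc, smul_mul_assoc, h v (by simpa using hv), mul_comm b])
      z z' (fun v hv => hz v (by simpa using hv)) h1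
      (show b.1 z' * a.1 z' - a.1 z' * b.1 z' = 0 by ring)
    have h3 : b.1 z' * a.1 z - a.1 z' * b.1 z = 0 := h2
    linear_combination h3
  by_cases e : b.1 z' = 0
  · by_cases e' : b.1 z = 0
    · rw [e, e', mul_zero, mul_zero]
    · exact (key z' z (fun v hv => (hz v hv).symm) e').symm
  · exact key z z' hz e

end Pool.Agent.Work.MP_e120ef_ag
end

-- merged part: Pool.Agent.Work.MP_e120ef_ag.MultiB
section
/-!
# Meromorphic functions of several variables

Plans.  `DD v` from `frac_ext`.  `DD_comm`: the commutator `⁅DD v, DD w⁆` is a derivation vanishing on the image of `An`, hence on all quotients (`Derivation.leibniz_div`).  `DD_cross`: `DD v (a / b) = 0` means `dd v a * b = a * dd v b`.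
`DD_const`: `u = a / b`, `b z' ≠ 0`, `cross` with `W = ⊤` gives `b z' • a = a z' • b`.  `gen`: write `e = a e / b e`; the product of all `a e * b e` is nonzero, so it is nonzero at some point `z`; let `φ = algebraMap ∘ res z v`,
`S = {u | ∃ a b, φ b ≠ 0 ∧ u = a / b}`, `r u = φ a / φ b` for a chosen representation (independent of the choice; `0` outside `S`).
-/

namespace Pool.Agent.Work.MP_e120ef_ag

section Abstract

variable {K R M M₁ : Type} [Field K] [CommRing R] [Field M] [Field M₁] [Algebra K R]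
  [Algebra K M] [Algebra K M₁] [Algebra R M]

/-- `a / b` represents `u` -/
def MultiB_Rep (φ : R →ₐ[K] M₁) (u : M) (a b : R) : Prop :=
  φ b ≠ 0 ∧ u * algebraMap R M b = algebraMap R M a

open Classical in
/-- the value of `φ` on a fraction -/
noncomputable def MultiB_r (φ : R →ₐ[K] M₁) (u : M) : M₁ :=
  if h : ∃ p : R × R, MultiB_Rep φ u p.1 p.2 then φ h.choose.1 / φ h.choose.2 else 0

theorem MultiB_r_eq [IsFractionRing R M] {φ : R →ₐ[K] M₁} {u : M} {a b : R}
    (h : MultiB_Rep φ u a b) : MultiB_r φ u = φ a / φ b := by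
  have h0 : ∃ p : R × R, MultiB_Rep φ u p.1 p.2 := ⟨(a, b), h⟩
  have h1 := h0.choose_spec
  rw [MultiB_r, dif_pos h0, div_eq_div_iff h1.1 h.1, ← map_mul, ← map_mul]
  congr 1
  apply IsFractionRing.injective R M
  rw [map_mul, map_mul, ← h.2, ← h1.2]
  ring

theorem MultiB_Rep.add {φ : R →ₐ[K] M₁} {u u' : M} {a b a' b' : R} (h : MultiB_Rep φ u a b)
    (h' : MultiB_Rep φ u' a' b') : MultiB_Rep φ (u + u') (a * b' + b * a') (b * b') := by
  refine ⟨by rw [map_mul]; exact mul_ne_zero h.1 h'.1, ?_⟩
  rw [map_add, map_mul, map_mul, map_mul, ← h.2, ← h'.2]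
  ring

theorem MultiB_Rep.mul {φ : R →ₐ[K] M₁} {u u' : M} {a b a' b' : R} (h : MultiB_Rep φ u a b)
    (h' : MultiB_Rep φ u' a' b') : MultiB_Rep φ (u * u') (a * a') (b * b') := by
  refine ⟨by rw [map_mul]; exact mul_ne_zero h.1 h'.1, ?_⟩
  rw [map_mul, map_mul, ← h.2, ← h'.2]
  ring

theorem MultiB_Rep.alg [IsScalarTower K R M] (φ : R →ₐ[K] M₁) (c : K) :
    MultiB_Rep φ (algebraMap K M c) (algebraMap K R c) 1 := by
  refine ⟨by simp, ?_⟩
  rw [map_one, mul_one, IsScalarTower.algebraMap_apply K R M]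

theorem MultiB_Rep.der {φ : R →ₐ[K] M₁} {d0 : Derivation K R R} {d : Derivation K M M}
    (h1 : ∀ a, d (algebraMap R M a) = algebraMap R M (d0 a)) {u : M} {a b : R}
    (h : MultiB_Rep φ u a b) : MultiB_Rep φ (d u) (d0 a * b - a * d0 b) (b * b) := by
  refine ⟨by rw [map_mul]; exact mul_ne_zero h.1 h.1, ?_⟩
  have h2 := congrArg d h.2
  rw [Derivation.leibniz, h1, h1, smul_eq_mul, smul_eq_mul] at h2
  rw [map_sub, map_mul, map_mul, map_mul, ← h2, ← h.2]
  ring

theorem MultiB_msl [IsScalarTower K R M] [IsFractionRing R M] (φ : R →ₐ[K] M₁)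
    {d0 : Derivation K R R} {d : Derivation K M M} {D : Derivation K M₁ M₁}
    (h1 : ∀ a, d (algebraMap R M a) = algebraMap R M (d0 a)) (h2 : ∀ a, φ (d0 a) = D (φ a)) :
    ∃ s : MSl d D, ∀ u a b, MultiB_Rep φ u a b → u ∈ s.S ∧ s.r u = φ a / φ b := by
  let S : Subalgebra K M :=
    { carrier := {u | ∃ a b, MultiB_Rep φ u a b}
      add_mem' := fun ⟨_, _, h⟩ ⟨_, _, h'⟩ => ⟨_, _, h.add h'⟩
      mul_mem' := fun ⟨_, _, h⟩ ⟨_, _, h'⟩ => ⟨_, _, h.mul h'⟩
      algebraMap_mem' := fun c => ⟨_, _, MultiB_Rep.alg φ c⟩ }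
  refine ⟨⟨S, MultiB_r φ, ?_, ?_, ?_, ?_, ?_, ?_⟩, fun u a b h => ⟨⟨a, b, h⟩, MultiB_r_eq h⟩⟩
  · rintro u ⟨a, b, h⟩ u' ⟨a', b', h'⟩
    rw [MultiB_r_eq (h.add h'), MultiB_r_eq h, MultiB_r_eq h', div_add_div _ _ h.1 h'.1, map_add,
      map_mul, map_mul, map_mul]
  · rintro u ⟨a, b, h⟩ u' ⟨a', b', h'⟩
    rw [MultiB_r_eq (h.mul h'), MultiB_r_eq h, MultiB_r_eq h', div_mul_div_comm, map_mul, map_mul]
  · intro c
    rw [MultiB_r_eq (MultiB_Rep.alg φ c), map_one, div_one, AlgHom.commutes]
  · rintro u ⟨a, b, h⟩ hr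
    rw [MultiB_r_eq h] at hr
    have ha : φ a ≠ 0 := fun h0 => hr (by rw [h0, zero_div])
    have hu : u ≠ 0 := by
      rintro rfl
      have h3 := h.2
      rw [zero_mul, eq_comm, map_eq_zero_iff _ (IsFractionRing.injective R M)] at h3
      exact ha (by rw [h3, map_zero])
    refine ⟨b, a, ha, ?_⟩
    rw [← h.2, ← mul_assoc, inv_mul_cancel₀ hu, one_mul]
  · rintro u ⟨a, b, h⟩
    exact ⟨_, _, h.der h1⟩
  · rintro u ⟨a, b, h⟩
    have hb := h.1
    rw [MultiB_r_eq (h.der h1), MultiB_r_eq h, Derivation.leibniz_div, map_sub, map_mul, map_mul,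
      map_mul, h2, h2, smul_eq_mul, smul_eq_mul, smul_eq_mul]
    field_simp

theorem MultiB_frac [IsDomain R] [IsFractionRing R M] (u : M) :
    ∃ a b : R, b ≠ 0 ∧ u * algebraMap R M b = algebraMap R M a := by
  obtain ⟨⟨a, b⟩, h⟩ := IsLocalization.surj (nonZeroDivisors R) u
  exact ⟨a, b, nonZeroDivisors.coe_ne_zero b, h⟩

private theorem MultiB_comm0 [IsDomain R] [IsFractionRing R M] {d₁ d₂ : Derivation K M M}
    {e₁ e₂ : R → R} (g₁ : ∀ a, d₁ (algebraMap R M a) = algebraMap R M (e₁ a))
    (g₂ : ∀ a, d₂ (algebraMap R M a) = algebraMap R M (e₂ a)) (hc : ∀ a, e₁ (e₂ a) = e₂ (e₁ a))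
    (u : M) : d₁ (d₂ u) = d₂ (d₁ u) := by
  obtain ⟨a, b, hb, h⟩ := MultiB_frac (R := R) u
  have hb' : algebraMap R M b ≠ 0 := (map_ne_zero_iff _ (IsFractionRing.injective _ _)).2 hb
  have h0 : ∀ c : R, ⁅d₁, d₂⁆ (algebraMap R M c) = 0 := fun c => by
    rw [Derivation.commutator_apply, g₂, g₁, g₁, g₂, hc, sub_self]
  have h1 := h0 a
  rw [← h, Derivation.leibniz, h0, smul_zero, zero_add, smul_eq_mul, mul_eq_zero,
    Derivation.commutator_apply, sub_eq_zero] at h1
  exact h1.resolve_left hb'

private theorem MultiB_gen0 [IsDomain R] [IsScalarTower K R M] [IsFractionRing R M]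
    {d0 : Derivation K R R} {d : Derivation K M M} {D : Derivation K M₁ M₁}
    (g : ∀ a, d (algebraMap R M a) = algebraMap R M (d0 a))
    (H : ∀ p : R, p ≠ 0 → ∃ φ : R →ₐ[K] M₁, φ p ≠ 0 ∧ ∀ a, φ (d0 a) = D (φ a)) : Gen d D := by
  classical
  intro E hE
  choose a b hb h using MultiB_frac (R := R) (M := M)
  have ha : ∀ e ∈ E, a e ≠ 0 := fun e he h0 => by
    have h1 := h e
    rw [h0, map_zero, mul_eq_zero, map_eq_zero_iff _ (IsFractionRing.injective _ _)] at h1
    exact h1.elim (fun h2 => hE (h2 ▸ he)) (hb e)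
  obtain ⟨φ, hP, hφ⟩ := H (∏ e ∈ E, a e * b e)
    (Finset.prod_ne_zero_iff.2 fun e he => mul_ne_zero (ha e he) (hb e))
  rw [map_prod, Finset.prod_ne_zero_iff] at hP
  obtain ⟨s, hs⟩ := MultiB_msl φ g hφ
  refine ⟨s, fun e he => ?_⟩
  have h1 := hP e he
  rw [map_mul, mul_ne_zero_iff] at h1
  obtain ⟨h2, h3⟩ := hs e (a e) (b e) ⟨h1.2, h e⟩
  exact ⟨h2, h3 ▸ div_ne_zero h1.1 h1.2⟩

private theorem MultiB_dd0 [IsFractionRing R M] {d : Derivation K M M} {e : R → R}
    (g : ∀ a, d (algebraMap R M a) = algebraMap R M (e a)) {u : M} {a b : R}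
    (hu : u * algebraMap R M b = algebraMap R M a) (h : d u = 0) : e a * b = a * e b := by
  apply IsFractionRing.injective R M
  have h2 := congrArg d hu
  rw [Derivation.leibniz, h, smul_zero, add_zero, g, g, smul_eq_mul] at h2
  rw [map_mul, map_mul, ← h2, ← hu]
  ring

private theorem MultiB_const0 [IsScalarTower K R M] [IsFractionRing R M] {u : M} {a b : R}
    (hb : b ≠ 0) (hu : u * algebraMap R M b = algebraMap R M a) {c : K}
    (h : a = algebraMap K R c * b) : u = algebraMap K M c := by
  refine mul_right_cancel₀ ((map_ne_zero_iff _ (IsFractionRing.injective R M)).2 hb) ?_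
  rw [hu, IsScalarTower.algebraMap_apply K R M, ← map_mul, h]

end Abstract

variable {K : Type} [NontriviallyNormedField K] [IsUltrametricDist K] [CompleteSpace K]
  [IsAlgClosed K] {V : Type} [Fintype V] {free : V → Prop}

variable (K free) in
/-- the derivation `z_v d/dz_v` on meromorphic functions -/
noncomputable def DD (v : V) :
    Derivation K (FractionRing (An K free)) (FractionRing (An K free)) :=
  (frac_ext (F := FractionRing (An K free)) (dd K free v)).choose

theorem DD_alg (v : V) (a : An K free) : DD K free v (algebraMap _ _ a) =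
    algebraMap _ (FractionRing (An K free)) (dd K free v a) :=
  (frac_ext (F := FractionRing (An K free)) (dd K free v)).choose_spec a

theorem DD_comm (v w : V) (u : FractionRing (An K free)) :
    DD K free v (DD K free w u) = DD K free w (DD K free v u) := by
  exact MultiB_comm0 (R := An K free) (d₁ := DD K free v) (d₂ := DD K free w) (e₁ := dd K free v)
    (e₂ := dd K free w) (by exact DD_alg v) (by exact DD_alg w) (by exact dd_comm v w) u

theorem gen {v : V} (hv : free v)
    (D : Derivation K (FractionRing (L1 K True)) (FractionRing (L1 K True)))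
    (hD : ∀ f : L1 K True, D (algebraMap _ _ f) = algebraMap _ _ (D1 K True f)) :
    Gen (DD K free v) D := by
  classical
  refine MultiB_gen0 (R := An K free) (d0 := dd K free v) (by exact DD_alg v) fun p hp => ?_
  obtain ⟨z, hz, -⟩ := exists_common hp hp
  refine ⟨(IsScalarTower.toAlgHom K (L1 K True) (FractionRing (L1 K True))).comp
    (res z v fun _ => hv), fun h => ?_, fun f => ?_⟩
  · have h0 : res z v (fun _ : True => hv) p = 0 :=
      IsFractionRing.injective (L1 K True) (FractionRing (L1 K True))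
        (h.trans (algebraMap (L1 K True) (FractionRing (L1 K True))).map_zero.symm)
    have h1 := res_apply z v (fun _ : True => hv) p ⟨z.1 v, Or.inl trivial⟩
    have h2 : upd z v (fun _ : True => hv) ⟨z.1 v, Or.inl trivial⟩ = z :=
      Subtype.ext (Function.update_eq_self v z.1)
    rw [h0, h2] at h1
    exact hz h1.symm
  · exact (congrArg (algebraMap (L1 K True) (FractionRing (L1 K True)))
      (res_dd z v (fun _ : True => hv) f)).trans (hD _).symm

theorem MultiB_dd {u : FractionRing (An K free)} {a b : An K free}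
    (hu : u * algebraMap _ _ b = algebraMap _ _ a) {v : V} (h : DD K free v u = 0) :
    dd K free v a * b = a * dd K free v b := by
  exact MultiB_dd0 (R := An K free) (d := DD K free v) (e := dd K free v) (by exact DD_alg v)
    (by exact hu) h

variable [CharZero K]

theorem DD_cross {u : FractionRing (An K free)} {a b : An K free} (hb : b ≠ 0)
    (hu : u * algebraMap _ _ b = algebraMap _ _ a) (h : ∀ v, free v → DD K free v u = 0)
    {z z' : Pts K free} (hz : ∀ v, ¬ free v → z.1 v = z'.1 v) :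
    a.1 z * b.1 z' = a.1 z' * b.1 z := by
  have _ := hb
  exact cross (W := free) (fun v hv => MultiB_dd hu (h v hv)) hz

theorem DD_const {u : FractionRing (An K free)} (h : ∀ v, DD K free v u = 0) :
    ∃ c : K, u = algebraMap _ _ c := by
  obtain ⟨a, b, hb, hu⟩ := MultiB_frac (R := An K free) u
  obtain ⟨z', hz', -⟩ := exists_common hb hb
  refine ⟨a.1 z' / b.1 z', MultiB_const0 hb hu (Subtype.ext (funext fun z => ?_))⟩
  have h1 := cross (W := fun _ => True) (fun v _ => MultiB_dd hu (h v)) (z := z) (z' := z')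
    fun v hv => (hv trivial).elim
  change a.1 z = a.1 z' / b.1 z' * b.1 z
  rw [div_mul_eq_mul_div, ← h1, mul_div_cancel_right₀ _ hz']

end Pool.Agent.Work.MP_e120ef_ag
end
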