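import Pool.Agent.Work.MP_e120ef_ag.Bad
import Pool.Agent.Work.MP_e120ef_ag.Ctl
import Pool.Agent.Work.MP_e120ef_ag.Inv
import Pool.Agent.Work.MP_e120ef_ag.Jen
import Pool.Agent.Work.MP_e120ef_ag.MultiB
import Pool.Agent.Work.MP_e120ef_ag.Der

attribute [-instance] Subalgebra.normedCommRing Subalgebra.seminormedCommRing
  Subalgebra.seminormedRing Subalgebra.normedRing
  Localization.subalgebra.instIsFractionRingSubtypeMemSubalgebra
attribute [local instance 2000] RingHomClass.toAddMonoidHomClass AddMonoidHomClass.toAddHomClass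
  RingHom.instRingHomClass AlgHomClass.toRingHomClass IsDomain.to_noZeroDivisors
  IsDomain.toNontrivial NeZero.one RingHomClass.toMonoidHomClass MonoidHomClass.toMulHomClass
  RingHomClass.toMonoidWithZeroHomClass AddMonoidHomClass.toZeroHomClass MonoidHomClass.toOneHomClass
attribute [-instance] instCharZeroOfIsSemireal AlgHom.instContinuousLinearMapClassOfAlgHomClass
  RingHomClass.toLinearMapClassRat RingHomClass.toLinearMapClassNNRat NumberField.to_charZero

-- merged part: Pool.Agent.Work.MP_e120ef_ag.HL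
section
/-!
# An invariant subvariety of the closure of a leaf is the whole closure

Plan.  Take a closed point `p` with `c ⤳ p`, and `t = tr y` with `t q = p` (`exists_pt`, `exists_tr`).  For `a ∈ O A p ∩ mp A c 1` all `ξ^[j] a` are in `mp A c 1 ∩ O A p ⊆ mp A p 1`; pull back by `t`; `Leaf` gives `pb t a ∈ mp A η 1`, so
`a ∈ mp A (t η) 1`, and `spec_of_le` gives `c ⤳ t η`.  So `η ⤳ t η ⤳ t (t η) ⤳ ...`; the closures form a decreasing sequence of closed sets in a noetherian space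
(`TopologicalSpace.NoetherianSpace.wellFounded_closeds`, or `WellFoundedLT`), so `t^[n] η = t^[n+1] η` for some `n`, and `t` is injective (`grp_inv_apply`).
-/

open CategoryTheory AlgebraicGeometry

namespace Pool.Agent.Work.MP_e120ef_ag

theorem HL_fix {Z : Type} [TopologicalSpace Z] [TopologicalSpace.NoetherianSpace Z] [T0Space Z]
    {t : Z → Z} (ht : Continuous t) (hinj : Function.Injective t) {η : Z} (h : η ⤳ t η) :
    t η = η := by
  let C : ℕ → TopologicalSpace.Closeds Z := fun n => ⟨closure {t^[n] η}, isClosed_closure⟩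
  have h1 : ∀ n, t^[n] η ⤳ t^[n] (t η) := fun n => h.map (ht.iterate n)
  obtain ⟨_, ⟨n, rfl⟩, hn⟩ := (wellFounded_lt
    (α := TopologicalSpace.Closeds Z)).has_min (Set.range C) ⟨C 0, 0, rfl⟩
  have h2 : C (n + 1) ≤ C n := by
    intro z hz
    exact specializes_iff_mem_closure.1
      ((h1 n).trans (specializes_iff_mem_closure.2 hz))
  have h3 : C (n + 1) = C n := eq_of_le_of_not_lt h2 (hn _ ⟨n + 1, rfl⟩)
  have h4 : t^[n] η ∈ C (n + 1) := by
    rw [h3]
    exact subset_closure rfl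
  exact (hinj.iterate n) ((specializes_iff_mem_closure.2 h4).antisymm (h1 n)).eq

variable {K : Type} [Field K] [IsAlgClosed K] {A : Sch K} [GrpObj A] [IsProper A.hom]
  [GeometricallyIntegral A.hom]

theorem HL {ξ : Dr A} (hξ : ∀ x, RegAt ξ x) (htr : ∀ y a, ξ (pb (tr y) a) = pb (tr y) (ξ a))
    {η q c : A.left} (hq : IsClosed ({q} : Set A.left)) (hL : Leaf ξ η q) (hc : η ⤳ c)
    (hi : ∀ a ∈ mp A c 1, ξ a ∈ mp A c 1) : c = η := by
  obtain ⟨p, hcp, hp⟩ := exists_closed_spec c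
  obtain ⟨p', rfl⟩ := exists_pt hp
  obtain ⟨q', rfl⟩ := exists_pt hq
  obtain ⟨y, hy⟩ := exists_tr p' q'
  have h1 : ∀ a ∈ mp A c 1, ∀ j, ξ^[j] a ∈ mp A c 1 := fun a ha j => by
    induction j with
    | zero => exact ha
    | succ j ih => rw [Function.iterate_succ_apply']; exact hi _ ih
  have h2 : ∀ a j, ξ^[j] (pb (tr y) a) = pb (tr y) (ξ^[j] a) := fun a j => by
    induction j with
    | zero => rfl
    | succ j ih => rw [Function.iterate_succ_apply', Function.iterate_succ_apply', ih, htr]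
  have h3 : (tr y).left η ⤳ pt p' := hy ▸ hL.1.map (tr y).left.continuous
  have h4 : c ⤳ (tr y).left η := spec_of_le hcp h3 fun a ha ha' => by
    rw [← pb_tr_mem_mp]
    refine hL.2 _ ?_ fun j => ?_
    · rwa [pb_tr_mem_O, hy]
    · rw [h2, pb_tr_mem_mp, hy]
      exact mem_mp_of_spec hcp ((hξ _).iter ha j) (h1 a ha' j)
  have h5 : (tr y).left η = η :=
    HL_fix (tr y).left.continuous (Function.LeftInverse.injective (grp_inv_apply (tr y)))
      (hc.trans h4)
  rw [h5] at h4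
  exact (h4.antisymm hc).eq

end Pool.Agent.Work.MP_e120ef_ag
end

-- merged part: Pool.Agent.Work.MP_e120ef_ag.Flow
section
/-!
# Integral curves

Plans.  `constA`: `liouville`; for a valuation ring `𝒪` containing `K` and stable under `D` take the centre `x` (`exists_ctr`), `b` from `unit x`, and `solve_mem` for `Q k l = ρ (δ k (b l))` (`Sl.det`, `Sl.inv`; `O_le_of_spec`, `IsU.of_spec`).
`Flow.iter`: induction.  `ctr_closed`: `closed_of_val`, `regV_val`.  `flow_leaf`: `van_iter`.  `flow_tan`: define `ev : O X c →ₐ[K] K` by `ρ b - ev b ∈ nonunits` (`regV_val`; a constant which is a nonunit is `0`; the nonunits form an ideal of `regV z`: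
use `ValuationSubring.coe_mem_nonunits_iff` and the residue map), `d b` the value of `D (ρ b)` (`regV_D`); `lift_at` gives `D'` with `ev (D' b) = d b`.  `flow_end`: `HL` with `q` the centre of `regV 1`; invariance from `bddV_D_nonunits`.
-/

open CategoryTheory AlgebraicGeometry

namespace Pool.Agent.Work.MP_e120ef_ag

variable {K M : Type} [NontriviallyNormedField K] [Field M] [Algebra K M] (N : Nev K M)
  {X A : Sch K} [IsIntegral X.left]

/-- `s` is an integral curve of `ξ` -/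
def Flow (s : Sl X M) (ξ : Dr X) : Prop := ∀ a ∈ O X s.η, N.D (s.ρ a) = s.ρ (ξ a)

variable {N}

theorem Flow.iter {s : Sl X M} {ξ : Dr X} (h : Flow N s ξ) (hξ : ∀ x, RegAt ξ x) {a : Fn X}
    (ha : a ∈ O X s.η) (j : ℕ) : N.D^[j] (s.ρ a) = s.ρ (ξ^[j] a) := by
  induction j with
  | zero => rfl
  | succ j ih =>
    rw [Function.iterate_succ_apply', Function.iterate_succ_apply', ih,
      h _ ((hξ _).iter ha j)]

theorem ctr_closed [IsProper X.hom] {s : Sl X M} {z : Kˣ} {c : X.left} (hc : Ctr s (N.regV z) c) :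
    IsClosed ({c} : Set X.left) := by
  refine closed_of_val fun a ha => ?_
  obtain ⟨k, hk⟩ := N.regV_val (hc.mem a ha)
  have h1 : algebraMap K (Fn X) k ∈ O X c := Subalgebra.algebraMap_mem _ _
  refine ⟨k, (hc.non _ (sub_mem ha h1)).1 ?_⟩
  rwa [s.sub (O_le_of_spec hc.spec ha) (O_le_of_spec hc.spec h1), s.alg]

theorem flow_leaf {s : Sl X M} {ξ : Dr X} (h : Flow N s ξ) (hξ : ∀ x, RegAt ξ x) {z : Kˣ}
    {c : X.left} (hc : Ctr s (N.regV z) c) : Leaf ξ s.η c := by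
  refine ⟨hc.spec, fun a ha hj => ?_⟩
  have ha' := O_le_of_spec hc.spec ha
  refine (s.ker a ha').1 (N.van_iter (z := z) fun j => ?_)
  rw [h.iter hξ ha' j]
  exact (hc.non _ ((hξ c).iter ha j)).2 (hj j)

omit [Algebra K M] in
theorem Flow_mul_non {𝒪 : ValuationSubring M} {u v : M} (hu : u ∈ 𝒪) (hv : v ∈ 𝒪.nonunits) :
    u * v ∈ 𝒪.nonunits := by
  rw [ValuationSubring.mem_nonunits_iff] at hv ⊢
  rw [map_mul]
  exact mul_lt_one_of_nonneg_of_lt_one_right ((𝒪.valuation_le_one_iff u).2 hu) zero_le hv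

theorem Flow_const {z : Kˣ} {k : K} (h : algebraMap K M k ∈ (N.regV z).nonunits) : k = 0 := by
  rcases N.regV_nonunits.1 h with h | h
  · exact (algebraMap K M).injective (by rw [h, map_zero])
  · rw [N.ord_alg] at h
    exact absurd h (lt_irrefl _)

theorem Flow_val (z : Kˣ) : ∃ v : M → K,
    (∀ u ∈ N.regV z, u - algebraMap K M (v u) ∈ (N.regV z).nonunits) ∧
    (∀ u ∈ N.regV z, ∀ k, u - algebraMap K M k ∈ (N.regV z).nonunits → v u = k) ∧
    (∀ u ∈ N.regV z, ∀ u' ∈ N.regV z, v (u + u') = v u + v u') ∧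
    (∀ u ∈ N.regV z, ∀ u' ∈ N.regV z, v (u * u') = v u * v u') ∧
    ∀ k, v (algebraMap K M k) = k := by
  classical
  let v : M → K := fun u => if h : u ∈ N.regV z then (N.regV_val h).choose else 0
  have h1 : ∀ u ∈ N.regV z, u - algebraMap K M (v u) ∈ (N.regV z).nonunits := fun u hu => by
    simp only [v, dif_pos hu]
    exact (N.regV_val hu).choose_spec
  have h2 : ∀ u ∈ N.regV z, ∀ k, u - algebraMap K M k ∈ (N.regV z).nonunits → v u = k :=
    fun u hu k hk => by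
      have h3 := sub_mem hk (h1 u hu)
      rw [sub_sub_sub_cancel_left, ← map_sub] at h3
      exact sub_eq_zero.1 (Flow_const h3)
  refine ⟨v, h1, h2, fun u hu u' hu' => h2 _ (add_mem hu hu') _ ?_,
    fun u hu u' hu' => h2 _ (mul_mem hu hu') _ ?_,
    fun k => h2 _ (N.regV_alg z k) _ (by rw [sub_self]; exact zero_mem _)⟩
  · have h3 := add_mem (h1 u hu) (h1 u' hu')
    rw [map_add]
    convert h3 using 1
    ring
  · have h3 := add_mem (Flow_mul_non hu (h1 u' hu'))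
      (Flow_mul_non (N.regV_alg z (v u')) (h1 u hu))
    rw [map_mul]
    convert h3 using 1
    ring

theorem flow_tan [Smooth X.hom] [IsIntegral A.left] {s : Sl X M} {α : X ⟶ A} {ξ : Dr A}
    (h : Flow N (s.map α) ξ) (hξ : ∀ x, RegAt ξ x) {z : Kˣ} {c : X.left}
    (hc : Ctr s (N.regV z) c) : Tan α ξ c := by
  intro a ha H
  obtain ⟨v, h1, h2, h3, h4, h5⟩ := Flow_val (N := N) z
  have hO : ∀ b : O X c, (b : Fn X) ∈ O X s.η := fun b => O_le_of_spec hc.spec b.2
  have hm : ∀ b : O X c, s.ρ b ∈ N.regV z := fun b => hc.mem _ b.2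
  have hD : ∀ b : O X c, N.D (s.ρ b) ∈ N.regV z := fun b => N.regV_D (hm b)
  let ev : O X c →ₐ[K] K :=
    { toFun := fun b => v (s.ρ b)
      map_one' := by simpa [s.one] using h5 1
      map_mul' := fun b b' => by
        rw [Subalgebra.coe_mul, s.mul _ (hO b) _ (hO b'), h4 _ (hm b) _ (hm b')]
      map_zero' := by simpa [s.zero] using h5 0
      map_add' := fun b b' => by
        rw [Subalgebra.coe_add, s.add _ (hO b) _ (hO b'), h3 _ (hm b) _ (hm b')]
      commutes' := fun k => by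
        rw [Subalgebra.coe_algebraMap, s.alg, h5]
        rfl }
  let d : O X c →ₗ[K] K :=
    { toFun := fun b => v (N.D (s.ρ b))
      map_add' := fun b b' => by
        rw [Subalgebra.coe_add, s.add _ (hO b) _ (hO b'), map_add, h3 _ (hD b) _ (hD b')]
      map_smul' := fun k b => by
        rw [Subalgebra.coe_smul, Algebra.smul_def,
          s.mul _ (Subalgebra.algebraMap_mem _ _) _ (hO b), s.alg, ← Algebra.smul_def,
          Derivation.map_smul, Algebra.smul_def, h4 _ (N.regV_alg z k) _ (hD b), h5]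
        rfl }
  obtain ⟨D', H', hD'⟩ := lift_at c ev d fun b b' => by
    change v (N.D (s.ρ ((b * b' : O X c) : Fn X))) =
      v (s.ρ b) * v (N.D (s.ρ b')) + v (s.ρ b') * v (N.D (s.ρ b))
    rw [Subalgebra.coe_mul, s.mul _ (hO b) _ (hO b'), Derivation.leibniz, smul_eq_mul, smul_eq_mul,
      h3 _ (mul_mem (hm b) (hD b')) _ (mul_mem (hm b') (hD b)), h4 _ (hm b) _ (hD b'),
      h4 _ (hm b') _ (hD b)]
  have hb : pb α a ∈ O X c := pb_mem_O ha
  have h6 : v (s.ρ (D' (pb α a))) = v (N.D (s.ρ (pb α a))) := hD' ⟨_, hb⟩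
  have h7 : v (s.ρ (D' (pb α a))) = 0 := by
    refine h2 _ (hc.mem _ (H' _ hb)) 0 ?_
    rw [map_zero, sub_zero]
    exact (hc.non _ (H' _ hb)).2 (H D' H')
  have h8 := h1 _ (hD ⟨_, hb⟩)
  have hc' := hc.map α
  have h9 : N.D (s.ρ (pb α a)) = (s.map α).ρ (ξ a) := h a (O_le_of_spec hc'.spec ha)
  refine (hc'.non _ (hξ _ _ ha)).1 ?_
  rw [← h9]
  change N.D (s.ρ (pb α a)) - algebraMap K M (v (N.D (s.ρ (pb α a)))) ∈ _ at h8
  rwa [← h6, h7, map_zero, sub_zero] at h8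

variable [IsAlgClosed K] [GrpObj A] [IsProper A.hom] [GeometricallyIntegral A.hom]

theorem flow_end {s : Sl A M} {ξ : Dr A} (h : Flow N s ξ) (hξ : ∀ x, RegAt ξ x)
    (htr : ∀ y a, ξ (pb (tr y) a) = pb (tr y) (ξ a)) {𝒰 : Ultrafilter Kˣ} {c : A.left}
    (hc : Ctr s (N.bddV 𝒰) c) : c = s.η := by
  obtain ⟨q, hq⟩ := exists_ctr s (N.regV 1) (N.regV_alg 1)
  refine HL hξ htr (ctr_closed hq) (flow_leaf h hξ hq) hc.spec fun a ha => ?_
  have ha' := mem_O_of_mp ha
  refine (hc.non _ (hξ c a ha')).1 ?_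
  rw [← h a (O_le_of_spec hc.spec ha')]
  exact N.bddV_D_nonunits ((hc.non a ha').2 ha)

omit [IsAlgClosed K] in
theorem constA {g : ℕ} {δ : Fin g → Dr A} (hδ : IsFrame δ) (s : Sl A M) {c : Fin g → M}
    (hc : ∀ a ∈ O A s.η, N.D (s.ρ a) = ∑ i, c i * s.ρ (δ i a)) (i : Fin g) : N.D (c i) = 0 := by
  have key : ∀ 𝒪 : ValuationSubring M, (∀ k : K, algebraMap K M k ∈ 𝒪) →
      (∀ u ∈ 𝒪, N.D u ∈ 𝒪) → c i ∈ 𝒪 := fun 𝒪 hK hD => by
    obtain ⟨x, hx⟩ := exists_ctr s 𝒪 hK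
    obtain ⟨b, hb, hu⟩ := hδ.unit x
    have hQ : ∀ k l, δ k (b l) ∈ O A x := fun k l => hδ.mem k x _ (hb l)
    have hdet := s.det (fun k l => δ k (b l)) fun k l => O_le_of_spec hx.spec (hQ k l)
    have hu' := hu.of_spec hx.spec
    refine solve_mem 𝒪.toSubring (fun k l => s.ρ (δ k (b l))) (fun k l => hx.mem _ (hQ k l))
      ?_ ?_ (fun l => ?_) i
    · rw [← hdet]
      exact s.ne_zero hu'
    · rw [← hdet, ← s.inv hu']
      exact hx.mem _ hu.inv.1
    · rw [← hc _ (O_le_of_spec hx.spec (hb l))]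
      exact hD _ (hx.mem _ (hb l))
  exact N.liouville (fun z => key _ (N.regV_alg z) fun _ => N.regV_D)
    fun 𝒰 => key _ (N.bddV_alg 𝒰) fun _ => N.bddV_D

end Pool.Agent.Work.MP_e120ef_ag
end

-- merged part: Pool.Agent.Work.MP_e120ef_ag.NevE
section
/-!
# The end of the argument

Plans.  `finite_poles`: otherwise take `n > C` distinct poles `z` with `1 < ‖z‖`; for `‖w‖` large `T u w ≥ ∑ log (‖w‖ / ‖z‖) = n log ‖w‖ - const`.
`endgame`: fix `w`.  For `h ∈ H` and every `z`: `max (-ord z h) 0 ≤ ∑ i, (μ / m i) * max (ord z (σ i)) 0`; multiply by the weight and sum: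
`T h w ≤ posLog C + ∑ i, (μ / m i) * T (σ i)⁻¹ w` (`ord z u⁻¹ = -ord z u`).  With `T_inv` and `hT`, `𝒯 ≤ card H * ∑ i, (μ / m i) * (k i * s) * 𝒯 + O(log)`, and `hm` says that the coefficient is at most `1 / 2`.
-/

open Filter Topology

namespace Pool.Agent.Work.MP_e120ef_ag

variable {K M : Type} [NontriviallyNormedField K] [Field M] [Algebra K M] (N : Nev K M)

theorem NevE_sum (u : M) (w : Kˣ) {S : Finset Kˣ} (hS : (N.wt_support u 1 w).toFinset ⊆ S) :
    ∑ᶠ z, ((max (-N.ord z u) 0 : ℤ) : ℝ) * wt 1 w z =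
      ∑ z ∈ S, ((max (-N.ord z u) 0 : ℤ) : ℝ) * wt 1 w z := by
  refine finsum_eq_sum_of_support_subset _ fun z hz => hS ((Set.Finite.mem_toFinset _).2 ?_)
  refine ⟨fun h => hz ?_, fun h => hz ?_⟩ <;> simp [h]

theorem NevE_nonneg (u : M) (w z : Kˣ) : 0 ≤ ((max (-N.ord z u) 0 : ℤ) : ℝ) * wt 1 w z :=
  mul_nonneg (Int.cast_nonneg (le_max_right _ _)) (wt_nonneg _ _ _)

theorem NevE_inv (u : M) (z : Kˣ) : N.ord z u⁻¹ = -N.ord z u := by
  by_cases h : u = 0
  · simp [h, N.ord_zero]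
  have h1 := N.ord_mul z u u⁻¹ h (inv_ne_zero h)
  have h2 := N.ord_alg z 1
  rw [map_one] at h2
  rw [mul_inv_cancel₀ h, h2] at h1
  omega

theorem NevE_one {κ : Type} [Fintype κ] (u : M) (σ : κ → M) (m : κ → ℕ) (μ : ℕ) {C : ℝ}
    (hb : ∀ w, N.nr w u ≤ C)
    (hp : ∀ z, N.ord z u < 0 → -N.ord z u ≤ μ ∧ ∃ i, (m i : ℤ) ≤ N.ord z (σ i))
    (hm0 : ∀ i, 0 < m i) (w : Kˣ) :
    N.T u w ≤ Real.posLog C + ∑ i, (μ / m i : ℝ) * N.T (σ i)⁻¹ w := by
  classical
  refine add_le_add (Real.posLog_le_posLog (N.nr_nonneg _ _) (hb w)) ?_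
  obtain ⟨S, h1, h2⟩ : ∃ S : Finset Kˣ, (N.wt_support u 1 w).toFinset ⊆ S ∧
      ∀ i, (N.wt_support (σ i)⁻¹ 1 w).toFinset ⊆ S :=
    ⟨_ ∪ Finset.univ.biUnion fun i => (N.wt_support (σ i)⁻¹ 1 w).toFinset,
      Finset.subset_union_left, fun i => (Finset.subset_biUnion_of_mem
        (fun i => (N.wt_support (σ i)⁻¹ 1 w).toFinset) (Finset.mem_univ i)).trans
        Finset.subset_union_right⟩
  have h3 : ∀ i, (0 : ℝ) ≤ μ / m i := fun i => by positivity
  calc _ = _ := NevE_sum N u w h1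
    _ ≤ ∑ z ∈ S, ∑ i, (μ / m i : ℝ) * (((max (-N.ord z (σ i)⁻¹) 0 : ℤ) : ℝ) * wt 1 w z) := by
      refine Finset.sum_le_sum fun z _ => ?_
      have h4 : ∀ i ∈ Finset.univ,
          0 ≤ (μ / m i : ℝ) * (((max (-N.ord z (σ i)⁻¹) 0 : ℤ) : ℝ) * wt 1 w z) :=
        fun i _ => mul_nonneg (h3 i) (NevE_nonneg N _ w z)
      by_cases h5 : N.ord z u < 0
      · obtain ⟨h6, i, h7⟩ := hp z h5
        refine le_trans ?_ (Finset.single_le_sum h4 (Finset.mem_univ i))
        rw [← mul_assoc]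
        refine mul_le_mul_of_nonneg_right ?_ (wt_nonneg _ _ _)
        have h8 : ((max (-N.ord z u) 0 : ℤ) : ℝ) ≤ μ := by
          exact_mod_cast max_le h6 (Int.natCast_nonneg μ)
        have h9 : (m i : ℝ) ≤ ((max (-N.ord z (σ i)⁻¹) 0 : ℤ) : ℝ) := by
          rw [NevE_inv, neg_neg]
          exact_mod_cast h7.trans (le_max_left _ _)
        refine h8.trans (le_trans (le_of_eq ?_) (mul_le_mul_of_nonneg_left h9 (h3 i)))
        rw [div_mul_cancel₀ _ (Nat.cast_ne_zero.2 (hm0 i).ne')]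
      · rw [max_eq_right (by omega), Int.cast_zero, zero_mul]
        exact Finset.sum_nonneg h4
    _ ≤ _ := by
      rw [Finset.sum_comm]
      refine Finset.sum_le_sum fun i _ => ?_
      rw [← Finset.mul_sum, ← NevE_sum N _ w (h2 i)]
      exact mul_le_mul_of_nonneg_left (le_add_of_nonneg_left Real.posLog_nonneg) (h3 i)

theorem Nev.finite_poles {u : M} (h : Le (N.T u) fun _ => 0) :
    {z : Kˣ | 1 < ‖(z : K)‖ ∧ N.ord z u < 0}.Finite := by
  classical
  by_contra hi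
  obtain ⟨C, hC⟩ := h
  obtain ⟨n, hn⟩ := exists_nat_ge (C + 1)
  obtain ⟨F, hF, hc⟩ := Set.Infinite.exists_subset_card_eq hi n
  obtain ⟨x, hx⟩ := NormedField.exists_lt_norm K
    (Real.exp |C + ∑ z ∈ F, Real.log ‖(z : K)‖|)
  have hx1 : 1 ≤ ‖x‖ := (Real.one_le_exp (abs_nonneg _)).trans hx.le
  have hx0 : x ≠ 0 := norm_pos_iff.1 (by linarith)
  have h1 := hC (Units.mk0 x hx0) hx1
  have h2 : ∑ z ∈ F, (Real.log ‖x‖ - Real.log ‖(z : K)‖) ≤ N.T u (Units.mk0 x hx0) := by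
    refine le_trans ?_ (le_add_of_nonneg_left Real.posLog_nonneg)
    rw [NevE_sum N u _ (Finset.subset_union_left (s₂ := F))]
    refine le_trans (Finset.sum_le_sum fun z hz => ?_) (Finset.sum_le_sum_of_subset_of_nonneg
      Finset.subset_union_right fun z _ _ => NevE_nonneg N u _ z)
    obtain ⟨h3, h4⟩ := hF hz
    have h5 : (1 : ℝ) ≤ ((max (-N.ord z u) 0 : ℤ) : ℝ) := by
      exact_mod_cast le_max_of_le_left (by omega)
    refine le_trans ?_ (le_mul_of_one_le_left (wt_nonneg _ _ _) h5)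
    rw [wt, if_pos (by simpa using h3), ← Real.log_div (norm_ne_zero_iff.2 hx0) (by positivity)]
    exact le_max_right _ _
  rw [Finset.sum_sub_distrib, Finset.sum_const, hc, nsmul_eq_mul] at h2
  have h3 := (Real.lt_log_iff_exp_lt (by linarith)).2 hx
  have h4 := le_abs_self (C + ∑ z ∈ F, Real.log ‖(z : K)‖)
  have h5 := Real.log_nonneg hx1
  simp only [Units.val_mk0] at h1
  nlinarith

theorem Nev.endgame {ι κ : Type} [Fintype κ] (H : Finset ι) (h : ι → M) (σ : κ → M) (m k : κ → ℕ)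
    (μ s : ℕ) (hb : ∀ a ∈ H, ∃ C : ℝ, ∀ w, N.nr w (h a) ≤ C)
    (hp : ∀ a ∈ H, ∀ z, N.ord z (h a) < 0 →
      -N.ord z (h a) ≤ μ ∧ ∃ i, (m i : ℤ) ≤ N.ord z (σ i))
    (hT : ∀ i, Le (N.T (σ i)) fun w => k i * (s * ∑ a ∈ H, N.T (h a) w))
    (hm0 : ∀ i, 0 < m i) (hm : ∀ i, 2 * s * μ * H.card * Fintype.card κ * k i ≤ m i) :
    Le (fun w => ∑ a ∈ H, N.T (h a) w) fun _ => 0 := by
  have h1 : ∀ a ∈ H, Le (N.T (h a))
      fun w => ∑ i, (μ / m i : ℝ) * (k i * (s * ∑ a ∈ H, N.T (h a) w)) := fun a ha => by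
    obtain ⟨C, hC⟩ := hb a ha
    exact ((Le.of_le fun w _ => NevE_one N (h a) σ m μ hC (hp a ha) hm0 w).trans
      (Le.const _ _)).trans (Le.sum Finset.univ fun i _ =>
        ((N.T_inv (σ i)).trans (hT i)).mul (by positivity))
  obtain ⟨C, hC⟩ := Le.sum H h1
  refine ⟨2 * C, fun w hw => ?_⟩
  have h2 := hC w hw
  have h3 : 0 ≤ ∑ a ∈ H, N.T (h a) w := Finset.sum_nonneg fun a _ => N.T_nonneg _ _
  beta_reduce at h2 ⊢
  generalize ∑ a ∈ H, N.T (h a) w = t at h2 h3 ⊢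
  have h4 : ∀ i, (H.card : ℝ) * ((μ / m i : ℝ) * (k i * (s * t))) ≤
      t / (2 * Fintype.card κ) := fun i => by
    have h5 : (0 : ℝ) < Fintype.card κ := Nat.cast_pos.2 (Fintype.card_pos_iff.2 ⟨i⟩)
    have h6 : (0 : ℝ) < m i := Nat.cast_pos.2 (hm0 i)
    have h7 : (2 * s * μ * H.card * Fintype.card κ * k i : ℝ) ≤ m i := by exact_mod_cast hm i
    rw [le_div_iff₀ (by positivity)]
    calc _ = (2 * s * μ * H.card * Fintype.card κ * k i : ℝ) / m i * t := by ring
      _ ≤ 1 * t := mul_le_mul_of_nonneg_right ((div_le_one h6).2 h7) h3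
      _ = t := one_mul t
  have h5 := Finset.sum_le_sum fun i (_ : i ∈ Finset.univ) => h4 i
  rw [← Finset.mul_sum, Finset.sum_const, nsmul_eq_mul, Finset.card_univ] at h5
  have h6 : (Fintype.card κ : ℝ) * (t / (2 * Fintype.card κ)) ≤ t / 2 := by
    rcases eq_or_ne (Fintype.card κ : ℝ) 0 with e | e
    · rw [e, zero_mul]
      positivity
    · exact le_of_eq (by field_simp)
  simp only [Finset.sum_const, nsmul_eq_mul] at h2
  linarith

end Pool.Agent.Work.MP_e120ef_ag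
end

-- merged part: Pool.Agent.Work.MP_e120ef_ag.Core
section
/-!
# The main estimate
-/

open CategoryTheory AlgebraicGeometry

namespace Pool.Agent.Work.MP_e120ef_ag

theorem exists_open {K : Type} [Field K] {X : Sch K} [IsIntegral X.left] (E : Finset (Fn X))
    (hE : 0 ∉ E) : ∃ W : X.left.Opens, gp X ∈ W ∧ ∀ x ∈ W, ∀ e ∈ E, IsU X x e :=
  ⟨⟨⋂ e ∈ E, {x | IsU X x e}, isOpen_biInter_finset fun e _ => isOpen_isU e⟩,
    Set.mem_iInter₂.2 fun _ he => isU_gp.2 fun h => hE (h ▸ he),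
    fun _ hx e he => Set.mem_iInter₂.1 hx e he⟩

variable {K M : Type} [NontriviallyNormedField K] [IsAlgClosed K] [CharZero K] [Field M]
  [Algebra K M] (N : Nev K M) {X A : Sch K} [IsIntegral X.left] [IsProper X.hom] [Smooth X.hom]
  [GrpObj A] [IsProper A.hom] [GeometricallyIntegral A.hom]

theorem core {α : X ⟶ A} (hα : Dom α) {g : ℕ} {δ : Fin g → Dr A} (hδ : ∀ k x, RegAt (δ k) x)
    {ξ : Dr A} (hξ : ∀ x, RegAt ξ x) (htr : ∀ y a, ξ (pb (tr y) a) = pb (tr y) (ξ a))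
    (H : Finset (Fn X)) (hH : ∀ h ∈ H, Good α δ h)
    (halg : ∀ a : Fn A,
      IsAlgebraic (Algebra.adjoin K {u | ∃ h ∈ H, ∃ h' ∈ H, u = h / h'}) (pb α a))
    (hs : ∀ W : X.left.Opens, gp X ∈ W → ∃ s : Sl X M, s.η ∈ W ∧ Flow N (s.map α) ξ)
    (b : Fn A) : ξ b = 0 := by
  classical
  by_contra hb
  have := av_smooth A
  have hb0 : b ≠ 0 := fun h => hb (by rw [h, map_zero])
  choose 𝒵 Eb h𝒵f h𝒵c hEb hbad using fun h : H => bad hα hδ hξ (hH h.1 h.2)
  choose Em μ hEm hmul using fun h : H => mult hα hδ hξ (hH h.1 h.2)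
  obtain ⟨𝒰, h𝒰f, h𝒰a, -, h𝒰c⟩ := fin_cover A
  let κ := {p : A.left × A.left.Opens // (∃ h, p.1 ∈ 𝒵 h) ∧ p.2 ∈ 𝒰 ∧ p.1 ∈ p.2}
  have : Finite κ := ((Set.finite_iUnion h𝒵f).prod h𝒰f).subset
    (fun p hp => ⟨Set.mem_iUnion.2 hp.1, hp.2.1⟩) |>.to_subtype
  let := Fintype.ofFinite κ
  choose n y hy using fun p : κ =>
    aux hξ (h𝒵c _ _ p.2.1.choose_spec) (h𝒰a _ p.2.2.1) p.2.2.2
  obtain ⟨Ec, s, hEc, hctl⟩ := ctl N H (insert (pb α b)
    (Finset.univ.biUnion fun p : κ => Finset.univ.image fun i => pb α (y p i))) fun a ha => by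
      simp only [Finset.mem_insert, Finset.mem_biUnion, Finset.mem_image] at ha
      rcases ha with rfl | ⟨p, -, i, -, rfl⟩ <;> exact halg _
  let n₀ := Finset.univ.sup n
  let μ₀ := Finset.univ.sup μ
  let L := 2 * (n₀ * s) * μ₀ * H.card * Fintype.card κ + 1
  choose k σ hσ0 hσd hσB hσv using fun p => hy p L
  obtain ⟨W₁, hW₁, hU₁⟩ := exists_open Ec hEc
  obtain ⟨W₂, hW₂, hU₂⟩ := exists_open (insert b (insert (ξ b) (Finset.univ.biUnion Eb ∪
    Finset.univ.biUnion Em ∪ Finset.univ.image fun p => MvPolynomial.aeval (y p) (σ p)))) (by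
      simp only [Finset.mem_insert, Finset.mem_union, Finset.mem_biUnion, Finset.mem_image]
      rintro (h | h | (⟨h, -, hh⟩ | ⟨h, -, hh⟩) | ⟨p, -, hp⟩)
      exacts [hb0 h.symm, hb h.symm, hEb h hh, hEm h hh, hσ0 p hp])
  obtain ⟨sl, hsl, hfl⟩ := hs (W₁ ⊓ α.left ⁻¹ᵁ W₂) ⟨hW₁, hα.gp_mem hW₂⟩
  obtain ⟨hHO, hT⟩ := hctl sl (hU₁ _ hsl.1)
  have hU := hU₂ _ hsl.2
  simp only [Finset.mem_insert, Finset.mem_union, Finset.mem_biUnion, Finset.mem_image,
    Finset.mem_univ, true_and] at hU hT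
  have hUm : ∀ h, ∀ a ∈ Em h, IsU A (sl.map α).η a := fun h a ha =>
    hU a (.inr (.inr (.inl (.inr ⟨h, ha⟩))))
  have hUσ : ∀ p, IsU A (sl.map α).η (MvPolynomial.aeval (y p) (σ p)) := fun p =>
    hU _ (.inr (.inr (.inr ⟨p, rfl⟩)))
  have hend : ∀ 𝒱 : Ultrafilter Kˣ, ∃ c, Ctr sl (N.bddV 𝒱) c ∧ α.left c = (sl.map α).η := fun 𝒱 =>
    (exists_ctr sl _ (N.bddV_alg 𝒱)).imp fun c hc => ⟨hc, flow_end hfl hξ htr (hc.map α)⟩
  have hle : Le (fun w => ∑ h ∈ H, N.T (sl.ρ h) w) fun _ => 0 := by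
    refine N.endgame H sl.ρ (fun p => (sl.map α).ρ (MvPolynomial.aeval (y p) (σ p)))
      (fun p => L * (k p + 1)) k μ₀ (n₀ * s) (fun h hh => N.bdd_of_ultra fun 𝒱 => ?_)
      (fun h hh z hz => ?_) (fun p => ?_) (fun p => by positivity) fun p => ?_
    · obtain ⟨c, hc, e⟩ := hend 𝒱
      obtain ⟨a, ha, h1, h2, -⟩ := hmul ⟨h, hh⟩ c
      exact hc.mem _ (((pb_isU h1).2 (e ▸ hUm _ a ha)).mul_mem_O_iff.1 h2)
    · obtain ⟨c, hc⟩ := exists_ctr sl _ (N.regV_alg z)
      have hc' := hc.map α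
      have hl := flow_leaf hfl hξ hc'
      constructor
      · obtain ⟨a, ha, h1, h2, h3⟩ := hmul ⟨h, hh⟩ c
        have h4 := hUm _ a ha
        have h5 : N.ord z ((sl.map α).ρ a) ≤ μ ⟨h, hh⟩ := by
          by_contra h6
          refine h4.2 (hl.2 a h1 (h3 fun j hj => (hc'.non _ ((hξ _).iter h1 j)).1 ?_))
          rw [← hfl.iter hξ h4.1]
          exact N.ord_iter (by omega)
        have h6 := N.mem_regV.1 (hc.mem _ h2)
        have h7 := N.ord_mul z _ (sl.ρ h) ((sl.map α).ne_zero h4)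
          (fun h0 => by rw [h0, N.ord_zero] at hz; exact hz.false)
        have h8 : μ ⟨h, hh⟩ ≤ μ₀ := Finset.le_sup (Finset.mem_univ _)
        rw [sl.mul _ (pb_mem_O h4.1) _ (hHO h hh)] at h6
        have h9 := h6.trans_eq h7
        omega
      · obtain ⟨Z, hZ, h1⟩ := hbad ⟨h, hh⟩ _ c (fun e he => hU e (.inr (.inr (.inl (.inl ⟨_, he⟩)))))
          hl (flow_tan hfl hξ hc) fun h2 => (N.mem_regV.1 (hc.mem _ h2)).not_gt hz
        obtain ⟨U, hU', h2⟩ := h𝒰c (α.left c)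
        let p : κ := ⟨(Z, U), ⟨_, hZ⟩, hU', h1.mem_open U.isOpen h2⟩
        have h3 := B_le_O h2 (hσB p)
        refine ⟨p, N.ord_ge ((sl.map α).ne_zero (hUσ p)) (fun j hj => ?_) (hc'.mem _ h3)⟩
        rw [hfl.iter hξ (hUσ p).1]
        exact (hc'.non _ ((hξ _).iter h3 j)).2 (mem_mp_of_spec h1 ((hξ _).iter h3 j) (hσv p j hj))
    · have h1 := fun i => hT _ (.inr ⟨p, i, rfl⟩)
      have h2 : (sl.map α).ρ (MvPolynomial.aeval (y p) (σ p)) =
          MvPolynomial.aeval (fun i => sl.ρ (pb α (y p i))) (σ p) :=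
        (congrArg sl.ρ (MvPolynomial.comp_aeval_apply (y p) (pbF hα) (σ p))).trans
          (sl.aeval (fun i => (h1 i).1) _).2
      rw [h2]
      refine (N.T_poly _ _ (hσd p)).trans (Le.mul ?_ (Nat.cast_nonneg _))
      refine (Le.sum _ fun i _ => (h1 i).2).trans (Le.of_le fun w _ => ?_)
      have h3 : (n p : ℝ) ≤ n₀ := Nat.cast_le.2 (Finset.le_sup (Finset.mem_univ p))
      have h4 : 0 ≤ (s : ℝ) * ∑ h ∈ H, N.T (sl.ρ h) w :=
        mul_nonneg (Nat.cast_nonneg _) (Finset.sum_nonneg fun _ _ => N.T_nonneg _ _)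
      rw [Finset.sum_const, Finset.card_univ, Fintype.card_fin, nsmul_eq_mul, Nat.cast_mul,
        mul_assoc]
      exact mul_le_mul_of_nonneg_right h3 h4
    · exact Nat.mul_le_mul (Nat.le_succ _) (Nat.le_succ _)
  obtain ⟨𝒱, h𝒱⟩ := exists_ultra (K := K)
  obtain ⟨c, hc, e⟩ := hend 𝒱
  have hc' := hc.map α
  rw [e] at hc'
  have h1 : IsU A (sl.map α).η b := hU b (.inl rfl)
  have h2 : IsU A (sl.map α).η (ξ b) := hU _ (.inr (.inl rfl))
  have h3 := N.decay (N.finite_poles (((hT _ (.inl rfl)).2.trans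
    (hle.mul (Nat.cast_nonneg s))).trans (Le.of_le fun w _ => (mul_zero _).le))) h𝒱 (hc'.mem b h1.1)
  exact h2.2 ((hc'.non _ h2.1).1 (hfl b h1.1 ▸ h3))

end Pool.Agent.Work.MP_e120ef_ag
end

-- merged part: Pool.Agent.Work.MP_e120ef_ag.Main
section
/-!
# The theorem for an abstract field of meromorphic functions
-/

open CategoryTheory AlgebraicGeometry

namespace Pool.Agent.Work.MP_e120ef_ag

variable {K M M₁ V : Type} [NontriviallyNormedField K] [IsAlgClosed K] [CharZero K] [Field M]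
  [Algebra K M] [Field M₁] [Algebra K M₁] (N : Nev K M₁) {X A : Sch K} [IsIntegral X.left]
  [IsProper X.hom] [Smooth X.hom] [GrpObj A] [IsProper A.hom] [GeometricallyIntegral A.hom]

omit [IsAlgClosed K] [CharZero K] in
theorem stepA {d : Derivation K M M} (hgen : Gen d N.D) {g : ℕ} {δ : Fin g → Dr A} (hδ : IsFrame δ)
    (j : Fn A →ₐ[K] M) {c : Fin g → M} (hc : ∀ a, d (j a) = ∑ i, c i * j (δ i a)) (i : Fin g) :
    d (c i) = 0 := by
  by_contra hne
  obtain ⟨s, σ, -, he, hS, hρ⟩ := xslice hgen j ⊤ trivial {d (c i)} (by simpa using Ne.symm hne)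
  obtain ⟨b, hb, hu⟩ := hδ.unit σ.η
  have e : (Matrix.of fun k l => j (δ k (b l))).det = j (Matrix.of fun k l => δ k (b l)).det :=
    (j.map_det _).symm
  have h1 : ∀ k, c k ∈ s.S := solve_mem s.S.toSubring (fun k l => j (δ k (b l)))
    (fun k l => hS _ (hδ.mem k _ _ (hb l))) (by rw [e]; exact (_root_.map_ne_zero j).2 hu.ne_zero)
    (by rw [e, ← map_inv₀]; exact hS _ hu.inv.1) fun l => by
      rw [← hc]
      exact s.d_mem _ (hS _ (hb l))
  have h2 := constA (N := N) hδ σ (c := fun k => s.r (c k)) (fun a ha => by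
    have h3 : ∀ k, j (δ k a) ∈ s.S := fun k => hS _ (hδ.mem k _ _ ha)
    rw [hρ, ← s.r_d _ (hS a ha), hc, s.r_sum _ fun k _ => mul_mem (h1 k) (h3 k)]
    exact Finset.sum_congr rfl fun k _ => by rw [s.r_mul _ (h1 k) _ (h3 k), hρ]) i
  exact (he _ (Finset.mem_singleton_self _)).2 ((s.r_d _ (h1 i)).trans h2)

omit [IsAlgClosed K] [CharZero K] [IsProper A.hom] in
theorem stepB {d d' : Derivation K M M} (hcomm : ∀ u, d (d' u) = d' (d u)) {g : ℕ}
    {δ : Fin g → Dr A} (hδ : IsFrame δ) (j : Fn A →ₐ[K] M) {c c' : Fin g → M}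
    (hc : ∀ a, d (j a) = ∑ i, c i * j (δ i a)) (hc' : ∀ a, d' (j a) = ∑ i, c' i * j (δ i a))
    (i : Fin g) : d (c' i) = d' (c i) := by
  obtain ⟨b, -, hu⟩ := hδ.unit (gp A)
  have h0 : (Matrix.of fun k l => j (δ k (b l))).det ≠ 0 :=
    (j.map_det _).symm.trans_ne ((_root_.map_ne_zero j).2 hu.ne_zero)
  refine sub_eq_zero.1 (congrFun (Matrix.eq_zero_of_vecMul_eq_zero h0
    (v := fun k => d (c' k) - d' (c k)) (funext fun l => ?_)) i)
  have h1 := hcomm (j (b l))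
  rw [hc', hc, map_sum, map_sum] at h1
  simp only [Derivation.leibniz, smul_eq_mul, hc, hc', Finset.sum_add_distrib, Finset.mul_sum] at h1
  have h2 : ∑ k, ∑ i, c' k * (c i * j (δ i (δ k (b l)))) =
      ∑ k, ∑ i, c k * (c' i * j (δ i (δ k (b l)))) := by
    rw [Finset.sum_comm]
    exact Finset.sum_congr rfl fun k _ => Finset.sum_congr rfl fun i _ => by
      rw [hδ.comm, mul_left_comm]
  rw [h2, add_right_inj] at h1
  simp only [Matrix.vecMul, dotProduct, Matrix.of_apply, mul_sub, Finset.sum_sub_distrib,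
    Pi.zero_apply, mul_comm _ (j _), h1, sub_self]

theorem main_abs (DD : V → Derivation K M M) (hcomm : ∀ v w u, DD v (DD w u) = DD w (DD v u))
    (hconst : ∀ u, (∀ v, DD v u = 0) → ∃ c : K, u = algebraMap K M c) {v : V}
    (hgen : Gen (DD v) N.D) {α : X ⟶ A} (hα : Dom α) {g : ℕ} {t : Fin g → Fn A}
    (ht : IsTranscendenceBasis K t) {m : ℕ}
    (halg : ∀ a : Fn A, AlgQ K (Pluri (O X) (fun i => pb α (t i)) m) (pb α a))
    (ι : Fn X →ₐ[K] M) (h : Fn A) : DD v (ι (pb α h)) = 0 := by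
  classical
  obtain ⟨g', δ, hδ⟩ := exists_frame A
  have span : ∀ D : Dr A, ∃ c : Fin g' → Fn A, ∀ a, D a = ∑ k, c k * δ k a := fun D =>
    hδ.span (Fn A) (AlgHom.id K _) D fun a b => D.leibniz a b
  obtain ⟨b, -, hu⟩ := hδ.unit (gp A)
  obtain rfl : g = g' := frame_card δ span b hu.ne_zero ht
  let j := ι.comp (pbF hα)
  choose c hc using fun w => hδ.span M j ((DD w : M →ₗ[K] M) ∘ₗ j.toLinearMap) fun a b => by
    exact (congrArg (DD w) (map_mul j a b)).trans ((DD w).leibniz _ _)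
  replace hc : ∀ w a, DD w (j a) = ∑ i, c w i * j (δ i a) := hc
  have h1 : ∀ i w, DD w (c v i) = 0 := fun i w => by
    by_contra hne
    have h2 := stepB (hcomm v w) hδ j (hc v) (hc w) i
    have h3 : c w i ≠ 0 := fun h => hne (by rw [← h2, h, map_zero])
    obtain ⟨s, hs⟩ := hgen {DD w (c v i), c w i} (by simpa using ⟨Ne.symm hne, h3.symm⟩)
    obtain ⟨h4, h5⟩ := hs (DD w (c v i)) (by simp)
    obtain ⟨κ, hκ⟩ := N.D_const (u := s.r (DD w (c v i))) (by
      rw [← s.r_d _ h4, hcomm, stepA N hgen hδ j (hc v), map_zero, s.r_zero])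
    have h6 := N.res (s.r (c w i)) κ (by rw [← s.r_d _ (hs _ (by simp)).1, h2, hκ])
    exact h5 (by rw [hκ, h6, map_zero])
  choose κ hκ using fun i => hconst _ (h1 i)
  obtain ⟨ξ, hξ⟩ : ∃ ξ : Dr A, ∀ a, ξ a = ∑ i, κ i • δ i a :=
    ⟨∑ i, κ i • δ i, fun a => (congrFun (map_sum (Derivation.coeFnAddMonoidHom (R := K)
      (A := Fn A) (M := Fn A)) _ _) a).trans (Finset.sum_apply a _ _)⟩
  have h2 : ∀ a, DD v (j a) = j (ξ a) := fun a => by
    rw [hc, hξ, map_sum]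
    exact Finset.sum_congr rfl fun i _ => by rw [hκ, map_smul, Algebra.smul_def]
  obtain ⟨H, hH, hH'⟩ := fin_alg (pbF hα) ht halg
  have h0 := (_root_.map_ne_zero (pbF hα)).2 (frame_det δ span ht)
  refine (h2 h).trans ((congrArg j (core N hα hδ.mem (fun x a ha => ?_) (fun y a => ?_)
    (H.image fun u => u * pbF hα (Matrix.of fun i k => δ k (t i)).det ^ m) (fun u hu x D h3 h4 => ?_)
    (fun a => ?_) (fun W hW => ?_) h)).trans (map_zero j))
  · rw [hξ]
    exact sum_mem fun i _ => Subalgebra.smul_mem _ (hδ.mem i x a ha) _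
  · rw [hξ, hξ, ← pbF_apply (dom_tr y), ← pbF_apply (dom_tr y), map_sum]
    exact Finset.sum_congr rfl fun i _ => by rw [map_smul, pbF_apply, pbF_apply, hδ.tr]
  · obtain ⟨u', hu', rfl⟩ := Finset.mem_image.1 hu
    have h5 := hH u' hu' x D h3
    simp only [h4] at h5
    rw [AlgHom.map_det]
    exact h5
  · rw [show {u | ∃ h ∈ H.image _, ∃ h' ∈ H.image _, u = h / h'} =
      {u | ∃ h ∈ H, ∃ h' ∈ H, u = h / h'} by simp only [Finset.mem_image, exists_exists_and_eq_and,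
        mul_div_mul_right _ _ (pow_ne_zero m h0)]]
    exact hH' a
  · obtain ⟨s, σ, h3, -, h4, h5⟩ := xslice hgen ι W hW ∅ (Finset.notMem_empty 0)
    refine ⟨σ, h3, fun a ha => ?_⟩
    change N.D (σ.ρ (pb α a)) = σ.ρ (pb α (ξ a))
    rw [h5, h5, ← s.r_d _ (h4 _ (pb_mem_O ha))]
    exact congrArg s.r (h2 a)

end Pool.Agent.Work.MP_e120ef_ag
end

-- merged part: Pool.Agent.Work.MP_e120ef_ag.Mer
section
/-!
# Meromorphic functions on the punctured line carry the data `Nev`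

Plans.  For `u = p / q` (`IsFractionRing.div_surjective`, or `IsLocalization.sec`) put `nr w u = gn (pk w) p / gn (pk w) q`, and `ord z u = ord₀ (pk z) p - ord₀ (pk z) q` for `u ≠ 0`; both do not depend on the
representation (`gn_mul`, `ord₀_mul`; prove `nr_div`, `ord_div` for arbitrary `p`, `q ≠ 0` first; two elements have a common denominator).  `D` from `frac_ext`; `D (p / q) = (D1 p * q - p * D1 q) / q ^ 2`
(`Derivation.leibniz_div`).  `ord_D`: `u = lin z ^ a * g / (lin z ^ b * g')` with `g z ≠ 0`, `g' z ≠ 0`, `a ≠ b`; then `lin z * D u = u * e / (g g')` with `e = (a - b) Zf g g' + lin z * (D1 g * g' - g * D1 g')`, `e z ≠ 0`.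
`ord_val`: `c = g z / g' z`.  `jensen`: subtract `jensen₀` (`finsum_sub_distrib`, supports are finite by `fin₀`: the weight vanishes outside the closed annulus between the radii).  `res`: `no_log`.
-/

open Filter Topology

namespace Pool.Agent.Work.MP_e120ef_ag

variable (K : Type) [NontriviallyNormedField K] [IsUltrametricDist K] [IsAlgClosed K]
  [CompleteSpace K] [CharZero K]

section aux

variable {K}

omit [CharZero K]

variable {F : Type} [Field F] [Algebra K F] {i : L1 K True →+* F}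

/-- `i` is an embedding in a fraction field -/
structure Mer_H (i : L1 K True →+* F) : Prop where
  ne : ∀ {q : L1 K True}, q ≠ 0 → i q ≠ 0
  rep : ∀ u : F, ∃ p q : L1 K True, q ≠ 0 ∧ u = i p / i q
  alg : ∀ c : K, algebraMap K F c = i (algebraMap K (L1 K True) c) / i 1

theorem Mer_rep' (H : Mer_H i) {u : F} (hu : u ≠ 0) :
    ∃ p q : L1 K True, p ≠ 0 ∧ q ≠ 0 ∧ u = i p / i q := by
  obtain ⟨p, q, hq, e⟩ := H.rep u
  refine ⟨p, q, ?_, hq, e⟩
  rintro rfl
  rw [map_zero, zero_div] at e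
  exact hu e

theorem Mer_rep2 (H : Mer_H i) (u v : F) :
    ∃ p p' q : L1 K True, q ≠ 0 ∧ u = i p / i q ∧ v = i p' / i q := by
  obtain ⟨p, q, hq, rfl⟩ := H.rep u
  obtain ⟨p', q', hq', rfl⟩ := H.rep v
  refine ⟨p * q', q * p', q * q', mul_ne_zero hq hq', ?_, ?_⟩
  · rw [map_mul, map_mul, mul_div_mul_right _ _ (H.ne hq')]
  · rw [map_mul, map_mul, mul_div_mul_left _ _ (H.ne hq)]

theorem Mer_cross (H : Mer_H i) {p q p' q' : L1 K True} (hq : q ≠ 0) (hq' : q' ≠ 0)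
    (h : i p / i q = i p' / i q') : p * q' = p' * q := by
  rw [div_eq_div_iff (H.ne hq) (H.ne hq'), ← map_mul, ← map_mul] at h
  by_contra k
  exact H.ne (sub_ne_zero.2 k) (by rw [RingHom.map_sub, h, sub_self])

theorem Mer_mul (p q p' q' : L1 K True) :
    i p / i q * (i p' / i q') = i (p * p') / i (q * q') := by
  rw [map_mul, map_mul, div_mul_div_comm]

theorem Mer_gn_pos (w : Pt1 K True) {q : L1 K True} (hq : q ≠ 0) : 0 < gn w q :=
  (gn_nonneg q w).lt_of_ne' fun h => hq (gn_eq_zero_imp h)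

theorem Mer_gn_sub (w : Pt1 K True) (f g : L1 K True) : gn w (f - g) ≤ max (gn w f) (gn w g) := by
  have e : gn w (-g) = gn w g := by
    rw [neg_eq_neg_one_mul g, ← map_one (algebraMap K (L1 K True)), ← map_neg, gn_mul, gn_algebraMap,
      norm_neg, norm_one, one_mul]
  rw [sub_eq_add_neg, ← e]
  exact gn_add_le w f (-g)

theorem Mer_nr (H : Mer_H i) : ∃ nr : Kˣ → F → ℝ, ∀ w (p q : L1 K True), q ≠ 0 →
    nr w (i p / i q) = gn (pk w) p / gn (pk w) q := by
  choose a b hb e using H.rep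
  refine ⟨fun w u => gn (pk w) (a u) / gn (pk w) (b u), fun w p q hq => ?_⟩
  have h := congrArg (gn (pk w)) (Mer_cross H hq (hb _) (e (i p / i q)))
  rw [gn_mul, gn_mul] at h
  exact (div_eq_div_iff (Mer_gn_pos _ (hb _)).ne' (Mer_gn_pos _ hq).ne').2 h.symm

theorem Mer_ord (H : Mer_H i) : ∃ ord : Kˣ → F → ℤ, (∀ z, ord z 0 = 0) ∧
    ∀ z (p q : L1 K True), p ≠ 0 → q ≠ 0 →
      ord z (i p / i q) = (ord₀ (pk z) p : ℤ) - ord₀ (pk z) q := by
  classical
  choose a b hb e using H.rep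
  refine ⟨fun z u => if u = 0 then 0 else (ord₀ (pk z) (a u) : ℤ) - ord₀ (pk z) (b u),
    fun z => if_pos rfl, fun z p q hp hq => ?_⟩
  have h := Mer_cross H hq (hb _) (e (i p / i q))
  have ha : a (i p / i q) ≠ 0 := fun k => by
    rw [k, zero_mul] at h
    exact mul_ne_zero hp (hb _) h
  have h' := congrArg (ord₀ (pk z)) h
  rw [ord₀_mul hp (hb _), ord₀_mul ha hq] at h'
  simp only [if_neg (div_ne_zero (H.ne hp) (H.ne hq))]
  omega

omit [IsAlgClosed K] in
theorem Mer_val {g : L1 K True} {z : Pt1 K True} (h : g.1 z ≠ 0) : g ≠ 0 := by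
  rintro rfl
  exact h rfl

theorem Mer_unit {g : L1 K True} {z : Pt1 K True} (h : g.1 z ≠ 0) : ord₀ z g = 0 :=
  (ord₀_eq_zero (Mer_val h) z).2 h

section
variable (H : Mer_H i) {ord : Kˣ → F → ℤ}
  (ho : ∀ z (p q : L1 K True), p ≠ 0 → q ≠ 0 →
    ord z (i p / i q) = (ord₀ (pk z) p : ℤ) - ord₀ (pk z) q)
include H ho

theorem Mer_nf (z : Kˣ) {u : F} (hu : u ≠ 0) :
    ∃ g g' : L1 K True, g.1 (pk z) ≠ 0 ∧ g'.1 (pk z) ≠ 0 ∧
      u = i (lin (z : K)) ^ ord z u * (i g / i g') := by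
  obtain ⟨p, q, hp, hq, rfl⟩ := Mer_rep' H hu
  obtain ⟨g, hg, e⟩ := ord₀_spec hp (pk z)
  obtain ⟨g', hg', e'⟩ := ord₀_spec hq (pk z)
  refine ⟨g, g', hg, hg', ?_⟩
  rw [ho z p q hp hq, zpow_sub₀ (H.ne (lin_ne_zero _)), zpow_natCast, zpow_natCast,
    ← map_pow, ← map_pow, Mer_mul, ← e, ← e']

theorem Mer_of_nf (z : Kˣ) {g g' : L1 K True} (hg : g.1 (pk z) ≠ 0) (hg' : g'.1 (pk z) ≠ 0)
    (n : ℤ) : ord z (i (lin (z : K)) ^ n * (i g / i g')) = n := by
  obtain ⟨a, b, rfl⟩ : ∃ a b : ℕ, n = a - b := ⟨n.toNat, (-n).toNat, by omega⟩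
  rw [zpow_sub₀ (H.ne (lin_ne_zero _)), zpow_natCast, zpow_natCast, ← map_pow, ← map_pow,
    Mer_mul, ho z _ _ (mul_ne_zero (pow_ne_zero _ (lin_ne_zero _)) (Mer_val hg))
      (mul_ne_zero (pow_ne_zero _ (lin_ne_zero _)) (Mer_val hg')), ord₀_eq hg rfl, ord₀_eq hg' rfl]

end

theorem Mer_D (H : Mer_H i) {D : Derivation K F F}
    (hD : ∀ f, D (i f) = i (D1 K True f)) (p : L1 K True) {q : L1 K True} (hq : q ≠ 0) :
    D (i p / i q) = i (D1 K True p * q - p * D1 K True q) / i (q * q) := by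
  have := H.ne hq
  rw [Derivation.leibniz_div, hD, hD, map_sub, map_mul, map_mul, map_mul, smul_eq_mul, smul_eq_mul,
    smul_eq_mul]
  field_simp

theorem Mer_fin (f : L1 K True) (w₁ w₂ : Kˣ) :
    (Function.support fun z => (ord₀ (pk z) f : ℝ) * wt w₁ w₂ z).Finite := by
  refine ((fin₀ f w₁ w₂).union (fin₀ f w₂ w₁)).subset fun z hz => ?_
  obtain ⟨h1, h2⟩ := mul_ne_zero_iff.1 hz
  have h1' : ord₀ (pk z) f ≠ 0 := by exact_mod_cast h1
  have a := norm_pos_iff.2 z.ne_zero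
  have b := norm_pos_iff.2 w₂.ne_zero
  rw [wt] at h2
  split_ifs at h2 with h
  · rw [Ne, Real.posLog_eq_zero_iff, not_le, abs_of_pos (div_pos b a), one_lt_div a] at h2
    exact Or.inl ⟨h.le, h2.le, h1'⟩
  · rw [Ne, Real.posLog_eq_zero_iff, not_le, abs_of_pos (div_pos a b), one_lt_div b] at h2
    exact Or.inr ⟨h2.le, not_lt.1 h, h1'⟩

end aux

variable {K} in
theorem Mer_main {F : Type} [Field F] [Algebra K F] {i : L1 K True →+* F} (H : Mer_H i)
    {D : Derivation K F F} (hD : ∀ f, D (i f) = i (D1 K True f)) :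
    ∃ N : Nev K F, ∀ f : L1 K True, N.D (i f) = i (D1 K True f) := by
  obtain ⟨nr, hn⟩ := Mer_nr H
  obtain ⟨ord, o0, ho⟩ := Mer_ord H
  refine ⟨⟨nr, ord, D, fun w u => ?_, fun w u => ?_, fun w u v => ?_, fun w u v => ?_,
    fun w c => ?_, fun w u => ?_, o0, fun z u v hu hv => ?_, fun z u v hu hv huv => ?_,
    fun z c => ?_, fun z u h => ?_, fun z u h => ?_, fun u w₁ w₂ => ?_, fun u hu w₁ => ?_,
    fun u c h => ?_⟩, hD⟩
  · obtain ⟨p, q, hq, rfl⟩ := H.rep u
    rw [hn w p q hq]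
    exact div_nonneg (gn_nonneg _ _) (gn_nonneg _ _)
  · obtain ⟨p, q, hq, rfl⟩ := H.rep u
    rw [hn w p q hq, div_eq_zero_iff, div_eq_zero_iff, or_iff_left (Mer_gn_pos _ hq).ne',
      or_iff_left (H.ne hq)]
    refine ⟨fun h => by rw [gn_eq_zero_imp h, map_zero], fun h => ?_⟩
    by_contra k
    exact H.ne (fun e => k (by rw [e, gn_zero])) h
  · obtain ⟨p, q, hq, rfl⟩ := H.rep u
    obtain ⟨p', q', hq', rfl⟩ := H.rep v
    rw [Mer_mul, hn w p q hq, hn w p' q' hq', hn w _ _ (mul_ne_zero hq hq'), gn_mul, gn_mul,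
      div_mul_div_comm]
  · obtain ⟨p, p', q, hq, rfl, rfl⟩ := Mer_rep2 H u v
    rw [← add_div, ← map_add, hn w _ _ hq, hn w _ _ hq, hn w _ _ hq,
      max_div_div_right (gn_nonneg _ _)]
    exact div_le_div_of_nonneg_right (gn_add_le _ _ _) (gn_nonneg _ _)
  · rw [H.alg, hn w _ _ one_ne_zero, ← map_one (algebraMap K (L1 K True)), gn_algebraMap,
      gn_algebraMap, norm_one, div_one]
  · obtain ⟨p, q, hq, rfl⟩ := H.rep u
    have a := Mer_gn_pos (pk w) hq
    rw [Mer_D H hD p hq, hn w _ _ (mul_ne_zero hq hq), hn w _ _ hq, gn_mul,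
      ← mul_div_mul_right (gn (pk w) p) _ a.ne']
    refine div_le_div_of_nonneg_right ((Mer_gn_sub _ _ _).trans (max_le ?_ ?_)) (by positivity)
    · rw [gn_mul]
      exact mul_le_mul_of_nonneg_right (gn_D1 _ _) a.le
    · rw [gn_mul]
      exact mul_le_mul_of_nonneg_left (gn_D1 _ _) (gn_nonneg _ _)
  · obtain ⟨p, q, hp, hq, rfl⟩ := Mer_rep' H hu
    obtain ⟨p', q', hp', hq', rfl⟩ := Mer_rep' H hv
    rw [Mer_mul, ho z p q hp hq, ho z p' q' hp' hq',
      ho z _ _ (mul_ne_zero hp hp') (mul_ne_zero hq hq'), ord₀_mul hp hp', ord₀_mul hq hq']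
    push_cast
    ring
  · obtain ⟨p, p', q, hq, rfl, rfl⟩ := Mer_rep2 H u v
    rw [← add_div, ← map_add] at huv ⊢
    have a : ∀ f : L1 K True, i f / i q ≠ 0 → f ≠ 0 := by
      rintro f hf rfl
      exact hf (by rw [map_zero, zero_div])
    rw [ho z _ _ (a _ hu) hq, ho z _ _ (a _ hv) hq, ho z _ _ (a _ huv) hq]
    have := ord₀_add (a _ huv) (a _ hu) (a _ hv) (pk z)
    omega
  · by_cases hc : c = 0
    · rw [hc, map_zero, o0]
    · have a : (algebraMap K (L1 K True) c).1 (pk z) ≠ 0 := hc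
      have b : (1 : L1 K True).1 (pk z) ≠ 0 := one_ne_zero (α := K)
      rw [H.alg, ho z _ _ (Mer_val a) one_ne_zero, Mer_unit a, Mer_unit b, sub_self]
  · by_cases hu : u = 0
    · exact ⟨0, Or.inl (by rw [hu, map_zero])⟩
    obtain ⟨g, g', hg, hg', e⟩ := Mer_nf H ho z hu
    rw [h, zpow_zero, one_mul] at e
    refine ⟨g.1 (pk z) / g'.1 (pk z), ?_⟩
    set c := g.1 (pk z) / g'.1 (pk z) with hc
    have e2 : u - algebraMap K _ c = i (g - algebraMap K _ c * g') / i g' := by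
      have := H.ne (Mer_val hg')
      rw [e, H.alg, map_one, div_one, map_sub, map_mul]
      field_simp
    by_cases k : g - algebraMap K _ c * g' = 0
    · rw [k, map_zero, zero_div] at e2
      exact Or.inl (sub_eq_zero.1 e2)
    · refine Or.inr ?_
      rw [e2, ho z _ _ k (Mer_val hg'), Mer_unit hg']
      have a : ord₀ (pk z) (g - algebraMap K _ c * g') ≠ 0 := fun k' =>
        (ord₀_eq_zero k _).1 k' (by
          change g.1 (pk z) - c * g'.1 (pk z) = 0
          rw [hc, div_mul_cancel₀ _ hg', sub_self])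
      omega
  · have hu : u ≠ 0 := fun k => h (by rw [k, o0])
    obtain ⟨g, g', hg, hg', e⟩ := Mer_nf H ho z hu
    generalize ord z u = n at h e
    have hL : i (lin (z : K) : L1 K True) ≠ 0 := H.ne (lin_ne_zero _)
    have he : ((n : L1 K True) * Zf K True * g * g' +
        lin (z : K) * (D1 K True g * g' - g * D1 K True g')).1 (pk z) ≠ 0 := by
      change (n : K) * (z : K) * g.1 (pk z) * g'.1 (pk z) + ((z : K) - z) * _ ≠ 0
      rw [sub_self, zero_mul, add_zero]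
      exact mul_ne_zero (mul_ne_zero (mul_ne_zero (Int.cast_ne_zero.2 h) z.ne_zero) hg) hg'
    have hgg : (g' * g').1 (pk z) ≠ 0 := mul_ne_zero hg' hg'
    have e2 : D u = i (lin (z : K)) ^ (n - 1) * (i ((n : L1 K True) * Zf K True * g * g' +
        lin (z : K) * (D1 K True g * g' - g * D1 K True g')) / i (g' * g')) := by
      have := H.ne (Mer_val hg')
      rw [e, Derivation.leibniz, Derivation.leibniz_zpow, Mer_D H hD g (Mer_val hg'), hD, D1_lin,
        zpow_sub_one₀ hL]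
      simp only [smul_eq_mul, zsmul_eq_mul, map_add, map_mul, map_intCast]
      field_simp
      ring
    rw [e2]
    exact ⟨mul_ne_zero (zpow_ne_zero _ hL) (div_ne_zero (H.ne (Mer_val he))
      (H.ne (Mer_val hgg))), Mer_of_nf H ho z he hgg _⟩
  · by_cases hu : u = 0
    · exact Set.finite_empty.subset fun z hz => hz.2.2 (by rw [hu, o0])
    obtain ⟨p, q, hp, hq, rfl⟩ := Mer_rep' H hu
    refine ((fin₀ p w₁ w₂).union (fin₀ q w₁ w₂)).subset fun z hz => ?_
    obtain ⟨h1, h2, h3⟩ := hz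
    rw [ho z p q hp hq] at h3
    by_cases k : ord₀ (pk z) p = 0
    · exact Or.inr ⟨h1, h2, by omega⟩
    · exact Or.inl ⟨h1, h2, k⟩
  · obtain ⟨p, q, hp, hq, rfl⟩ := Mer_rep' H hu
    obtain ⟨n, h1⟩ := jensen₀ hp w₁
    obtain ⟨m, h2⟩ := jensen₀ hq w₁
    refine ⟨n - m, fun w₂ => ?_⟩
    have e : ∑ᶠ z, (ord z (i p / i q) : ℝ) * wt w₁ w₂ z =
        ∑ᶠ z, (ord₀ (pk z) p : ℝ) * wt w₁ w₂ z - ∑ᶠ z, (ord₀ (pk z) q : ℝ) * wt w₁ w₂ z := by
      rw [← finsum_sub_distrib (Mer_fin p w₁ w₂) (Mer_fin q w₁ w₂)]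
      refine finsum_congr fun z => ?_
      rw [ho z p q hp hq]
      push_cast
      ring
    rw [e, hn _ p q hq, hn _ p q hq, Real.log_div (Mer_gn_pos _ hp).ne' (Mer_gn_pos _ hq).ne',
      Real.log_div (Mer_gn_pos _ hp).ne' (Mer_gn_pos _ hq).ne', h1 w₂, h2 w₂]
    push_cast
    ring
  · obtain ⟨p, q, hq, rfl⟩ := H.rep u
    rw [Mer_D H hD p hq, H.alg] at h
    have k := Mer_cross H (mul_ne_zero hq hq) one_ne_zero h
    rw [mul_one, ← Algebra.smul_def] at k
    exact no_log hq k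

variable {K} in
omit [CharZero K] in
theorem Mer_frac (F : Type) [Field F] [Algebra K F] [Algebra (L1 K True) F]
    [IsScalarTower K (L1 K True) F] [IsFractionRing (L1 K True) F] :
    Mer_H (algebraMap (L1 K True) F) := by
  refine ⟨fun hq => (map_ne_zero_iff _ (IsFractionRing.injective _ _)).2 hq, fun u => ?_,
    fun c => ?_⟩
  · obtain ⟨p, q, hq, e⟩ := IsFractionRing.div_surjective (A := L1 K True) u
    exact ⟨p, q, nonZeroDivisors.ne_zero hq, e.symm⟩
  · rw [map_one, div_one]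
    exact IsScalarTower.algebraMap_apply _ _ _ _

theorem exists_nev : ∃ N : Nev K (FractionRing (L1 K True)),
    ∀ f : L1 K True, N.D (algebraMap _ _ f) = algebraMap _ _ (D1 K True f) := by
  obtain ⟨D, hD⟩ := frac_ext (F := FractionRing (L1 K True)) (D1 K True)
  exact Mer_main (Mer_frac _) hD

end Pool.Agent.Work.MP_e120ef_ag
end

-- merged part: Pool.Agent.Work.MP_e120ef_ag.Final
section
open CategoryTheory AlgebraicGeometry

namespace Pool.Agent.Work.MP_e120ef_ag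

theorem final (K : Type) [NontriviallyNormedField K] [IsUltrametricDist K] [CompleteSpace K]
    [IsAlgClosed K] [CharZero K] (X A : Sch K) [IsIntegral X.left] [IsProper X.hom] [Smooth X.hom]
    [GrpObj A] [IsProper A.hom] [GeometricallyIntegral A.hom] [IsIntegral A.left] (α : X ⟶ A)
    [IsDominant α.left] (g : ℕ) (t : Fin g → Fn A) (ht : IsTranscendenceBasis K t) (m : ℕ)
    (hκ : ∀ a : Fn A, AlgQ K (Pluri (O X) (fun i => pull α (t i)) m) (pull α a))
    (V : Type) [Fintype V] (free : V → Prop) (ι : Fn X →ₐ[K] FractionRing (An K free))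
    (h : Fn A) (a b : An K free) (hb : b ≠ 0)
    (hab : ι (pull α h) * algebraMap (An K free) _ b = algebraMap (An K free) _ a)
    (z z' : Pts K free) (hz : ∀ v, ¬ free v → z.1 v = z'.1 v) :
    a.1 z * b.1 z' = a.1 z' * b.1 z := by
  obtain ⟨N, hN⟩ := exists_nev K
  simp only [pull_eq] at hκ hab
  exact DD_cross hb hab (fun v hv => main_abs N (DD K free) DD_comm (fun _ => DD_const)
    (gen hv N.D hN) (dom_gp α) ht hκ ι h) hz

end Pool.Agent.Work.MP_e120ef_ag
end
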